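import Mathlib

/-! Arithmetic of the counting bound (MP_a3b474_co). -/

namespace Pool.Agent.R89.Coin

theorem six_lt (n : ℕ) (hn : 3 ≤ n) : 2 * (3 * n) + 1 < 3 ^ n := by
  induction n, hn using Nat.le_induction with
  | base => norm_num
  | succ n hn ih => rw [pow_succ]; omega

theorem strict_at (n : ℕ) (hn : 3 ≤ n) : 3 ^ (2 * n) * (2 * (3 * n) + 1) < 3 ^ (3 * n) := by
  have h : 3 ^ (3 * n) = 3 ^ (2 * n) * 3 ^ n := by
    rw [← pow_add]; congr 1; ring
  rw [h]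
  exact Nat.mul_lt_mul_of_pos_left (six_lt n hn) (by positivity)

theorem le_two_mul {n w : ℕ} (h : 3 ^ (2 * n) * (2 * w + 1) ≤ 3 ^ w) : 2 * n ≤ w := by
  by_contra hcon
  push Not at hcon
  have h2 : 3 ^ w < 3 ^ (2 * n) := Nat.pow_lt_pow_right (by norm_num) hcon
  have h3 : 3 ^ (2 * n) * 1 ≤ 3 ^ (2 * n) * (2 * w + 1) := Nat.mul_le_mul_left _ (by omega)
  omega

theorem shift_le {n d : ℕ} :
    3 ^ (2 * n) * (2 * (2 * n + d) + 1) ≤ 3 ^ (2 * n + d) ↔ 4 * n + 2 * d + 1 ≤ 3 ^ d := by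
  rw [pow_add]
  constructor
  · intro h
    have := Nat.le_of_mul_le_mul_left h (by positivity)
    omega
  · intro h
    exact Nat.mul_le_mul_left _ (by omega)

theorem shift_eq {n d : ℕ} :
    3 ^ (2 * n) * (2 * (2 * n + d) + 1) = 3 ^ (2 * n + d) ↔ 4 * n + 2 * d + 1 = 3 ^ d := by
  rw [pow_add]
  constructor
  · intro h
    have := Nat.eq_of_mul_eq_mul_left (by positivity) h
    omega
  · intro h
    rw [← h]
    ring

theorem pow_gap {e k : ℕ} (he : 1 ≤ e) (hk : 1 ≤ k) : 3 ^ e + 2 * k < 3 ^ (e + k) := by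
  induction k, hk using Nat.le_induction with
  | base =>
    have : 3 ^ 1 ≤ 3 ^ e := Nat.pow_le_pow_right (by norm_num) he
    rw [pow_succ]
    omega
  | succ k hk ih =>
    have h0 : 0 < 3 ^ e := by positivity
    rw [← add_assoc, pow_succ]
    omega

/-- The counting bound is attained exactly in the tight cases. -/
theorem tight_iff {n L : ℕ} (hn : 3 ≤ n)
    (hL : IsLeast {w : ℕ | 3 ^ (2 * n) * (2 * w + 1) ≤ 3 ^ w} L) :
    3 ^ (2 * n) * (2 * L + 1) = 3 ^ L ↔ ∃ d, 4 * n + 2 * d + 1 = 3 ^ d := by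
  have hmem : 3 ^ (2 * n) * (2 * L + 1) ≤ 3 ^ L := hL.1
  obtain ⟨e, rfl⟩ : ∃ e, L = 2 * n + e := ⟨L - 2 * n, by have := le_two_mul hmem; omega⟩
  constructor
  · intro h
    exact ⟨e, shift_eq.1 h⟩
  · rintro ⟨d, hd⟩
    rw [shift_eq]
    have h1 := shift_le.1 hmem
    have h2 : 2 * n + e ≤ 2 * n + d := hL.2 (shift_le.2 hd.le)
    rcases Nat.eq_or_lt_of_le (show e ≤ d by omega) with h | h
    · rw [h]; exact hd
    · exfalso
      have he : 1 ≤ e := by
        by_contra hcon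
        have : e = 0 := by omega
        subst this
        norm_num at h1
        omega
      have h3 := pow_gap he (show 1 ≤ d - e by omega)
      rw [show e + (d - e) = d by omega] at h3
      omega

theorem least_strict {n L W : ℕ} (hn : 3 ≤ n)
    (hL : IsLeast {w : ℕ | 3 ^ (2 * n) * (2 * w + 1) ≤ 3 ^ w} L)
    (hW : IsLeast {w : ℕ | 3 ^ (2 * n) * (2 * w + 1) < 3 ^ w} W) :
    (3 ^ (2 * n) * (2 * L + 1) = 3 ^ L → W = L + 1) ∧
    (3 ^ (2 * n) * (2 * L + 1) ≠ 3 ^ L → W = L) := by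
  have hmem : 3 ^ (2 * n) * (2 * L + 1) ≤ 3 ^ L := hL.1
  have hWmem : 3 ^ (2 * n) * (2 * W + 1) < 3 ^ W := hW.1
  have hLW : L ≤ W := hL.2 (show 3 ^ (2 * n) * (2 * W + 1) ≤ 3 ^ W from hWmem.le)
  constructor
  · intro h
    have h1 : W ≤ L + 1 := by
      apply hW.2
      show 3 ^ (2 * n) * (2 * (L + 1) + 1) < 3 ^ (L + 1)
      have h2 := le_two_mul hmem
      rw [pow_succ, ← h]
      have h3 : 3 ^ (2 * n) * (2 * (L + 1) + 1) < 3 ^ (2 * n) * ((2 * L + 1) * 3) :=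
        Nat.mul_lt_mul_of_pos_left (by omega) (by positivity)
      calc 3 ^ (2 * n) * (2 * (L + 1) + 1) < 3 ^ (2 * n) * ((2 * L + 1) * 3) := h3
        _ = 3 ^ (2 * n) * (2 * L + 1) * 3 := by ring
    rcases Nat.eq_or_lt_of_le hLW with h4 | h4
    · rw [← h4] at hWmem; omega
    · omega
  · intro h
    have h1 : W ≤ L := hW.2 (lt_of_le_of_ne hmem h)
    omega

end Pool.Agent.R89.Coin
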