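import Pool.Agent.R89.Coin.Tab5

/-! Generated table of solvable positions (MP_a3b474_co). -/

namespace Pool.Agent.R89.Coin

theorem t6_1_696_20 : S 6 1 696 20 :=
  S.caseA1 (w := 5) (a := 1) (x := 212) (y := 20) (z0 := 242) (z1 := 242) t5_1_212_20 (by decide) (by decide)

theorem t6_1_674_42 : S 6 1 674 42 :=
  S.caseA1 (w := 5) (a := 1) (x := 190) (y := 42) (z0 := 242) (z1 := 242) t5_1_190_42 (by decide) (by decide)

theorem t6_1_652_64 : S 6 1 652 64 :=
  S.caseA1 (w := 5) (a := 1) (x := 168) (y := 64) (z0 := 242) (z1 := 242) t5_1_168_64 (by decide) (by decide)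

theorem t6_1_632_84 : S 6 1 632 84 :=
  S.caseA1 (w := 5) (a := 1) (x := 148) (y := 84) (z0 := 242) (z1 := 242) t5_1_148_84 (by decide) (by decide)

theorem t6_1_610_106 : S 6 1 610 106 :=
  S.caseA1 (w := 5) (a := 1) (x := 126) (y := 106) (z0 := 242) (z1 := 242) t5_1_126_106 (by decide) (by decide)

theorem t6_1_590_126 : S 6 1 590 126 :=
  S.caseA1 (w := 5) (a := 1) (x := 106) (y := 126) (z0 := 242) (z1 := 242) (t5_1_126_106.n (by decide) (by decide)) (by decide) (by decide)

theorem t6_1_568_148 : S 6 1 568 148 :=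
  S.caseA1 (w := 5) (a := 1) (x := 84) (y := 148) (z0 := 242) (z1 := 242) (t5_1_148_84.n (by decide) (by decide)) (by decide) (by decide)

theorem t6_1_546_170 : S 6 1 546 170 :=
  S.caseA1 (w := 5) (a := 1) (x := 62) (y := 170) (z0 := 242) (z1 := 242) (t5_1_170_62.n (by decide) (by decide)) (by decide) (by decide)

theorem t6_1_526_190 : S 6 1 526 190 :=
  S.caseA1 (w := 5) (a := 1) (x := 42) (y := 190) (z0 := 242) (z1 := 242) (t5_1_190_42.n (by decide) (by decide)) (by decide) (by decide)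

theorem t6_1_504_212 : S 6 1 504 212 :=
  S.caseA1 (w := 5) (a := 1) (x := 20) (y := 212) (z0 := 242) (z1 := 242) (t5_1_212_20.n (by decide) (by decide)) (by decide) (by decide)

theorem t6_1_484_232 : S 6 1 484 232 :=
  S.caseA1 (w := 5) (a := 1) (x := 0) (y := 232) (z0 := 242) (z1 := 242) (t5_1_232_0.n (by decide) (by decide)) (by decide) (by decide)

theorem t6_1_462_254 : S 6 1 462 254 :=
  S.symm (S.caseA2 (w := 5) (a := 1) (x := 12) (y := 220) (z0 := 242) (z1 := 242) (t5_1_220_12.n (by decide) (by decide)) (by decide) (by decide))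

theorem t6_1_440_276 : S 6 1 440 276 :=
  S.symm (S.caseA2 (w := 5) (a := 1) (x := 34) (y := 198) (z0 := 242) (z1 := 242) (t5_1_198_34.n (by decide) (by decide)) (by decide) (by decide))

theorem t6_1_418_298 : S 6 1 418 298 :=
  S.symm (S.caseA2 (w := 5) (a := 1) (x := 56) (y := 176) (z0 := 242) (z1 := 242) (t5_1_176_56.n (by decide) (by decide)) (by decide) (by decide))

theorem t6_1_402_314 : S 6 1 402 314 :=
  S.symm (S.caseA2 (w := 5) (a := 1) (x := 72) (y := 160) (z0 := 242) (z1 := 242) (t5_1_160_72.n (by decide) (by decide)) (by decide) (by decide))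

theorem t6_1_382_334 : S 6 1 382 334 :=
  S.symm (S.caseA2 (w := 5) (a := 1) (x := 92) (y := 140) (z0 := 242) (z1 := 242) (t5_1_140_92.n (by decide) (by decide)) (by decide) (by decide))

theorem t6_1_360_356 : S 6 1 360 356 :=
  S.symm (S.caseA2 (w := 5) (a := 1) (x := 114) (y := 118) (z0 := 242) (z1 := 242) (t5_1_118_114.n (by decide) (by decide)) (by decide) (by decide))

theorem t6_2_683_18 : S 6 2 683 18 :=
  S.caseA1 (w := 5) (a := 2) (x := 201) (y := 18) (z0 := 241) (z1 := 241) t5_2_201_18 (by decide) (by decide)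

theorem t6_2_665_36 : S 6 2 665 36 :=
  S.caseA1 (w := 5) (a := 2) (x := 183) (y := 36) (z0 := 241) (z1 := 241) t5_2_183_36 (by decide) (by decide)

theorem t6_2_644_57 : S 6 2 644 57 :=
  S.caseA1 (w := 5) (a := 2) (x := 162) (y := 57) (z0 := 241) (z1 := 241) t5_2_162_57 (by decide) (by decide)

theorem t6_2_631_70 : S 6 2 631 70 :=
  S.caseA1 (w := 5) (a := 2) (x := 149) (y := 70) (z0 := 241) (z1 := 241) t5_2_149_70 (by decide) (by decide)

theorem t6_2_613_88 : S 6 2 613 88 :=
  S.caseA1 (w := 5) (a := 2) (x := 131) (y := 88) (z0 := 241) (z1 := 241) t5_2_131_88 (by decide) (by decide)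

theorem t6_2_593_108 : S 6 2 593 108 :=
  S.caseA1 (w := 5) (a := 2) (x := 111) (y := 108) (z0 := 241) (z1 := 241) t5_2_111_108 (by decide) (by decide)

theorem t6_2_579_122 : S 6 2 579 122 :=
  S.caseA1 (w := 5) (a := 2) (x := 97) (y := 122) (z0 := 241) (z1 := 241) (t5_2_122_97.n (by decide) (by decide)) (by decide) (by decide)

theorem t6_2_561_140 : S 6 2 561 140 :=
  S.caseA1 (w := 5) (a := 2) (x := 79) (y := 140) (z0 := 241) (z1 := 241) (t5_2_140_79.n (by decide) (by decide)) (by decide) (by decide)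

theorem t6_2_541_160 : S 6 2 541 160 :=
  S.caseA1 (w := 5) (a := 2) (x := 59) (y := 160) (z0 := 241) (z1 := 241) (t5_2_160_59.n (by decide) (by decide)) (by decide) (by decide)

theorem t6_2_525_176 : S 6 2 525 176 :=
  S.caseA1 (w := 5) (a := 2) (x := 43) (y := 176) (z0 := 241) (z1 := 241) (t5_2_176_43.n (by decide) (by decide)) (by decide) (by decide)

theorem t6_2_507_194 : S 6 2 507 194 :=
  S.caseA1 (w := 5) (a := 2) (x := 25) (y := 194) (z0 := 241) (z1 := 241) (t5_2_194_25.n (by decide) (by decide)) (by decide) (by decide)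

theorem t6_2_486_215 : S 6 2 486 215 :=
  S.caseA1 (w := 5) (a := 2) (x := 4) (y := 215) (z0 := 241) (z1 := 241) (t5_2_215_4.n (by decide) (by decide)) (by decide) (by decide)

theorem t6_2_471_230 : S 6 2 471 230 :=
  S.split (w := 5) (a0 := 0) (a1 := 1) (a2 := 1) (z0 := 241) (z1 := 230) (z2 := 230) (S.zero (by decide)) (t5_1_230_2.m (by decide) (by decide)) (t5_1_230_2.m (by decide) (by decide))

theorem t6_2_451_250 : S 6 2 451 250 :=
  S.symm (S.caseA2 (w := 5) (a := 2) (x := 9) (y := 210) (z0 := 241) (z1 := 241) (t5_2_210_9.n (by decide) (by decide)) (by decide) (by decide))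

theorem t6_2_431_270 : S 6 2 431 270 :=
  S.symm (S.caseA2 (w := 5) (a := 2) (x := 29) (y := 190) (z0 := 241) (z1 := 241) (t5_2_190_29.n (by decide) (by decide)) (by decide) (by decide))

theorem t6_2_417_284 : S 6 2 417 284 :=
  S.symm (S.caseA2 (w := 5) (a := 2) (x := 43) (y := 176) (z0 := 241) (z1 := 241) (t5_2_176_43.n (by decide) (by decide)) (by decide) (by decide))

theorem t6_2_401_300 : S 6 2 401 300 :=
  S.symm (S.caseA2 (w := 5) (a := 2) (x := 59) (y := 160) (z0 := 241) (z1 := 241) (t5_2_160_59.n (by decide) (by decide)) (by decide) (by decide))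

theorem t6_2_381_320 : S 6 2 381 320 :=
  S.symm (S.caseA2 (w := 5) (a := 2) (x := 79) (y := 140) (z0 := 241) (z1 := 241) (t5_2_140_79.n (by decide) (by decide)) (by decide) (by decide))

theorem t6_2_363_338 : S 6 2 363 338 :=
  S.symm (S.caseA2 (w := 5) (a := 2) (x := 97) (y := 122) (z0 := 241) (z1 := 241) (t5_2_122_97.n (by decide) (by decide)) (by decide) (by decide))

theorem t6_2_356_345 : S 6 2 356 345 :=
  S.caseA2 (w := 5) (a := 2) (x := 115) (y := 104) (z0 := 241) (z1 := 241) t5_2_115_104 (by decide) (by decide)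

theorem t6_3_672_18 : S 6 3 672 18 :=
  S.caseA1 (w := 5) (a := 3) (x := 192) (y := 18) (z0 := 240) (z1 := 240) t5_3_192_18 (by decide) (by decide)

theorem t6_3_654_36 : S 6 3 654 36 :=
  S.caseA1 (w := 5) (a := 3) (x := 174) (y := 36) (z0 := 240) (z1 := 240) t5_3_174_36 (by decide) (by decide)

theorem t6_3_638_52 : S 6 3 638 52 :=
  S.caseA1 (w := 5) (a := 3) (x := 158) (y := 52) (z0 := 240) (z1 := 240) t5_3_158_52 (by decide) (by decide)

theorem t6_3_620_70 : S 6 3 620 70 :=
  S.caseA1 (w := 5) (a := 3) (x := 140) (y := 70) (z0 := 240) (z1 := 240) t5_3_140_70 (by decide) (by decide)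

theorem t6_3_600_87 : S 6 3 600 87 :=
  S.caseA1 (w := 5) (a := 3) (x := 120) (y := 87) (z0 := 240) (z1 := 240) t5_3_120_87 (by decide) (by decide)

theorem t6_3_584_106 : S 6 3 584 106 :=
  S.caseA1 (w := 5) (a := 3) (x := 104) (y := 106) (z0 := 240) (z1 := 240) (t5_3_106_104.n (by decide) (by decide)) (by decide) (by decide)

theorem t6_3_560_130 : S 6 3 560 130 :=
  S.caseA1 (w := 5) (a := 3) (x := 80) (y := 130) (z0 := 240) (z1 := 240) (t5_3_130_80.n (by decide) (by decide)) (by decide) (by decide)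

theorem t6_3_539_148 : S 6 3 539 148 :=
  S.caseA1 (w := 5) (a := 3) (x := 59) (y := 148) (z0 := 240) (z1 := 240) (t5_3_148_59.n (by decide) (by decide)) (by decide) (by decide)

theorem t6_3_522_165 : S 6 3 522 165 :=
  S.caseA1 (w := 5) (a := 3) (x := 42) (y := 165) (z0 := 240) (z1 := 240) (t5_3_165_42.n (by decide) (by decide)) (by decide) (by decide)

theorem t6_3_506_184 : S 6 3 506 184 :=
  S.caseA1 (w := 5) (a := 3) (x := 26) (y := 184) (z0 := 240) (z1 := 240) (t5_3_184_26.n (by decide) (by decide)) (by decide) (by decide)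

theorem t6_3_482_208 : S 6 3 482 208 :=
  S.caseA1 (w := 5) (a := 3) (x := 2) (y := 208) (z0 := 240) (z1 := 240) (t5_3_208_2.n (by decide) (by decide)) (by decide) (by decide)

theorem t6_3_460_230 : S 6 3 460 230 :=
  S.split (w := 5) (a0 := 1) (a1 := 1) (a2 := 1) (z0 := 230) (z1 := 230) (z2 := 230) t5_1_230_2 t5_1_230_2 t5_1_230_2

theorem t6_3_438_249 : S 6 3 438 249 :=
  S.symm (S.caseA2 (w := 5) (a := 3) (x := 9) (y := 198) (z0 := 240) (z1 := 240) (t5_3_198_9.n (by decide) (by decide)) (by decide) (by decide))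

theorem t6_3_422_268 : S 6 3 422 268 :=
  S.symm (S.caseA2 (w := 5) (a := 3) (x := 28) (y := 182) (z0 := 240) (z1 := 240) (t5_3_182_28.n (by decide) (by decide)) (by decide) (by decide))

theorem t6_3_398_292 : S 6 3 398 292 :=
  S.symm (S.caseA2 (w := 5) (a := 3) (x := 52) (y := 158) (z0 := 240) (z1 := 240) (t5_3_158_52.n (by decide) (by decide)) (by decide) (by decide))

theorem t6_3_380_310 : S 6 3 380 310 :=
  S.symm (S.caseA2 (w := 5) (a := 3) (x := 70) (y := 140) (z0 := 240) (z1 := 240) (t5_3_140_70.n (by decide) (by decide)) (by decide) (by decide))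

theorem t6_3_360_327 : S 6 3 360 327 :=
  S.symm (S.caseA2 (w := 5) (a := 3) (x := 87) (y := 120) (z0 := 240) (z1 := 240) (t5_3_120_87.n (by decide) (by decide)) (by decide) (by decide))

theorem t6_3_346_344 : S 6 3 346 344 :=
  S.caseA2 (w := 5) (a := 3) (x := 106) (y := 104) (z0 := 240) (z1 := 240) t5_3_106_104 (by decide) (by decide)

theorem t6_4_655_20 : S 6 4 655 20 :=
  S.caseA1 (w := 5) (a := 4) (x := 177) (y := 20) (z0 := 239) (z1 := 239) t5_4_177_20 (by decide) (by decide)

theorem t6_4_636_39 : S 6 4 636 39 :=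
  S.caseA1 (w := 5) (a := 4) (x := 158) (y := 39) (z0 := 239) (z1 := 239) t5_4_158_39 (by decide) (by decide)

theorem t6_4_614_59 : S 6 4 614 59 :=
  S.caseA1 (w := 5) (a := 4) (x := 136) (y := 59) (z0 := 239) (z1 := 239) t5_4_136_59 (by decide) (by decide)

theorem t6_4_594_81 : S 6 4 594 81 :=
  S.caseA1 (w := 5) (a := 4) (x := 116) (y := 81) (z0 := 239) (z1 := 239) t5_4_116_81 (by decide) (by decide)

theorem t6_4_571_104 : S 6 4 571 104 :=
  S.caseA1 (w := 5) (a := 4) (x := 93) (y := 104) (z0 := 239) (z1 := 239) (t5_4_104_93.n (by decide) (by decide)) (by decide) (by decide)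

theorem t6_4_555_120 : S 6 4 555 120 :=
  S.caseA1 (w := 5) (a := 4) (x := 77) (y := 120) (z0 := 239) (z1 := 239) (t5_4_120_77.n (by decide) (by decide)) (by decide) (by decide)

theorem t6_4_537_136 : S 6 4 537 136 :=
  S.caseA1 (w := 5) (a := 4) (x := 59) (y := 136) (z0 := 239) (z1 := 239) (t5_4_136_59.n (by decide) (by decide)) (by decide) (by decide)

theorem t6_4_517_158 : S 6 4 517 158 :=
  S.caseA1 (w := 5) (a := 4) (x := 39) (y := 158) (z0 := 239) (z1 := 239) (t5_4_158_39.n (by decide) (by decide)) (by decide) (by decide)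

theorem t6_4_494_181 : S 6 4 494 181 :=
  S.caseA1 (w := 5) (a := 4) (x := 16) (y := 181) (z0 := 239) (z1 := 239) (t5_4_181_16.n (by decide) (by decide)) (by decide) (by decide)

theorem t6_4_482_193 : S 6 4 482 193 :=
  S.caseA1 (w := 5) (a := 4) (x := 4) (y := 193) (z0 := 239) (z1 := 239) (t5_4_193_4.n (by decide) (by decide)) (by decide) (by decide)

theorem t6_4_467_208 : S 6 4 467 208 :=
  S.split (w := 5) (a0 := 0) (a1 := 1) (a2 := 3) (z0 := 239) (z1 := 228) (z2 := 208) (S.zero (by decide)) (t5_1_228_4.m (by decide) (by decide)) (t5_3_208_2.m (by decide) (by decide))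

theorem t6_4_447_228 : S 6 4 447 228 :=
  S.split (w := 5) (a0 := 0) (a1 := 3) (a2 := 1) (z0 := 239) (z1 := 208) (z2 := 228) (S.zero (by decide)) (t5_3_208_2.m (by decide) (by decide)) (t5_1_228_4.m (by decide) (by decide))

theorem t6_4_425_248 : S 6 4 425 248 :=
  S.symm (S.caseA2 (w := 5) (a := 4) (x := 9) (y := 186) (z0 := 239) (z1 := 239) (t5_4_186_9.n (by decide) (by decide)) (by decide) (by decide))

theorem t6_4_409_266 : S 6 4 409 266 :=
  S.symm (S.caseA2 (w := 5) (a := 4) (x := 27) (y := 170) (z0 := 239) (z1 := 239) (t5_4_170_27.n (by decide) (by decide)) (by decide) (by decide))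

theorem t6_4_397_278 : S 6 4 397 278 :=
  S.symm (S.caseA2 (w := 5) (a := 4) (x := 39) (y := 158) (z0 := 239) (z1 := 239) (t5_4_158_39.n (by decide) (by decide)) (by decide) (by decide))

theorem t6_4_375_298 : S 6 4 375 298 :=
  S.symm (S.caseA2 (w := 5) (a := 4) (x := 59) (y := 136) (z0 := 239) (z1 := 239) (t5_4_136_59.n (by decide) (by decide)) (by decide) (by decide))

theorem t6_4_355_320 : S 6 4 355 320 :=
  S.symm (S.caseA2 (w := 5) (a := 4) (x := 81) (y := 116) (z0 := 239) (z1 := 239) (t5_4_116_81.n (by decide) (by decide)) (by decide) (by decide))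

theorem t6_4_343_332 : S 6 4 343 332 :=
  S.caseA2 (w := 5) (a := 4) (x := 104) (y := 93) (z0 := 239) (z1 := 239) t5_4_104_93 (by decide) (by decide)

theorem t6_5_639_22 : S 6 5 639 22 :=
  S.caseA1 (w := 5) (a := 5) (x := 163) (y := 22) (z0 := 238) (z1 := 238) t5_5_163_22 (by decide) (by decide)

theorem t6_5_620_39 : S 6 5 620 39 :=
  S.caseA1 (w := 5) (a := 5) (x := 144) (y := 39) (z0 := 238) (z1 := 238) t5_5_144_39 (by decide) (by decide)

theorem t6_5_604_57 : S 6 5 604 57 :=
  S.caseA1 (w := 5) (a := 5) (x := 128) (y := 57) (z0 := 238) (z1 := 238) t5_5_128_57 (by decide) (by decide)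

theorem t6_5_584_80 : S 6 5 584 80 :=
  S.caseA1 (w := 5) (a := 5) (x := 108) (y := 80) (z0 := 238) (z1 := 238) t5_5_108_80 (by decide) (by decide)

theorem t6_5_559_102 : S 6 5 559 102 :=
  S.caseA1 (w := 5) (a := 5) (x := 83) (y := 102) (z0 := 238) (z1 := 238) (t5_5_102_83.n (by decide) (by decide)) (by decide) (by decide)

theorem t6_5_544_120 : S 6 5 544 120 :=
  S.caseA1 (w := 5) (a := 5) (x := 68) (y := 120) (z0 := 238) (z1 := 238) (t5_5_120_68.n (by decide) (by decide)) (by decide) (by decide)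

theorem t6_5_528_136 : S 6 5 528 136 :=
  S.caseA1 (w := 5) (a := 5) (x := 52) (y := 136) (z0 := 238) (z1 := 238) (t5_5_136_52.n (by decide) (by decide)) (by decide) (by decide)

theorem t6_5_502_159 : S 6 5 502 159 :=
  S.caseA1 (w := 5) (a := 5) (x := 26) (y := 159) (z0 := 238) (z1 := 238) (t5_5_159_26.n (by decide) (by decide)) (by decide) (by decide)

theorem t6_5_480_184 : S 6 5 480 184 :=
  S.caseA1 (w := 5) (a := 5) (x := 4) (y := 184) (z0 := 238) (z1 := 238) (t5_5_184_4.n (by decide) (by decide)) (by decide) (by decide)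

theorem t6_5_456_208 : S 6 5 456 208 :=
  S.split (w := 5) (a0 := 1) (a1 := 1) (a2 := 3) (z0 := 228) (z1 := 228) (z2 := 208) t5_1_228_4 t5_1_228_4 t5_3_208_2

theorem t6_5_436_228 : S 6 5 436 228 :=
  S.split (w := 5) (a0 := 1) (a1 := 3) (a2 := 1) (z0 := 228) (z1 := 208) (z2 := 228) t5_1_228_4 t5_3_208_2 t5_1_228_4

theorem t6_5_410_254 : S 6 5 410 254 :=
  S.symm (S.caseA2 (w := 5) (a := 5) (x := 16) (y := 172) (z0 := 238) (z1 := 238) (t5_5_172_16.n (by decide) (by decide)) (by decide) (by decide))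

theorem t6_5_394_270 : S 6 5 394 270 :=
  S.symm (S.caseA2 (w := 5) (a := 5) (x := 32) (y := 156) (z0 := 238) (z1 := 238) (t5_5_156_32.n (by decide) (by decide)) (by decide) (by decide))

theorem t6_5_374_290 : S 6 5 374 290 :=
  S.symm (S.caseA2 (w := 5) (a := 5) (x := 52) (y := 136) (z0 := 238) (z1 := 238) (t5_5_136_52.n (by decide) (by decide)) (by decide) (by decide))

theorem t6_5_358_306 : S 6 5 358 306 :=
  S.symm (S.caseA2 (w := 5) (a := 5) (x := 68) (y := 120) (z0 := 238) (z1 := 238) (t5_5_120_68.n (by decide) (by decide)) (by decide) (by decide))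

theorem t6_5_334_330 : S 6 5 334 330 :=
  S.symm (S.caseA2 (w := 5) (a := 5) (x := 92) (y := 96) (z0 := 238) (z1 := 238) (t5_5_96_92.n (by decide) (by decide)) (by decide) (by decide))

theorem t6_6_626_23 : S 6 6 626 23 :=
  S.caseA1 (w := 5) (a := 6) (x := 152) (y := 23) (z0 := 237) (z1 := 237) t5_6_152_23 (by decide) (by decide)

theorem t6_6_606_39 : S 6 6 606 39 :=
  S.caseA1 (w := 5) (a := 6) (x := 132) (y := 39) (z0 := 237) (z1 := 237) t5_6_132_39 (by decide) (by decide)

theorem t6_6_588_57 : S 6 6 588 57 :=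
  S.caseA1 (w := 5) (a := 6) (x := 114) (y := 57) (z0 := 237) (z1 := 237) t5_6_114_57 (by decide) (by decide)

theorem t6_6_570_79 : S 6 6 570 79 :=
  S.caseA1 (w := 5) (a := 6) (x := 96) (y := 79) (z0 := 237) (z1 := 237) t5_6_96_79 (by decide) (by decide)

theorem t6_6_549_100 : S 6 6 549 100 :=
  S.caseA1 (w := 5) (a := 6) (x := 75) (y := 100) (z0 := 237) (z1 := 237) (t5_6_100_75.n (by decide) (by decide)) (by decide) (by decide)

theorem t6_6_524_125 : S 6 6 524 125 :=
  S.caseA1 (w := 5) (a := 6) (x := 50) (y := 125) (z0 := 237) (z1 := 237) (t5_6_125_50.n (by decide) (by decide)) (by decide) (by decide)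

theorem t6_6_506_139 : S 6 6 506 139 :=
  S.caseA1 (w := 5) (a := 6) (x := 32) (y := 139) (z0 := 237) (z1 := 237) (t5_6_139_32.n (by decide) (by decide)) (by decide) (by decide)

theorem t6_6_486_159 : S 6 6 486 159 :=
  S.caseA1 (w := 5) (a := 6) (x := 12) (y := 159) (z0 := 237) (z1 := 237) (t5_6_159_12.n (by decide) (by decide)) (by decide) (by decide)

theorem t6_6_476_173 : S 6 6 476 173 :=
  S.caseA1 (w := 5) (a := 6) (x := 2) (y := 173) (z0 := 237) (z1 := 237) (t5_6_173_2.n (by decide) (by decide)) (by decide) (by decide)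

theorem t6_6_452_193 : S 6 6 452 193 :=
  S.split (w := 5) (a0 := 0) (a1 := 2) (a2 := 4) (z0 := 237) (z1 := 215) (z2 := 193) (S.zero (by decide)) t5_2_215_4 (t5_4_193_4.m (by decide) (by decide))

theorem t6_6_443_206 : S 6 6 443 206 :=
  S.split (w := 5) (a0 := 0) (a1 := 3) (a2 := 3) (z0 := 237) (z1 := 206) (z2 := 206) (S.zero (by decide)) (t5_3_206_4.m (by decide) (by decide)) (t5_3_206_4.m (by decide) (by decide))

theorem t6_6_421_224 : S 6 6 421 224 :=
  S.split (w := 5) (a0 := 0) (a1 := 5) (a2 := 1) (z0 := 237) (z1 := 184) (z2 := 224) (S.zero (by decide)) (t5_5_184_4.m (by decide) (by decide)) (t5_1_224_8.m (by decide) (by decide))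

theorem t6_6_401_244 : S 6 6 401 244 :=
  S.symm (S.caseA2 (w := 5) (a := 6) (x := 7) (y := 164) (z0 := 237) (z1 := 237) (t5_6_164_7.n (by decide) (by decide)) (by decide) (by decide))

theorem t6_6_389_260 : S 6 6 389 260 :=
  S.symm (S.caseA2 (w := 5) (a := 6) (x := 23) (y := 152) (z0 := 237) (z1 := 237) (t5_6_152_23.n (by decide) (by decide)) (by decide) (by decide))

theorem t6_6_369_276 : S 6 6 369 276 :=
  S.symm (S.caseA2 (w := 5) (a := 6) (x := 39) (y := 132) (z0 := 237) (z1 := 237) (t5_6_132_39.n (by decide) (by decide)) (by decide) (by decide))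

theorem t6_6_351_294 : S 6 6 351 294 :=
  S.symm (S.caseA2 (w := 5) (a := 6) (x := 57) (y := 114) (z0 := 237) (z1 := 237) (t5_6_114_57.n (by decide) (by decide)) (by decide) (by decide))

theorem t6_6_333_316 : S 6 6 333 316 :=
  S.symm (S.caseA2 (w := 5) (a := 6) (x := 79) (y := 96) (z0 := 237) (z1 := 237) (t5_6_96_79.n (by decide) (by decide)) (by decide) (by decide))

theorem t6_7_622_14 : S 6 7 622 14 :=
  S.caseA1 (w := 5) (a := 7) (x := 150) (y := 14) (z0 := 236) (z1 := 236) t5_7_150_14 (by decide) (by decide)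

theorem t6_7_596_39 : S 6 7 596 39 :=
  S.caseA1 (w := 5) (a := 7) (x := 124) (y := 39) (z0 := 236) (z1 := 236) t5_7_124_39 (by decide) (by decide)

theorem t6_7_572_64 : S 6 7 572 64 :=
  S.caseA1 (w := 5) (a := 7) (x := 100) (y := 64) (z0 := 236) (z1 := 236) t5_7_100_64 (by decide) (by decide)

theorem t6_7_546_89 : S 6 7 546 89 :=
  S.caseA1 (w := 5) (a := 7) (x := 74) (y := 89) (z0 := 236) (z1 := 236) (t5_7_89_74.n (by decide) (by decide)) (by decide) (by decide)

theorem t6_7_522_114 : S 6 7 522 114 :=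
  S.caseA1 (w := 5) (a := 7) (x := 50) (y := 114) (z0 := 236) (z1 := 236) (t5_7_114_50.n (by decide) (by decide)) (by decide) (by decide)

theorem t6_7_504_128 : S 6 7 504 128 :=
  S.caseA1 (w := 5) (a := 7) (x := 32) (y := 128) (z0 := 236) (z1 := 236) (t5_7_128_32.n (by decide) (by decide)) (by decide) (by decide)

theorem t6_7_484_152 : S 6 7 484 152 :=
  S.caseA1 (w := 5) (a := 7) (x := 12) (y := 152) (z0 := 236) (z1 := 236) (t5_7_152_12.n (by decide) (by decide)) (by decide) (by decide)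

theorem t6_7_460_173 : S 6 7 460 173 :=
  S.split (w := 5) (a0 := 0) (a1 := 1) (a2 := 6) (z0 := 236) (z1 := 224) (z2 := 173) (S.zero (by decide)) (t5_1_224_8.m (by decide) (by decide)) (t5_6_173_2.m (by decide) (by decide))

theorem t6_7_442_193 : S 6 7 442 193 :=
  S.split (w := 5) (a0 := 0) (a1 := 3) (a2 := 4) (z0 := 236) (z1 := 206) (z2 := 193) (S.zero (by decide)) t5_3_206_4 (t5_4_193_4.m (by decide) (by decide))

theorem t6_7_420_212 : S 6 7 420 212 :=
  S.split (w := 5) (a0 := 0) (a1 := 5) (a2 := 2) (z0 := 236) (z1 := 184) (z2 := 212) (S.zero (by decide)) (t5_5_184_4.m (by decide) (by decide)) (t5_2_212_7.m (by decide) (by decide))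

theorem t6_7_398_238 : S 6 7 398 238 :=
  S.symm (S.caseA2 (w := 5) (a := 7) (x := 2) (y := 162) (z0 := 236) (z1 := 236) (t5_7_162_2.n (by decide) (by decide)) (by decide) (by decide))

theorem t6_7_374_259 : S 6 7 374 259 :=
  S.symm (S.caseA2 (w := 5) (a := 7) (x := 23) (y := 138) (z0 := 236) (z1 := 236) (t5_7_138_23.n (by decide) (by decide)) (by decide) (by decide))

theorem t6_7_360_275 : S 6 7 360 275 :=
  S.symm (S.caseA2 (w := 5) (a := 7) (x := 39) (y := 124) (z0 := 236) (z1 := 236) (t5_7_124_39.n (by decide) (by decide)) (by decide) (by decide))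

theorem t6_7_336_300 : S 6 7 336 300 :=
  S.symm (S.caseA2 (w := 5) (a := 7) (x := 64) (y := 100) (z0 := 236) (z1 := 236) (t5_7_100_64.n (by decide) (by decide)) (by decide) (by decide))

theorem t6_7_325_310 : S 6 7 325 310 :=
  S.caseA2 (w := 5) (a := 7) (x := 89) (y := 74) (z0 := 236) (z1 := 236) t5_7_89_74 (by decide) (by decide)

theorem t6_8_598_23 : S 6 8 598 23 :=
  S.caseA1 (w := 5) (a := 8) (x := 128) (y := 23) (z0 := 235) (z1 := 235) t5_8_128_23 (by decide) (by decide)

theorem t6_8_575_42 : S 6 8 575 42 :=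
  S.caseA1 (w := 5) (a := 8) (x := 105) (y := 42) (z0 := 235) (z1 := 235) t5_8_105_42 (by decide) (by decide)

theorem t6_8_557_64 : S 6 8 557 64 :=
  S.caseA1 (w := 5) (a := 8) (x := 87) (y := 64) (z0 := 235) (z1 := 235) t5_8_87_64 (by decide) (by decide)

theorem t6_8_534_87 : S 6 8 534 87 :=
  S.caseA1 (w := 5) (a := 8) (x := 64) (y := 87) (z0 := 235) (z1 := 235) (t5_8_87_64.n (by decide) (by decide)) (by decide) (by decide)

theorem t6_8_509_112 : S 6 8 509 112 :=
  S.caseA1 (w := 5) (a := 8) (x := 39) (y := 112) (z0 := 235) (z1 := 235) (t5_8_112_39.n (by decide) (by decide)) (by decide) (by decide)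

theorem t6_8_484_137 : S 6 8 484 137 :=
  S.caseA1 (w := 5) (a := 8) (x := 14) (y := 137) (z0 := 235) (z1 := 235) (t5_8_137_14.n (by decide) (by decide)) (by decide) (by decide)

theorem t6_8_459_162 : S 6 8 459 162 :=
  S.split (w := 5) (a0 := 0) (a1 := 1) (a2 := 7) (z0 := 235) (z1 := 224) (z2 := 162) (S.zero (by decide)) (t5_1_224_8.m (by decide) (by decide)) (t5_7_162_2.m (by decide) (by decide))

theorem t6_8_436_184 : S 6 8 436 184 :=
  S.split (w := 5) (a0 := 1) (a1 := 2) (a2 := 5) (z0 := 224) (z1 := 212) (z2 := 184) (t5_1_224_8.m (by decide) (by decide)) (t5_2_212_7.m (by decide) (by decide)) (t5_5_184_4.m (by decide) (by decide))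

theorem t6_8_419_198 : S 6 8 419 198 :=
  S.split (w := 5) (a0 := 0) (a1 := 5) (a2 := 3) (z0 := 235) (z1 := 184) (z2 := 198) (S.zero (by decide)) (t5_5_184_4.m (by decide) (by decide)) (t5_3_198_9.m (by decide) (by decide))

theorem t6_8_408_212 : S 6 8 408 212 :=
  S.split (w := 5) (a0 := 0) (a1 := 6) (a2 := 2) (z0 := 235) (z1 := 173) (z2 := 212) (S.zero (by decide)) t5_6_173_2 (t5_2_212_7.m (by decide) (by decide))

theorem t6_8_386_235 : S 6 8 386 235 :=
  S.split (w := 5) (a0 := 1) (a1 := 7) (a2 := 0) (z0 := 224) (z1 := 162) (z2 := 235) (t5_1_224_8.m (by decide) (by decide)) (t5_7_162_2.m (by decide) (by decide)) (S.zero (by decide))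

theorem t6_8_363_258 : S 6 8 363 258 :=
  S.symm (S.caseA2 (w := 5) (a := 8) (x := 23) (y := 128) (z0 := 235) (z1 := 235) (t5_8_128_23.n (by decide) (by decide)) (by decide) (by decide))

theorem t6_8_340_277 : S 6 8 340 277 :=
  S.symm (S.caseA2 (w := 5) (a := 8) (x := 42) (y := 105) (z0 := 235) (z1 := 235) (t5_8_105_42.n (by decide) (by decide)) (by decide) (by decide))

theorem t6_8_322_299 : S 6 8 322 299 :=
  S.symm (S.caseA2 (w := 5) (a := 8) (x := 64) (y := 87) (z0 := 235) (z1 := 235) (t5_8_87_64.n (by decide) (by decide)) (by decide) (by decide))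

theorem t6_9_586_21 : S 6 9 586 21 :=
  S.caseA1 (w := 5) (a := 9) (x := 118) (y := 21) (z0 := 234) (z1 := 234) t5_9_118_21 (by decide) (by decide)

theorem t6_9_564_42 : S 6 9 564 42 :=
  S.caseA1 (w := 5) (a := 9) (x := 96) (y := 42) (z0 := 234) (z1 := 234) t5_9_96_42 (by decide) (by decide)

theorem t6_9_540_68 : S 6 9 540 68 :=
  S.caseA1 (w := 5) (a := 9) (x := 72) (y := 68) (z0 := 234) (z1 := 234) t5_9_72_68 (by decide) (by decide)

theorem t6_9_522_86 : S 6 9 522 86 :=
  S.caseA1 (w := 5) (a := 9) (x := 54) (y := 86) (z0 := 234) (z1 := 234) (t5_9_86_54.n (by decide) (by decide)) (by decide) (by decide)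

theorem t6_9_500_108 : S 6 9 500 108 :=
  S.caseA1 (w := 5) (a := 9) (x := 32) (y := 108) (z0 := 234) (z1 := 234) (t5_9_108_32.n (by decide) (by decide)) (by decide) (by decide)

theorem t6_9_482_128 : S 6 9 482 128 :=
  S.caseA1 (w := 5) (a := 9) (x := 14) (y := 128) (z0 := 234) (z1 := 234) (t5_9_128_14.n (by decide) (by decide)) (by decide) (by decide)

theorem t6_9_458_137 : S 6 9 458 137 :=
  S.split (w := 5) (a0 := 0) (a1 := 1) (a2 := 8) (z0 := 234) (z1 := 224) (z2 := 137) (S.zero (by decide)) t5_1_224_8 (t5_8_137_14.m (by decide) (by decide))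

theorem t6_9_448_162 : S 6 9 448 162 :=
  S.split (w := 5) (a0 := 1) (a1 := 1) (a2 := 7) (z0 := 224) (z1 := 224) (z2 := 162) t5_1_224_8 t5_1_224_8 t5_7_162_2

theorem t6_9_424_184 : S 6 9 424 184 :=
  S.split (w := 5) (a0 := 2) (a1 := 2) (a2 := 5) (z0 := 212) (z1 := 212) (z2 := 184) t5_2_212_7 t5_2_212_7 t5_5_184_4

theorem t6_9_408_198 : S 6 9 408 198 :=
  S.split (w := 5) (a0 := 1) (a1 := 5) (a2 := 3) (z0 := 224) (z1 := 184) (z2 := 198) t5_1_224_8 t5_5_184_4 (t5_3_198_9.m (by decide) (by decide))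

theorem t6_9_386_224 : S 6 9 386 224 :=
  S.split (w := 5) (a0 := 1) (a1 := 7) (a2 := 1) (z0 := 224) (z1 := 162) (z2 := 224) t5_1_224_8 t5_7_162_2 t5_1_224_8

theorem t6_9_362_248 : S 6 9 362 248 :=
  S.symm (S.caseA2 (w := 5) (a := 9) (x := 14) (y := 128) (z0 := 234) (z1 := 234) (t5_9_128_14.n (by decide) (by decide)) (by decide) (by decide))

theorem t6_9_342_266 : S 6 9 342 266 :=
  S.symm (S.caseA2 (w := 5) (a := 9) (x := 32) (y := 108) (z0 := 234) (z1 := 234) (t5_9_108_32.n (by decide) (by decide)) (by decide) (by decide))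

theorem t6_9_320_288 : S 6 9 320 288 :=
  S.symm (S.caseA2 (w := 5) (a := 9) (x := 54) (y := 86) (z0 := 234) (z1 := 234) (t5_9_86_54.n (by decide) (by decide)) (by decide) (by decide))

theorem t6_9_312_298 : S 6 9 312 298 :=
  S.caseA2 (w := 5) (a := 9) (x := 78) (y := 64) (z0 := 234) (z1 := 234) t5_9_78_64 (by decide) (by decide)

theorem t6_10_570_21 : S 6 10 570 21 :=
  S.caseA1 (w := 5) (a := 10) (x := 104) (y := 21) (z0 := 233) (z1 := 233) t5_10_104_21 (by decide) (by decide)

theorem t6_10_549_42 : S 6 10 549 42 :=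
  S.caseA1 (w := 5) (a := 10) (x := 83) (y := 42) (z0 := 233) (z1 := 233) t5_10_83_42 (by decide) (by decide)

theorem t6_10_528_64 : S 6 10 528 64 :=
  S.caseA1 (w := 5) (a := 10) (x := 62) (y := 64) (z0 := 233) (z1 := 233) (t5_10_64_62.n (by decide) (by decide)) (by decide) (by decide)

theorem t6_10_508_83 : S 6 10 508 83 :=
  S.caseA1 (w := 5) (a := 10) (x := 42) (y := 83) (z0 := 233) (z1 := 233) (t5_10_83_42.n (by decide) (by decide)) (by decide) (by decide)

theorem t6_10_487_104 : S 6 10 487 104 :=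
  S.caseA1 (w := 5) (a := 10) (x := 21) (y := 104) (z0 := 233) (z1 := 233) (t5_10_104_21.n (by decide) (by decide)) (by decide) (by decide)

theorem t6_10_478_114 : S 6 10 478 114 :=
  S.caseA1 (w := 5) (a := 10) (x := 12) (y := 114) (z0 := 233) (z1 := 233) (t5_10_114_12.n (by decide) (by decide)) (by decide) (by decide)

theorem t6_10_455_128 : S 6 10 455 128 :=
  S.split (w := 5) (a0 := 0) (a1 := 1) (a2 := 9) (z0 := 233) (z1 := 222) (z2 := 128) (S.zero (by decide)) (t5_1_222_10.m (by decide) (by decide)) (t5_9_128_14.m (by decide) (by decide))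

theorem t6_10_444_137 : S 6 10 444 137 :=
  S.split (w := 5) (a0 := 1) (a1 := 1) (a2 := 8) (z0 := 222) (z1 := 222) (z2 := 137) (t5_1_222_10.m (by decide) (by decide)) (t5_1_222_10.m (by decide) (by decide)) (t5_8_137_14.m (by decide) (by decide))

theorem t6_10_432_160 : S 6 10 432 160 :=
  S.split (w := 5) (a0 := 1) (a1 := 2) (a2 := 7) (z0 := 222) (z1 := 210) (z2 := 160) (t5_1_222_10.m (by decide) (by decide)) (t5_2_210_9.m (by decide) (by decide)) (t5_7_160_4.m (by decide) (by decide))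

theorem t6_10_411_178 : S 6 10 411 178 :=
  S.split (w := 5) (a0 := 0) (a1 := 5) (a2 := 5) (z0 := 233) (z1 := 178) (z2 := 178) (S.zero (by decide)) (t5_5_178_7.m (by decide) (by decide)) (t5_5_178_7.m (by decide) (by decide))

end Pool.Agent.R89.Coin
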