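import Pool.Agent.R89.Coin.Tab5

/-! Generated table of solvable positions (MP_a3b474_co). -/

namespace Pool.Agent.R89.Coin

theorem t6_10_393_198 : S 6 10 393 198 :=
  S.split (w := 5) (a0 := 0) (a1 := 7) (a2 := 3) (z0 := 233) (z1 := 160) (z2 := 198) (S.zero (by decide)) (t5_7_160_4.m (by decide) (by decide)) (t5_3_198_9.m (by decide) (by decide))

theorem t6_10_370_222 : S 6 10 370 222 :=
  S.split (w := 5) (a0 := 2) (a1 := 7) (a2 := 1) (z0 := 210) (z1 := 160) (z2 := 222) (t5_2_210_9.m (by decide) (by decide)) (t5_7_160_4.m (by decide) (by decide)) (t5_1_222_10.m (by decide) (by decide))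

theorem t6_10_347_245 : S 6 10 347 245 :=
  S.symm (S.caseA2 (w := 5) (a := 10) (x := 12) (y := 114) (z0 := 233) (z1 := 233) (t5_10_114_12.n (by decide) (by decide)) (by decide) (by decide))

theorem t6_10_325_265 : S 6 10 325 265 :=
  S.symm (S.caseA2 (w := 5) (a := 10) (x := 32) (y := 92) (z0 := 233) (z1 := 233) (t5_10_92_32.n (by decide) (by decide)) (by decide) (by decide))

theorem t6_10_304_287 : S 6 10 304 287 :=
  S.symm (S.caseA2 (w := 5) (a := 10) (x := 54) (y := 71) (z0 := 233) (z1 := 233) (t5_10_71_54.n (by decide) (by decide)) (by decide) (by decide))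

theorem t6_11_560_14 : S 6 11 560 14 :=
  S.caseA1 (w := 5) (a := 11) (x := 96) (y := 14) (z0 := 232) (z1 := 232) t5_11_96_14 (by decide) (by decide)

theorem t6_11_546_32 : S 6 11 546 32 :=
  S.caseA1 (w := 5) (a := 11) (x := 82) (y := 32) (z0 := 232) (z1 := 232) t5_11_82_32 (by decide) (by decide)

theorem t6_11_526_54 : S 6 11 526 54 :=
  S.caseA1 (w := 5) (a := 11) (x := 62) (y := 54) (z0 := 232) (z1 := 232) t5_11_62_54 (by decide) (by decide)

theorem t6_11_506_74 : S 6 11 506 74 :=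
  S.caseA1 (w := 5) (a := 11) (x := 42) (y := 74) (z0 := 232) (z1 := 232) (t5_11_74_42.n (by decide) (by decide)) (by decide) (by decide)

theorem t6_11_490_88 : S 6 11 490 88 :=
  S.caseA1 (w := 5) (a := 11) (x := 26) (y := 88) (z0 := 232) (z1 := 232) (t5_11_88_26.n (by decide) (by decide)) (by decide) (by decide)

theorem t6_11_476_104 : S 6 11 476 104 :=
  S.caseA1 (w := 5) (a := 11) (x := 12) (y := 104) (z0 := 232) (z1 := 232) (t5_11_104_12.n (by decide) (by decide)) (by decide) (by decide)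

theorem t6_11_454_114 : S 6 11 454 114 :=
  S.split (w := 5) (a0 := 0) (a1 := 1) (a2 := 10) (z0 := 232) (z1 := 222) (z2 := 114) (S.zero (by decide)) t5_1_222_10 (t5_10_114_12.m (by decide) (by decide))

theorem t6_11_444_128 : S 6 11 444 128 :=
  S.split (w := 5) (a0 := 1) (a1 := 1) (a2 := 9) (z0 := 222) (z1 := 222) (z2 := 128) t5_1_222_10 t5_1_222_10 (t5_9_128_14.m (by decide) (by decide))

theorem t6_11_432_137 : S 6 11 432 137 :=
  S.split (w := 5) (a0 := 1) (a1 := 2) (a2 := 8) (z0 := 222) (z1 := 210) (z2 := 137) t5_1_222_10 t5_2_210_9 (t5_8_137_14.m (by decide) (by decide))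

theorem t6_11_420_160 : S 6 11 420 160 :=
  S.split (w := 5) (a0 := 1) (a1 := 3) (a2 := 7) (z0 := 222) (z1 := 198) (z2 := 160) t5_1_222_10 (t5_3_198_9.m (by decide) (by decide)) t5_7_160_4

theorem t6_11_400_178 : S 6 11 400 178 :=
  S.split (w := 5) (a0 := 1) (a1 := 5) (a2 := 5) (z0 := 222) (z1 := 178) (z2 := 178) t5_1_222_10 (t5_5_178_7.m (by decide) (by decide)) (t5_5_178_7.m (by decide) (by decide))

theorem t6_11_382_198 : S 6 11 382 198 :=
  S.split (w := 5) (a0 := 1) (a1 := 7) (a2 := 3) (z0 := 222) (z1 := 160) (z2 := 198) t5_1_222_10 t5_7_160_4 (t5_3_198_9.m (by decide) (by decide))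

theorem t6_11_358_222 : S 6 11 358 222 :=
  S.split (w := 5) (a0 := 3) (a1 := 7) (a2 := 1) (z0 := 198) (z1 := 160) (z2 := 222) (t5_3_198_9.m (by decide) (by decide)) t5_7_160_4 t5_1_222_10

theorem t6_11_336_244 : S 6 11 336 244 :=
  S.symm (S.caseA2 (w := 5) (a := 11) (x := 12) (y := 104) (z0 := 232) (z1 := 232) (t5_11_104_12.n (by decide) (by decide)) (by decide) (by decide))

theorem t6_11_314_264 : S 6 11 314 264 :=
  S.symm (S.caseA2 (w := 5) (a := 11) (x := 32) (y := 82) (z0 := 232) (z1 := 232) (t5_11_82_32.n (by decide) (by decide)) (by decide) (by decide))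

theorem t6_11_294_286 : S 6 11 294 286 :=
  S.symm (S.caseA2 (w := 5) (a := 11) (x := 54) (y := 62) (z0 := 232) (z1 := 232) (t5_11_62_54.n (by decide) (by decide)) (by decide) (by decide))

theorem t6_12_548_14 : S 6 12 548 14 :=
  S.caseA1 (w := 5) (a := 12) (x := 86) (y := 14) (z0 := 231) (z1 := 231) t5_12_86_14 (by decide) (by decide)

theorem t6_12_530_32 : S 6 12 530 32 :=
  S.caseA1 (w := 5) (a := 12) (x := 68) (y := 32) (z0 := 231) (z1 := 231) t5_12_68_32 (by decide) (by decide)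

theorem t6_12_514_43 : S 6 12 514 43 :=
  S.caseA1 (w := 5) (a := 12) (x := 52) (y := 43) (z0 := 231) (z1 := 231) t5_12_52_43 (by decide) (by decide)

theorem t6_12_502_60 : S 6 12 502 60 :=
  S.caseA1 (w := 5) (a := 12) (x := 40) (y := 60) (z0 := 231) (z1 := 231) (t5_12_60_40.n (by decide) (by decide)) (by decide) (by decide)

theorem t6_12_488_74 : S 6 12 488 74 :=
  S.caseA1 (w := 5) (a := 12) (x := 26) (y := 74) (z0 := 231) (z1 := 231) (t5_12_74_26.n (by decide) (by decide)) (by decide) (by decide)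

theorem t6_12_466_95 : S 6 12 466 95 :=
  S.caseA1 (w := 5) (a := 12) (x := 4) (y := 95) (z0 := 231) (z1 := 231) (t5_12_95_4.n (by decide) (by decide)) (by decide) (by decide)

theorem t6_12_451_104 : S 6 12 451 104 :=
  S.split (w := 5) (a0 := 0) (a1 := 1) (a2 := 11) (z0 := 231) (z1 := 220) (z2 := 104) (S.zero (by decide)) (t5_1_220_12.m (by decide) (by decide)) (t5_11_104_12.m (by decide) (by decide))

theorem t6_12_440_114 : S 6 12 440 114 :=
  S.split (w := 5) (a0 := 1) (a1 := 1) (a2 := 10) (z0 := 220) (z1 := 220) (z2 := 114) (t5_1_220_12.m (by decide) (by decide)) (t5_1_220_12.m (by decide) (by decide)) (t5_10_114_12.m (by decide) (by decide))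

theorem t6_12_429_128 : S 6 12 429 128 :=
  S.split (w := 5) (a0 := 0) (a1 := 3) (a2 := 9) (z0 := 231) (z1 := 198) (z2 := 128) (S.zero (by decide)) t5_3_198_9 (t5_9_128_14.m (by decide) (by decide))

theorem t6_12_418_137 : S 6 12 418 137 :=
  S.split (w := 5) (a0 := 1) (a1 := 3) (a2 := 8) (z0 := 220) (z1 := 198) (z2 := 137) (t5_1_220_12.m (by decide) (by decide)) t5_3_198_9 (t5_8_137_14.m (by decide) (by decide))

theorem t6_12_409_152 : S 6 12 409 152 :=
  S.split (w := 5) (a0 := 0) (a1 := 5) (a2 := 7) (z0 := 231) (z1 := 178) (z2 := 152) (S.zero (by decide)) t5_5_178_7 (t5_7_152_12.m (by decide) (by decide))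

theorem t6_12_398_164 : S 6 12 398 164 :=
  S.split (w := 5) (a0 := 1) (a1 := 5) (a2 := 6) (z0 := 220) (z1 := 178) (z2 := 164) (t5_1_220_12.m (by decide) (by decide)) t5_5_178_7 (t5_6_164_7.m (by decide) (by decide))

theorem t6_12_376_186 : S 6 12 376 186 :=
  S.split (w := 5) (a0 := 3) (a1 := 5) (a2 := 4) (z0 := 198) (z1 := 178) (z2 := 186) t5_3_198_9 t5_5_178_7 (t5_4_186_9.m (by decide) (by decide))

theorem t6_12_356_201 : S 6 12 356 201 :=
  S.split (w := 5) (a0 := 5) (a1 := 5) (a2 := 2) (z0 := 178) (z1 := 178) (z2 := 201) t5_5_178_7 t5_5_178_7 (t5_2_201_18.m (by decide) (by decide))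

theorem t6_12_342_220 : S 6 12 342 220 :=
  S.split (w := 5) (a0 := 5) (a1 := 6) (a2 := 1) (z0 := 178) (z1 := 164) (z2 := 220) t5_5_178_7 (t5_6_164_7.m (by decide) (by decide)) (t5_1_220_12.m (by decide) (by decide))

theorem t6_12_326_235 : S 6 12 326 235 :=
  S.symm (S.caseA2 (w := 5) (a := 12) (x := 4) (y := 95) (z0 := 231) (z1 := 231) (t5_12_95_4.n (by decide) (by decide)) (by decide) (by decide))

theorem t6_12_305_257 : S 6 12 305 257 :=
  S.symm (S.caseA2 (w := 5) (a := 12) (x := 26) (y := 74) (z0 := 231) (z1 := 231) (t5_12_74_26.n (by decide) (by decide)) (by decide) (by decide))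

theorem t6_12_283_274 : S 6 12 283 274 :=
  S.symm (S.caseA2 (w := 5) (a := 12) (x := 43) (y := 52) (z0 := 231) (z1 := 231) (t5_12_52_43.n (by decide) (by decide)) (by decide) (by decide))

theorem t6_13_528_18 : S 6 13 528 18 :=
  S.caseA1 (w := 5) (a := 13) (x := 68) (y := 18) (z0 := 230) (z1 := 230) t5_13_68_18 (by decide) (by decide)

theorem t6_13_514_32 : S 6 13 514 32 :=
  S.caseA1 (w := 5) (a := 13) (x := 54) (y := 32) (z0 := 230) (z1 := 230) t5_13_54_32 (by decide) (by decide)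

theorem t6_13_496_46 : S 6 13 496 46 :=
  S.caseA1 (w := 5) (a := 13) (x := 36) (y := 46) (z0 := 230) (z1 := 230) (t5_13_46_36.n (by decide) (by decide)) (by decide) (by decide)

theorem t6_13_482_64 : S 6 13 482 64 :=
  S.caseA1 (w := 5) (a := 13) (x := 22) (y := 64) (z0 := 230) (z1 := 230) (t5_13_64_22.n (by decide) (by decide)) (by decide) (by decide)

theorem t6_13_464_82 : S 6 13 464 82 :=
  S.caseA1 (w := 5) (a := 13) (x := 4) (y := 82) (z0 := 230) (z1 := 230) (t5_13_82_4.n (by decide) (by decide)) (by decide) (by decide)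

theorem t6_13_450_95 : S 6 13 450 95 :=
  S.split (w := 5) (a0 := 0) (a1 := 1) (a2 := 12) (z0 := 230) (z1 := 220) (z2 := 95) (S.zero (by decide)) t5_1_220_12 (t5_12_95_4.m (by decide) (by decide))

theorem t6_13_440_104 : S 6 13 440 104 :=
  S.split (w := 5) (a0 := 1) (a1 := 1) (a2 := 11) (z0 := 220) (z1 := 220) (z2 := 104) t5_1_220_12 t5_1_220_12 (t5_11_104_12.m (by decide) (by decide))

theorem t6_13_422_114 : S 6 13 422 114 :=
  S.split (w := 5) (a0 := 0) (a1 := 3) (a2 := 10) (z0 := 230) (z1 := 192) (z2 := 114) (S.zero (by decide)) (t5_3_192_18.m (by decide) (by decide)) (t5_10_114_12.m (by decide) (by decide))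

theorem t6_13_416_128 : S 6 13 416 128 :=
  S.split (w := 5) (a0 := 0) (a1 := 4) (a2 := 9) (z0 := 230) (z1 := 186) (z2 := 128) (S.zero (by decide)) t5_4_186_9 (t5_9_128_14.m (by decide) (by decide))

theorem t6_13_406_137 : S 6 13 406 137 :=
  S.split (w := 5) (a0 := 1) (a1 := 4) (a2 := 8) (z0 := 220) (z1 := 186) (z2 := 137) t5_1_220_12 t5_4_186_9 (t5_8_137_14.m (by decide) (by decide))

theorem t6_13_394_152 : S 6 13 394 152 :=
  S.split (w := 5) (a0 := 0) (a1 := 6) (a2 := 7) (z0 := 230) (z1 := 164) (z2 := 152) (S.zero (by decide)) t5_6_164_7 (t5_7_152_12.m (by decide) (by decide))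

theorem t6_13_384_164 : S 6 13 384 164 :=
  S.split (w := 5) (a0 := 1) (a1 := 6) (a2 := 6) (z0 := 220) (z1 := 164) (z2 := 164) t5_1_220_12 t5_6_164_7 t5_6_164_7

theorem t6_13_372_174 : S 6 13 372 174 :=
  S.split (w := 5) (a0 := 1) (a1 := 7) (a2 := 5) (z0 := 220) (z1 := 152) (z2 := 174) t5_1_220_12 (t5_7_152_12.m (by decide) (by decide)) (t5_5_174_11.m (by decide) (by decide))

theorem t6_13_360_186 : S 6 13 360 186 :=
  S.split (w := 5) (a0 := 4) (a1 := 5) (a2 := 4) (z0 := 186) (z1 := 174) (z2 := 186) t5_4_186_9 (t5_5_174_11.m (by decide) (by decide)) t5_4_186_9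

theorem t6_13_350_192 : S 6 13 350 192 :=
  S.split (w := 5) (a0 := 4) (a1 := 6) (a2 := 3) (z0 := 186) (z1 := 164) (z2 := 192) t5_4_186_9 t5_6_164_7 (t5_3_192_18.m (by decide) (by decide))

theorem t6_13_338_201 : S 6 13 338 201 :=
  S.split (w := 5) (a0 := 4) (a1 := 7) (a2 := 2) (z0 := 186) (z1 := 152) (z2 := 201) t5_4_186_9 (t5_7_152_12.m (by decide) (by decide)) (t5_2_201_18.m (by decide) (by decide))

theorem t6_13_328_220 : S 6 13 328 220 :=
  S.split (w := 5) (a0 := 6) (a1 := 6) (a2 := 1) (z0 := 164) (z1 := 164) (z2 := 220) t5_6_164_7 t5_6_164_7 t5_1_220_12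

theorem t6_13_312_234 : S 6 13 312 234 :=
  S.symm (S.caseA2 (w := 5) (a := 13) (x := 4) (y := 82) (z0 := 230) (z1 := 230) (t5_13_82_4.n (by decide) (by decide)) (by decide) (by decide))

theorem t6_13_294_252 : S 6 13 294 252 :=
  S.symm (S.caseA2 (w := 5) (a := 13) (x := 22) (y := 64) (z0 := 230) (z1 := 230) (t5_13_64_22.n (by decide) (by decide)) (by decide) (by decide))

theorem t6_13_276_266 : S 6 13 276 266 :=
  S.symm (S.caseA2 (w := 5) (a := 13) (x := 36) (y := 46) (z0 := 230) (z1 := 230) (t5_13_46_36.n (by decide) (by decide)) (by decide) (by decide))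

theorem t6_14_514_16 : S 6 14 514 16 :=
  S.caseA1 (w := 5) (a := 14) (x := 56) (y := 16) (z0 := 229) (z1 := 229) t5_14_56_16 (by decide) (by decide)

theorem t6_14_502_27 : S 6 14 502 27 :=
  S.caseA1 (w := 5) (a := 14) (x := 44) (y := 27) (z0 := 229) (z1 := 229) t5_14_44_27 (by decide) (by decide)

theorem t6_14_485_44 : S 6 14 485 44 :=
  S.caseA1 (w := 5) (a := 14) (x := 27) (y := 44) (z0 := 229) (z1 := 229) (t5_14_44_27.n (by decide) (by decide)) (by decide) (by decide)

theorem t6_14_470_60 : S 6 14 470 60 :=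
  S.caseA1 (w := 5) (a := 14) (x := 12) (y := 60) (z0 := 229) (z1 := 229) (t5_14_60_12.n (by decide) (by decide)) (by decide) (by decide)

theorem t6_14_462_71 : S 6 14 462 71 :=
  S.caseA1 (w := 5) (a := 14) (x := 4) (y := 71) (z0 := 229) (z1 := 229) (t5_14_71_4.n (by decide) (by decide)) (by decide) (by decide)

theorem t6_14_445_82 : S 6 14 445 82 :=
  S.split (w := 5) (a0 := 0) (a1 := 1) (a2 := 13) (z0 := 229) (z1 := 216) (z2 := 82) (S.zero (by decide)) (t5_1_216_16.m (by decide) (by decide)) (t5_13_82_4.m (by decide) (by decide))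

theorem t6_14_432_95 : S 6 14 432 95 :=
  S.split (w := 5) (a0 := 1) (a1 := 1) (a2 := 12) (z0 := 216) (z1 := 216) (z2 := 95) (t5_1_216_16.m (by decide) (by decide)) (t5_1_216_16.m (by decide) (by decide)) (t5_12_95_4.m (by decide) (by decide))

theorem t6_14_421_104 : S 6 14 421 104 :=
  S.split (w := 5) (a0 := 0) (a1 := 3) (a2 := 11) (z0 := 229) (z1 := 192) (z2 := 104) (S.zero (by decide)) (t5_3_192_18.m (by decide) (by decide)) (t5_11_104_12.m (by decide) (by decide))

theorem t6_14_410_114 : S 6 14 410 114 :=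
  S.split (w := 5) (a0 := 0) (a1 := 4) (a2 := 10) (z0 := 229) (z1 := 181) (z2 := 114) (S.zero (by decide)) (t5_4_181_16.m (by decide) (by decide)) (t5_10_114_12.m (by decide) (by decide))

theorem t6_14_403_128 : S 6 14 403 128 :=
  S.split (w := 5) (a0 := 0) (a1 := 5) (a2 := 9) (z0 := 229) (z1 := 174) (z2 := 128) (S.zero (by decide)) (t5_5_174_11.m (by decide) (by decide)) (t5_9_128_14.m (by decide) (by decide))

theorem t6_14_391_137 : S 6 14 391 137 :=
  S.split (w := 5) (a0 := 0) (a1 := 6) (a2 := 8) (z0 := 229) (z1 := 162) (z2 := 137) (S.zero (by decide)) (t5_6_162_9.m (by decide) (by decide)) (t5_8_137_14.m (by decide) (by decide))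

theorem t6_14_381_152 : S 6 14 381 152 :=
  S.split (w := 5) (a0 := 0) (a1 := 7) (a2 := 7) (z0 := 229) (z1 := 152) (z2 := 152) (S.zero (by decide)) (t5_7_152_12.m (by decide) (by decide)) (t5_7_152_12.m (by decide) (by decide))

theorem t6_14_368_162 : S 6 14 368 162 :=
  S.split (w := 5) (a0 := 1) (a1 := 7) (a2 := 6) (z0 := 216) (z1 := 152) (z2 := 162) (t5_1_216_16.m (by decide) (by decide)) (t5_7_152_12.m (by decide) (by decide)) (t5_6_162_9.m (by decide) (by decide))

theorem t6_14_357_174 : S 6 14 357 174 :=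
  S.split (w := 5) (a0 := 0) (a1 := 9) (a2 := 5) (z0 := 229) (z1 := 128) (z2 := 174) (S.zero (by decide)) (t5_9_128_14.m (by decide) (by decide)) (t5_5_174_11.m (by decide) (by decide))

theorem t6_14_348_181 : S 6 14 348 181 :=
  S.split (w := 5) (a0 := 5) (a1 := 5) (a2 := 4) (z0 := 174) (z1 := 174) (z2 := 181) (t5_5_174_11.m (by decide) (by decide)) (t5_5_174_11.m (by decide) (by decide)) (t5_4_181_16.m (by decide) (by decide))

theorem t6_14_336_192 : S 6 14 336 192 :=
  S.split (w := 5) (a0 := 5) (a1 := 6) (a2 := 3) (z0 := 174) (z1 := 162) (z2 := 192) (t5_5_174_11.m (by decide) (by decide)) (t5_6_162_9.m (by decide) (by decide)) (t5_3_192_18.m (by decide) (by decide))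

theorem t6_14_326_201 : S 6 14 326 201 :=
  S.split (w := 5) (a0 := 5) (a1 := 7) (a2 := 2) (z0 := 174) (z1 := 152) (z2 := 201) (t5_5_174_11.m (by decide) (by decide)) (t5_7_152_12.m (by decide) (by decide)) (t5_2_201_18.m (by decide) (by decide))

theorem t6_14_314_216 : S 6 14 314 216 :=
  S.split (w := 5) (a0 := 6) (a1 := 7) (a2 := 1) (z0 := 162) (z1 := 152) (z2 := 216) (t5_6_162_9.m (by decide) (by decide)) (t5_7_152_12.m (by decide) (by decide)) (t5_1_216_16.m (by decide) (by decide))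

theorem t6_14_296_237 : S 6 14 296 237 :=
  S.symm (S.caseA2 (w := 5) (a := 14) (x := 8) (y := 67) (z0 := 229) (z1 := 229) (t5_14_67_8.n (by decide) (by decide)) (by decide) (by decide))

theorem t6_14_278_251 : S 6 14 278 251 :=
  S.symm (S.caseA2 (w := 5) (a := 14) (x := 22) (y := 49) (z0 := 229) (z1 := 229) (t5_14_49_22.n (by decide) (by decide)) (by decide) (by decide))

theorem t6_14_265_263 : S 6 14 265 263 :=
  S.caseA2 (w := 5) (a := 14) (x := 36) (y := 34) (z0 := 229) (z1 := 229) t5_14_36_34 (by decide) (by decide)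

theorem t6_15_500_22 : S 6 15 500 22 :=
  S.caseA1 (w := 5) (a := 15) (x := 44) (y := 22) (z0 := 228) (z1 := 228) t5_15_44_22 (by decide) (by decide)

theorem t6_15_478_44 : S 6 15 478 44 :=
  S.caseA1 (w := 5) (a := 15) (x := 22) (y := 44) (z0 := 228) (z1 := 228) (t5_15_44_22.n (by decide) (by decide)) (by decide) (by decide)

theorem t6_15_460_60 : S 6 15 460 60 :=
  S.caseA1 (w := 5) (a := 15) (x := 4) (y := 60) (z0 := 228) (z1 := 228) (t5_15_60_4.n (by decide) (by decide)) (by decide) (by decide)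

theorem t6_15_444_71 : S 6 15 444 71 :=
  S.split (w := 5) (a0 := 0) (a1 := 1) (a2 := 14) (z0 := 228) (z1 := 216) (z2 := 71) (S.zero (by decide)) (t5_1_216_16.m (by decide) (by decide)) (t5_14_71_4.m (by decide) (by decide))

theorem t6_15_432_82 : S 6 15 432 82 :=
  S.split (w := 5) (a0 := 1) (a1 := 1) (a2 := 13) (z0 := 216) (z1 := 216) (z2 := 82) (t5_1_216_16.m (by decide) (by decide)) (t5_1_216_16.m (by decide) (by decide)) (t5_13_82_4.m (by decide) (by decide))

theorem t6_15_420_95 : S 6 15 420 95 :=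
  S.split (w := 5) (a0 := 0) (a1 := 3) (a2 := 12) (z0 := 228) (z1 := 192) (z2 := 95) (S.zero (by decide)) (t5_3_192_18.m (by decide) (by decide)) (t5_12_95_4.m (by decide) (by decide))

theorem t6_15_409_104 : S 6 15 409 104 :=
  S.split (w := 5) (a0 := 0) (a1 := 4) (a2 := 11) (z0 := 228) (z1 := 181) (z2 := 104) (S.zero (by decide)) (t5_4_181_16.m (by decide) (by decide)) (t5_11_104_12.m (by decide) (by decide))

theorem t6_15_402_114 : S 6 15 402 114 :=
  S.split (w := 5) (a0 := 0) (a1 := 5) (a2 := 10) (z0 := 228) (z1 := 174) (z2 := 114) (S.zero (by decide)) (t5_5_174_11.m (by decide) (by decide)) (t5_10_114_12.m (by decide) (by decide))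

theorem t6_15_390_128 : S 6 15 390 128 :=
  S.split (w := 5) (a0 := 0) (a1 := 6) (a2 := 9) (z0 := 228) (z1 := 162) (z2 := 128) (S.zero (by decide)) t5_6_162_9 (t5_9_128_14.m (by decide) (by decide))

theorem t6_15_380_137 : S 6 15 380 137 :=
  S.split (w := 5) (a0 := 0) (a1 := 7) (a2 := 8) (z0 := 228) (z1 := 152) (z2 := 137) (S.zero (by decide)) (t5_7_152_12.m (by decide) (by decide)) (t5_8_137_14.m (by decide) (by decide))

theorem t6_15_368_152 : S 6 15 368 152 :=
  S.split (w := 5) (a0 := 1) (a1 := 7) (a2 := 7) (z0 := 216) (z1 := 152) (z2 := 152) (t5_1_216_16.m (by decide) (by decide)) (t5_7_152_12.m (by decide) (by decide)) (t5_7_152_12.m (by decide) (by decide))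

theorem t6_15_348_174 : S 6 15 348 174 :=
  S.split (w := 5) (a0 := 5) (a1 := 5) (a2 := 5) (z0 := 174) (z1 := 174) (z2 := 174) (t5_5_174_11.m (by decide) (by decide)) (t5_5_174_11.m (by decide) (by decide)) (t5_5_174_11.m (by decide) (by decide))

theorem t6_15_326_192 : S 6 15 326 192 :=
  S.split (w := 5) (a0 := 5) (a1 := 7) (a2 := 3) (z0 := 174) (z1 := 152) (z2 := 192) (t5_5_174_11.m (by decide) (by decide)) (t5_7_152_12.m (by decide) (by decide)) (t5_3_192_18.m (by decide) (by decide))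

theorem t6_15_314_201 : S 6 15 314 201 :=
  S.split (w := 5) (a0 := 6) (a1 := 7) (a2 := 2) (z0 := 162) (z1 := 152) (z2 := 201) t5_6_162_9 (t5_7_152_12.m (by decide) (by decide)) (t5_2_201_18.m (by decide) (by decide))

theorem t6_15_304_216 : S 6 15 304 216 :=
  S.split (w := 5) (a0 := 7) (a1 := 7) (a2 := 1) (z0 := 152) (z1 := 152) (z2 := 216) (t5_7_152_12.m (by decide) (by decide)) (t5_7_152_12.m (by decide) (by decide)) (t5_1_216_16.m (by decide) (by decide))

theorem t6_15_284_236 : S 6 15 284 236 :=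
  S.symm (S.caseA2 (w := 5) (a := 15) (x := 8) (y := 56) (z0 := 228) (z1 := 228) (t5_15_56_8.n (by decide) (by decide)) (by decide) (by decide))

theorem t6_15_262_255 : S 6 15 262 255 :=
  S.symm (S.caseA2 (w := 5) (a := 15) (x := 27) (y := 34) (z0 := 228) (z1 := 228) (t5_15_34_27.n (by decide) (by decide)) (by decide) (by decide))

theorem t6_16_485_22 : S 6 16 485 22 :=
  S.caseA1 (w := 5) (a := 16) (x := 31) (y := 22) (z0 := 227) (z1 := 227) t5_16_31_22 (by decide) (by decide)

theorem t6_16_463_44 : S 6 16 463 44 :=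
  S.caseA1 (w := 5) (a := 16) (x := 9) (y := 44) (z0 := 227) (z1 := 227) (t5_16_44_9.n (by decide) (by decide)) (by decide) (by decide)

theorem t6_16_443_60 : S 6 16 443 60 :=
  S.split (w := 5) (a0 := 0) (a1 := 1) (a2 := 15) (z0 := 227) (z1 := 216) (z2 := 60) (S.zero (by decide)) (t5_1_216_16.m (by decide) (by decide)) (t5_15_60_4.m (by decide) (by decide))

theorem t6_16_432_71 : S 6 16 432 71 :=
  S.split (w := 5) (a0 := 1) (a1 := 1) (a2 := 14) (z0 := 216) (z1 := 216) (z2 := 71) (t5_1_216_16.m (by decide) (by decide)) (t5_1_216_16.m (by decide) (by decide)) (t5_14_71_4.m (by decide) (by decide))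

theorem t6_16_419_82 : S 6 16 419 82 :=
  S.split (w := 5) (a0 := 0) (a1 := 3) (a2 := 13) (z0 := 227) (z1 := 192) (z2 := 82) (S.zero (by decide)) (t5_3_192_18.m (by decide) (by decide)) (t5_13_82_4.m (by decide) (by decide))

theorem t6_16_408_95 : S 6 16 408 95 :=
  S.split (w := 5) (a0 := 0) (a1 := 4) (a2 := 12) (z0 := 227) (z1 := 181) (z2 := 95) (S.zero (by decide)) (t5_4_181_16.m (by decide) (by decide)) t5_12_95_4

theorem t6_16_390_114 : S 6 16 390 114 :=
  S.split (w := 5) (a0 := 1) (a1 := 5) (a2 := 10) (z0 := 216) (z1 := 174) (z2 := 114) (t5_1_216_16.m (by decide) (by decide)) t5_5_174_11 (t5_10_114_12.m (by decide) (by decide))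

theorem t6_16_379_128 : S 6 16 379 128 :=
  S.split (w := 5) (a0 := 0) (a1 := 7) (a2 := 9) (z0 := 227) (z1 := 152) (z2 := 128) (S.zero (by decide)) (t5_7_152_12.m (by decide) (by decide)) (t5_9_128_14.m (by decide) (by decide))

theorem t6_16_368_137 : S 6 16 368 137 :=
  S.split (w := 5) (a0 := 1) (a1 := 7) (a2 := 8) (z0 := 216) (z1 := 152) (z2 := 137) (t5_1_216_16.m (by decide) (by decide)) (t5_7_152_12.m (by decide) (by decide)) (t5_8_137_14.m (by decide) (by decide))

theorem t6_16_348_159 : S 6 16 348 159 :=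
  S.split (w := 5) (a0 := 5) (a1 := 5) (a2 := 6) (z0 := 174) (z1 := 174) (z2 := 159) t5_5_174_11 t5_5_174_11 (t5_6_159_12.m (by decide) (by decide))

theorem t6_16_326_181 : S 6 16 326 181 :=
  S.split (w := 5) (a0 := 5) (a1 := 7) (a2 := 4) (z0 := 174) (z1 := 152) (z2 := 181) t5_5_174_11 (t5_7_152_12.m (by decide) (by decide)) (t5_4_181_16.m (by decide) (by decide))

theorem t6_16_304_201 : S 6 16 304 201 :=
  S.split (w := 5) (a0 := 7) (a1 := 7) (a2 := 2) (z0 := 152) (z1 := 152) (z2 := 201) (t5_7_152_12.m (by decide) (by decide)) (t5_7_152_12.m (by decide) (by decide)) (t5_2_201_18.m (by decide) (by decide))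

theorem t6_16_289_216 : S 6 16 289 216 :=
  S.split (w := 5) (a0 := 7) (a1 := 8) (a2 := 1) (z0 := 152) (z1 := 137) (z2 := 216) (t5_7_152_12.m (by decide) (by decide)) (t5_8_137_14.m (by decide) (by decide)) (t5_1_216_16.m (by decide) (by decide))

theorem t6_16_271_236 : S 6 16 271 236 :=
  S.symm (S.caseA2 (w := 5) (a := 16) (x := 9) (y := 44) (z0 := 227) (z1 := 227) (t5_16_44_9.n (by decide) (by decide)) (by decide) (by decide))

theorem t6_16_258_249 : S 6 16 258 249 :=
  S.caseA2 (w := 5) (a := 16) (x := 31) (y := 22) (z0 := 227) (z1 := 227) t5_16_31_22 (by decide) (by decide)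

theorem t6_17_472_24 : S 6 17 472 24 :=
  S.caseA1 (w := 5) (a := 17) (x := 20) (y := 24) (z0 := 226) (z1 := 226) (t5_17_24_20.n (by decide) (by decide)) (by decide) (by decide)

theorem t6_17_456_40 : S 6 17 456 40 :=
  S.caseA1 (w := 5) (a := 17) (x := 4) (y := 40) (z0 := 226) (z1 := 226) (t5_17_40_4.n (by decide) (by decide)) (by decide) (by decide)

theorem t6_17_432_60 : S 6 17 432 60 :=
  S.split (w := 5) (a0 := 1) (a1 := 1) (a2 := 15) (z0 := 216) (z1 := 216) (z2 := 60) t5_1_216_16 t5_1_216_16 (t5_15_60_4.m (by decide) (by decide))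

theorem t6_17_418_71 : S 6 17 418 71 :=
  S.split (w := 5) (a0 := 0) (a1 := 3) (a2 := 14) (z0 := 226) (z1 := 192) (z2 := 71) (S.zero (by decide)) (t5_3_192_18.m (by decide) (by decide)) (t5_14_71_4.m (by decide) (by decide))

theorem t6_17_408_82 : S 6 17 408 82 :=
  S.split (w := 5) (a0 := 1) (a1 := 3) (a2 := 13) (z0 := 216) (z1 := 192) (z2 := 82) t5_1_216_16 (t5_3_192_18.m (by decide) (by decide)) t5_13_82_4

theorem t6_17_388_104 : S 6 17 388 104 :=
  S.split (w := 5) (a0 := 1) (a1 := 5) (a2 := 11) (z0 := 216) (z1 := 172) (z2 := 104) t5_1_216_16 (t5_5_172_16.m (by decide) (by decide)) (t5_11_104_12.m (by decide) (by decide))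

theorem t6_17_368_128 : S 6 17 368 128 :=
  S.split (w := 5) (a0 := 1) (a1 := 7) (a2 := 9) (z0 := 216) (z1 := 152) (z2 := 128) t5_1_216_16 (t5_7_152_12.m (by decide) (by decide)) (t5_9_128_14.m (by decide) (by decide))

theorem t6_17_344_152 : S 6 17 344 152 :=
  S.split (w := 5) (a0 := 1) (a1 := 9) (a2 := 7) (z0 := 216) (z1 := 128) (z2 := 152) t5_1_216_16 (t5_9_128_14.m (by decide) (by decide)) (t5_7_152_12.m (by decide) (by decide))

theorem t6_17_324_172 : S 6 17 324 172 :=
  S.split (w := 5) (a0 := 5) (a1 := 7) (a2 := 5) (z0 := 172) (z1 := 152) (z2 := 172) (t5_5_172_16.m (by decide) (by decide)) (t5_7_152_12.m (by decide) (by decide)) (t5_5_172_16.m (by decide) (by decide))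

theorem t6_17_304_192 : S 6 17 304 192 :=
  S.split (w := 5) (a0 := 7) (a1 := 7) (a2 := 3) (z0 := 152) (z1 := 152) (z2 := 192) (t5_7_152_12.m (by decide) (by decide)) (t5_7_152_12.m (by decide) (by decide)) (t5_3_192_18.m (by decide) (by decide))

theorem t6_17_280_216 : S 6 17 280 216 :=
  S.split (w := 5) (a0 := 7) (a1 := 9) (a2 := 1) (z0 := 152) (z1 := 128) (z2 := 216) (t5_7_152_12.m (by decide) (by decide)) (t5_9_128_14.m (by decide) (by decide)) t5_1_216_16

theorem t6_17_257_235 : S 6 17 257 235 :=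
  S.symm (S.caseA2 (w := 5) (a := 17) (x := 9) (y := 31) (z0 := 226) (z1 := 226) (t5_17_31_9.n (by decide) (by decide)) (by decide) (by decide))

theorem t6_18_458_27 : S 6 18 458 27 :=
  S.caseA1 (w := 5) (a := 18) (x := 8) (y := 27) (z0 := 225) (z1 := 225) (t5_18_27_8.n (by decide) (by decide)) (by decide) (by decide)

theorem t6_18_439_40 : S 6 18 439 40 :=
  S.split (w := 5) (a0 := 0) (a1 := 1) (a2 := 17) (z0 := 225) (z1 := 214) (z2 := 40) (S.zero (by decide)) (t5_1_214_18.m (by decide) (by decide)) (t5_17_40_4.m (by decide) (by decide))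

theorem t6_18_417_60 : S 6 18 417 60 :=
  S.split (w := 5) (a0 := 0) (a1 := 3) (a2 := 15) (z0 := 225) (z1 := 192) (z2 := 60) (S.zero (by decide)) (t5_3_192_18.m (by decide) (by decide)) (t5_15_60_4.m (by decide) (by decide))

theorem t6_18_397_74 : S 6 18 397 74 :=
  S.split (w := 5) (a0 := 0) (a1 := 5) (a2 := 13) (z0 := 225) (z1 := 172) (z2 := 74) (S.zero (by decide)) (t5_5_172_16.m (by decide) (by decide)) (t5_13_74_14.m (by decide) (by decide))

theorem t6_18_386_86 : S 6 18 386 86 :=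
  S.split (w := 5) (a0 := 1) (a1 := 5) (a2 := 12) (z0 := 214) (z1 := 172) (z2 := 86) (t5_1_214_18.m (by decide) (by decide)) (t5_5_172_16.m (by decide) (by decide)) (t5_12_86_14.m (by decide) (by decide))

theorem t6_18_377_104 : S 6 18 377 104 :=
  S.split (w := 5) (a0 := 0) (a1 := 7) (a2 := 11) (z0 := 225) (z1 := 152) (z2 := 104) (S.zero (by decide)) (t5_7_152_12.m (by decide) (by decide)) (t5_11_104_12.m (by decide) (by decide))

theorem t6_18_353_128 : S 6 18 353 128 :=
  S.split (w := 5) (a0 := 0) (a1 := 9) (a2 := 9) (z0 := 225) (z1 := 128) (z2 := 128) (S.zero (by decide)) (t5_9_128_14.m (by decide) (by decide)) (t5_9_128_14.m (by decide) (by decide))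

theorem t6_18_333_152 : S 6 18 333 152 :=
  S.split (w := 5) (a0 := 4) (a1 := 7) (a2 := 7) (z0 := 181) (z1 := 152) (z2 := 152) (t5_4_181_16.m (by decide) (by decide)) (t5_7_152_12.m (by decide) (by decide)) (t5_7_152_12.m (by decide) (by decide))

theorem t6_18_304_181 : S 6 18 304 181 :=
  S.split (w := 5) (a0 := 7) (a1 := 7) (a2 := 4) (z0 := 152) (z1 := 152) (z2 := 181) (t5_7_152_12.m (by decide) (by decide)) (t5_7_152_12.m (by decide) (by decide)) (t5_4_181_16.m (by decide) (by decide))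

theorem t6_18_280_201 : S 6 18 280 201 :=
  S.split (w := 5) (a0 := 7) (a1 := 9) (a2 := 2) (z0 := 152) (z1 := 128) (z2 := 201) (t5_7_152_12.m (by decide) (by decide)) (t5_9_128_14.m (by decide) (by decide)) (t5_2_201_18.m (by decide) (by decide))

theorem t6_18_256_229 : S 6 18 256 229 :=
  S.symm (S.caseA2 (w := 5) (a := 18) (x := 4) (y := 31) (z0 := 225) (z1 := 225) (t5_18_31_4.n (by decide) (by decide)) (by decide) (by decide))

theorem t6_19_452_24 : S 6 19 452 24 :=
  S.caseA1 (w := 5) (a := 19) (x := 4) (y := 24) (z0 := 224) (z1 := 224) (t5_19_24_4.n (by decide) (by decide)) (by decide) (by decide)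

theorem t6_19_428_40 : S 6 19 428 40 :=
  S.split (w := 5) (a0 := 1) (a1 := 1) (a2 := 17) (z0 := 214) (z1 := 214) (z2 := 40) t5_1_214_18 t5_1_214_18 (t5_17_40_4.m (by decide) (by decide))

theorem t6_19_406_60 : S 6 19 406 60 :=
  S.split (w := 5) (a0 := 1) (a1 := 3) (a2 := 15) (z0 := 214) (z1 := 192) (z2 := 60) t5_1_214_18 (t5_3_192_18.m (by decide) (by decide)) t5_15_60_4

theorem t6_19_386_74 : S 6 19 386 74 :=
  S.split (w := 5) (a0 := 1) (a1 := 5) (a2 := 13) (z0 := 214) (z1 := 172) (z2 := 74) t5_1_214_18 (t5_5_172_16.m (by decide) (by decide)) (t5_13_74_14.m (by decide) (by decide))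

theorem t6_19_376_86 : S 6 19 376 86 :=
  S.split (w := 5) (a0 := 0) (a1 := 7) (a2 := 12) (z0 := 224) (z1 := 152) (z2 := 86) (S.zero (by decide)) t5_7_152_12 (t5_12_86_14.m (by decide) (by decide))

theorem t6_19_366_104 : S 6 19 366 104 :=
  S.split (w := 5) (a0 := 1) (a1 := 7) (a2 := 11) (z0 := 214) (z1 := 152) (z2 := 104) t5_1_214_18 t5_7_152_12 (t5_11_104_12.m (by decide) (by decide))

theorem t6_19_344_128 : S 6 19 344 128 :=
  S.split (w := 5) (a0 := 3) (a1 := 7) (a2 := 9) (z0 := 192) (z1 := 152) (z2 := 128) (t5_3_192_18.m (by decide) (by decide)) t5_7_152_12 (t5_9_128_14.m (by decide) (by decide))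

theorem t6_19_324_152 : S 6 19 324 152 :=
  S.split (w := 5) (a0 := 5) (a1 := 7) (a2 := 7) (z0 := 172) (z1 := 152) (z2 := 152) (t5_5_172_16.m (by decide) (by decide)) t5_7_152_12 t5_7_152_12

theorem t6_19_304_172 : S 6 19 304 172 :=
  S.split (w := 5) (a0 := 7) (a1 := 7) (a2 := 5) (z0 := 152) (z1 := 152) (z2 := 172) t5_7_152_12 t5_7_152_12 (t5_5_172_16.m (by decide) (by decide))

theorem t6_19_280_192 : S 6 19 280 192 :=
  S.split (w := 5) (a0 := 7) (a1 := 9) (a2 := 3) (z0 := 152) (z1 := 128) (z2 := 192) t5_7_152_12 (t5_9_128_14.m (by decide) (by decide)) (t5_3_192_18.m (by decide) (by decide))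

theorem t6_19_256_214 : S 6 19 256 214 :=
  S.split (w := 5) (a0 := 7) (a1 := 11) (a2 := 1) (z0 := 152) (z1 := 104) (z2 := 214) t5_7_152_12 (t5_11_104_12.m (by decide) (by decide)) t5_1_214_18

theorem t6_19_248_228 : S 6 19 248 228 :=
  S.caseA2 (w := 5) (a := 19) (x := 24) (y := 4) (z0 := 224) (z1 := 224) t5_19_24_4 (by decide) (by decide)

theorem t6_20_435_24 : S 6 20 435 24 :=
  S.split (w := 5) (a0 := 0) (a1 := 1) (a2 := 19) (z0 := 223) (z1 := 212) (z2 := 24) (S.zero (by decide)) (t5_1_212_20.m (by decide) (by decide)) (t5_19_24_4.m (by decide) (by decide))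

theorem t6_20_404_49 : S 6 20 404 49 :=
  S.split (w := 5) (a0 := 0) (a1 := 4) (a2 := 16) (z0 := 223) (z1 := 181) (z2 := 49) (S.zero (by decide)) t5_4_181_16 t5_16_49_4

theorem t6_20_384_67 : S 6 20 384 67 :=
  S.split (w := 5) (a0 := 1) (a1 := 5) (a2 := 14) (z0 := 212) (z1 := 172) (z2 := 67) (t5_1_212_20.m (by decide) (by decide)) (t5_5_172_16.m (by decide) (by decide)) (t5_14_67_8.m (by decide) (by decide))

theorem t6_20_364_86 : S 6 20 364 86 :=
  S.split (w := 5) (a0 := 3) (a1 := 5) (a2 := 12) (z0 := 192) (z1 := 172) (z2 := 86) (t5_3_192_18.m (by decide) (by decide)) (t5_5_172_16.m (by decide) (by decide)) (t5_12_86_14.m (by decide) (by decide))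

theorem t6_20_344_114 : S 6 20 344 114 :=
  S.split (w := 5) (a0 := 5) (a1 := 5) (a2 := 10) (z0 := 172) (z1 := 172) (z2 := 114) (t5_5_172_16.m (by decide) (by decide)) (t5_5_172_16.m (by decide) (by decide)) (t5_10_114_12.m (by decide) (by decide))

theorem t6_20_322_137 : S 6 20 322 137 :=
  S.split (w := 5) (a0 := 5) (a1 := 7) (a2 := 8) (z0 := 172) (z1 := 150) (z2 := 137) (t5_5_172_16.m (by decide) (by decide)) (t5_7_150_14.m (by decide) (by decide)) (t5_8_137_14.m (by decide) (by decide))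

theorem t6_20_300_157 : S 6 20 300 157 :=
  S.split (w := 5) (a0 := 5) (a1 := 9) (a2 := 6) (z0 := 172) (z1 := 128) (z2 := 157) (t5_5_172_16.m (by decide) (by decide)) (t5_9_128_14.m (by decide) (by decide)) t5_6_157_14

theorem t6_20_278_181 : S 6 20 278 181 :=
  S.split (w := 5) (a0 := 7) (a1 := 9) (a2 := 4) (z0 := 150) (z1 := 128) (z2 := 181) (t5_7_150_14.m (by decide) (by decide)) (t5_9_128_14.m (by decide) (by decide)) t5_4_181_16

theorem t6_20_247_212 : S 6 20 247 212 :=
  S.split (w := 5) (a0 := 0) (a1 := 19) (a2 := 1) (z0 := 223) (z1 := 24) (z2 := 212) (S.zero (by decide)) (t5_19_24_4.m (by decide) (by decide)) (t5_1_212_20.m (by decide) (by decide))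

theorem t6_20_236_223 : S 6 20 236 223 :=
  S.split (w := 5) (a0 := 1) (a1 := 19) (a2 := 0) (z0 := 212) (z1 := 24) (z2 := 223) (t5_1_212_20.m (by decide) (by decide)) (t5_19_24_4.m (by decide) (by decide)) (S.zero (by decide))

theorem t6_21_424_24 : S 6 21 424 24 :=
  S.split (w := 5) (a0 := 1) (a1 := 1) (a2 := 19) (z0 := 212) (z1 := 212) (z2 := 24) t5_1_212_20 t5_1_212_20 (t5_19_24_4.m (by decide) (by decide))

theorem t6_21_394_44 : S 6 21 394 44 :=
  S.split (w := 5) (a0 := 0) (a1 := 5) (a2 := 16) (z0 := 222) (z1 := 172) (z2 := 44) (S.zero (by decide)) t5_5_172_16 (t5_16_44_9.m (by decide) (by decide))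

theorem t6_21_372_67 : S 6 21 372 67 :=
  S.split (w := 5) (a0 := 0) (a1 := 7) (a2 := 14) (z0 := 222) (z1 := 150) (z2 := 67) (S.zero (by decide)) t5_7_150_14 (t5_14_67_8.m (by decide) (by decide))

end Pool.Agent.R89.Coin
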