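import Pool.Agent.R89.Coin.Tab5

/-! Generated table of solvable positions (MP_a3b474_co). -/

namespace Pool.Agent.R89.Coin

theorem t6_21_350_86 : S 6 21 350 86 :=
  S.split (w := 5) (a0 := 0) (a1 := 9) (a2 := 12) (z0 := 222) (z1 := 128) (z2 := 86) (S.zero (by decide)) (t5_9_128_14.m (by decide) (by decide)) (t5_12_86_14.m (by decide) (by decide))

theorem t6_21_329_114 : S 6 21 329 114 :=
  S.split (w := 5) (a0 := 3) (a1 := 8) (a2 := 10) (z0 := 192) (z1 := 137) (z2 := 114) t5_3_192_18 (t5_8_137_14.m (by decide) (by decide)) (t5_10_114_12.m (by decide) (by decide))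

theorem t6_21_300_150 : S 6 21 300 150 :=
  S.split (w := 5) (a0 := 5) (a1 := 9) (a2 := 7) (z0 := 172) (z1 := 128) (z2 := 150) t5_5_172_16 (t5_9_128_14.m (by decide) (by decide)) t5_7_150_14

theorem t6_21_265_177 : S 6 21 265 177 :=
  S.split (w := 5) (a0 := 8) (a1 := 9) (a2 := 4) (z0 := 137) (z1 := 128) (z2 := 177) (t5_8_137_14.m (by decide) (by decide)) (t5_9_128_14.m (by decide) (by decide)) (t5_4_177_20.m (by decide) (by decide))

theorem t6_21_246_194 : S 6 21 246 194 :=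
  S.split (w := 5) (a0 := 0) (a1 := 19) (a2 := 2) (z0 := 222) (z1 := 24) (z2 := 194) (S.zero (by decide)) (t5_19_24_4.m (by decide) (by decide)) (t5_2_194_25.m (by decide) (by decide))

theorem t6_21_226_224 : S 6 21 226 224 :=
  S.caseA2 (w := 5) (a := 21) (x := 4) (y := 2) (z0 := 222) (z1 := 222) t5_21_4_2 (by decide) (by decide)

theorem t6_22_405_24 : S 6 22 405 24 :=
  S.split (w := 5) (a0 := 0) (a1 := 3) (a2 := 19) (z0 := 221) (z1 := 184) (z2 := 24) (S.zero (by decide)) (t5_3_184_26.m (by decide) (by decide)) (t5_19_24_4.m (by decide) (by decide))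

theorem t6_22_389_36 : S 6 22 389 36 :=
  S.split (w := 5) (a0 := 0) (a1 := 5) (a2 := 17) (z0 := 221) (z1 := 168) (z2 := 36) (S.zero (by decide)) (t5_5_168_20.m (by decide) (by decide)) (t5_17_36_8.m (by decide) (by decide))

theorem t6_22_375_44 : S 6 22 375 44 :=
  S.split (w := 5) (a0 := 0) (a1 := 6) (a2 := 16) (z0 := 221) (z1 := 154) (z2 := 44) (S.zero (by decide)) (t5_6_154_21.m (by decide) (by decide)) (t5_16_44_9.m (by decide) (by decide))

theorem t6_22_358_67 : S 6 22 358 67 :=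
  S.split (w := 5) (a0 := 0) (a1 := 8) (a2 := 14) (z0 := 221) (z1 := 137) (z2 := 67) (S.zero (by decide)) t5_8_137_14 t5_14_67_8

theorem t6_22_336_86 : S 6 22 336 86 :=
  S.split (w := 5) (a0 := 5) (a1 := 5) (a2 := 12) (z0 := 168) (z1 := 168) (z2 := 86) (t5_5_168_20.m (by decide) (by decide)) (t5_5_168_20.m (by decide) (by decide)) (t5_12_86_14.m (by decide) (by decide))

theorem t6_22_314_114 : S 6 22 314 114 :=
  S.split (w := 5) (a0 := 4) (a1 := 8) (a2 := 10) (z0 := 177) (z1 := 137) (z2 := 114) (t5_4_177_20.m (by decide) (by decide)) t5_8_137_14 t5_10_114_12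

theorem t6_22_296_137 : S 6 22 296 137 :=
  S.split (w := 5) (a0 := 5) (a1 := 9) (a2 := 8) (z0 := 168) (z1 := 128) (z2 := 137) (t5_5_168_20.m (by decide) (by decide)) (t5_9_128_14.m (by decide) (by decide)) t5_8_137_14

theorem t6_22_265_168 : S 6 22 265 168 :=
  S.split (w := 5) (a0 := 8) (a1 := 9) (a2 := 5) (z0 := 137) (z1 := 128) (z2 := 168) t5_8_137_14 (t5_9_128_14.m (by decide) (by decide)) (t5_5_168_20.m (by decide) (by decide))

theorem t6_22_232_194 : S 6 22 232 194 :=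
  S.split (w := 5) (a0 := 9) (a1 := 11) (a2 := 2) (z0 := 128) (z1 := 104) (z2 := 194) (t5_9_128_14.m (by decide) (by decide)) (t5_11_104_12.m (by decide) (by decide)) (t5_2_194_25.m (by decide) (by decide))

theorem t6_22_225_206 : S 6 22 225 206 :=
  S.split (w := 5) (a0 := 0) (a1 := 21) (a2 := 1) (z0 := 221) (z1 := 4) (z2 := 206) (S.zero (by decide)) (t5_21_4_2.m (by decide) (by decide)) (t5_1_206_26.m (by decide) (by decide))

theorem t6_23_388_27 : S 6 23 388 27 :=
  S.split (w := 5) (a0 := 0) (a1 := 5) (a2 := 18) (z0 := 220) (z1 := 168) (z2 := 27) (S.zero (by decide)) (t5_5_168_20.m (by decide) (by decide)) (t5_18_27_8.m (by decide) (by decide))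

theorem t6_23_362_44 : S 6 23 362 44 :=
  S.split (w := 5) (a0 := 2) (a1 := 5) (a2 := 16) (z0 := 194) (z1 := 168) (z2 := 44) (t5_2_194_25.m (by decide) (by decide)) (t5_5_168_20.m (by decide) (by decide)) (t5_16_44_9.m (by decide) (by decide))

theorem t6_23_348_60 : S 6 23 348 60 :=
  S.split (w := 5) (a0 := 0) (a1 := 9) (a2 := 14) (z0 := 220) (z1 := 128) (z2 := 60) (S.zero (by decide)) t5_9_128_14 (t5_14_60_12.m (by decide) (by decide))

theorem t6_23_336_74 : S 6 23 336 74 :=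
  S.split (w := 5) (a0 := 5) (a1 := 5) (a2 := 13) (z0 := 168) (z1 := 168) (z2 := 74) (t5_5_168_20.m (by decide) (by decide)) (t5_5_168_20.m (by decide) (by decide)) (t5_13_74_14.m (by decide) (by decide))

theorem t6_23_312_104 : S 6 23 312 104 :=
  S.split (w := 5) (a0 := 3) (a1 := 9) (a2 := 11) (z0 := 184) (z1 := 128) (z2 := 104) (t5_3_184_26.m (by decide) (by decide)) t5_9_128_14 t5_11_104_12

theorem t6_23_296_128 : S 6 23 296 128 :=
  S.split (w := 5) (a0 := 5) (a1 := 9) (a2 := 9) (z0 := 168) (z1 := 128) (z2 := 128) (t5_5_168_20.m (by decide) (by decide)) t5_9_128_14 t5_9_128_14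

theorem t6_23_258_154 : S 6 23 258 154 :=
  S.split (w := 5) (a0 := 6) (a1 := 11) (a2 := 6) (z0 := 154) (z1 := 104) (z2 := 154) (t5_6_154_21.m (by decide) (by decide)) t5_11_104_12 (t5_6_154_21.m (by decide) (by decide))

theorem t6_23_232_184 : S 6 23 232 184 :=
  S.split (w := 5) (a0 := 9) (a1 := 11) (a2 := 3) (z0 := 128) (z1 := 104) (z2 := 184) t5_9_128_14 t5_11_104_12 (t5_3_184_26.m (by decide) (by decide))

theorem t6_23_210_206 : S 6 23 210 206 :=
  S.split (w := 5) (a0 := 1) (a1 := 21) (a2 := 1) (z0 := 206) (z1 := 4) (z2 := 206) (t5_1_206_26.m (by decide) (by decide)) t5_21_4_2 (t5_1_206_26.m (by decide) (by decide))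

theorem t6_24_374_27 : S 6 24 374 27 :=
  S.split (w := 5) (a0 := 1) (a1 := 5) (a2 := 18) (z0 := 206) (z1 := 168) (z2 := 27) (t5_1_206_26.m (by decide) (by decide)) (t5_5_168_20.m (by decide) (by decide)) (t5_18_27_8.m (by decide) (by decide))

theorem t6_24_345_49 : S 6 24 345 49 :=
  S.split (w := 5) (a0 := 4) (a1 := 5) (a2 := 15) (z0 := 177) (z1 := 168) (z2 := 49) t5_4_177_20 (t5_5_168_20.m (by decide) (by decide)) (t5_15_49_12.m (by decide) (by decide))

theorem t6_24_336_60 : S 6 24 336 60 :=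
  S.split (w := 5) (a0 := 5) (a1 := 5) (a2 := 14) (z0 := 168) (z1 := 168) (z2 := 60) (t5_5_168_20.m (by decide) (by decide)) (t5_5_168_20.m (by decide) (by decide)) (t5_14_60_12.m (by decide) (by decide))

theorem t6_24_322_74 : S 6 24 322 74 :=
  S.split (w := 5) (a0 := 5) (a1 := 6) (a2 := 13) (z0 := 168) (z1 := 154) (z2 := 74) (t5_5_168_20.m (by decide) (by decide)) (t5_6_154_21.m (by decide) (by decide)) (t5_13_74_14.m (by decide) (by decide))

theorem t6_24_308_86 : S 6 24 308 86 :=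
  S.split (w := 5) (a0 := 6) (a1 := 6) (a2 := 12) (z0 := 154) (z1 := 154) (z2 := 86) (t5_6_154_21.m (by decide) (by decide)) (t5_6_154_21.m (by decide) (by decide)) (t5_12_86_14.m (by decide) (by decide))

theorem t6_24_286_104 : S 6 24 286 104 :=
  S.split (w := 5) (a0 := 5) (a1 := 9) (a2 := 10) (z0 := 168) (z1 := 118) (z2 := 104) (t5_5_168_20.m (by decide) (by decide)) (t5_9_118_21.m (by decide) (by decide)) (t5_10_104_21.m (by decide) (by decide))

theorem t6_24_273_118 : S 6 24 273 118 :=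
  S.split (w := 5) (a0 := 4) (a1 := 11) (a2 := 9) (z0 := 177) (z1 := 96) (z2 := 118) t5_4_177_20 (t5_11_96_14.m (by decide) (by decide)) (t5_9_118_21.m (by decide) (by decide))

theorem t6_24_255_138 : S 6 24 255 138 :=
  S.split (w := 5) (a0 := 0) (a1 := 17) (a2 := 7) (z0 := 219) (z1 := 36) (z2 := 138) (S.zero (by decide)) (t5_17_36_8.m (by decide) (by decide)) (t5_7_138_23.m (by decide) (by decide))

theorem t6_24_239_168 : S 6 24 239 168 :=
  S.split (w := 5) (a0 := 0) (a1 := 19) (a2 := 5) (z0 := 219) (z1 := 20) (z2 := 168) (S.zero (by decide)) (t5_19_20_8.m (by decide) (by decide)) (t5_5_168_20.m (by decide) (by decide))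

theorem t6_24_206_197 : S 6 24 206 197 :=
  S.symm (S.split (w := 5) (a0 := 4) (a1 := 19) (a2 := 1) (z0 := 177) (z1 := 20) (z2 := 206) t5_4_177_20 (t5_19_20_8.m (by decide) (by decide)) (t5_1_206_26.m (by decide) (by decide)))

theorem t6_25_362_27 : S 6 25 362 27 :=
  S.split (w := 5) (a0 := 2) (a1 := 5) (a2 := 18) (z0 := 194) (z1 := 168) (z2 := 27) (t5_2_194_25.m (by decide) (by decide)) t5_5_168_20 (t5_18_27_8.m (by decide) (by decide))

theorem t6_25_336_49 : S 6 25 336 49 :=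
  S.split (w := 5) (a0 := 5) (a1 := 5) (a2 := 15) (z0 := 168) (z1 := 168) (z2 := 49) t5_5_168_20 t5_5_168_20 (t5_15_49_12.m (by decide) (by decide))

theorem t6_25_322_60 : S 6 25 322 60 :=
  S.split (w := 5) (a0 := 5) (a1 := 6) (a2 := 14) (z0 := 168) (z1 := 154) (z2 := 60) t5_5_168_20 (t5_6_154_21.m (by decide) (by decide)) (t5_14_60_12.m (by decide) (by decide))

theorem t6_25_308_74 : S 6 25 308 74 :=
  S.split (w := 5) (a0 := 6) (a1 := 6) (a2 := 13) (z0 := 154) (z1 := 154) (z2 := 74) (t5_6_154_21.m (by decide) (by decide)) (t5_6_154_21.m (by decide) (by decide)) (t5_13_74_14.m (by decide) (by decide))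

theorem t6_25_286_96 : S 6 25 286 96 :=
  S.split (w := 5) (a0 := 5) (a1 := 9) (a2 := 11) (z0 := 168) (z1 := 118) (z2 := 96) t5_5_168_20 (t5_9_118_21.m (by decide) (by decide)) t5_11_96_14

theorem t6_25_264_118 : S 6 25 264 118 :=
  S.split (w := 5) (a0 := 5) (a1 := 11) (a2 := 9) (z0 := 168) (z1 := 96) (z2 := 118) t5_5_168_20 t5_11_96_14 (t5_9_118_21.m (by decide) (by decide))

theorem t6_25_245_138 : S 6 25 245 138 :=
  S.split (w := 5) (a0 := 0) (a1 := 18) (a2 := 7) (z0 := 218) (z1 := 27) (z2 := 138) (S.zero (by decide)) (t5_18_27_8.m (by decide) (by decide)) (t5_7_138_23.m (by decide) (by decide))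

theorem t6_25_220_174 : S 6 25 220 174 :=
  S.split (w := 5) (a0 := 0) (a1 := 21) (a2 := 4) (z0 := 218) (z1 := 2) (z2 := 174) (S.zero (by decide)) (t5_21_4_2.n (by decide) (by decide)) (t5_4_174_23.m (by decide) (by decide))

theorem t6_25_208_184 : S 6 25 208 184 :=
  S.split (w := 5) (a0 := 1) (a1 := 21) (a2 := 3) (z0 := 206) (z1 := 2) (z2 := 184) (t5_1_206_26.m (by decide) (by decide)) (t5_21_4_2.n (by decide) (by decide)) (t5_3_184_26.m (by decide) (by decide))

theorem t6_26_348_27 : S 6 26 348 27 :=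
  S.split (w := 5) (a0 := 2) (a1 := 6) (a2 := 18) (z0 := 194) (z1 := 154) (z2 := 27) (t5_2_194_25.m (by decide) (by decide)) (t5_6_154_21.m (by decide) (by decide)) t5_18_27_8

theorem t6_26_317_49 : S 6 26 317 49 :=
  S.split (w := 5) (a0 := 5) (a1 := 6) (a2 := 15) (z0 := 163) (z1 := 154) (z2 := 49) (t5_5_163_22.m (by decide) (by decide)) (t5_6_154_21.m (by decide) (by decide)) (t5_15_49_12.m (by decide) (by decide))

theorem t6_26_308_60 : S 6 26 308 60 :=
  S.split (w := 5) (a0 := 6) (a1 := 6) (a2 := 14) (z0 := 154) (z1 := 154) (z2 := 60) (t5_6_154_21.m (by decide) (by decide)) (t5_6_154_21.m (by decide) (by decide)) t5_14_60_12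

theorem t6_26_292_74 : S 6 26 292 74 :=
  S.split (w := 5) (a0 := 1) (a1 := 12) (a2 := 13) (z0 := 206) (z1 := 86) (z2 := 74) (t5_1_206_26.m (by decide) (by decide)) t5_12_86_14 (t5_13_74_14.m (by decide) (by decide))

theorem t6_26_272_88 : S 6 26 272 88 :=
  S.split (w := 5) (a0 := 6) (a1 := 9) (a2 := 11) (z0 := 154) (z1 := 118) (z2 := 88) (t5_6_154_21.m (by decide) (by decide)) (t5_9_118_21.m (by decide) (by decide)) (t5_11_88_26.m (by decide) (by decide))

theorem t6_26_260_104 : S 6 26 260 104 :=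
  S.split (w := 5) (a0 := 4) (a1 := 12) (a2 := 10) (z0 := 174) (z1 := 86) (z2 := 104) (t5_4_174_23.m (by decide) (by decide)) t5_12_86_14 (t5_10_104_21.m (by decide) (by decide))

theorem t6_26_244_128 : S 6 26 244 128 :=
  S.split (w := 5) (a0 := 0) (a1 := 18) (a2 := 8) (z0 := 217) (z1 := 27) (z2 := 128) (S.zero (by decide)) t5_18_27_8 (t5_8_128_23.m (by decide) (by decide))

theorem t6_26_217_158 : S 6 26 217 158 :=
  S.symm (S.split (w := 5) (a0 := 6) (a1 := 20) (a2 := 0) (z0 := 154) (z1 := 4) (z2 := 217) (t5_6_154_21.m (by decide) (by decide)) (t5_20_7_4.n (by decide) (by decide)) (S.zero (by decide)))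

theorem t6_26_194_184 : S 6 26 194 184 :=
  S.split (w := 5) (a0 := 4) (a1 := 19) (a2 := 3) (z0 := 174) (z1 := 20) (z2 := 184) (t5_4_174_23.m (by decide) (by decide)) (t5_19_20_8.m (by decide) (by decide)) (t5_3_184_26.m (by decide) (by decide))

theorem t6_27_338_24 : S 6 27 338 24 :=
  S.split (w := 5) (a0 := 3) (a1 := 6) (a2 := 18) (z0 := 184) (z1 := 154) (z2 := 24) (t5_3_184_26.m (by decide) (by decide)) t5_6_154_21 t5_18_24_9

theorem t6_27_308_49 : S 6 27 308 49 :=
  S.split (w := 5) (a0 := 6) (a1 := 6) (a2 := 15) (z0 := 154) (z1 := 154) (z2 := 49) t5_6_154_21 t5_6_154_21 t5_15_49_12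

theorem t6_27_282_74 : S 6 27 282 74 :=
  S.split (w := 5) (a0 := 6) (a1 := 8) (a2 := 13) (z0 := 154) (z1 := 128) (z2 := 74) t5_6_154_21 (t5_8_128_23.m (by decide) (by decide)) t5_13_74_14

theorem t6_27_258_88 : S 6 27 258 88 :=
  S.split (w := 5) (a0 := 3) (a1 := 13) (a2 := 11) (z0 := 184) (z1 := 74) (z2 := 88) (t5_3_184_26.m (by decide) (by decide)) t5_13_74_14 (t5_11_88_26.m (by decide) (by decide))

theorem t6_27_248_104 : S 6 27 248 104 :=
  S.split (w := 5) (a0 := 4) (a1 := 13) (a2 := 10) (z0 := 174) (z1 := 74) (z2 := 104) t5_4_174_23 t5_13_74_14 (t5_10_104_21.m (by decide) (by decide))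

theorem t6_27_226_138 : S 6 27 226 138 :=
  S.split (w := 5) (a0 := 1) (a1 := 19) (a2 := 7) (z0 := 206) (z1 := 20) (z2 := 138) t5_1_206_26 t5_19_20_8 (t5_7_138_23.m (by decide) (by decide))

theorem t6_27_194_174 : S 6 27 194 174 :=
  S.symm (S.split (w := 5) (a0 := 6) (a1 := 19) (a2 := 2) (z0 := 154) (z1 := 20) (z2 := 194) t5_6_154_21 t5_19_20_8 t5_2_194_25)

theorem t6_28_322_20 : S 6 28 322 20 :=
  S.split (w := 5) (a0 := 1) (a1 := 9) (a2 := 18) (z0 := 204) (z1 := 118) (z2 := 20) (t5_1_204_28.m (by decide) (by decide)) (t5_9_118_21.m (by decide) (by decide)) (t5_18_20_13.m (by decide) (by decide))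

theorem t6_28_304_36 : S 6 28 304 36 :=
  S.split (w := 5) (a0 := 6) (a1 := 6) (a2 := 16) (z0 := 152) (z1 := 152) (z2 := 36) (t5_6_152_23.m (by decide) (by decide)) (t5_6_152_23.m (by decide) (by decide)) (t5_16_36_13.m (by decide) (by decide))

theorem t6_28_280_56 : S 6 28 280 56 :=
  S.split (w := 5) (a0 := 6) (a1 := 8) (a2 := 14) (z0 := 152) (z1 := 128) (z2 := 56) (t5_6_152_23.m (by decide) (by decide)) (t5_8_128_23.m (by decide) (by decide)) (t5_14_56_16.m (by decide) (by decide))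

theorem t6_28_270_68 : S 6 28 270 68 :=
  S.split (w := 5) (a0 := 6) (a1 := 9) (a2 := 13) (z0 := 152) (z1 := 118) (z2 := 68) (t5_6_152_23.m (by decide) (by decide)) (t5_9_118_21.m (by decide) (by decide)) (t5_13_68_18.m (by decide) (by decide))

theorem t6_28_256_74 : S 6 28 256 74 :=
  S.split (w := 5) (a0 := 6) (a1 := 10) (a2 := 12) (z0 := 152) (z1 := 104) (z2 := 74) (t5_6_152_23.m (by decide) (by decide)) (t5_10_104_21.m (by decide) (by decide)) (t5_12_74_26.m (by decide) (by decide))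

theorem t6_28_246_88 : S 6 28 246 88 :=
  S.split (w := 5) (a0 := 8) (a1 := 9) (a2 := 11) (z0 := 128) (z1 := 118) (z2 := 88) (t5_8_128_23.m (by decide) (by decide)) (t5_9_118_21.m (by decide) (by decide)) (t5_11_88_26.m (by decide) (by decide))

theorem t6_28_236_104 : S 6 28 236 104 :=
  S.split (w := 5) (a0 := 9) (a1 := 9) (a2 := 10) (z0 := 118) (z1 := 118) (z2 := 104) (t5_9_118_21.m (by decide) (by decide)) (t5_9_118_21.m (by decide) (by decide)) (t5_10_104_21.m (by decide) (by decide))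

theorem t6_28_215_130 : S 6 28 215 130 :=
  S.symm (S.split (w := 5) (a0 := 8) (a1 := 20) (a2 := 0) (z0 := 128) (z1 := 2) (z2 := 215) (t5_8_128_23.m (by decide) (by decide)) (t5_20_9_2.n (by decide) (by decide)) (S.zero (by decide)))

theorem t6_28_186_159 : S 6 28 186 159 :=
  S.split (w := 5) (a0 := 3) (a1 := 20) (a2 := 5) (z0 := 184) (z1 := 2) (z2 := 159) (t5_3_184_26.m (by decide) (by decide)) (t5_20_9_2.n (by decide) (by decide)) (t5_5_159_26.m (by decide) (by decide))

theorem t6_29_304_27 : S 6 29 304 27 :=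
  S.split (w := 5) (a0 := 6) (a1 := 6) (a2 := 17) (z0 := 152) (z1 := 152) (z2 := 27) t5_6_152_23 t5_6_152_23 (t5_17_27_13.m (by decide) (by decide))

theorem t6_29_280_44 : S 6 29 280 44 :=
  S.split (w := 5) (a0 := 6) (a1 := 8) (a2 := 15) (z0 := 152) (z1 := 128) (z2 := 44) t5_6_152_23 (t5_8_128_23.m (by decide) (by decide)) (t5_15_44_22.m (by decide) (by decide))

theorem t6_29_270_56 : S 6 29 270 56 :=
  S.split (w := 5) (a0 := 6) (a1 := 9) (a2 := 14) (z0 := 152) (z1 := 118) (z2 := 56) t5_6_152_23 (t5_9_118_21.m (by decide) (by decide)) (t5_14_56_16.m (by decide) (by decide))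

theorem t6_29_246_74 : S 6 29 246 74 :=
  S.split (w := 5) (a0 := 8) (a1 := 9) (a2 := 12) (z0 := 128) (z1 := 118) (z2 := 74) (t5_8_128_23.m (by decide) (by decide)) (t5_9_118_21.m (by decide) (by decide)) (t5_12_74_26.m (by decide) (by decide))

theorem t6_29_236_88 : S 6 29 236 88 :=
  S.split (w := 5) (a0 := 9) (a1 := 9) (a2 := 11) (z0 := 118) (z1 := 118) (z2 := 88) (t5_9_118_21.m (by decide) (by decide)) (t5_9_118_21.m (by decide) (by decide)) (t5_11_88_26.m (by decide) (by decide))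

theorem t6_29_214_120 : S 6 29 214 120 :=
  S.symm (S.split (w := 5) (a0 := 9) (a1 := 20) (a2 := 0) (z0 := 118) (z1 := 2) (z2 := 214) (t5_9_118_21.m (by decide) (by decide)) (t5_20_9_2.n (by decide) (by decide)) (S.zero (by decide)))

theorem t6_29_184_154 : S 6 29 184 154 :=
  S.symm (S.split (w := 5) (a0 := 6) (a1 := 20) (a2 := 3) (z0 := 152) (z1 := 2) (z2 := 184) t5_6_152_23 (t5_20_9_2.n (by decide) (by decide)) t5_3_184_26)

theorem t6_30_300_20 : S 6 30 300 20 :=
  S.split (w := 5) (a0 := 3) (a1 := 9) (a2 := 18) (z0 := 182) (z1 := 118) (z2 := 20) (t5_3_182_28.m (by decide) (by decide)) t5_9_118_21 (t5_18_20_13.m (by decide) (by decide))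

theorem t6_30_277_31 : S 6 30 277 31 :=
  S.split (w := 5) (a0 := 5) (a1 := 9) (a2 := 16) (z0 := 159) (z1 := 118) (z2 := 31) (t5_5_159_26.m (by decide) (by decide)) t5_9_118_21 (t5_16_31_22.m (by decide) (by decide))

theorem t6_30_266_44 : S 6 30 266 44 :=
  S.split (w := 5) (a0 := 7) (a1 := 8) (a2 := 15) (z0 := 138) (z1 := 128) (z2 := 44) t5_7_138_23 (t5_8_128_23.m (by decide) (by decide)) (t5_15_44_22.m (by decide) (by decide))

theorem t6_30_246_68 : S 6 30 246 68 :=
  S.split (w := 5) (a0 := 8) (a1 := 9) (a2 := 13) (z0 := 128) (z1 := 118) (z2 := 68) (t5_8_128_23.m (by decide) (by decide)) t5_9_118_21 (t5_13_68_18.m (by decide) (by decide))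

theorem t6_30_222_88 : S 6 30 222 88 :=
  S.split (w := 5) (a0 := 1) (a1 := 18) (a2 := 11) (z0 := 202) (z1 := 20) (z2 := 88) (t5_1_202_30.m (by decide) (by decide)) (t5_18_20_13.m (by decide) (by decide)) (t5_11_88_26.m (by decide) (by decide))

theorem t6_30_202_118 : S 6 30 202 118 :=
  S.split (w := 5) (a0 := 3) (a1 := 18) (a2 := 9) (z0 := 182) (z1 := 20) (z2 := 118) (t5_3_182_28.m (by decide) (by decide)) (t5_18_20_13.m (by decide) (by decide)) t5_9_118_21

theorem t6_30_170_148 : S 6 30 170 148 :=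
  S.symm (S.split (w := 5) (a0 := 8) (a1 := 18) (a2 := 4) (z0 := 128) (z1 := 20) (z2 := 170) (t5_8_128_23.m (by decide) (by decide)) (t5_18_20_13.m (by decide) (by decide)) (t5_4_170_27.m (by decide) (by decide)))

theorem t6_31_287_20 : S 6 31 287 20 :=
  S.split (w := 5) (a0 := 5) (a1 := 8) (a2 := 18) (z0 := 159) (z1 := 128) (z2 := 20) t5_5_159_26 t5_8_128_23 t5_18_20_13

theorem t6_31_256_44 : S 6 31 256 44 :=
  S.split (w := 5) (a0 := 8) (a1 := 8) (a2 := 15) (z0 := 128) (z1 := 128) (z2 := 44) t5_8_128_23 t5_8_128_23 (t5_15_44_22.m (by decide) (by decide))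

theorem t6_31_232_68 : S 6 31 232 68 :=
  S.split (w := 5) (a0 := 0) (a1 := 18) (a2 := 13) (z0 := 212) (z1 := 20) (z2 := 68) (S.zero (by decide)) t5_18_20_13 t5_13_68_18

theorem t6_31_212_88 : S 6 31 212 88 :=
  S.symm (S.split (w := 5) (a0 := 13) (a1 := 18) (a2 := 0) (z0 := 68) (z1 := 20) (z2 := 212) t5_13_68_18 t5_18_20_13 (S.zero (by decide)))

theorem t6_31_190_112 : S 6 31 190 112 :=
  S.symm (S.split (w := 5) (a0 := 10) (a1 := 19) (a2 := 2) (z0 := 104) (z1 := 8) (z2 := 190) t5_10_104_21 (t5_19_20_8.n (by decide) (by decide)) t5_2_190_29)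

theorem t6_31_170_136 : S 6 31 170 136 :=
  S.symm (S.split (w := 5) (a0 := 8) (a1 := 19) (a2 := 4) (z0 := 128) (z1 := 8) (z2 := 170) t5_8_128_23 (t5_19_20_8.n (by decide) (by decide)) t5_4_170_27)

theorem t6_31_159_148 : S 6 31 159 148 :=
  S.symm (S.split (w := 5) (a0 := 8) (a1 := 18) (a2 := 5) (z0 := 128) (z1 := 20) (z2 := 159) t5_8_128_23 t5_18_20_13 t5_5_159_26)

theorem t6_32_264_13 : S 6 32 264 13 :=
  S.split (w := 5) (a0 := 5) (a1 := 9) (a2 := 18) (z0 := 156) (z1 := 108) (z2 := 13) (t5_5_156_32.m (by decide) (by decide)) (t5_9_108_32.m (by decide) (by decide)) (t5_18_20_13.n (by decide) (by decide))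

theorem t6_32_255_24 : S 6 32 255 24 :=
  S.split (w := 5) (a0 := 0) (a1 := 15) (a2 := 17) (z0 := 211) (z1 := 44) (z2 := 24) (S.zero (by decide)) (t5_15_44_22.m (by decide) (by decide)) (t5_17_24_20.m (by decide) (by decide))

theorem t6_32_244_31 : S 6 32 244 31 :=
  S.split (w := 5) (a0 := 5) (a1 := 11) (a2 := 16) (z0 := 156) (z1 := 88) (z2 := 31) (t5_5_156_32.m (by decide) (by decide)) (t5_11_88_26.m (by decide) (by decide)) (t5_16_31_22.m (by decide) (by decide))

theorem t6_32_235_44 : S 6 32 235 44 :=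
  S.split (w := 5) (a0 := 0) (a1 := 17) (a2 := 15) (z0 := 211) (z1 := 24) (z2 := 44) (S.zero (by decide)) (t5_17_24_20.m (by decide) (by decide)) (t5_15_44_22.m (by decide) (by decide))

theorem t6_32_219_64 : S 6 32 219 64 :=
  S.split (w := 5) (a0 := 0) (a1 := 19) (a2 := 13) (z0 := 211) (z1 := 8) (z2 := 64) (S.zero (by decide)) (t5_19_20_8.n (by decide) (by decide)) (t5_13_64_22.m (by decide) (by decide))

theorem t6_32_198_82 : S 6 32 198 82 :=
  S.symm (S.split (w := 5) (a0 := 12) (a1 := 19) (a2 := 1) (z0 := 74) (z1 := 8) (z2 := 198) (t5_12_74_26.m (by decide) (by decide)) (t5_19_20_8.n (by decide) (by decide)) (t5_1_198_34.m (by decide) (by decide)))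

theorem t6_32_182_97 : S 6 32 182 97 :=
  S.split (w := 5) (a0 := 3) (a1 := 19) (a2 := 10) (z0 := 174) (z1 := 8) (z2 := 97) (t5_3_174_36.m (by decide) (by decide)) (t5_19_20_8.n (by decide) (by decide)) (t5_10_97_26.m (by decide) (by decide))

theorem t6_32_164_118 : S 6 32 164 118 :=
  S.split (w := 5) (a0 := 5) (a1 := 19) (a2 := 8) (z0 := 156) (z1 := 8) (z2 := 118) (t5_5_156_32.m (by decide) (by decide)) (t5_19_20_8.n (by decide) (by decide)) (t5_8_118_32.m (by decide) (by decide))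

theorem t6_32_147_128 : S 6 32 147 128 :=
  S.split (w := 5) (a0 := 6) (a1 := 19) (a2 := 7) (z0 := 139) (z1 := 8) (z2 := 128) (t5_6_139_32.m (by decide) (by decide)) (t5_19_20_8.n (by decide) (by decide)) (t5_7_128_32.m (by decide) (by decide))

theorem t6_32_139_136 : S 6 32 139 136 :=
  S.symm (S.split (w := 5) (a0 := 7) (a1 := 19) (a2 := 6) (z0 := 128) (z1 := 8) (z2 := 139) (t5_7_128_32.m (by decide) (by decide)) (t5_19_20_8.n (by decide) (by decide)) (t5_6_139_32.m (by decide) (by decide)))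

theorem t6_33_254_13 : S 6 33 254 13 :=
  S.split (w := 5) (a0 := 0) (a1 := 15) (a2 := 18) (z0 := 210) (z1 := 44) (z2 := 13) (S.zero (by decide)) (t5_15_44_22.m (by decide) (by decide)) (t5_18_20_13.n (by decide) (by decide))

theorem t6_33_234_31 : S 6 33 234 31 :=
  S.split (w := 5) (a0 := 0) (a1 := 17) (a2 := 16) (z0 := 210) (z1 := 24) (z2 := 31) (S.zero (by decide)) (t5_17_24_20.m (by decide) (by decide)) (t5_16_31_22.m (by decide) (by decide))

theorem t6_33_218_49 : S 6 33 218 49 :=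
  S.split (w := 5) (a0 := 0) (a1 := 19) (a2 := 14) (z0 := 210) (z1 := 8) (z2 := 49) (S.zero (by decide)) (t5_19_20_8.n (by decide) (by decide)) (t5_14_49_22.m (by decide) (by decide))

theorem t6_33_198_72 : S 6 33 198 72 :=
  S.symm (S.split (w := 5) (a0 := 13) (a1 := 19) (a2 := 1) (z0 := 64) (z1 := 8) (z2 := 198) (t5_13_64_22.m (by decide) (by decide)) (t5_19_20_8.n (by decide) (by decide)) (t5_1_198_34.m (by decide) (by decide)))

theorem t6_33_174_96 : S 6 33 174 96 :=
  S.symm (S.split (w := 5) (a0 := 11) (a1 := 19) (a2 := 3) (z0 := 88) (z1 := 8) (z2 := 174) (t5_11_88_26.m (by decide) (by decide)) (t5_19_20_8.n (by decide) (by decide)) (t5_3_174_36.m (by decide) (by decide)))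

theorem t6_33_156_116 : S 6 33 156 116 :=
  S.symm (S.split (w := 5) (a0 := 9) (a1 := 19) (a2 := 5) (z0 := 108) (z1 := 8) (z2 := 156) (t5_9_108_32.m (by decide) (by decide)) (t5_19_20_8.n (by decide) (by decide)) (t5_5_156_32.m (by decide) (by decide)))

theorem t6_33_136_128 : S 6 33 136 128 :=
  S.split (w := 5) (a0 := 7) (a1 := 19) (a2 := 7) (z0 := 128) (z1 := 8) (z2 := 128) (t5_7_128_32.m (by decide) (by decide)) (t5_19_20_8.n (by decide) (by decide)) (t5_7_128_32.m (by decide) (by decide))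

theorem t6_34_233_24 : S 6 34 233 24 :=
  S.split (w := 5) (a0 := 0) (a1 := 17) (a2 := 17) (z0 := 209) (z1 := 24) (z2 := 24) (S.zero (by decide)) (t5_17_24_20.m (by decide) (by decide)) (t5_17_24_20.m (by decide) (by decide))

theorem t6_34_209_52 : S 6 34 209 52 :=
  S.symm (S.split (w := 5) (a0 := 15) (a1 := 19) (a2 := 0) (z0 := 44) (z1 := 8) (z2 := 209) (t5_15_44_22.m (by decide) (by decide)) (t5_19_20_8.n (by decide) (by decide)) (S.zero (by decide)))

theorem t6_34_182_74 : S 6 34 182 74 :=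
  S.split (w := 5) (a0 := 3) (a1 := 19) (a2 := 12) (z0 := 174) (z1 := 8) (z2 := 74) (t5_3_174_36.m (by decide) (by decide)) (t5_19_20_8.n (by decide) (by decide)) (t5_12_74_26.m (by decide) (by decide))

theorem t6_34_164_97 : S 6 34 164 97 :=
  S.split (w := 5) (a0 := 5) (a1 := 19) (a2 := 10) (z0 := 156) (z1 := 8) (z2 := 97) (t5_5_156_32.m (by decide) (by decide)) (t5_19_20_8.n (by decide) (by decide)) (t5_10_97_26.m (by decide) (by decide))

theorem t6_34_136_118 : S 6 34 136 118 :=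
  S.split (w := 5) (a0 := 7) (a1 := 19) (a2 := 8) (z0 := 128) (z1 := 8) (z2 := 118) (t5_7_128_32.m (by decide) (by decide)) (t5_19_20_8.n (by decide) (by decide)) (t5_8_118_32.m (by decide) (by decide))

theorem t6_35_222_24 : S 6 35 222 24 :=
  S.split (w := 5) (a0 := 1) (a1 := 17) (a2 := 17) (z0 := 198) (z1 := 24) (z2 := 24) t5_1_198_34 (t5_17_24_20.m (by decide) (by decide)) (t5_17_24_20.m (by decide) (by decide))

theorem t6_35_198_52 : S 6 35 198 52 :=
  S.symm (S.split (w := 5) (a0 := 15) (a1 := 19) (a2 := 1) (z0 := 44) (z1 := 8) (z2 := 198) (t5_15_44_22.m (by decide) (by decide)) (t5_19_20_8.n (by decide) (by decide)) t5_1_198_34)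

theorem t6_35_171_74 : S 6 35 171 74 :=
  S.split (w := 5) (a0 := 4) (a1 := 19) (a2 := 12) (z0 := 163) (z1 := 8) (z2 := 74) (t5_4_163_32.m (by decide) (by decide)) (t5_19_20_8.n (by decide) (by decide)) (t5_12_74_26.m (by decide) (by decide))

theorem t6_35_147_97 : S 6 35 147 97 :=
  S.split (w := 5) (a0 := 6) (a1 := 19) (a2 := 10) (z0 := 139) (z1 := 8) (z2 := 97) (t5_6_139_32.m (by decide) (by decide)) (t5_19_20_8.n (by decide) (by decide)) (t5_10_97_26.m (by decide) (by decide))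

theorem t6_35_126_118 : S 6 35 126 118 :=
  S.split (w := 5) (a0 := 8) (a1 := 19) (a2 := 8) (z0 := 118) (z1 := 8) (z2 := 118) (t5_8_118_32.m (by decide) (by decide)) (t5_19_20_8.n (by decide) (by decide)) (t5_8_118_32.m (by decide) (by decide))

theorem t6_36_207_32 : S 6 36 207 32 :=
  S.symm (S.split (w := 5) (a0 := 17) (a1 := 19) (a2 := 0) (z0 := 24) (z1 := 8) (z2 := 207) (t5_17_24_20.m (by decide) (by decide)) (t5_19_20_8.n (by decide) (by decide)) (S.zero (by decide)))

theorem t6_36_174_57 : S 6 36 174 57 :=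
  S.symm (S.split (w := 5) (a0 := 14) (a1 := 19) (a2 := 3) (z0 := 49) (z1 := 8) (z2 := 174) t5_14_49_22 (t5_19_20_8.n (by decide) (by decide)) (t5_3_174_36.m (by decide) (by decide)))

theorem t6_36_147_88 : S 6 36 147 88 :=
  S.split (w := 5) (a0 := 6) (a1 := 19) (a2 := 11) (z0 := 139) (z1 := 8) (z2 := 88) (t5_6_139_32.m (by decide) (by decide)) (t5_19_20_8.n (by decide) (by decide)) (t5_11_88_26.m (by decide) (by decide))

theorem t6_36_118_116 : S 6 36 118 116 :=
  S.symm (S.split (w := 5) (a0 := 9) (a1 := 19) (a2 := 8) (z0 := 108) (z1 := 8) (z2 := 118) (t5_9_108_32.m (by decide) (by decide)) (t5_19_20_8.n (by decide) (by decide)) (t5_8_118_32.m (by decide) (by decide)))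

theorem t6_37_196_32 : S 6 37 196 32 :=
  S.symm (S.split (w := 5) (a0 := 17) (a1 := 19) (a2 := 1) (z0 := 24) (z1 := 8) (z2 := 196) t5_17_24_20 (t5_19_20_8.n (by decide) (by decide)) t5_1_196_36)

theorem t6_37_164_60 : S 6 37 164 60 :=
  S.split (w := 5) (a0 := 5) (a1 := 19) (a2 := 13) (z0 := 156) (z1 := 8) (z2 := 60) t5_5_156_32 (t5_19_20_8.n (by decide) (by decide)) (t5_13_60_28.m (by decide) (by decide))

theorem t6_37_136_88 : S 6 37 136 88 :=
  S.split (w := 5) (a0 := 7) (a1 := 19) (a2 := 11) (z0 := 128) (z1 := 8) (z2 := 88) (t5_7_128_32.m (by decide) (by decide)) (t5_19_20_8.n (by decide) (by decide)) t5_11_88_26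

theorem t6_37_116_108 : S 6 37 116 108 :=
  S.split (w := 5) (a0 := 9) (a1 := 19) (a2 := 9) (z0 := 108) (z1 := 8) (z2 := 108) (t5_9_108_32.m (by decide) (by decide)) (t5_19_20_8.n (by decide) (by decide)) (t5_9_108_32.m (by decide) (by decide))

theorem t6_38_182_31 : S 6 38 182 31 :=
  S.split (w := 5) (a0 := 3) (a1 := 19) (a2 := 16) (z0 := 174) (z1 := 8) (z2 := 31) (t5_3_174_36.m (by decide) (by decide)) (t5_19_20_8.n (by decide) (by decide)) t5_16_31_22

theorem t6_38_147_60 : S 6 38 147 60 :=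
  S.split (w := 5) (a0 := 6) (a1 := 19) (a2 := 13) (z0 := 139) (z1 := 8) (z2 := 60) t5_6_139_32 (t5_19_20_8.n (by decide) (by decide)) (t5_13_60_28.m (by decide) (by decide))

theorem t6_38_116_92 : S 6 38 116 92 :=
  S.split (w := 5) (a0 := 9) (a1 := 19) (a2 := 10) (z0 := 108) (z1 := 8) (z2 := 92) (t5_9_108_32.m (by decide) (by decide)) (t5_19_20_8.n (by decide) (by decide)) (t5_10_92_32.m (by decide) (by decide))

theorem t6_39_174_28 : S 6 39 174 28 :=
  S.symm (S.split (w := 5) (a0 := 17) (a1 := 19) (a2 := 3) (z0 := 20) (z1 := 8) (z2 := 174) (t5_17_24_20.n (by decide) (by decide)) (t5_19_20_8.n (by decide) (by decide)) t5_3_174_36)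

theorem t6_39_136_60 : S 6 39 136 60 :=
  S.split (w := 5) (a0 := 7) (a1 := 19) (a2 := 13) (z0 := 128) (z1 := 8) (z2 := 60) t5_7_128_32 (t5_19_20_8.n (by decide) (by decide)) (t5_13_60_28.m (by decide) (by decide))

theorem t6_39_108_90 : S 6 39 108 90 :=
  S.symm (S.split (w := 5) (a0 := 11) (a1 := 19) (a2 := 9) (z0 := 82) (z1 := 8) (z2 := 108) (t5_11_82_32.m (by decide) (by decide)) (t5_19_20_8.n (by decide) (by decide)) (t5_9_108_32.m (by decide) (by decide)))

theorem t6_40_158_24 : S 6 40 158 24 :=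
  S.symm (S.split (w := 5) (a0 := 17) (a1 := 19) (a2 := 4) (z0 := 20) (z1 := 4) (z2 := 158) (t5_17_24_20.n (by decide) (by decide)) (t5_19_24_4.n (by decide) (by decide)) (t5_4_158_39.m (by decide) (by decide)))

theorem t6_40_124_48 : S 6 40 124 48 :=
  S.symm (S.split (w := 5) (a0 := 14) (a1 := 19) (a2 := 7) (z0 := 44) (z1 := 4) (z2 := 124) (t5_14_44_27.m (by decide) (by decide)) (t5_19_24_4.n (by decide) (by decide)) (t5_7_124_39.m (by decide) (by decide)))

theorem t6_40_108_73 : S 6 40 108 73 :=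
  S.symm (S.split (w := 5) (a0 := 12) (a1 := 19) (a2 := 9) (z0 := 69) (z1 := 4) (z2 := 108) (t5_12_69_30.m (by decide) (by decide)) (t5_19_24_4.n (by decide) (by decide)) (t5_9_108_32.m (by decide) (by decide)))

theorem t6_40_96_82 : S 6 40 96 82 :=
  S.split (w := 5) (a0 := 10) (a1 := 19) (a2 := 11) (z0 := 92) (z1 := 4) (z2 := 82) (t5_10_92_32.m (by decide) (by decide)) (t5_19_24_4.n (by decide) (by decide)) (t5_11_82_32.m (by decide) (by decide))

theorem t6_41_136_27 : S 6 41 136 27 :=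
  S.split (w := 5) (a0 := 6) (a1 := 19) (a2 := 16) (z0 := 132) (z1 := 4) (z2 := 27) (t5_6_132_39.m (by decide) (by decide)) (t5_19_24_4.n (by decide) (by decide)) (t5_16_27_26.m (by decide) (by decide))

theorem t6_41_108_64 : S 6 41 108 64 :=
  S.symm (S.split (w := 5) (a0 := 13) (a1 := 19) (a2 := 9) (z0 := 60) (z1 := 4) (z2 := 108) t5_13_60_28 (t5_19_24_4.n (by decide) (by decide)) t5_9_108_32)

theorem t6_41_92_73 : S 6 41 92 73 :=
  S.symm (S.split (w := 5) (a0 := 12) (a1 := 19) (a2 := 10) (z0 := 69) (z1 := 4) (z2 := 92) (t5_12_69_30.m (by decide) (by decide)) (t5_19_24_4.n (by decide) (by decide)) (t5_10_92_32.m (by decide) (by decide)))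

theorem t6_42_124_31 : S 6 42 124 31 :=
  S.symm (S.split (w := 5) (a0 := 16) (a1 := 19) (a2 := 7) (z0 := 27) (z1 := 4) (z2 := 124) t5_16_27_26 (t5_19_24_4.n (by decide) (by decide)) (t5_7_124_39.m (by decide) (by decide)))

theorem t6_42_92_58 : S 6 42 92 58 :=
  S.symm (S.split (w := 5) (a0 := 13) (a1 := 19) (a2 := 10) (z0 := 54) (z1 := 4) (z2 := 92) (t5_13_54_32.m (by decide) (by decide)) (t5_19_24_4.n (by decide) (by decide)) t5_10_92_32)

theorem t6_42_86_69 : S 6 42 86 69 :=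
  S.split (w := 5) (a0 := 11) (a1 := 19) (a2 := 12) (z0 := 82) (z1 := 4) (z2 := 69) (t5_11_82_32.m (by decide) (by decide)) (t5_19_24_4.n (by decide) (by decide)) t5_12_69_30

theorem t6_43_112_30 : S 6 43 112 30 :=
  S.symm (S.split (w := 5) (a0 := 16) (a1 := 19) (a2 := 8) (z0 := 26) (z1 := 4) (z2 := 112) (t5_16_27_26.n (by decide) (by decide)) (t5_19_24_4.n (by decide) (by decide)) (t5_8_112_39.m (by decide) (by decide)))

theorem t6_43_82_58 : S 6 43 82 58 :=
  S.symm (S.split (w := 5) (a0 := 13) (a1 := 19) (a2 := 11) (z0 := 54) (z1 := 4) (z2 := 82) (t5_13_54_32.m (by decide) (by decide)) (t5_19_24_4.n (by decide) (by decide)) t5_11_82_32)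

theorem t6_44_96_21 : S 6 44 96 21 :=
  S.symm (S.split (w := 5) (a0 := 17) (a1 := 18) (a2 := 9) (z0 := 13) (z1 := 8) (z2 := 96) (t5_17_27_13.n (by decide) (by decide)) (t5_18_27_8.n (by decide) (by decide)) (t5_9_96_42.m (by decide) (by decide)))

theorem t6_44_76_36 : S 6 44 76 36 :=
  S.split (w := 5) (a0 := 12) (a1 := 18) (a2 := 14) (z0 := 68) (z1 := 8) (z2 := 36) t5_12_68_32 (t5_18_27_8.n (by decide) (by decide)) (t5_14_36_34.m (by decide) (by decide))

theorem t6_44_62_54 : S 6 44 62 54 :=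
  S.split (w := 5) (a0 := 13) (a1 := 18) (a2 := 13) (z0 := 54) (z1 := 8) (z2 := 54) (t5_13_54_32.m (by decide) (by decide)) (t5_18_27_8.n (by decide) (by decide)) (t5_13_54_32.m (by decide) (by decide))

theorem t6_45_82_22 : S 6 45 82 22 :=
  S.split (w := 5) (a0 := 11) (a1 := 18) (a2 := 16) (z0 := 74) (z1 := 8) (z2 := 22) (t5_11_74_42.m (by decide) (by decide)) (t5_18_27_8.n (by decide) (by decide)) (t5_16_31_22.n (by decide) (by decide))

theorem t6_45_62_36 : S 6 45 62 36 :=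
  S.split (w := 5) (a0 := 13) (a1 := 18) (a2 := 14) (z0 := 54) (z1 := 8) (z2 := 36) t5_13_54_32 (t5_18_27_8.n (by decide) (by decide)) (t5_14_36_34.m (by decide) (by decide))

theorem t6_45_54_44 : S 6 45 54 44 :=
  S.symm (S.split (w := 5) (a0 := 14) (a1 := 18) (a2 := 13) (z0 := 36) (z1 := 8) (z2 := 54) (t5_14_36_34.m (by decide) (by decide)) (t5_18_27_8.n (by decide) (by decide)) t5_13_54_32)

theorem t6_46_74_13 : S 6 46 74 13 :=
  S.symm (S.split (w := 5) (a0 := 17) (a1 := 18) (a2 := 11) (z0 := 9) (z1 := 4) (z2 := 74) (t5_17_31_9.n (by decide) (by decide)) (t5_18_31_4.n (by decide) (by decide)) (t5_11_74_42.m (by decide) (by decide)))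

theorem t6_46_60_26 : S 6 46 60 26 :=
  S.symm (S.split (w := 5) (a0 := 16) (a1 := 18) (a2 := 12) (z0 := 22) (z1 := 4) (z2 := 60) (t5_16_31_22.n (by decide) (by decide)) (t5_18_31_4.n (by decide) (by decide)) (t5_12_60_40.m (by decide) (by decide)))

theorem t6_46_44_36 : S 6 46 44 36 :=
  S.split (w := 5) (a0 := 16) (a1 := 16) (a2 := 14) (z0 := 22) (z1 := 22) (z2 := 36) (t5_16_31_22.n (by decide) (by decide)) (t5_16_31_22.n (by decide) (by decide)) (t5_14_36_34.m (by decide) (by decide))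

theorem t6_47_60_13 : S 6 47 60 13 :=
  S.symm (S.split (w := 5) (a0 := 17) (a1 := 18) (a2 := 12) (z0 := 9) (z1 := 4) (z2 := 60) (t5_17_31_9.n (by decide) (by decide)) (t5_18_31_4.n (by decide) (by decide)) (t5_12_60_40.m (by decide) (by decide)))

theorem t6_47_44_27 : S 6 47 44 27 :=
  S.split (w := 5) (a0 := 16) (a1 := 16) (a2 := 15) (z0 := 22) (z1 := 22) (z2 := 27) (t5_16_31_22.n (by decide) (by decide)) (t5_16_31_22.n (by decide) (by decide)) (t5_15_34_27.n (by decide) (by decide))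

theorem t6_48_46_13 : S 6 48 46 13 :=
  S.symm (S.split (w := 5) (a0 := 17) (a1 := 18) (a2 := 13) (z0 := 9) (z1 := 4) (z2 := 46) (t5_17_31_9.n (by decide) (by decide)) (t5_18_31_4.n (by decide) (by decide)) (t5_13_46_36.m (by decide) (by decide)))

theorem t6_48_31_27 : S 6 48 31 27 :=
  S.split (w := 5) (a0 := 15) (a1 := 18) (a2 := 15) (z0 := 27) (z1 := 4) (z2 := 27) (t5_15_34_27.n (by decide) (by decide)) (t5_18_31_4.n (by decide) (by decide)) (t5_15_34_27.n (by decide) (by decide))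

theorem t6_49_27_17 : S 6 49 27 17 :=
  S.symm (S.split (w := 5) (a0 := 16) (a1 := 18) (a2 := 15) (z0 := 13) (z1 := 4) (z2 := 27) (t5_16_36_13.n (by decide) (by decide)) (t5_18_31_4.n (by decide) (by decide)) (t5_15_34_27.n (by decide) (by decide)))

theorem t6_50_16_13 : S 6 50 16 13 :=
  S.split (w := 5) (a0 := 17) (a1 := 17) (a2 := 16) (z0 := 8) (z1 := 8) (z2 := 13) (t5_17_36_8.n (by decide) (by decide)) (t5_17_36_8.n (by decide) (by decide)) (t5_16_36_13.n (by decide) (by decide))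

theorem t6_1_716_0 : S 6 1 716 0 :=
  S.caseA1 (w := 5) (a := 1) (x := 232) (y := 0) (z0 := 242) (z1 := 242) t5_1_232_0 (by decide) (by decide)

theorem t6_1_714_2 : S 6 1 714 2 :=
  S.caseA1 (w := 5) (a := 1) (x := 230) (y := 2) (z0 := 242) (z1 := 242) t5_1_230_2 (by decide) (by decide)

end Pool.Agent.R89.Coin
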