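import Pool.Agent.R89.Coin.Tab5

/-! Generated table of solvable positions (MP_a3b474_co). -/

namespace Pool.Agent.R89.Coin

theorem t6_1_712_4 : S 6 1 712 4 :=
  S.caseA1 (w := 5) (a := 1) (x := 228) (y := 4) (z0 := 242) (z1 := 242) t5_1_228_4 (by decide) (by decide)

theorem t6_1_708_8 : S 6 1 708 8 :=
  S.caseA1 (w := 5) (a := 1) (x := 224) (y := 8) (z0 := 242) (z1 := 242) t5_1_224_8 (by decide) (by decide)

theorem t6_1_706_10 : S 6 1 706 10 :=
  S.caseA1 (w := 5) (a := 1) (x := 222) (y := 10) (z0 := 242) (z1 := 242) t5_1_222_10 (by decide) (by decide)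

theorem t6_1_704_12 : S 6 1 704 12 :=
  S.caseA1 (w := 5) (a := 1) (x := 220) (y := 12) (z0 := 242) (z1 := 242) t5_1_220_12 (by decide) (by decide)

theorem t6_1_700_16 : S 6 1 700 16 :=
  S.caseA1 (w := 5) (a := 1) (x := 216) (y := 16) (z0 := 242) (z1 := 242) t5_1_216_16 (by decide) (by decide)

theorem t6_1_698_18 : S 6 1 698 18 :=
  S.caseA1 (w := 5) (a := 1) (x := 214) (y := 18) (z0 := 242) (z1 := 242) t5_1_214_18 (by decide) (by decide)

theorem t6_2_699_2 : S 6 2 699 2 :=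
  S.caseA1 (w := 5) (a := 2) (x := 217) (y := 2) (z0 := 241) (z1 := 241) t5_2_217_2 (by decide) (by decide)

theorem t6_2_697_4 : S 6 2 697 4 :=
  S.caseA1 (w := 5) (a := 2) (x := 215) (y := 4) (z0 := 241) (z1 := 241) t5_2_215_4 (by decide) (by decide)

theorem t6_2_694_7 : S 6 2 694 7 :=
  S.caseA1 (w := 5) (a := 2) (x := 212) (y := 7) (z0 := 241) (z1 := 241) t5_2_212_7 (by decide) (by decide)

theorem t6_2_692_9 : S 6 2 692 9 :=
  S.caseA1 (w := 5) (a := 2) (x := 210) (y := 9) (z0 := 241) (z1 := 241) t5_2_210_9 (by decide) (by decide)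

theorem t6_3_688_2 : S 6 3 688 2 :=
  S.caseA1 (w := 5) (a := 3) (x := 208) (y := 2) (z0 := 240) (z1 := 240) t5_3_208_2 (by decide) (by decide)

theorem t6_3_686_4 : S 6 3 686 4 :=
  S.caseA1 (w := 5) (a := 3) (x := 206) (y := 4) (z0 := 240) (z1 := 240) t5_3_206_4 (by decide) (by decide)

theorem t6_3_678_9 : S 6 3 678 9 :=
  S.caseA1 (w := 5) (a := 3) (x := 198) (y := 9) (z0 := 240) (z1 := 240) t5_3_198_9 (by decide) (by decide)

theorem t6_4_671_4 : S 6 4 671 4 :=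
  S.caseA1 (w := 5) (a := 4) (x := 193) (y := 4) (z0 := 239) (z1 := 239) t5_4_193_4 (by decide) (by decide)

theorem t6_4_664_9 : S 6 4 664 9 :=
  S.caseA1 (w := 5) (a := 4) (x := 186) (y := 9) (z0 := 239) (z1 := 239) t5_4_186_9 (by decide) (by decide)

theorem t6_4_659_16 : S 6 4 659 16 :=
  S.caseA1 (w := 5) (a := 4) (x := 181) (y := 16) (z0 := 239) (z1 := 239) t5_4_181_16 (by decide) (by decide)

theorem t6_5_660_4 : S 6 5 660 4 :=
  S.caseA1 (w := 5) (a := 5) (x := 184) (y := 4) (z0 := 238) (z1 := 238) t5_5_184_4 (by decide) (by decide)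

theorem t6_5_654_7 : S 6 5 654 7 :=
  S.caseA1 (w := 5) (a := 5) (x := 178) (y := 7) (z0 := 238) (z1 := 238) t5_5_178_7 (by decide) (by decide)

theorem t6_5_650_11 : S 6 5 650 11 :=
  S.caseA1 (w := 5) (a := 5) (x := 174) (y := 11) (z0 := 238) (z1 := 238) t5_5_174_11 (by decide) (by decide)

theorem t6_5_648_16 : S 6 5 648 16 :=
  S.caseA1 (w := 5) (a := 5) (x := 172) (y := 16) (z0 := 238) (z1 := 238) t5_5_172_16 (by decide) (by decide)

theorem t6_6_647_2 : S 6 6 647 2 :=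
  S.caseA1 (w := 5) (a := 6) (x := 173) (y := 2) (z0 := 237) (z1 := 237) t5_6_173_2 (by decide) (by decide)

theorem t6_6_645_4 : S 6 6 645 4 :=
  S.caseA1 (w := 5) (a := 6) (x := 171) (y := 4) (z0 := 237) (z1 := 237) t5_6_171_4 (by decide) (by decide)

theorem t6_6_638_7 : S 6 6 638 7 :=
  S.caseA1 (w := 5) (a := 6) (x := 164) (y := 7) (z0 := 237) (z1 := 237) t5_6_164_7 (by decide) (by decide)

theorem t6_6_636_9 : S 6 6 636 9 :=
  S.caseA1 (w := 5) (a := 6) (x := 162) (y := 9) (z0 := 237) (z1 := 237) t5_6_162_9 (by decide) (by decide)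

theorem t6_6_633_12 : S 6 6 633 12 :=
  S.caseA1 (w := 5) (a := 6) (x := 159) (y := 12) (z0 := 237) (z1 := 237) t5_6_159_12 (by decide) (by decide)

theorem t6_6_631_14 : S 6 6 631 14 :=
  S.caseA1 (w := 5) (a := 6) (x := 157) (y := 14) (z0 := 237) (z1 := 237) t5_6_157_14 (by decide) (by decide)

theorem t6_7_634_2 : S 6 7 634 2 :=
  S.caseA1 (w := 5) (a := 7) (x := 162) (y := 2) (z0 := 236) (z1 := 236) t5_7_162_2 (by decide) (by decide)

theorem t6_7_632_4 : S 6 7 632 4 :=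
  S.caseA1 (w := 5) (a := 7) (x := 160) (y := 4) (z0 := 236) (z1 := 236) t5_7_160_4 (by decide) (by decide)

theorem t6_7_624_12 : S 6 7 624 12 :=
  S.caseA1 (w := 5) (a := 7) (x := 152) (y := 12) (z0 := 236) (z1 := 236) t5_7_152_12 (by decide) (by decide)

theorem t6_8_607_14 : S 6 8 607 14 :=
  S.caseA1 (w := 5) (a := 8) (x := 137) (y := 14) (z0 := 235) (z1 := 235) t5_8_137_14 (by decide) (by decide)

theorem t6_9_596_14 : S 6 9 596 14 :=
  S.caseA1 (w := 5) (a := 9) (x := 128) (y := 14) (z0 := 234) (z1 := 234) t5_9_128_14 (by decide) (by decide)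

theorem t6_10_580_12 : S 6 10 580 12 :=
  S.caseA1 (w := 5) (a := 10) (x := 114) (y := 12) (z0 := 233) (z1 := 233) t5_10_114_12 (by decide) (by decide)

theorem t6_11_568_12 : S 6 11 568 12 :=
  S.caseA1 (w := 5) (a := 11) (x := 104) (y := 12) (z0 := 232) (z1 := 232) t5_11_104_12 (by decide) (by decide)

theorem t6_12_557_4 : S 6 12 557 4 :=
  S.caseA1 (w := 5) (a := 12) (x := 95) (y := 4) (z0 := 231) (z1 := 231) t5_12_95_4 (by decide) (by decide)

theorem t6_13_542_4 : S 6 13 542 4 :=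
  S.caseA1 (w := 5) (a := 13) (x := 82) (y := 4) (z0 := 230) (z1 := 230) t5_13_82_4 (by decide) (by decide)

theorem t6_13_534_14 : S 6 13 534 14 :=
  S.caseA1 (w := 5) (a := 13) (x := 74) (y := 14) (z0 := 230) (z1 := 230) t5_13_74_14 (by decide) (by decide)

theorem t6_14_529_4 : S 6 14 529 4 :=
  S.caseA1 (w := 5) (a := 14) (x := 71) (y := 4) (z0 := 229) (z1 := 229) t5_14_71_4 (by decide) (by decide)

theorem t6_14_525_8 : S 6 14 525 8 :=
  S.caseA1 (w := 5) (a := 14) (x := 67) (y := 8) (z0 := 229) (z1 := 229) t5_14_67_8 (by decide) (by decide)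

theorem t6_15_516_4 : S 6 15 516 4 :=
  S.caseA1 (w := 5) (a := 15) (x := 60) (y := 4) (z0 := 228) (z1 := 228) t5_15_60_4 (by decide) (by decide)

theorem t6_15_512_8 : S 6 15 512 8 :=
  S.caseA1 (w := 5) (a := 15) (x := 56) (y := 8) (z0 := 228) (z1 := 228) t5_15_56_8 (by decide) (by decide)

theorem t6_16_503_4 : S 6 16 503 4 :=
  S.caseA1 (w := 5) (a := 16) (x := 49) (y := 4) (z0 := 227) (z1 := 227) t5_16_49_4 (by decide) (by decide)

theorem t6_17_492_4 : S 6 17 492 4 :=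
  S.caseA1 (w := 5) (a := 17) (x := 40) (y := 4) (z0 := 226) (z1 := 226) t5_17_40_4 (by decide) (by decide)

theorem t6_18_481_4 : S 6 18 481 4 :=
  S.caseA1 (w := 5) (a := 18) (x := 31) (y := 4) (z0 := 225) (z1 := 225) t5_18_31_4 (by decide) (by decide)

theorem t6_19_472_4 : S 6 19 472 4 :=
  S.caseA1 (w := 5) (a := 19) (x := 24) (y := 4) (z0 := 224) (z1 := 224) t5_19_24_4 (by decide) (by decide)

theorem t6_20_455_2 : S 6 20 455 2 :=
  S.caseA1 (w := 5) (a := 20) (x := 9) (y := 2) (z0 := 223) (z1 := 223) t5_20_9_2 (by decide) (by decide)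

end Pool.Agent.R89.Coin
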