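import Pool.Agent.R89.Coin.Main2
import Pool.Agent.R89.Coin.Tab6_0
import Pool.Agent.R89.Coin.Tab6_1
import Pool.Agent.R89.Coin.Tab6_2
import Pool.Agent.R89.Coin.Tab6_3

/-! The base of the induction (MP_a3b474_co), from the generated tables. -/

namespace Pool.Agent.R89.Coin

theorem h6_1 (x y : ℕ) (h : x + y ≤ 695) (hyx : y ≤ x) : S 6 1 x y := by
  by_cases g0 : y ≤ 20
  · exact t6_1_696_20.m (by omega) (by omega)
  by_cases g1 : y ≤ 42
  · exact t6_1_674_42.m (by omega) (by omega)
  by_cases g2 : y ≤ 64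
  · exact t6_1_652_64.m (by omega) (by omega)
  by_cases g3 : y ≤ 84
  · exact t6_1_632_84.m (by omega) (by omega)
  by_cases g4 : y ≤ 106
  · exact t6_1_610_106.m (by omega) (by omega)
  by_cases g5 : y ≤ 126
  · exact t6_1_590_126.m (by omega) (by omega)
  by_cases g6 : y ≤ 148
  · exact t6_1_568_148.m (by omega) (by omega)
  by_cases g7 : y ≤ 170
  · exact t6_1_546_170.m (by omega) (by omega)
  by_cases g8 : y ≤ 190
  · exact t6_1_526_190.m (by omega) (by omega)
  by_cases g9 : y ≤ 212
  · exact t6_1_504_212.m (by omega) (by omega)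
  by_cases g10 : y ≤ 232
  · exact t6_1_484_232.m (by omega) (by omega)
  by_cases g11 : y ≤ 254
  · exact t6_1_462_254.m (by omega) (by omega)
  by_cases g12 : y ≤ 276
  · exact t6_1_440_276.m (by omega) (by omega)
  by_cases g13 : y ≤ 298
  · exact t6_1_418_298.m (by omega) (by omega)
  by_cases g14 : y ≤ 314
  · exact t6_1_402_314.m (by omega) (by omega)
  by_cases g15 : y ≤ 334
  · exact t6_1_382_334.m (by omega) (by omega)
  exact t6_1_360_356.m (by omega) (by omega)

theorem h6_2 (x y : ℕ) (h : x + y ≤ 681) (hyx : y ≤ x) : S 6 2 x y := by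
  by_cases g0 : y ≤ 18
  · exact t6_2_683_18.m (by omega) (by omega)
  by_cases g1 : y ≤ 36
  · exact t6_2_665_36.m (by omega) (by omega)
  by_cases g2 : y ≤ 57
  · exact t6_2_644_57.m (by omega) (by omega)
  by_cases g3 : y ≤ 70
  · exact t6_2_631_70.m (by omega) (by omega)
  by_cases g4 : y ≤ 88
  · exact t6_2_613_88.m (by omega) (by omega)
  by_cases g5 : y ≤ 108
  · exact t6_2_593_108.m (by omega) (by omega)
  by_cases g6 : y ≤ 122
  · exact t6_2_579_122.m (by omega) (by omega)
  by_cases g7 : y ≤ 140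
  · exact t6_2_561_140.m (by omega) (by omega)
  by_cases g8 : y ≤ 160
  · exact t6_2_541_160.m (by omega) (by omega)
  by_cases g9 : y ≤ 176
  · exact t6_2_525_176.m (by omega) (by omega)
  by_cases g10 : y ≤ 194
  · exact t6_2_507_194.m (by omega) (by omega)
  by_cases g11 : y ≤ 215
  · exact t6_2_486_215.m (by omega) (by omega)
  by_cases g12 : y ≤ 230
  · exact t6_2_471_230.m (by omega) (by omega)
  by_cases g13 : y ≤ 250
  · exact t6_2_451_250.m (by omega) (by omega)
  by_cases g14 : y ≤ 270
  · exact t6_2_431_270.m (by omega) (by omega)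
  by_cases g15 : y ≤ 284
  · exact t6_2_417_284.m (by omega) (by omega)
  by_cases g16 : y ≤ 300
  · exact t6_2_401_300.m (by omega) (by omega)
  by_cases g17 : y ≤ 320
  · exact t6_2_381_320.m (by omega) (by omega)
  by_cases g18 : y ≤ 338
  · exact t6_2_363_338.m (by omega) (by omega)
  exact t6_2_356_345.n (by omega) (by omega)

theorem h6_3 (x y : ℕ) (h : x + y ≤ 667) (hyx : y ≤ x) : S 6 3 x y := by
  by_cases g0 : y ≤ 18
  · exact t6_3_672_18.m (by omega) (by omega)
  by_cases g1 : y ≤ 36
  · exact t6_3_654_36.m (by omega) (by omega)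
  by_cases g2 : y ≤ 52
  · exact t6_3_638_52.m (by omega) (by omega)
  by_cases g3 : y ≤ 70
  · exact t6_3_620_70.m (by omega) (by omega)
  by_cases g4 : y ≤ 87
  · exact t6_3_600_87.m (by omega) (by omega)
  by_cases g5 : y ≤ 106
  · exact t6_3_584_106.m (by omega) (by omega)
  by_cases g6 : y ≤ 130
  · exact t6_3_560_130.m (by omega) (by omega)
  by_cases g7 : y ≤ 148
  · exact t6_3_539_148.m (by omega) (by omega)
  by_cases g8 : y ≤ 165
  · exact t6_3_522_165.m (by omega) (by omega)
  by_cases g9 : y ≤ 184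
  · exact t6_3_506_184.m (by omega) (by omega)
  by_cases g10 : y ≤ 208
  · exact t6_3_482_208.m (by omega) (by omega)
  by_cases g11 : y ≤ 230
  · exact t6_3_460_230.m (by omega) (by omega)
  by_cases g12 : y ≤ 249
  · exact t6_3_438_249.m (by omega) (by omega)
  by_cases g13 : y ≤ 268
  · exact t6_3_422_268.m (by omega) (by omega)
  by_cases g14 : y ≤ 292
  · exact t6_3_398_292.m (by omega) (by omega)
  by_cases g15 : y ≤ 310
  · exact t6_3_380_310.m (by omega) (by omega)
  by_cases g16 : y ≤ 327
  · exact t6_3_360_327.m (by omega) (by omega)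
  exact t6_3_346_344.n (by omega) (by omega)

theorem h6_4 (x y : ℕ) (h : x + y ≤ 653) (hyx : y ≤ x) : S 6 4 x y := by
  by_cases g0 : y ≤ 20
  · exact t6_4_655_20.m (by omega) (by omega)
  by_cases g1 : y ≤ 39
  · exact t6_4_636_39.m (by omega) (by omega)
  by_cases g2 : y ≤ 59
  · exact t6_4_614_59.m (by omega) (by omega)
  by_cases g3 : y ≤ 81
  · exact t6_4_594_81.m (by omega) (by omega)
  by_cases g4 : y ≤ 104
  · exact t6_4_571_104.m (by omega) (by omega)
  by_cases g5 : y ≤ 120
  · exact t6_4_555_120.m (by omega) (by omega)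
  by_cases g6 : y ≤ 136
  · exact t6_4_537_136.m (by omega) (by omega)
  by_cases g7 : y ≤ 158
  · exact t6_4_517_158.m (by omega) (by omega)
  by_cases g8 : y ≤ 181
  · exact t6_4_494_181.m (by omega) (by omega)
  by_cases g9 : y ≤ 193
  · exact t6_4_482_193.m (by omega) (by omega)
  by_cases g10 : y ≤ 208
  · exact t6_4_467_208.m (by omega) (by omega)
  by_cases g11 : y ≤ 228
  · exact t6_4_447_228.m (by omega) (by omega)
  by_cases g12 : y ≤ 248
  · exact t6_4_425_248.m (by omega) (by omega)
  by_cases g13 : y ≤ 266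
  · exact t6_4_409_266.m (by omega) (by omega)
  by_cases g14 : y ≤ 278
  · exact t6_4_397_278.m (by omega) (by omega)
  by_cases g15 : y ≤ 298
  · exact t6_4_375_298.m (by omega) (by omega)
  by_cases g16 : y ≤ 320
  · exact t6_4_355_320.m (by omega) (by omega)
  exact t6_4_343_332.n (by omega) (by omega)

theorem h6_5 (x y : ℕ) (h : x + y ≤ 639) (hyx : y ≤ x) : S 6 5 x y := by
  by_cases g0 : y ≤ 22
  · exact t6_5_639_22.m (by omega) (by omega)
  by_cases g1 : y ≤ 39
  · exact t6_5_620_39.m (by omega) (by omega)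
  by_cases g2 : y ≤ 57
  · exact t6_5_604_57.m (by omega) (by omega)
  by_cases g3 : y ≤ 80
  · exact t6_5_584_80.m (by omega) (by omega)
  by_cases g4 : y ≤ 102
  · exact t6_5_559_102.m (by omega) (by omega)
  by_cases g5 : y ≤ 120
  · exact t6_5_544_120.m (by omega) (by omega)
  by_cases g6 : y ≤ 136
  · exact t6_5_528_136.m (by omega) (by omega)
  by_cases g7 : y ≤ 159
  · exact t6_5_502_159.m (by omega) (by omega)
  by_cases g8 : y ≤ 184
  · exact t6_5_480_184.m (by omega) (by omega)
  by_cases g9 : y ≤ 208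
  · exact t6_5_456_208.m (by omega) (by omega)
  by_cases g10 : y ≤ 228
  · exact t6_5_436_228.m (by omega) (by omega)
  by_cases g11 : y ≤ 254
  · exact t6_5_410_254.m (by omega) (by omega)
  by_cases g12 : y ≤ 270
  · exact t6_5_394_270.m (by omega) (by omega)
  by_cases g13 : y ≤ 290
  · exact t6_5_374_290.m (by omega) (by omega)
  by_cases g14 : y ≤ 306
  · exact t6_5_358_306.m (by omega) (by omega)
  exact t6_5_334_330.m (by omega) (by omega)

theorem h6_6 (x y : ℕ) (h : x + y ≤ 625) (hyx : y ≤ x) : S 6 6 x y := by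
  by_cases g0 : y ≤ 23
  · exact t6_6_626_23.m (by omega) (by omega)
  by_cases g1 : y ≤ 39
  · exact t6_6_606_39.m (by omega) (by omega)
  by_cases g2 : y ≤ 57
  · exact t6_6_588_57.m (by omega) (by omega)
  by_cases g3 : y ≤ 79
  · exact t6_6_570_79.m (by omega) (by omega)
  by_cases g4 : y ≤ 100
  · exact t6_6_549_100.m (by omega) (by omega)
  by_cases g5 : y ≤ 125
  · exact t6_6_524_125.m (by omega) (by omega)
  by_cases g6 : y ≤ 139
  · exact t6_6_506_139.m (by omega) (by omega)
  by_cases g7 : y ≤ 159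
  · exact t6_6_486_159.m (by omega) (by omega)
  by_cases g8 : y ≤ 173
  · exact t6_6_476_173.m (by omega) (by omega)
  by_cases g9 : y ≤ 193
  · exact t6_6_452_193.m (by omega) (by omega)
  by_cases g10 : y ≤ 206
  · exact t6_6_443_206.m (by omega) (by omega)
  by_cases g11 : y ≤ 224
  · exact t6_6_421_224.m (by omega) (by omega)
  by_cases g12 : y ≤ 244
  · exact t6_6_401_244.m (by omega) (by omega)
  by_cases g13 : y ≤ 260
  · exact t6_6_389_260.m (by omega) (by omega)
  by_cases g14 : y ≤ 276
  · exact t6_6_369_276.m (by omega) (by omega)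
  by_cases g15 : y ≤ 294
  · exact t6_6_351_294.m (by omega) (by omega)
  exact t6_6_333_316.m (by omega) (by omega)

theorem h6_7 (x y : ℕ) (h : x + y ≤ 611) (hyx : y ≤ x) : S 6 7 x y := by
  by_cases g0 : y ≤ 14
  · exact t6_7_622_14.m (by omega) (by omega)
  by_cases g1 : y ≤ 39
  · exact t6_7_596_39.m (by omega) (by omega)
  by_cases g2 : y ≤ 64
  · exact t6_7_572_64.m (by omega) (by omega)
  by_cases g3 : y ≤ 89
  · exact t6_7_546_89.m (by omega) (by omega)
  by_cases g4 : y ≤ 114
  · exact t6_7_522_114.m (by omega) (by omega)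
  by_cases g5 : y ≤ 128
  · exact t6_7_504_128.m (by omega) (by omega)
  by_cases g6 : y ≤ 152
  · exact t6_7_484_152.m (by omega) (by omega)
  by_cases g7 : y ≤ 173
  · exact t6_7_460_173.m (by omega) (by omega)
  by_cases g8 : y ≤ 193
  · exact t6_7_442_193.m (by omega) (by omega)
  by_cases g9 : y ≤ 212
  · exact t6_7_420_212.m (by omega) (by omega)
  by_cases g10 : y ≤ 238
  · exact t6_7_398_238.m (by omega) (by omega)
  by_cases g11 : y ≤ 259
  · exact t6_7_374_259.m (by omega) (by omega)
  by_cases g12 : y ≤ 275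
  · exact t6_7_360_275.m (by omega) (by omega)
  by_cases g13 : y ≤ 300
  · exact t6_7_336_300.m (by omega) (by omega)
  exact t6_7_325_310.n (by omega) (by omega)

theorem h6_8 (x y : ℕ) (h : x + y ≤ 597) (hyx : y ≤ x) : S 6 8 x y := by
  by_cases g0 : y ≤ 23
  · exact t6_8_598_23.m (by omega) (by omega)
  by_cases g1 : y ≤ 42
  · exact t6_8_575_42.m (by omega) (by omega)
  by_cases g2 : y ≤ 64
  · exact t6_8_557_64.m (by omega) (by omega)
  by_cases g3 : y ≤ 87
  · exact t6_8_534_87.m (by omega) (by omega)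
  by_cases g4 : y ≤ 112
  · exact t6_8_509_112.m (by omega) (by omega)
  by_cases g5 : y ≤ 137
  · exact t6_8_484_137.m (by omega) (by omega)
  by_cases g6 : y ≤ 162
  · exact t6_8_459_162.m (by omega) (by omega)
  by_cases g7 : y ≤ 184
  · exact t6_8_436_184.m (by omega) (by omega)
  by_cases g8 : y ≤ 198
  · exact t6_8_419_198.m (by omega) (by omega)
  by_cases g9 : y ≤ 212
  · exact t6_8_408_212.m (by omega) (by omega)
  by_cases g10 : y ≤ 235
  · exact t6_8_386_235.m (by omega) (by omega)
  by_cases g11 : y ≤ 258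
  · exact t6_8_363_258.m (by omega) (by omega)
  by_cases g12 : y ≤ 277
  · exact t6_8_340_277.m (by omega) (by omega)
  exact t6_8_322_299.m (by omega) (by omega)

theorem h6_9 (x y : ℕ) (h : x + y ≤ 583) (hyx : y ≤ x) : S 6 9 x y := by
  by_cases g0 : y ≤ 21
  · exact t6_9_586_21.m (by omega) (by omega)
  by_cases g1 : y ≤ 42
  · exact t6_9_564_42.m (by omega) (by omega)
  by_cases g2 : y ≤ 68
  · exact t6_9_540_68.m (by omega) (by omega)
  by_cases g3 : y ≤ 86
  · exact t6_9_522_86.m (by omega) (by omega)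
  by_cases g4 : y ≤ 108
  · exact t6_9_500_108.m (by omega) (by omega)
  by_cases g5 : y ≤ 128
  · exact t6_9_482_128.m (by omega) (by omega)
  by_cases g6 : y ≤ 137
  · exact t6_9_458_137.m (by omega) (by omega)
  by_cases g7 : y ≤ 162
  · exact t6_9_448_162.m (by omega) (by omega)
  by_cases g8 : y ≤ 184
  · exact t6_9_424_184.m (by omega) (by omega)
  by_cases g9 : y ≤ 198
  · exact t6_9_408_198.m (by omega) (by omega)
  by_cases g10 : y ≤ 224
  · exact t6_9_386_224.m (by omega) (by omega)
  by_cases g11 : y ≤ 248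
  · exact t6_9_362_248.m (by omega) (by omega)
  by_cases g12 : y ≤ 266
  · exact t6_9_342_266.m (by omega) (by omega)
  by_cases g13 : y ≤ 288
  · exact t6_9_320_288.m (by omega) (by omega)
  exact t6_9_312_298.n (by omega) (by omega)

theorem h6_10 (x y : ℕ) (h : x + y ≤ 569) (hyx : y ≤ x) : S 6 10 x y := by
  by_cases g0 : y ≤ 21
  · exact t6_10_570_21.m (by omega) (by omega)
  by_cases g1 : y ≤ 42
  · exact t6_10_549_42.m (by omega) (by omega)
  by_cases g2 : y ≤ 64
  · exact t6_10_528_64.m (by omega) (by omega)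
  by_cases g3 : y ≤ 83
  · exact t6_10_508_83.m (by omega) (by omega)
  by_cases g4 : y ≤ 104
  · exact t6_10_487_104.m (by omega) (by omega)
  by_cases g5 : y ≤ 114
  · exact t6_10_478_114.m (by omega) (by omega)
  by_cases g6 : y ≤ 128
  · exact t6_10_455_128.m (by omega) (by omega)
  by_cases g7 : y ≤ 137
  · exact t6_10_444_137.m (by omega) (by omega)
  by_cases g8 : y ≤ 160
  · exact t6_10_432_160.m (by omega) (by omega)
  by_cases g9 : y ≤ 178
  · exact t6_10_411_178.m (by omega) (by omega)
  by_cases g10 : y ≤ 198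
  · exact t6_10_393_198.m (by omega) (by omega)
  by_cases g11 : y ≤ 222
  · exact t6_10_370_222.m (by omega) (by omega)
  by_cases g12 : y ≤ 245
  · exact t6_10_347_245.m (by omega) (by omega)
  by_cases g13 : y ≤ 265
  · exact t6_10_325_265.m (by omega) (by omega)
  exact t6_10_304_287.m (by omega) (by omega)

theorem h6_11 (x y : ℕ) (h : x + y ≤ 555) (hyx : y ≤ x) : S 6 11 x y := by
  by_cases g0 : y ≤ 14
  · exact t6_11_560_14.m (by omega) (by omega)
  by_cases g1 : y ≤ 32
  · exact t6_11_546_32.m (by omega) (by omega)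
  by_cases g2 : y ≤ 54
  · exact t6_11_526_54.m (by omega) (by omega)
  by_cases g3 : y ≤ 74
  · exact t6_11_506_74.m (by omega) (by omega)
  by_cases g4 : y ≤ 88
  · exact t6_11_490_88.m (by omega) (by omega)
  by_cases g5 : y ≤ 104
  · exact t6_11_476_104.m (by omega) (by omega)
  by_cases g6 : y ≤ 114
  · exact t6_11_454_114.m (by omega) (by omega)
  by_cases g7 : y ≤ 128
  · exact t6_11_444_128.m (by omega) (by omega)
  by_cases g8 : y ≤ 137
  · exact t6_11_432_137.m (by omega) (by omega)
  by_cases g9 : y ≤ 160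
  · exact t6_11_420_160.m (by omega) (by omega)
  by_cases g10 : y ≤ 178
  · exact t6_11_400_178.m (by omega) (by omega)
  by_cases g11 : y ≤ 198
  · exact t6_11_382_198.m (by omega) (by omega)
  by_cases g12 : y ≤ 222
  · exact t6_11_358_222.m (by omega) (by omega)
  by_cases g13 : y ≤ 244
  · exact t6_11_336_244.m (by omega) (by omega)
  by_cases g14 : y ≤ 264
  · exact t6_11_314_264.m (by omega) (by omega)
  exact t6_11_294_286.m (by omega) (by omega)

theorem h6_12 (x y : ℕ) (h : x + y ≤ 541) (hyx : y ≤ x) : S 6 12 x y := by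
  by_cases g0 : y ≤ 14
  · exact t6_12_548_14.m (by omega) (by omega)
  by_cases g1 : y ≤ 32
  · exact t6_12_530_32.m (by omega) (by omega)
  by_cases g2 : y ≤ 43
  · exact t6_12_514_43.m (by omega) (by omega)
  by_cases g3 : y ≤ 60
  · exact t6_12_502_60.m (by omega) (by omega)
  by_cases g4 : y ≤ 74
  · exact t6_12_488_74.m (by omega) (by omega)
  by_cases g5 : y ≤ 95
  · exact t6_12_466_95.m (by omega) (by omega)
  by_cases g6 : y ≤ 104
  · exact t6_12_451_104.m (by omega) (by omega)
  by_cases g7 : y ≤ 114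
  · exact t6_12_440_114.m (by omega) (by omega)
  by_cases g8 : y ≤ 128
  · exact t6_12_429_128.m (by omega) (by omega)
  by_cases g9 : y ≤ 137
  · exact t6_12_418_137.m (by omega) (by omega)
  by_cases g10 : y ≤ 152
  · exact t6_12_409_152.m (by omega) (by omega)
  by_cases g11 : y ≤ 164
  · exact t6_12_398_164.m (by omega) (by omega)
  by_cases g12 : y ≤ 186
  · exact t6_12_376_186.m (by omega) (by omega)
  by_cases g13 : y ≤ 201
  · exact t6_12_356_201.m (by omega) (by omega)
  by_cases g14 : y ≤ 220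
  · exact t6_12_342_220.m (by omega) (by omega)
  by_cases g15 : y ≤ 235
  · exact t6_12_326_235.m (by omega) (by omega)
  by_cases g16 : y ≤ 257
  · exact t6_12_305_257.m (by omega) (by omega)
  exact t6_12_283_274.m (by omega) (by omega)

theorem h6_13 (x y : ℕ) (h : x + y ≤ 527) (hyx : y ≤ x) : S 6 13 x y := by
  by_cases g0 : y ≤ 18
  · exact t6_13_528_18.m (by omega) (by omega)
  by_cases g1 : y ≤ 32
  · exact t6_13_514_32.m (by omega) (by omega)
  by_cases g2 : y ≤ 46
  · exact t6_13_496_46.m (by omega) (by omega)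
  by_cases g3 : y ≤ 64
  · exact t6_13_482_64.m (by omega) (by omega)
  by_cases g4 : y ≤ 82
  · exact t6_13_464_82.m (by omega) (by omega)
  by_cases g5 : y ≤ 95
  · exact t6_13_450_95.m (by omega) (by omega)
  by_cases g6 : y ≤ 104
  · exact t6_13_440_104.m (by omega) (by omega)
  by_cases g7 : y ≤ 114
  · exact t6_13_422_114.m (by omega) (by omega)
  by_cases g8 : y ≤ 128
  · exact t6_13_416_128.m (by omega) (by omega)
  by_cases g9 : y ≤ 137
  · exact t6_13_406_137.m (by omega) (by omega)
  by_cases g10 : y ≤ 152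
  · exact t6_13_394_152.m (by omega) (by omega)
  by_cases g11 : y ≤ 164
  · exact t6_13_384_164.m (by omega) (by omega)
  by_cases g12 : y ≤ 174
  · exact t6_13_372_174.m (by omega) (by omega)
  by_cases g13 : y ≤ 186
  · exact t6_13_360_186.m (by omega) (by omega)
  by_cases g14 : y ≤ 192
  · exact t6_13_350_192.m (by omega) (by omega)
  by_cases g15 : y ≤ 201
  · exact t6_13_338_201.m (by omega) (by omega)
  by_cases g16 : y ≤ 220
  · exact t6_13_328_220.m (by omega) (by omega)
  by_cases g17 : y ≤ 234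
  · exact t6_13_312_234.m (by omega) (by omega)
  by_cases g18 : y ≤ 252
  · exact t6_13_294_252.m (by omega) (by omega)
  exact t6_13_276_266.m (by omega) (by omega)

theorem h6_14 (x y : ℕ) (h : x + y ≤ 513) (hyx : y ≤ x) : S 6 14 x y := by
  by_cases g0 : y ≤ 16
  · exact t6_14_514_16.m (by omega) (by omega)
  by_cases g1 : y ≤ 27
  · exact t6_14_502_27.m (by omega) (by omega)
  by_cases g2 : y ≤ 44
  · exact t6_14_485_44.m (by omega) (by omega)
  by_cases g3 : y ≤ 60
  · exact t6_14_470_60.m (by omega) (by omega)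
  by_cases g4 : y ≤ 71
  · exact t6_14_462_71.m (by omega) (by omega)
  by_cases g5 : y ≤ 82
  · exact t6_14_445_82.m (by omega) (by omega)
  by_cases g6 : y ≤ 95
  · exact t6_14_432_95.m (by omega) (by omega)
  by_cases g7 : y ≤ 104
  · exact t6_14_421_104.m (by omega) (by omega)
  by_cases g8 : y ≤ 114
  · exact t6_14_410_114.m (by omega) (by omega)
  by_cases g9 : y ≤ 128
  · exact t6_14_403_128.m (by omega) (by omega)
  by_cases g10 : y ≤ 137
  · exact t6_14_391_137.m (by omega) (by omega)
  by_cases g11 : y ≤ 152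
  · exact t6_14_381_152.m (by omega) (by omega)
  by_cases g12 : y ≤ 162
  · exact t6_14_368_162.m (by omega) (by omega)
  by_cases g13 : y ≤ 174
  · exact t6_14_357_174.m (by omega) (by omega)
  by_cases g14 : y ≤ 181
  · exact t6_14_348_181.m (by omega) (by omega)
  by_cases g15 : y ≤ 192
  · exact t6_14_336_192.m (by omega) (by omega)
  by_cases g16 : y ≤ 201
  · exact t6_14_326_201.m (by omega) (by omega)
  by_cases g17 : y ≤ 216
  · exact t6_14_314_216.m (by omega) (by omega)
  by_cases g18 : y ≤ 237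
  · exact t6_14_296_237.m (by omega) (by omega)
  by_cases g19 : y ≤ 251
  · exact t6_14_278_251.m (by omega) (by omega)
  exact t6_14_265_263.n (by omega) (by omega)

theorem h6_15 (x y : ℕ) (h : x + y ≤ 499) (hyx : y ≤ x) : S 6 15 x y := by
  by_cases g0 : y ≤ 22
  · exact t6_15_500_22.m (by omega) (by omega)
  by_cases g1 : y ≤ 44
  · exact t6_15_478_44.m (by omega) (by omega)
  by_cases g2 : y ≤ 60
  · exact t6_15_460_60.m (by omega) (by omega)
  by_cases g3 : y ≤ 71
  · exact t6_15_444_71.m (by omega) (by omega)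
  by_cases g4 : y ≤ 82
  · exact t6_15_432_82.m (by omega) (by omega)
  by_cases g5 : y ≤ 95
  · exact t6_15_420_95.m (by omega) (by omega)
  by_cases g6 : y ≤ 104
  · exact t6_15_409_104.m (by omega) (by omega)
  by_cases g7 : y ≤ 114
  · exact t6_15_402_114.m (by omega) (by omega)
  by_cases g8 : y ≤ 128
  · exact t6_15_390_128.m (by omega) (by omega)
  by_cases g9 : y ≤ 137
  · exact t6_15_380_137.m (by omega) (by omega)
  by_cases g10 : y ≤ 152
  · exact t6_15_368_152.m (by omega) (by omega)
  by_cases g11 : y ≤ 174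
  · exact t6_15_348_174.m (by omega) (by omega)
  by_cases g12 : y ≤ 192
  · exact t6_15_326_192.m (by omega) (by omega)
  by_cases g13 : y ≤ 201
  · exact t6_15_314_201.m (by omega) (by omega)
  by_cases g14 : y ≤ 216
  · exact t6_15_304_216.m (by omega) (by omega)
  by_cases g15 : y ≤ 236
  · exact t6_15_284_236.m (by omega) (by omega)
  exact t6_15_262_255.m (by omega) (by omega)

theorem h6_16 (x y : ℕ) (h : x + y ≤ 485) (hyx : y ≤ x) : S 6 16 x y := by
  by_cases g0 : y ≤ 22
  · exact t6_16_485_22.m (by omega) (by omega)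
  by_cases g1 : y ≤ 44
  · exact t6_16_463_44.m (by omega) (by omega)
  by_cases g2 : y ≤ 60
  · exact t6_16_443_60.m (by omega) (by omega)
  by_cases g3 : y ≤ 71
  · exact t6_16_432_71.m (by omega) (by omega)
  by_cases g4 : y ≤ 82
  · exact t6_16_419_82.m (by omega) (by omega)
  by_cases g5 : y ≤ 95
  · exact t6_16_408_95.m (by omega) (by omega)
  by_cases g6 : y ≤ 114
  · exact t6_16_390_114.m (by omega) (by omega)
  by_cases g7 : y ≤ 128
  · exact t6_16_379_128.m (by omega) (by omega)
  by_cases g8 : y ≤ 137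
  · exact t6_16_368_137.m (by omega) (by omega)
  by_cases g9 : y ≤ 159
  · exact t6_16_348_159.m (by omega) (by omega)
  by_cases g10 : y ≤ 181
  · exact t6_16_326_181.m (by omega) (by omega)
  by_cases g11 : y ≤ 201
  · exact t6_16_304_201.m (by omega) (by omega)
  by_cases g12 : y ≤ 216
  · exact t6_16_289_216.m (by omega) (by omega)
  by_cases g13 : y ≤ 236
  · exact t6_16_271_236.m (by omega) (by omega)
  exact t6_16_258_249.n (by omega) (by omega)

theorem h6_17 (x y : ℕ) (h : x + y ≤ 471) (hyx : y ≤ x) : S 6 17 x y := by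
  by_cases g0 : y ≤ 24
  · exact t6_17_472_24.m (by omega) (by omega)
  by_cases g1 : y ≤ 40
  · exact t6_17_456_40.m (by omega) (by omega)
  by_cases g2 : y ≤ 60
  · exact t6_17_432_60.m (by omega) (by omega)
  by_cases g3 : y ≤ 71
  · exact t6_17_418_71.m (by omega) (by omega)
  by_cases g4 : y ≤ 82
  · exact t6_17_408_82.m (by omega) (by omega)
  by_cases g5 : y ≤ 104
  · exact t6_17_388_104.m (by omega) (by omega)
  by_cases g6 : y ≤ 128
  · exact t6_17_368_128.m (by omega) (by omega)
  by_cases g7 : y ≤ 152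
  · exact t6_17_344_152.m (by omega) (by omega)
  by_cases g8 : y ≤ 172
  · exact t6_17_324_172.m (by omega) (by omega)
  by_cases g9 : y ≤ 192
  · exact t6_17_304_192.m (by omega) (by omega)
  by_cases g10 : y ≤ 216
  · exact t6_17_280_216.m (by omega) (by omega)
  exact t6_17_257_235.m (by omega) (by omega)

theorem h6_18 (x y : ℕ) (h : x + y ≤ 457) (hyx : y ≤ x) : S 6 18 x y := by
  by_cases g0 : y ≤ 27
  · exact t6_18_458_27.m (by omega) (by omega)
  by_cases g1 : y ≤ 40
  · exact t6_18_439_40.m (by omega) (by omega)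
  by_cases g2 : y ≤ 60
  · exact t6_18_417_60.m (by omega) (by omega)
  by_cases g3 : y ≤ 74
  · exact t6_18_397_74.m (by omega) (by omega)
  by_cases g4 : y ≤ 86
  · exact t6_18_386_86.m (by omega) (by omega)
  by_cases g5 : y ≤ 104
  · exact t6_18_377_104.m (by omega) (by omega)
  by_cases g6 : y ≤ 128
  · exact t6_18_353_128.m (by omega) (by omega)
  by_cases g7 : y ≤ 152
  · exact t6_18_333_152.m (by omega) (by omega)
  by_cases g8 : y ≤ 181
  · exact t6_18_304_181.m (by omega) (by omega)
  by_cases g9 : y ≤ 201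
  · exact t6_18_280_201.m (by omega) (by omega)
  exact t6_18_256_229.m (by omega) (by omega)

theorem h6_19 (x y : ℕ) (h : x + y ≤ 443) (hyx : y ≤ x) : S 6 19 x y := by
  by_cases g0 : y ≤ 24
  · exact t6_19_452_24.m (by omega) (by omega)
  by_cases g1 : y ≤ 40
  · exact t6_19_428_40.m (by omega) (by omega)
  by_cases g2 : y ≤ 60
  · exact t6_19_406_60.m (by omega) (by omega)
  by_cases g3 : y ≤ 74
  · exact t6_19_386_74.m (by omega) (by omega)
  by_cases g4 : y ≤ 86
  · exact t6_19_376_86.m (by omega) (by omega)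
  by_cases g5 : y ≤ 104
  · exact t6_19_366_104.m (by omega) (by omega)
  by_cases g6 : y ≤ 128
  · exact t6_19_344_128.m (by omega) (by omega)
  by_cases g7 : y ≤ 152
  · exact t6_19_324_152.m (by omega) (by omega)
  by_cases g8 : y ≤ 172
  · exact t6_19_304_172.m (by omega) (by omega)
  by_cases g9 : y ≤ 192
  · exact t6_19_280_192.m (by omega) (by omega)
  by_cases g10 : y ≤ 214
  · exact t6_19_256_214.m (by omega) (by omega)
  exact t6_19_248_228.n (by omega) (by omega)

theorem h6_20 (x y : ℕ) (h : x + y ≤ 429) (hyx : y ≤ x) : S 6 20 x y := by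
  by_cases g0 : y ≤ 24
  · exact t6_20_435_24.m (by omega) (by omega)
  by_cases g1 : y ≤ 49
  · exact t6_20_404_49.m (by omega) (by omega)
  by_cases g2 : y ≤ 67
  · exact t6_20_384_67.m (by omega) (by omega)
  by_cases g3 : y ≤ 86
  · exact t6_20_364_86.m (by omega) (by omega)
  by_cases g4 : y ≤ 114
  · exact t6_20_344_114.m (by omega) (by omega)
  by_cases g5 : y ≤ 137
  · exact t6_20_322_137.m (by omega) (by omega)
  by_cases g6 : y ≤ 157
  · exact t6_20_300_157.m (by omega) (by omega)
  by_cases g7 : y ≤ 181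
  · exact t6_20_278_181.m (by omega) (by omega)
  by_cases g8 : y ≤ 212
  · exact t6_20_247_212.m (by omega) (by omega)
  exact t6_20_236_223.n (by omega) (by omega)

theorem h6_21 (x y : ℕ) (h : x + y ≤ 415) (hyx : y ≤ x) : S 6 21 x y := by
  by_cases g0 : y ≤ 24
  · exact t6_21_424_24.m (by omega) (by omega)
  by_cases g1 : y ≤ 44
  · exact t6_21_394_44.m (by omega) (by omega)
  by_cases g2 : y ≤ 67
  · exact t6_21_372_67.m (by omega) (by omega)
  by_cases g3 : y ≤ 86
  · exact t6_21_350_86.m (by omega) (by omega)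
  by_cases g4 : y ≤ 114
  · exact t6_21_329_114.m (by omega) (by omega)
  by_cases g5 : y ≤ 150
  · exact t6_21_300_150.m (by omega) (by omega)
  by_cases g6 : y ≤ 177
  · exact t6_21_265_177.m (by omega) (by omega)
  by_cases g7 : y ≤ 194
  · exact t6_21_246_194.m (by omega) (by omega)
  exact t6_21_226_224.n (by omega) (by omega)

theorem h6_22 (x y : ℕ) (h : x + y ≤ 401) (hyx : y ≤ x) : S 6 22 x y := by
  by_cases g0 : y ≤ 24
  · exact t6_22_405_24.m (by omega) (by omega)
  by_cases g1 : y ≤ 36
  · exact t6_22_389_36.m (by omega) (by omega)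
  by_cases g2 : y ≤ 44
  · exact t6_22_375_44.m (by omega) (by omega)
  by_cases g3 : y ≤ 67
  · exact t6_22_358_67.m (by omega) (by omega)
  by_cases g4 : y ≤ 86
  · exact t6_22_336_86.m (by omega) (by omega)
  by_cases g5 : y ≤ 114
  · exact t6_22_314_114.m (by omega) (by omega)
  by_cases g6 : y ≤ 137
  · exact t6_22_296_137.m (by omega) (by omega)
  by_cases g7 : y ≤ 168
  · exact t6_22_265_168.m (by omega) (by omega)
  by_cases g8 : y ≤ 194
  · exact t6_22_232_194.m (by omega) (by omega)
  exact t6_22_225_206.n (by omega) (by omega)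

theorem h6_23 (x y : ℕ) (h : x + y ≤ 387) (hyx : y ≤ x) : S 6 23 x y := by
  by_cases g0 : y ≤ 27
  · exact t6_23_388_27.m (by omega) (by omega)
  by_cases g1 : y ≤ 44
  · exact t6_23_362_44.m (by omega) (by omega)
  by_cases g2 : y ≤ 60
  · exact t6_23_348_60.m (by omega) (by omega)
  by_cases g3 : y ≤ 74
  · exact t6_23_336_74.m (by omega) (by omega)
  by_cases g4 : y ≤ 104
  · exact t6_23_312_104.m (by omega) (by omega)
  by_cases g5 : y ≤ 128
  · exact t6_23_296_128.m (by omega) (by omega)
  by_cases g6 : y ≤ 154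
  · exact t6_23_258_154.m (by omega) (by omega)
  by_cases g7 : y ≤ 184
  · exact t6_23_232_184.m (by omega) (by omega)
  exact t6_23_210_206.n (by omega) (by omega)

theorem h6_24 (x y : ℕ) (h : x + y ≤ 373) (hyx : y ≤ x) : S 6 24 x y := by
  by_cases g0 : y ≤ 27
  · exact t6_24_374_27.m (by omega) (by omega)
  by_cases g1 : y ≤ 49
  · exact t6_24_345_49.m (by omega) (by omega)
  by_cases g2 : y ≤ 60
  · exact t6_24_336_60.m (by omega) (by omega)
  by_cases g3 : y ≤ 74
  · exact t6_24_322_74.m (by omega) (by omega)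
  by_cases g4 : y ≤ 86
  · exact t6_24_308_86.m (by omega) (by omega)
  by_cases g5 : y ≤ 104
  · exact t6_24_286_104.m (by omega) (by omega)
  by_cases g6 : y ≤ 118
  · exact t6_24_273_118.m (by omega) (by omega)
  by_cases g7 : y ≤ 138
  · exact t6_24_255_138.m (by omega) (by omega)
  by_cases g8 : y ≤ 168
  · exact t6_24_239_168.m (by omega) (by omega)
  exact t6_24_206_197.m (by omega) (by omega)

theorem h6_25 (x y : ℕ) (h : x + y ≤ 359) (hyx : y ≤ x) : S 6 25 x y := by
  by_cases g0 : y ≤ 27
  · exact t6_25_362_27.m (by omega) (by omega)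
  by_cases g1 : y ≤ 49
  · exact t6_25_336_49.m (by omega) (by omega)
  by_cases g2 : y ≤ 60
  · exact t6_25_322_60.m (by omega) (by omega)
  by_cases g3 : y ≤ 74
  · exact t6_25_308_74.m (by omega) (by omega)
  by_cases g4 : y ≤ 96
  · exact t6_25_286_96.m (by omega) (by omega)
  by_cases g5 : y ≤ 118
  · exact t6_25_264_118.m (by omega) (by omega)
  by_cases g6 : y ≤ 138
  · exact t6_25_245_138.m (by omega) (by omega)
  by_cases g7 : y ≤ 174
  · exact t6_25_220_174.m (by omega) (by omega)
  exact t6_25_208_184.n (by omega) (by omega)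

theorem h6_26 (x y : ℕ) (h : x + y ≤ 345) (hyx : y ≤ x) : S 6 26 x y := by
  by_cases g0 : y ≤ 27
  · exact t6_26_348_27.m (by omega) (by omega)
  by_cases g1 : y ≤ 49
  · exact t6_26_317_49.m (by omega) (by omega)
  by_cases g2 : y ≤ 60
  · exact t6_26_308_60.m (by omega) (by omega)
  by_cases g3 : y ≤ 74
  · exact t6_26_292_74.m (by omega) (by omega)
  by_cases g4 : y ≤ 88
  · exact t6_26_272_88.m (by omega) (by omega)
  by_cases g5 : y ≤ 104
  · exact t6_26_260_104.m (by omega) (by omega)
  by_cases g6 : y ≤ 128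
  · exact t6_26_244_128.m (by omega) (by omega)
  by_cases g7 : y ≤ 158
  · exact t6_26_217_158.m (by omega) (by omega)
  exact t6_26_194_184.m (by omega) (by omega)

theorem h6_27 (x y : ℕ) (h : x + y ≤ 331) (hyx : y ≤ x) : S 6 27 x y := by
  by_cases g0 : y ≤ 24
  · exact t6_27_338_24.m (by omega) (by omega)
  by_cases g1 : y ≤ 49
  · exact t6_27_308_49.m (by omega) (by omega)
  by_cases g2 : y ≤ 74
  · exact t6_27_282_74.m (by omega) (by omega)
  by_cases g3 : y ≤ 88
  · exact t6_27_258_88.m (by omega) (by omega)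
  by_cases g4 : y ≤ 104
  · exact t6_27_248_104.m (by omega) (by omega)
  by_cases g5 : y ≤ 138
  · exact t6_27_226_138.m (by omega) (by omega)
  exact t6_27_194_174.m (by omega) (by omega)

theorem h6_28 (x y : ℕ) (h : x + y ≤ 317) (hyx : y ≤ x) : S 6 28 x y := by
  by_cases g0 : y ≤ 20
  · exact t6_28_322_20.m (by omega) (by omega)
  by_cases g1 : y ≤ 36
  · exact t6_28_304_36.m (by omega) (by omega)
  by_cases g2 : y ≤ 56
  · exact t6_28_280_56.m (by omega) (by omega)
  by_cases g3 : y ≤ 68
  · exact t6_28_270_68.m (by omega) (by omega)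
  by_cases g4 : y ≤ 74
  · exact t6_28_256_74.m (by omega) (by omega)
  by_cases g5 : y ≤ 88
  · exact t6_28_246_88.m (by omega) (by omega)
  by_cases g6 : y ≤ 104
  · exact t6_28_236_104.m (by omega) (by omega)
  by_cases g7 : y ≤ 130
  · exact t6_28_215_130.m (by omega) (by omega)
  exact t6_28_186_159.m (by omega) (by omega)

theorem h6_29 (x y : ℕ) (h : x + y ≤ 303) (hyx : y ≤ x) : S 6 29 x y := by
  by_cases g0 : y ≤ 27
  · exact t6_29_304_27.m (by omega) (by omega)
  by_cases g1 : y ≤ 44
  · exact t6_29_280_44.m (by omega) (by omega)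
  by_cases g2 : y ≤ 56
  · exact t6_29_270_56.m (by omega) (by omega)
  by_cases g3 : y ≤ 74
  · exact t6_29_246_74.m (by omega) (by omega)
  by_cases g4 : y ≤ 88
  · exact t6_29_236_88.m (by omega) (by omega)
  by_cases g5 : y ≤ 120
  · exact t6_29_214_120.m (by omega) (by omega)
  exact t6_29_184_154.m (by omega) (by omega)

theorem h6_30 (x y : ℕ) (h : x + y ≤ 289) (hyx : y ≤ x) : S 6 30 x y := by
  by_cases g0 : y ≤ 20
  · exact t6_30_300_20.m (by omega) (by omega)
  by_cases g1 : y ≤ 31
  · exact t6_30_277_31.m (by omega) (by omega)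
  by_cases g2 : y ≤ 44
  · exact t6_30_266_44.m (by omega) (by omega)
  by_cases g3 : y ≤ 68
  · exact t6_30_246_68.m (by omega) (by omega)
  by_cases g4 : y ≤ 88
  · exact t6_30_222_88.m (by omega) (by omega)
  by_cases g5 : y ≤ 118
  · exact t6_30_202_118.m (by omega) (by omega)
  exact t6_30_170_148.m (by omega) (by omega)

theorem h6_31 (x y : ℕ) (h : x + y ≤ 275) (hyx : y ≤ x) : S 6 31 x y := by
  by_cases g0 : y ≤ 20
  · exact t6_31_287_20.m (by omega) (by omega)
  by_cases g1 : y ≤ 44
  · exact t6_31_256_44.m (by omega) (by omega)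
  by_cases g2 : y ≤ 68
  · exact t6_31_232_68.m (by omega) (by omega)
  by_cases g3 : y ≤ 88
  · exact t6_31_212_88.m (by omega) (by omega)
  by_cases g4 : y ≤ 112
  · exact t6_31_190_112.m (by omega) (by omega)
  by_cases g5 : y ≤ 136
  · exact t6_31_170_136.m (by omega) (by omega)
  exact t6_31_159_148.n (by omega) (by omega)

theorem h6_32 (x y : ℕ) (h : x + y ≤ 261) (hyx : y ≤ x) : S 6 32 x y := by
  by_cases g0 : y ≤ 13
  · exact t6_32_264_13.m (by omega) (by omega)
  by_cases g1 : y ≤ 24
  · exact t6_32_255_24.m (by omega) (by omega)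
  by_cases g2 : y ≤ 31
  · exact t6_32_244_31.m (by omega) (by omega)
  by_cases g3 : y ≤ 44
  · exact t6_32_235_44.m (by omega) (by omega)
  by_cases g4 : y ≤ 64
  · exact t6_32_219_64.m (by omega) (by omega)
  by_cases g5 : y ≤ 82
  · exact t6_32_198_82.m (by omega) (by omega)
  by_cases g6 : y ≤ 97
  · exact t6_32_182_97.m (by omega) (by omega)
  by_cases g7 : y ≤ 118
  · exact t6_32_164_118.m (by omega) (by omega)
  by_cases g8 : y ≤ 128
  · exact t6_32_147_128.m (by omega) (by omega)
  exact t6_32_139_136.n (by omega) (by omega)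

theorem h6_33 (x y : ℕ) (h : x + y ≤ 247) (hyx : y ≤ x) : S 6 33 x y := by
  by_cases g0 : y ≤ 13
  · exact t6_33_254_13.m (by omega) (by omega)
  by_cases g1 : y ≤ 31
  · exact t6_33_234_31.m (by omega) (by omega)
  by_cases g2 : y ≤ 49
  · exact t6_33_218_49.m (by omega) (by omega)
  by_cases g3 : y ≤ 72
  · exact t6_33_198_72.m (by omega) (by omega)
  by_cases g4 : y ≤ 96
  · exact t6_33_174_96.m (by omega) (by omega)
  by_cases g5 : y ≤ 116
  · exact t6_33_156_116.m (by omega) (by omega)
  exact t6_33_136_128.m (by omega) (by omega)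

theorem h6_34 (x y : ℕ) (h : x + y ≤ 233) (hyx : y ≤ x) : S 6 34 x y := by
  by_cases g0 : y ≤ 24
  · exact t6_34_233_24.m (by omega) (by omega)
  by_cases g1 : y ≤ 52
  · exact t6_34_209_52.m (by omega) (by omega)
  by_cases g2 : y ≤ 74
  · exact t6_34_182_74.m (by omega) (by omega)
  by_cases g3 : y ≤ 97
  · exact t6_34_164_97.m (by omega) (by omega)
  exact t6_34_136_118.m (by omega) (by omega)

theorem h6_35 (x y : ℕ) (h : x + y ≤ 219) (hyx : y ≤ x) : S 6 35 x y := by
  by_cases g0 : y ≤ 24
  · exact t6_35_222_24.m (by omega) (by omega)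
  by_cases g1 : y ≤ 52
  · exact t6_35_198_52.m (by omega) (by omega)
  by_cases g2 : y ≤ 74
  · exact t6_35_171_74.m (by omega) (by omega)
  by_cases g3 : y ≤ 97
  · exact t6_35_147_97.m (by omega) (by omega)
  exact t6_35_126_118.m (by omega) (by omega)

theorem h6_36 (x y : ℕ) (h : x + y ≤ 205) (hyx : y ≤ x) : S 6 36 x y := by
  by_cases g0 : y ≤ 32
  · exact t6_36_207_32.m (by omega) (by omega)
  by_cases g1 : y ≤ 57
  · exact t6_36_174_57.m (by omega) (by omega)
  by_cases g2 : y ≤ 88
  · exact t6_36_147_88.m (by omega) (by omega)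
  exact t6_36_118_116.n (by omega) (by omega)

theorem h6_37 (x y : ℕ) (h : x + y ≤ 191) (hyx : y ≤ x) : S 6 37 x y := by
  by_cases g0 : y ≤ 32
  · exact t6_37_196_32.m (by omega) (by omega)
  by_cases g1 : y ≤ 60
  · exact t6_37_164_60.m (by omega) (by omega)
  by_cases g2 : y ≤ 88
  · exact t6_37_136_88.m (by omega) (by omega)
  exact t6_37_116_108.n (by omega) (by omega)

theorem h6_38 (x y : ℕ) (h : x + y ≤ 177) (hyx : y ≤ x) : S 6 38 x y := by
  by_cases g0 : y ≤ 31
  · exact t6_38_182_31.m (by omega) (by omega)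
  by_cases g1 : y ≤ 60
  · exact t6_38_147_60.m (by omega) (by omega)
  exact t6_38_116_92.m (by omega) (by omega)

theorem h6_39 (x y : ℕ) (h : x + y ≤ 163) (hyx : y ≤ x) : S 6 39 x y := by
  by_cases g0 : y ≤ 28
  · exact t6_39_174_28.m (by omega) (by omega)
  by_cases g1 : y ≤ 60
  · exact t6_39_136_60.m (by omega) (by omega)
  exact t6_39_108_90.m (by omega) (by omega)

theorem h6_40 (x y : ℕ) (h : x + y ≤ 149) (hyx : y ≤ x) : S 6 40 x y := by
  by_cases g0 : y ≤ 24
  · exact t6_40_158_24.m (by omega) (by omega)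
  by_cases g1 : y ≤ 48
  · exact t6_40_124_48.m (by omega) (by omega)
  by_cases g2 : y ≤ 73
  · exact t6_40_108_73.m (by omega) (by omega)
  exact t6_40_96_82.n (by omega) (by omega)

theorem h6_41 (x y : ℕ) (h : x + y ≤ 135) (hyx : y ≤ x) : S 6 41 x y := by
  by_cases g0 : y ≤ 27
  · exact t6_41_136_27.m (by omega) (by omega)
  by_cases g1 : y ≤ 64
  · exact t6_41_108_64.m (by omega) (by omega)
  exact t6_41_92_73.n (by omega) (by omega)

theorem h6_42 (x y : ℕ) (h : x + y ≤ 121) (hyx : y ≤ x) : S 6 42 x y := by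
  by_cases g0 : y ≤ 31
  · exact t6_42_124_31.m (by omega) (by omega)
  by_cases g1 : y ≤ 58
  · exact t6_42_92_58.m (by omega) (by omega)
  exact t6_42_86_69.n (by omega) (by omega)

theorem h6_43 (x y : ℕ) (h : x + y ≤ 107) (hyx : y ≤ x) : S 6 43 x y := by
  by_cases g0 : y ≤ 30
  · exact t6_43_112_30.m (by omega) (by omega)
  exact t6_43_82_58.m (by omega) (by omega)

theorem h6_44 (x y : ℕ) (h : x + y ≤ 93) (hyx : y ≤ x) : S 6 44 x y := by
  by_cases g0 : y ≤ 21
  · exact t6_44_96_21.m (by omega) (by omega)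
  by_cases g1 : y ≤ 36
  · exact t6_44_76_36.m (by omega) (by omega)
  exact t6_44_62_54.m (by omega) (by omega)

theorem h6_45 (x y : ℕ) (h : x + y ≤ 79) (hyx : y ≤ x) : S 6 45 x y := by
  by_cases g0 : y ≤ 22
  · exact t6_45_82_22.m (by omega) (by omega)
  by_cases g1 : y ≤ 36
  · exact t6_45_62_36.m (by omega) (by omega)
  exact t6_45_54_44.n (by omega) (by omega)

theorem h6_46 (x y : ℕ) (h : x + y ≤ 65) (hyx : y ≤ x) : S 6 46 x y := by
  by_cases g0 : y ≤ 13
  · exact t6_46_74_13.m (by omega) (by omega)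
  by_cases g1 : y ≤ 26
  · exact t6_46_60_26.m (by omega) (by omega)
  exact t6_46_44_36.m (by omega) (by omega)

theorem h6_47 (x y : ℕ) (h : x + y ≤ 51) (hyx : y ≤ x) : S 6 47 x y := by
  by_cases g0 : y ≤ 13
  · exact t6_47_60_13.m (by omega) (by omega)
  exact t6_47_44_27.m (by omega) (by omega)

theorem h6_48 (x y : ℕ) (h : x + y ≤ 37) (hyx : y ≤ x) : S 6 48 x y := by
  by_cases g0 : y ≤ 13
  · exact t6_48_46_13.m (by omega) (by omega)
  exact t6_48_31_27.n (by omega) (by omega)

theorem h6_49 (x y : ℕ) (h : x + y ≤ 23) (hyx : y ≤ x) : S 6 49 x y := by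
  exact t6_49_27_17.m (by omega) (by omega)

theorem h6_50 (x y : ℕ) (h : x + y ≤ 9) (hyx : y ≤ x) : S 6 50 x y := by
  exact t6_50_16_13.n (by omega) (by omega)

theorem hh_six : HH 6 := by
  intro a x y ha h
  have h' : 14 * a + x + y + 20 ≤ 729 := by
    unfold DD at h
    rw [kk_six] at h
    norm_num at h
    have : ((14 * a + x + y + 20 : ℕ) : ℝ) ≤ (729 : ℕ) := by
      push_cast
      linarith
    exact_mod_cast this
  clear h
  have ha2 : a ≤ 50 := by omega
  rcases le_total y x with hyx | hyx
  · interval_cases a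
    · exact h6_1 x y (by omega) hyx
    · exact h6_2 x y (by omega) hyx
    · exact h6_3 x y (by omega) hyx
    · exact h6_4 x y (by omega) hyx
    · exact h6_5 x y (by omega) hyx
    · exact h6_6 x y (by omega) hyx
    · exact h6_7 x y (by omega) hyx
    · exact h6_8 x y (by omega) hyx
    · exact h6_9 x y (by omega) hyx
    · exact h6_10 x y (by omega) hyx
    · exact h6_11 x y (by omega) hyx
    · exact h6_12 x y (by omega) hyx
    · exact h6_13 x y (by omega) hyx
    · exact h6_14 x y (by omega) hyx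
    · exact h6_15 x y (by omega) hyx
    · exact h6_16 x y (by omega) hyx
    · exact h6_17 x y (by omega) hyx
    · exact h6_18 x y (by omega) hyx
    · exact h6_19 x y (by omega) hyx
    · exact h6_20 x y (by omega) hyx
    · exact h6_21 x y (by omega) hyx
    · exact h6_22 x y (by omega) hyx
    · exact h6_23 x y (by omega) hyx
    · exact h6_24 x y (by omega) hyx
    · exact h6_25 x y (by omega) hyx
    · exact h6_26 x y (by omega) hyx
    · exact h6_27 x y (by omega) hyx
    · exact h6_28 x y (by omega) hyx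
    · exact h6_29 x y (by omega) hyx
    · exact h6_30 x y (by omega) hyx
    · exact h6_31 x y (by omega) hyx
    · exact h6_32 x y (by omega) hyx
    · exact h6_33 x y (by omega) hyx
    · exact h6_34 x y (by omega) hyx
    · exact h6_35 x y (by omega) hyx
    · exact h6_36 x y (by omega) hyx
    · exact h6_37 x y (by omega) hyx
    · exact h6_38 x y (by omega) hyx
    · exact h6_39 x y (by omega) hyx
    · exact h6_40 x y (by omega) hyx
    · exact h6_41 x y (by omega) hyx
    · exact h6_42 x y (by omega) hyx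
    · exact h6_43 x y (by omega) hyx
    · exact h6_44 x y (by omega) hyx
    · exact h6_45 x y (by omega) hyx
    · exact h6_46 x y (by omega) hyx
    · exact h6_47 x y (by omega) hyx
    · exact h6_48 x y (by omega) hyx
    · exact h6_49 x y (by omega) hyx
    · exact h6_50 x y (by omega) hyx
  · apply S.symm
    interval_cases a
    · exact h6_1 y x (by omega) hyx
    · exact h6_2 y x (by omega) hyx
    · exact h6_3 y x (by omega) hyx
    · exact h6_4 y x (by omega) hyx
    · exact h6_5 y x (by omega) hyx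
    · exact h6_6 y x (by omega) hyx
    · exact h6_7 y x (by omega) hyx
    · exact h6_8 y x (by omega) hyx
    · exact h6_9 y x (by omega) hyx
    · exact h6_10 y x (by omega) hyx
    · exact h6_11 y x (by omega) hyx
    · exact h6_12 y x (by omega) hyx
    · exact h6_13 y x (by omega) hyx
    · exact h6_14 y x (by omega) hyx
    · exact h6_15 y x (by omega) hyx
    · exact h6_16 y x (by omega) hyx
    · exact h6_17 y x (by omega) hyx
    · exact h6_18 y x (by omega) hyx
    · exact h6_19 y x (by omega) hyx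
    · exact h6_20 y x (by omega) hyx
    · exact h6_21 y x (by omega) hyx
    · exact h6_22 y x (by omega) hyx
    · exact h6_23 y x (by omega) hyx
    · exact h6_24 y x (by omega) hyx
    · exact h6_25 y x (by omega) hyx
    · exact h6_26 y x (by omega) hyx
    · exact h6_27 y x (by omega) hyx
    · exact h6_28 y x (by omega) hyx
    · exact h6_29 y x (by omega) hyx
    · exact h6_30 y x (by omega) hyx
    · exact h6_31 y x (by omega) hyx
    · exact h6_32 y x (by omega) hyx
    · exact h6_33 y x (by omega) hyx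
    · exact h6_34 y x (by omega) hyx
    · exact h6_35 y x (by omega) hyx
    · exact h6_36 y x (by omega) hyx
    · exact h6_37 y x (by omega) hyx
    · exact h6_38 y x (by omega) hyx
    · exact h6_39 y x (by omega) hyx
    · exact h6_40 y x (by omega) hyx
    · exact h6_41 y x (by omega) hyx
    · exact h6_42 y x (by omega) hyx
    · exact h6_43 y x (by omega) hyx
    · exact h6_44 y x (by omega) hyx
    · exact h6_45 y x (by omega) hyx
    · exact h6_46 y x (by omega) hyx
    · exact h6_47 y x (by omega) hyx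
    · exact h6_48 y x (by omega) hyx
    · exact h6_49 y x (by omega) hyx
    · exact h6_50 y x (by omega) hyx

theorem tt_1 (c r : ℕ) (hc : c ≤ 19) (h : 13 * 1 + c + r + (2 * 1 + c / 2 + 4) ≤ 729) : S 6 1 r c := by
  interval_cases c
  · exact t6_1_716_0.m (by omega) (by omega)
  · exact t6_1_714_2.m (by omega) (by omega)
  · exact t6_1_714_2.m (by omega) (by omega)
  · exact t6_1_712_4.m (by omega) (by omega)
  · exact t6_1_712_4.m (by omega) (by omega)
  · exact t6_1_708_8.m (by omega) (by omega)
  · exact t6_1_708_8.m (by omega) (by omega)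
  · exact t6_1_708_8.m (by omega) (by omega)
  · exact t6_1_708_8.m (by omega) (by omega)
  · exact t6_1_706_10.m (by omega) (by omega)
  · exact t6_1_706_10.m (by omega) (by omega)
  · exact t6_1_704_12.m (by omega) (by omega)
  · exact t6_1_704_12.m (by omega) (by omega)
  · exact t6_1_700_16.m (by omega) (by omega)
  · exact t6_1_700_16.m (by omega) (by omega)
  · exact t6_1_700_16.m (by omega) (by omega)
  · exact t6_1_700_16.m (by omega) (by omega)
  · exact t6_1_698_18.m (by omega) (by omega)
  · exact t6_1_698_18.m (by omega) (by omega)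
  · exact t6_1_696_20.m (by omega) (by omega)

theorem tt_2 (c r : ℕ) (hc : c ≤ 18) (h : 13 * 2 + c + r + (2 * 2 + c / 2 + 4) ≤ 729) : S 6 2 r c := by
  interval_cases c
  · exact t6_2_699_2.m (by omega) (by omega)
  · exact t6_2_699_2.m (by omega) (by omega)
  · exact t6_2_699_2.m (by omega) (by omega)
  · exact t6_2_697_4.m (by omega) (by omega)
  · exact t6_2_697_4.m (by omega) (by omega)
  · exact t6_2_694_7.m (by omega) (by omega)
  · exact t6_2_694_7.m (by omega) (by omega)
  · exact t6_2_694_7.m (by omega) (by omega)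
  · exact t6_2_692_9.m (by omega) (by omega)
  · exact t6_2_692_9.m (by omega) (by omega)
  · exact t6_2_683_18.m (by omega) (by omega)
  · exact t6_2_683_18.m (by omega) (by omega)
  · exact t6_2_683_18.m (by omega) (by omega)
  · exact t6_2_683_18.m (by omega) (by omega)
  · exact t6_2_683_18.m (by omega) (by omega)
  · exact t6_2_683_18.m (by omega) (by omega)
  · exact t6_2_683_18.m (by omega) (by omega)
  · exact t6_2_683_18.m (by omega) (by omega)
  · exact t6_2_683_18.m (by omega) (by omega)

theorem tt_3 (c r : ℕ) (hc : c ≤ 17) (h : 13 * 3 + c + r + (2 * 3 + c / 2 + 4) ≤ 729) : S 6 3 r c := by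
  interval_cases c
  · exact t6_3_688_2.m (by omega) (by omega)
  · exact t6_3_688_2.m (by omega) (by omega)
  · exact t6_3_688_2.m (by omega) (by omega)
  · exact t6_3_686_4.m (by omega) (by omega)
  · exact t6_3_686_4.m (by omega) (by omega)
  · exact t6_3_678_9.m (by omega) (by omega)
  · exact t6_3_678_9.m (by omega) (by omega)
  · exact t6_3_678_9.m (by omega) (by omega)
  · exact t6_3_678_9.m (by omega) (by omega)
  · exact t6_3_678_9.m (by omega) (by omega)
  · exact t6_3_672_18.m (by omega) (by omega)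
  · exact t6_3_672_18.m (by omega) (by omega)
  · exact t6_3_672_18.m (by omega) (by omega)
  · exact t6_3_672_18.m (by omega) (by omega)
  · exact t6_3_672_18.m (by omega) (by omega)
  · exact t6_3_672_18.m (by omega) (by omega)
  · exact t6_3_672_18.m (by omega) (by omega)
  · exact t6_3_672_18.m (by omega) (by omega)

theorem tt_4 (c r : ℕ) (hc : c ≤ 16) (h : 13 * 4 + c + r + (2 * 4 + c / 2 + 4) ≤ 729) : S 6 4 r c := by
  interval_cases c
  · exact t6_4_671_4.m (by omega) (by omega)
  · exact t6_4_671_4.m (by omega) (by omega)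
  · exact t6_4_671_4.m (by omega) (by omega)
  · exact t6_4_671_4.m (by omega) (by omega)
  · exact t6_4_671_4.m (by omega) (by omega)
  · exact t6_4_664_9.m (by omega) (by omega)
  · exact t6_4_664_9.m (by omega) (by omega)
  · exact t6_4_664_9.m (by omega) (by omega)
  · exact t6_4_664_9.m (by omega) (by omega)
  · exact t6_4_664_9.m (by omega) (by omega)
  · exact t6_4_659_16.m (by omega) (by omega)
  · exact t6_4_659_16.m (by omega) (by omega)
  · exact t6_4_659_16.m (by omega) (by omega)
  · exact t6_4_659_16.m (by omega) (by omega)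
  · exact t6_4_659_16.m (by omega) (by omega)
  · exact t6_4_659_16.m (by omega) (by omega)
  · exact t6_4_659_16.m (by omega) (by omega)

theorem tt_5 (c r : ℕ) (hc : c ≤ 15) (h : 13 * 5 + c + r + (2 * 5 + c / 2 + 4) ≤ 729) : S 6 5 r c := by
  interval_cases c
  · exact t6_5_660_4.m (by omega) (by omega)
  · exact t6_5_660_4.m (by omega) (by omega)
  · exact t6_5_660_4.m (by omega) (by omega)
  · exact t6_5_660_4.m (by omega) (by omega)
  · exact t6_5_660_4.m (by omega) (by omega)
  · exact t6_5_654_7.m (by omega) (by omega)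
  · exact t6_5_654_7.m (by omega) (by omega)
  · exact t6_5_654_7.m (by omega) (by omega)
  · exact t6_5_650_11.m (by omega) (by omega)
  · exact t6_5_650_11.m (by omega) (by omega)
  · exact t6_5_650_11.m (by omega) (by omega)
  · exact t6_5_650_11.m (by omega) (by omega)
  · exact t6_5_648_16.m (by omega) (by omega)
  · exact t6_5_648_16.m (by omega) (by omega)
  · exact t6_5_648_16.m (by omega) (by omega)
  · exact t6_5_648_16.m (by omega) (by omega)

theorem tt_6 (c r : ℕ) (hc : c ≤ 14) (h : 13 * 6 + c + r + (2 * 6 + c / 2 + 4) ≤ 729) : S 6 6 r c := by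
  interval_cases c
  · exact t6_6_647_2.m (by omega) (by omega)
  · exact t6_6_647_2.m (by omega) (by omega)
  · exact t6_6_647_2.m (by omega) (by omega)
  · exact t6_6_645_4.m (by omega) (by omega)
  · exact t6_6_645_4.m (by omega) (by omega)
  · exact t6_6_638_7.m (by omega) (by omega)
  · exact t6_6_638_7.m (by omega) (by omega)
  · exact t6_6_638_7.m (by omega) (by omega)
  · exact t6_6_636_9.m (by omega) (by omega)
  · exact t6_6_636_9.m (by omega) (by omega)
  · exact t6_6_633_12.m (by omega) (by omega)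
  · exact t6_6_633_12.m (by omega) (by omega)
  · exact t6_6_633_12.m (by omega) (by omega)
  · exact t6_6_631_14.m (by omega) (by omega)
  · exact t6_6_631_14.m (by omega) (by omega)

theorem tt_7 (c r : ℕ) (hc : c ≤ 13) (h : 13 * 7 + c + r + (2 * 7 + c / 2 + 4) ≤ 729) : S 6 7 r c := by
  interval_cases c
  · exact t6_7_634_2.m (by omega) (by omega)
  · exact t6_7_634_2.m (by omega) (by omega)
  · exact t6_7_634_2.m (by omega) (by omega)
  · exact t6_7_632_4.m (by omega) (by omega)
  · exact t6_7_632_4.m (by omega) (by omega)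
  · exact t6_7_624_12.m (by omega) (by omega)
  · exact t6_7_624_12.m (by omega) (by omega)
  · exact t6_7_624_12.m (by omega) (by omega)
  · exact t6_7_624_12.m (by omega) (by omega)
  · exact t6_7_624_12.m (by omega) (by omega)
  · exact t6_7_624_12.m (by omega) (by omega)
  · exact t6_7_624_12.m (by omega) (by omega)
  · exact t6_7_624_12.m (by omega) (by omega)
  · exact t6_7_622_14.m (by omega) (by omega)

theorem tt_8 (c r : ℕ) (hc : c ≤ 12) (h : 13 * 8 + c + r + (2 * 8 + c / 2 + 4) ≤ 729) : S 6 8 r c := by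
  interval_cases c
  · exact t6_8_607_14.m (by omega) (by omega)
  · exact t6_8_607_14.m (by omega) (by omega)
  · exact t6_8_607_14.m (by omega) (by omega)
  · exact t6_8_607_14.m (by omega) (by omega)
  · exact t6_8_607_14.m (by omega) (by omega)
  · exact t6_8_607_14.m (by omega) (by omega)
  · exact t6_8_607_14.m (by omega) (by omega)
  · exact t6_8_607_14.m (by omega) (by omega)
  · exact t6_8_607_14.m (by omega) (by omega)
  · exact t6_8_607_14.m (by omega) (by omega)
  · exact t6_8_607_14.m (by omega) (by omega)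
  · exact t6_8_607_14.m (by omega) (by omega)
  · exact t6_8_607_14.m (by omega) (by omega)

theorem tt_9 (c r : ℕ) (hc : c ≤ 11) (h : 13 * 9 + c + r + (2 * 9 + c / 2 + 4) ≤ 729) : S 6 9 r c := by
  interval_cases c
  · exact t6_9_596_14.m (by omega) (by omega)
  · exact t6_9_596_14.m (by omega) (by omega)
  · exact t6_9_596_14.m (by omega) (by omega)
  · exact t6_9_596_14.m (by omega) (by omega)
  · exact t6_9_596_14.m (by omega) (by omega)
  · exact t6_9_596_14.m (by omega) (by omega)
  · exact t6_9_596_14.m (by omega) (by omega)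
  · exact t6_9_596_14.m (by omega) (by omega)
  · exact t6_9_596_14.m (by omega) (by omega)
  · exact t6_9_596_14.m (by omega) (by omega)
  · exact t6_9_596_14.m (by omega) (by omega)
  · exact t6_9_596_14.m (by omega) (by omega)

theorem tt_10 (c r : ℕ) (hc : c ≤ 10) (h : 13 * 10 + c + r + (2 * 10 + c / 2 + 4) ≤ 729) : S 6 10 r c := by
  interval_cases c
  · exact t6_10_580_12.m (by omega) (by omega)
  · exact t6_10_580_12.m (by omega) (by omega)
  · exact t6_10_580_12.m (by omega) (by omega)
  · exact t6_10_580_12.m (by omega) (by omega)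
  · exact t6_10_580_12.m (by omega) (by omega)
  · exact t6_10_580_12.m (by omega) (by omega)
  · exact t6_10_580_12.m (by omega) (by omega)
  · exact t6_10_580_12.m (by omega) (by omega)
  · exact t6_10_580_12.m (by omega) (by omega)
  · exact t6_10_580_12.m (by omega) (by omega)
  · exact t6_10_580_12.m (by omega) (by omega)

theorem tt_11 (c r : ℕ) (hc : c ≤ 9) (h : 13 * 11 + c + r + (2 * 11 + c / 2 + 4) ≤ 729) : S 6 11 r c := by
  interval_cases c
  · exact t6_11_568_12.m (by omega) (by omega)
  · exact t6_11_568_12.m (by omega) (by omega)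
  · exact t6_11_568_12.m (by omega) (by omega)
  · exact t6_11_568_12.m (by omega) (by omega)
  · exact t6_11_568_12.m (by omega) (by omega)
  · exact t6_11_568_12.m (by omega) (by omega)
  · exact t6_11_568_12.m (by omega) (by omega)
  · exact t6_11_568_12.m (by omega) (by omega)
  · exact t6_11_568_12.m (by omega) (by omega)
  · exact t6_11_568_12.m (by omega) (by omega)

theorem tt_12 (c r : ℕ) (hc : c ≤ 8) (h : 13 * 12 + c + r + (2 * 12 + c / 2 + 4) ≤ 729) : S 6 12 r c := by
  interval_cases c
  · exact t6_12_557_4.m (by omega) (by omega)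
  · exact t6_12_557_4.m (by omega) (by omega)
  · exact t6_12_557_4.m (by omega) (by omega)
  · exact t6_12_557_4.m (by omega) (by omega)
  · exact t6_12_557_4.m (by omega) (by omega)
  · exact t6_12_548_14.m (by omega) (by omega)
  · exact t6_12_548_14.m (by omega) (by omega)
  · exact t6_12_548_14.m (by omega) (by omega)
  · exact t6_12_548_14.m (by omega) (by omega)

theorem tt_13 (c r : ℕ) (hc : c ≤ 7) (h : 13 * 13 + c + r + (2 * 13 + c / 2 + 4) ≤ 729) : S 6 13 r c := by
  interval_cases c
  · exact t6_13_542_4.m (by omega) (by omega)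
  · exact t6_13_542_4.m (by omega) (by omega)
  · exact t6_13_542_4.m (by omega) (by omega)
  · exact t6_13_542_4.m (by omega) (by omega)
  · exact t6_13_542_4.m (by omega) (by omega)
  · exact t6_13_534_14.m (by omega) (by omega)
  · exact t6_13_534_14.m (by omega) (by omega)
  · exact t6_13_534_14.m (by omega) (by omega)

theorem tt_14 (c r : ℕ) (hc : c ≤ 6) (h : 13 * 14 + c + r + (2 * 14 + c / 2 + 4) ≤ 729) : S 6 14 r c := by
  interval_cases c
  · exact t6_14_529_4.m (by omega) (by omega)
  · exact t6_14_529_4.m (by omega) (by omega)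
  · exact t6_14_529_4.m (by omega) (by omega)
  · exact t6_14_529_4.m (by omega) (by omega)
  · exact t6_14_529_4.m (by omega) (by omega)
  · exact t6_14_525_8.m (by omega) (by omega)
  · exact t6_14_525_8.m (by omega) (by omega)

theorem tt_15 (c r : ℕ) (hc : c ≤ 5) (h : 13 * 15 + c + r + (2 * 15 + c / 2 + 4) ≤ 729) : S 6 15 r c := by
  interval_cases c
  · exact t6_15_516_4.m (by omega) (by omega)
  · exact t6_15_516_4.m (by omega) (by omega)
  · exact t6_15_516_4.m (by omega) (by omega)
  · exact t6_15_516_4.m (by omega) (by omega)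
  · exact t6_15_516_4.m (by omega) (by omega)
  · exact t6_15_512_8.m (by omega) (by omega)

theorem tt_16 (c r : ℕ) (hc : c ≤ 4) (h : 13 * 16 + c + r + (2 * 16 + c / 2 + 4) ≤ 729) : S 6 16 r c := by
  interval_cases c
  · exact t6_16_503_4.m (by omega) (by omega)
  · exact t6_16_503_4.m (by omega) (by omega)
  · exact t6_16_503_4.m (by omega) (by omega)
  · exact t6_16_503_4.m (by omega) (by omega)
  · exact t6_16_503_4.m (by omega) (by omega)

theorem tt_17 (c r : ℕ) (hc : c ≤ 3) (h : 13 * 17 + c + r + (2 * 17 + c / 2 + 4) ≤ 729) : S 6 17 r c := by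
  interval_cases c
  · exact t6_17_492_4.m (by omega) (by omega)
  · exact t6_17_492_4.m (by omega) (by omega)
  · exact t6_17_492_4.m (by omega) (by omega)
  · exact t6_17_492_4.m (by omega) (by omega)

theorem tt_18 (c r : ℕ) (hc : c ≤ 2) (h : 13 * 18 + c + r + (2 * 18 + c / 2 + 4) ≤ 729) : S 6 18 r c := by
  interval_cases c
  · exact t6_18_481_4.m (by omega) (by omega)
  · exact t6_18_481_4.m (by omega) (by omega)
  · exact t6_18_481_4.m (by omega) (by omega)

theorem tt_19 (c r : ℕ) (hc : c ≤ 1) (h : 13 * 19 + c + r + (2 * 19 + c / 2 + 4) ≤ 729) : S 6 19 r c := by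
  interval_cases c
  · exact t6_19_472_4.m (by omega) (by omega)
  · exact t6_19_472_4.m (by omega) (by omega)

theorem tt_20 (c r : ℕ) (hc : c ≤ 0) (h : 13 * 20 + c + r + (2 * 20 + c / 2 + 4) ≤ 729) : S 6 20 r c := by
  interval_cases c
  · exact t6_20_455_2.m (by omega) (by omega)

theorem tt : TT := by
  intro i c r hi hic h
  have hi2 : i ≤ 20 := by omega
  interval_cases i
  · exact tt_1 c r (by omega) h
  · exact tt_2 c r (by omega) h
  · exact tt_3 c r (by omega) h
  · exact tt_4 c r (by omega) h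
  · exact tt_5 c r (by omega) h
  · exact tt_6 c r (by omega) h
  · exact tt_7 c r (by omega) h
  · exact tt_8 c r (by omega) h
  · exact tt_9 c r (by omega) h
  · exact tt_10 c r (by omega) h
  · exact tt_11 c r (by omega) h
  · exact tt_12 c r (by omega) h
  · exact tt_13 c r (by omega) h
  · exact tt_14 c r (by omega) h
  · exact tt_15 c r (by omega) h
  · exact tt_16 c r (by omega) h
  · exact tt_17 c r (by omega) h
  · exact tt_18 c r (by omega) h
  · exact tt_19 c r (by omega) h
  · exact tt_20 c r (by omega) h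

end Pool.Agent.R89.Coin
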