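import Mathlib

/-!
# Three balance scales, one of them broken (MP_a3b474_co): the game

`N` coins, exactly one is light. `Strategy N w` is an adaptive strategy with at most `w` weighings
in every case. The scales are `0, 1, 2 : Fin 3`.
-/

namespace Pool.Agent.R89.Coin

/-- The three possible reports of a weighing: left pan lighter, right pan lighter, balance. -/
inductive Outcome
  | left
  | right
  | balance
  deriving DecidableEq

instance : Fintype Outcome :=
  ⟨{Outcome.left, Outcome.right, Outcome.balance}, fun x => by cases x <;> simp⟩

/-- An adaptive strategy on `N` coins which uses at most `w` weighings: either name the light coin,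
or weigh on the scale `s` the coins `L` (left pan) against the coins `R` (right pan), two disjoint
sets of equal size, and continue according to the report. -/
inductive Strategy (N : ℕ) : ℕ → Type
  | answer {w : ℕ} (c : Fin N) : Strategy N w
  | weigh {w : ℕ} (s : Fin 3) (L R : Finset (Fin N)) (hd : Disjoint L R) (hc : L.card = R.card)
      (next : Outcome → Strategy N w) : Strategy N (w + 1)

/-- The correct report when the light coin is `c`. -/
def trueOutcome {N : ℕ} (c : Fin N) (L R : Finset (Fin N)) : Outcome :=
  if c ∈ L then Outcome.left else if c ∈ R then Outcome.right else Outcome.balance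

/-- The strategy names the light coin `c` whatever the broken scale `b` reports: a scale `s ≠ b`
reports the truth, the scale `b` may report anything. -/
def Strategy.Succeeds {N : ℕ} : {w : ℕ} → Strategy N w → Fin N → Fin 3 → Prop
  | _, .answer c', c, _ => c' = c
  | _, .weigh s L R _ _ next, c, b =>
      ∀ o : Outcome, (s ≠ b → o = trueOutcome c L R) → (next o).Succeeds c b

/-- Some strategy with at most `w` weighings names the light coin for every light coin, every broken
scale and every behaviour of the broken scale. -/
def Wins (N w : ℕ) : Prop :=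
  ∃ t : Strategy N w, ∀ (c : Fin N) (b : Fin 3), t.Succeeds c b

/-- A position: `A` are the coins which may be the light one with any broken scale; the coins of
`B b` may be the light one only if the scale `b` is broken. `Sol w A B` says that some strategy
with at most `w` weighings succeeds for all these possibilities. -/
def Sol {N : ℕ} (w : ℕ) (A : Finset (Fin N)) (B : Fin 3 → Finset (Fin N)) : Prop :=
  ∃ t : Strategy N w, (∀ c ∈ A, ∀ b, t.Succeeds c b) ∧ (∀ b, ∀ c ∈ B b, t.Succeeds c b)

/-- The coins for which the report `o` is the true one. -/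
def grp {N : ℕ} (L R : Finset (Fin N)) (o : Outcome) : Finset (Fin N) :=
  Finset.univ.filter (fun c => trueOutcome c L R = o)

/-- The position after the report `o` of scale `s`: `A ∩ grp o` stays in `A`, the other coins of `A`
become possible only if `s` is broken; coins of `B s` stay, coins of the other `B b` stay only if
the report is right for them. -/
def nextB {N : ℕ} (s : Fin 3) (L R : Finset (Fin N)) (A : Finset (Fin N))
    (B : Fin 3 → Finset (Fin N)) (o : Outcome) : Fin 3 → Finset (Fin N) :=
  fun b => if b = s then B s ∪ (A \ grp L R o) else B b ∩ grp L R o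

theorem mem_grp {N : ℕ} {L R : Finset (Fin N)} {o : Outcome} {c : Fin N} :
    c ∈ grp L R o ↔ trueOutcome c L R = o := by
  simp [grp]

/-- One weighing: from the positions after the three reports to the position before. -/
theorem Sol.weigh {N w : ℕ} {A : Finset (Fin N)} {B : Fin 3 → Finset (Fin N)} (s : Fin 3)
    (L R : Finset (Fin N)) (hd : Disjoint L R) (hc : L.card = R.card)
    (h : ∀ o, Sol w (A ∩ grp L R o) (nextB s L R A B o)) : Sol (w + 1) A B := by
  choose t ht1 ht2 using h
  refine ⟨Strategy.weigh s L R hd hc t, ?_, ?_⟩
  · intro c hcA b o ho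
    by_cases h1 : trueOutcome c L R = o
    · exact ht1 o c (Finset.mem_inter.2 ⟨hcA, mem_grp.2 h1⟩) b
    · have hs : s = b := by
        by_contra hne
        exact h1 (ho hne).symm
      subst hs
      apply ht2 o s c
      simp only [nextB, if_true]
      exact Finset.mem_union.2 (Or.inr (Finset.mem_sdiff.2 ⟨hcA, fun hh => h1 (mem_grp.1 hh)⟩))
  · intro b c hcB o ho
    by_cases hs : b = s
    · subst hs
      apply ht2 o b c
      simp only [nextB, if_true]
      exact Finset.mem_union.2 (Or.inl hcB)
    · have h1 : o = trueOutcome c L R := ho (fun hh => hs hh.symm)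
      apply ht2 o b c
      simp only [nextB, if_neg hs]
      exact Finset.mem_inter.2 ⟨hcB, mem_grp.2 h1.symm⟩

/-- Conversely, a solvable position has at most one possible light coin, or a good weighing. -/
theorem Sol.cases {N w : ℕ} {A : Finset (Fin N)} {B : Fin 3 → Finset (Fin N)}
    (h : Sol w A B) :
    (∃ c, (∀ a ∈ A, a = c) ∧ ∀ b, ∀ a ∈ B b, a = c) ∨
    (∃ (w' : ℕ) (s : Fin 3) (L R : Finset (Fin N)), w = w' + 1 ∧ Disjoint L R ∧ L.card = R.card ∧
      ∀ o, Sol w' (A ∩ grp L R o) (nextB s L R A B o)) := by
  obtain ⟨t, h1, h2⟩ := h
  cases t with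
  | answer c =>
    left
    refine ⟨c, fun a ha => ?_, fun b a ha => ?_⟩
    · exact (h1 a ha 0).symm
    · exact (h2 b a ha).symm
  | weigh s L R hd hc next =>
    rename_i w'
    right
    refine ⟨w', s, L, R, rfl, hd, hc, fun o => ⟨next o, ?_, ?_⟩⟩
    · intro c hcA b
      obtain ⟨hcA, hg⟩ := Finset.mem_inter.1 hcA
      exact h1 c hcA b o (fun _ => (mem_grp.1 hg).symm)
    · intro b c hcB
      by_cases hs : b = s
      · subst hs
        simp only [nextB, if_true] at hcB
        rcases Finset.mem_union.1 hcB with hh | hh
        · exact h2 b c hh o (fun hne => absurd rfl hne)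
        · exact h1 c (Finset.mem_sdiff.1 hh).1 b o (fun hne => absurd rfl hne)
      · simp only [nextB, if_neg hs] at hcB
        obtain ⟨hcB, hg⟩ := Finset.mem_inter.1 hcB
        exact h2 b c hcB o (fun _ => (mem_grp.1 hg).symm)

theorem wins_iff_sol {N w : ℕ} : Wins N w ↔ Sol w (Finset.univ : Finset (Fin N)) (fun _ => ∅) := by
  constructor
  · rintro ⟨t, ht⟩
    exact ⟨t, fun c _ b => ht c b, fun b c hc => absurd hc (Finset.notMem_empty c)⟩
  · rintro ⟨t, ht, _⟩
    exact ⟨t, fun c b => ht c (Finset.mem_univ c) b⟩

end Pool.Agent.R89.Coin
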