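import Pool.Agent.R89.Coin.Defs

/-!
# Lower bound: there is no perfect strategy (helper916)
-/

set_option autoImplicit false

namespace Pool.Agent.R89.Coin

namespace LB

/-- numerical shadow of `Sol`: `a` coins of type `A`, and `x, y, z` coins of the three types `B b` -/
inductive Num : ℕ → ℕ → ℕ → ℕ → ℕ → Prop
  | ans {w a x y z : ℕ} (h : a + x + y + z ≤ 1) : Num w a x y z
  | swap12 {w a x y z : ℕ} (h : Num w a x y z) : Num w a y x z
  | swap23 {w a x y z : ℕ} (h : Num w a x y z) : Num w a x z y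
  | weigh {w a0 a1 a2 x0 x1 x2 y0 y1 y2 z : ℕ} (h0 : Num w a0 x0 y0 (z + (a1 + a2)))
      (h1 : Num w a1 x1 y1 (z + (a0 + a2))) (h2 : Num w a2 x2 y2 (z + (a0 + a1))) :
      Num (w + 1) (a0 + a1 + a2) (x0 + x1 + x2) (y0 + y1 + y2) z

theorem pow_ge (w : ℕ) : 2 * w + 1 ≤ 3 ^ w := by
  induction w with
  | zero => simp
  | succ n ih => rw [pow_succ]; omega

theorem pow_ge4 (w : ℕ) (hw : 4 ≤ w) : 10 * w + 41 ≤ 3 ^ w := by
  induction w, hw using Nat.le_induction with
  | base => norm_num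
  | succ n hn ih => rw [pow_succ]; omega

theorem V {w a x y z : ℕ} (h : Num w a x y z) : a * (2 * w + 1) + x + y + z ≤ 3 ^ w := by
  induction h with
  | @ans w a x y z h =>
    have h1 := pow_ge w
    rcases Nat.eq_zero_or_pos a with ha | ha
    · subst ha
      have : 1 ≤ 3 ^ w := Nat.one_le_pow _ _ (by norm_num)
      omega
    · have : a = 1 := by omega
      subst this
      omega
  | swap12 _ ih => omega
  | swap23 _ ih => omega
  | @weigh w a0 a1 a2 x0 x1 x2 y0 y1 y2 z _ _ _ i0 i1 i2 =>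
    rw [pow_succ]
    have e : (a0 + a1 + a2) * (2 * (w + 1) + 1) = a0 * (2 * w + 1) + a1 * (2 * w + 1) +
      a2 * (2 * w + 1) + 2 * (a0 + a1 + a2) := by ring
    rw [e]
    omega

/-- property (iii) -/
def T (a c : ℕ) : Prop :=
  (a = 1 → c ≤ 8 → c = 0 ∨ c = 2 ∨ c = 4 ∨ c = 8) ∧
  (a = 3 → c ≤ 6 → c = 0 ∨ c = 2 ∨ c = 4 ∨ c = 6) ∧
  (a = 5 → c ≤ 10 → c = 0 ∨ c = 4) ∧
  (a = 9 → c ≤ 18 → c = 0)

/-- property (ii) -/
def G (a : ℕ) : Prop := a = 0 ∨ a = 1 ∨ a = 3 ∨ a = 5 ∨ a = 9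

theorem triples (a0 a1 a2 : ℕ) (g0 : G a0) (g1 : G a1) (g2 : G a2)
    (t0 : T a0 (a1 + a2)) (t1 : T a1 (a0 + a2)) (t2 : T a2 (a0 + a1)) :
    (a1 = 0 ∧ a2 = 0) ∨ (a0 = 0 ∧ a2 = 0) ∨ (a0 = 0 ∧ a1 = 0) ∨
    (a0 = 1 ∧ a1 = 1 ∧ a2 = 1) ∨
    (a0 = 3 ∧ a1 = 1 ∧ a2 = 1) ∨ (a0 = 1 ∧ a1 = 3 ∧ a2 = 1) ∨ (a0 = 1 ∧ a1 = 1 ∧ a2 = 3) ∨
    (a0 = 3 ∧ a1 = 3 ∧ a2 = 3) ∨
    (a0 = 5 ∧ a1 = 3 ∧ a2 = 1) ∨ (a0 = 5 ∧ a1 = 1 ∧ a2 = 3) ∨
    (a0 = 3 ∧ a1 = 5 ∧ a2 = 1) ∨ (a0 = 3 ∧ a1 = 1 ∧ a2 = 5) ∨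
    (a0 = 1 ∧ a1 = 5 ∧ a2 = 3) ∨ (a0 = 1 ∧ a1 = 3 ∧ a2 = 5) := by
  unfold T at t0 t1 t2
  rcases g0 with rfl | rfl | rfl | rfl | rfl <;> rcases g1 with rfl | rfl | rfl | rfl | rfl <;>
    rcases g2 with rfl | rfl | rfl | rfl | rfl <;> simp at t0 t1 t2 ⊢

/-- the trivial case -/
theorem triv (w a x0 y0 x1 y1 x2 y2 : ℕ) (hw : 1 ≤ w) (ha : 0 < a)
    (ga : G a) (tx : T a x0)
    (e0 : a * (2 * w + 1) + x0 + y0 = 3 ^ w)
    (e1 : x1 + y1 + a = 3 ^ w) (e2 : x2 + y2 + a = 3 ^ w)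
    (d1 : x1 = 0 ∨ y1 = 0) (d2 : x2 = 0 ∨ y2 = 0) : T a (x0 + x1 + x2) := by
  unfold T at *
  rcases Nat.lt_or_ge w 4 with h4 | h4
  · have : w = 1 ∨ w = 2 ∨ w = 3 := by omega
    rcases this with rfl | rfl | rfl <;> rcases ga with rfl | rfl | rfl | rfl | rfl <;>
      simp at * <;> omega
  · have hp := pow_ge4 w h4
    rcases ga with rfl | rfl | rfl | rfl | rfl <;> simp at * <;> omega

/-- the non-trivial case: the three subsets of the outcomes -/
theorem nontriv (w a0 a1 a2 x0 y0 x1 y1 x2 y2 : ℕ) (hw : 1 ≤ w)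
    (ht : (a0 = 1 ∧ a1 = 1 ∧ a2 = 1) ∨
    (a0 = 3 ∧ a1 = 1 ∧ a2 = 1) ∨ (a0 = 1 ∧ a1 = 3 ∧ a2 = 1) ∨ (a0 = 1 ∧ a1 = 1 ∧ a2 = 3) ∨
    (a0 = 3 ∧ a1 = 3 ∧ a2 = 3) ∨
    (a0 = 5 ∧ a1 = 3 ∧ a2 = 1) ∨ (a0 = 5 ∧ a1 = 1 ∧ a2 = 3) ∨
    (a0 = 3 ∧ a1 = 5 ∧ a2 = 1) ∨ (a0 = 3 ∧ a1 = 1 ∧ a2 = 5) ∨
    (a0 = 1 ∧ a1 = 5 ∧ a2 = 3) ∨ (a0 = 1 ∧ a1 = 3 ∧ a2 = 5))
    (e0 : a0 * (2 * w + 1) + x0 + y0 + (a1 + a2) = 3 ^ w)
    (e1 : a1 * (2 * w + 1) + x1 + y1 + (a0 + a2) = 3 ^ w)
    (e2 : a2 * (2 * w + 1) + x2 + y2 + (a0 + a1) = 3 ^ w)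
    (d0 : x0 = 0 ∨ y0 = 0) (d1 : x1 = 0 ∨ y1 = 0) (d2 : x2 = 0 ∨ y2 = 0) :
    G (a0 + a1 + a2) ∧ T (a0 + a1 + a2) (x0 + x1 + x2) := by
  unfold T G
  rcases Nat.lt_or_ge w 4 with h4 | h4
  · have : w = 1 ∨ w = 2 ∨ w = 3 := by omega
    rcases this with rfl | rfl | rfl <;>
      rcases ht with ⟨rfl, rfl, rfl⟩ | ⟨rfl, rfl, rfl⟩ | ⟨rfl, rfl, rfl⟩ | ⟨rfl, rfl, rfl⟩ |
        ⟨rfl, rfl, rfl⟩ | ⟨rfl, rfl, rfl⟩ | ⟨rfl, rfl, rfl⟩ | ⟨rfl, rfl, rfl⟩ | ⟨rfl, rfl, rfl⟩ |
        ⟨rfl, rfl, rfl⟩ | ⟨rfl, rfl, rfl⟩ <;> norm_num at * <;> omega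
  · have hp := pow_ge4 w h4
    rcases ht with ⟨rfl, rfl, rfl⟩ | ⟨rfl, rfl, rfl⟩ | ⟨rfl, rfl, rfl⟩ | ⟨rfl, rfl, rfl⟩ |
        ⟨rfl, rfl, rfl⟩ | ⟨rfl, rfl, rfl⟩ | ⟨rfl, rfl, rfl⟩ | ⟨rfl, rfl, rfl⟩ | ⟨rfl, rfl, rfl⟩ |
        ⟨rfl, rfl, rfl⟩ | ⟨rfl, rfl, rfl⟩ <;> norm_num at * <;> omega

theorem Pf {w a x y z : ℕ} (h : Num w a x y z) (he : a * (2 * w + 1) + x + y + z = 3 ^ w) :
    (1 ≤ w → x = 0 ∨ y = 0 ∨ z = 0) ∧ G a ∧ T a x ∧ T a y ∧ T a z := by
  induction h with
  | @ans w a x y z h =>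
    refine ⟨fun _ => by omega, ?_, ?_, ?_, ?_⟩
    · unfold G; omega
    · unfold T; omega
    · unfold T; omega
    · unfold T; omega
  | swap12 _ ih =>
    obtain ⟨h1, h2, h3, h4, h5⟩ := ih (by omega)
    exact ⟨fun hw => by have := h1 hw; omega, h2, h4, h3, h5⟩
  | swap23 _ ih =>
    obtain ⟨h1, h2, h3, h4, h5⟩ := ih (by omega)
    exact ⟨fun hw => by have := h1 hw; omega, h2, h3, h5, h4⟩
  | @weigh w a0 a1 a2 x0 x1 x2 y0 y1 y2 z n0 n1 n2 i0 i1 i2 =>
    have v0 := V n0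
    have v1 := V n1
    have v2 := V n2
    rw [pow_succ] at he
    have e : (a0 + a1 + a2) * (2 * (w + 1) + 1) = a0 * (2 * w + 1) + a1 * (2 * w + 1) +
      a2 * (2 * w + 1) + 2 * (a0 + a1 + a2) := by ring
    rw [e] at he
    have hz : z = 0 := by omega
    subst hz
    have e0 : a0 * (2 * w + 1) + x0 + y0 + (0 + (a1 + a2)) = 3 ^ w := by omega
    have e1 : a1 * (2 * w + 1) + x1 + y1 + (0 + (a0 + a2)) = 3 ^ w := by omega
    have e2 : a2 * (2 * w + 1) + x2 + y2 + (0 + (a0 + a1)) = 3 ^ w := by omega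
    obtain ⟨p0, g0, tx0, ty0, tz0⟩ := i0 e0
    obtain ⟨p1, g1, tx1, ty1, tz1⟩ := i1 e1
    obtain ⟨p2, g2, tx2, ty2, tz2⟩ := i2 e2
    rw [zero_add] at e0 e1 e2 tz0 tz1 tz2 p0 p1 p2
    have hT0 : T (a0 + a1 + a2) 0 := by unfold T; omega
    refine ⟨fun _ => Or.inr (Or.inr rfl), ?_⟩
    rcases Nat.eq_zero_or_pos w with hw | hw
    · -- level one
      subst hw
      simp only [pow_zero, mul_zero, zero_add, mul_one] at e0 e1 e2
      clear p0 p1 p2 tz0 tz1 tz2 tx0 tx1 tx2 ty0 ty1 ty2 i0 i1 i2 n0 n1 n2 v0 v1 v2 he e hT0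
      have ha : a0 + a1 + a2 = 0 ∨
          (a0 + a1 + a2 = 1 ∧ x0 + x1 + x2 = 0 ∧ y0 + y1 + y2 = 0) := by omega
      rcases ha with ha | ⟨ha, hx, hy⟩
      · rw [ha]; unfold G T; simp
      · rw [ha, hx, hy]; unfold G T; simp
    · have p0 := p0 hw
      have p1 := p1 hw
      have p2 := p2 hw
      have tr := triples a0 a1 a2 g0 g1 g2 tz0 tz1 tz2
      rcases tr with ⟨rfl, rfl⟩ | ⟨rfl, rfl⟩ | ⟨rfl, rfl⟩ | tr
      · rcases Nat.eq_zero_or_pos a0 with h0 | h0
        · subst h0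
          unfold G T
          simp
        · refine ⟨g0, ?_, ?_, hT0⟩
          · exact triv w a0 x0 y0 x1 y1 x2 y2 hw h0 g0 tx0 (by omega) (by omega) (by omega)
              (by omega) (by omega)
          · exact triv w a0 y0 x0 y1 x1 y2 x2 hw h0 g0 ty0 (by omega) (by omega) (by omega)
              (by omega) (by omega)
      · rcases Nat.eq_zero_or_pos a1 with h0 | h0
        · subst h0
          unfold G T
          simp
        · have q1 := triv w a1 x1 y1 x0 y0 x2 y2 hw h0 g1 tx1 (by omega) (by omega) (by omega)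
              (by omega) (by omega)
          have q2 := triv w a1 y1 x1 y0 x0 y2 x2 hw h0 g1 ty1 (by omega) (by omega) (by omega)
              (by omega) (by omega)
          rw [show x1 + x0 + x2 = x0 + x1 + x2 by omega] at q1
          rw [show y1 + y0 + y2 = y0 + y1 + y2 by omega] at q2
          rw [show 0 + a1 + 0 = a1 by omega] at hT0 ⊢
          exact ⟨g1, q1, q2, hT0⟩
      · rcases Nat.eq_zero_or_pos a2 with h0 | h0
        · subst h0
          unfold G T
          simp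
        · have q1 := triv w a2 x2 y2 x0 y0 x1 y1 hw h0 g2 tx2 (by omega) (by omega) (by omega)
              (by omega) (by omega)
          have q2 := triv w a2 y2 x2 y0 x0 y1 x1 hw h0 g2 ty2 (by omega) (by omega) (by omega)
              (by omega) (by omega)
          rw [show x2 + x0 + x1 = x0 + x1 + x2 by omega] at q1
          rw [show y2 + y0 + y1 = y0 + y1 + y2 by omega] at q2
          rw [show 0 + 0 + a2 = a2 by omega] at hT0 ⊢
          exact ⟨g2, q1, q2, hT0⟩
      · have d0 : x0 = 0 ∨ y0 = 0 := by omega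
        have d1 : x1 = 0 ∨ y1 = 0 := by omega
        have d2 : x2 = 0 ∨ y2 = 0 := by omega
        have q1 := nontriv w a0 a1 a2 x0 y0 x1 y1 x2 y2 hw tr e0 e1 e2 d0 d1 d2
        have q2 := nontriv w a0 a1 a2 y0 x0 y1 x1 y2 x2 hw tr (by omega) (by omega) (by omega)
          d0.symm d1.symm d2.symm
        exact ⟨q1.1, q1.2, q2.2, hT0⟩

/-! ### from `Sol` to `Num` -/

theorem card_split {N : ℕ} (L R A : Finset (Fin N)) :
    A.card = (A ∩ grp L R .left).card + (A ∩ grp L R .right).card +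
      (A ∩ grp L R .balance).card := by
  classical
  have h : A = (A ∩ grp L R .left) ∪ (A ∩ grp L R .right) ∪ (A ∩ grp L R .balance) := by
    ext c
    simp only [Finset.mem_union, Finset.mem_inter, mem_grp]
    constructor
    · intro hc
      cases h : trueOutcome c L R
      · exact Or.inl (Or.inl ⟨hc, rfl⟩)
      · exact Or.inl (Or.inr ⟨hc, rfl⟩)
      · exact Or.inr ⟨hc, rfl⟩
    · rintro ((h | h) | h) <;> exact h.1
  conv_lhs => rw [h]
  rw [Finset.card_union_of_disjoint, Finset.card_union_of_disjoint]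
  · rw [Finset.disjoint_left]
    intro c h1 h2
    rw [Finset.mem_inter, mem_grp] at h1 h2
    rw [h1.2] at h2
    exact absurd h2.2 (by decide)
  · rw [Finset.disjoint_left]
    intro c h1 h2
    rw [Finset.mem_union, Finset.mem_inter, Finset.mem_inter, mem_grp, mem_grp] at h1
    rw [Finset.mem_inter, mem_grp] at h2
    rcases h1 with h1 | h1
    · rw [h1.2] at h2
      exact absurd h2.2 (by decide)
    · rw [h1.2] at h2
      exact absurd h2.2 (by decide)

theorem step {N w : ℕ} (s j k : Fin 3) (hjs : j ≠ s) (hks : k ≠ s) (L R A : Finset (Fin N))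
    (B : Fin 3 → Finset (Fin N)) (hd : Disjoint (B s) A)
    (h : ∀ o, Num w (A ∩ grp L R o).card (nextB s L R A B o j).card (nextB s L R A B o k).card
      (nextB s L R A B o s).card) :
    Num (w + 1) A.card (B j).card (B k).card (B s).card := by
  have hs : ∀ o, (nextB s L R A B o s).card = (B s).card + (A.card - (A ∩ grp L R o).card) := by
    intro o
    simp only [nextB, if_true]
    rw [Finset.card_union_of_disjoint (hd.mono_right Finset.sdiff_subset),
      Finset.card_sdiff]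
    rw [Finset.inter_comm]
  have hj : ∀ o, (nextB s L R A B o j).card = (B j ∩ grp L R o).card := by
    intro o
    simp only [nextB, if_neg hjs]
  have hk : ∀ o, (nextB s L R A B o k).card = (B k ∩ grp L R o).card := by
    intro o
    simp only [nextB, if_neg hks]
  have h0 := h .left
  have h1 := h .right
  have h2 := h .balance
  rw [hs, hj, hk] at h0 h1 h2
  have cA := card_split L R A
  have cj := card_split L R (B j)
  have ck := card_split L R (B k)
  rw [show A.card - (A ∩ grp L R .left).card =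
    (A ∩ grp L R .right).card + (A ∩ grp L R .balance).card by omega] at h0
  rw [show A.card - (A ∩ grp L R .right).card =
    (A ∩ grp L R .left).card + (A ∩ grp L R .balance).card by omega] at h1
  rw [show A.card - (A ∩ grp L R .balance).card =
    (A ∩ grp L R .left).card + (A ∩ grp L R .right).card by omega] at h2
  have := Num.weigh h0 h1 h2
  rw [← cA, ← cj, ← ck] at this
  exact this

theorem num_of_sol {N : ℕ} : ∀ (w : ℕ) (A : Finset (Fin N)) (B : Fin 3 → Finset (Fin N)),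
    (∀ b, Disjoint A (B b)) → (∀ b b', b ≠ b' → Disjoint (B b) (B b')) → Sol w A B →
    Num w A.card (B 0).card (B 1).card (B 2).card := by
  intro w
  induction w with
  | zero =>
    intro A B hA hB h
    rcases h.cases with ⟨c, h1, h2⟩ | ⟨w', _, _, _, h1, _⟩
    · apply Num.ans
      have hsub : ((A ∪ B 0) ∪ B 1) ∪ B 2 ⊆ {c} := by
        intro a ha
        simp only [Finset.mem_union] at ha
        rw [Finset.mem_singleton]
        rcases ha with ((ha | ha) | ha) | ha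
        · exact h1 a ha
        · exact h2 0 a ha
        · exact h2 1 a ha
        · exact h2 2 a ha
      have h3 := Finset.card_le_card hsub
      rw [Finset.card_union_of_disjoint, Finset.card_union_of_disjoint,
        Finset.card_union_of_disjoint (hA 0), Finset.card_singleton] at h3
      · exact h3
      · rw [Finset.disjoint_union_left]
        exact ⟨hA 1, hB 0 1 (by decide)⟩
      · rw [Finset.disjoint_union_left, Finset.disjoint_union_left]
        exact ⟨⟨hA 2, hB 0 2 (by decide)⟩, hB 1 2 (by decide)⟩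
    · omega
  | succ n ih =>
    intro A B hA hB h
    rcases h.cases with ⟨c, h1, h2⟩ | ⟨w', s, L, R, h1, _, _, h4⟩
    · apply Num.ans
      have hsub : ((A ∪ B 0) ∪ B 1) ∪ B 2 ⊆ {c} := by
        intro a ha
        simp only [Finset.mem_union] at ha
        rw [Finset.mem_singleton]
        rcases ha with ((ha | ha) | ha) | ha
        · exact h1 a ha
        · exact h2 0 a ha
        · exact h2 1 a ha
        · exact h2 2 a ha
      have h3 := Finset.card_le_card hsub
      rw [Finset.card_union_of_disjoint, Finset.card_union_of_disjoint,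
        Finset.card_union_of_disjoint (hA 0), Finset.card_singleton] at h3
      · exact h3
      · rw [Finset.disjoint_union_left]
        exact ⟨hA 1, hB 0 1 (by decide)⟩
      · rw [Finset.disjoint_union_left, Finset.disjoint_union_left]
        exact ⟨⟨hA 2, hB 0 2 (by decide)⟩, hB 1 2 (by decide)⟩
    · have hw : n = w' := by omega
      subst hw
      have key : ∀ o, Num n (A ∩ grp L R o).card (nextB s L R A B o 0).card
          (nextB s L R A B o 1).card (nextB s L R A B o 2).card := by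
        intro o
        apply ih _ _ _ _ (h4 o)
        · intro b
          simp only [nextB]
          split_ifs with hb
          · subst hb
            rw [Finset.disjoint_union_right]
            refine ⟨(hA b).mono_left Finset.inter_subset_left, ?_⟩
            rw [Finset.disjoint_left]
            intro c hc hc'
            exact (Finset.mem_sdiff.1 hc').2 (Finset.mem_inter.1 hc).2
          · exact (hA b).mono Finset.inter_subset_left Finset.inter_subset_left
        · have hgen : ∀ b, b ≠ s → Disjoint (nextB s L R A B o b) (nextB s L R A B o s) := by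
            intro b hb
            simp only [nextB, if_true, if_neg hb]
            rw [Finset.disjoint_union_right]
            refine ⟨(hB b s hb).mono_left Finset.inter_subset_left, ?_⟩
            exact (hA b).symm.mono Finset.inter_subset_left Finset.sdiff_subset
          intro b b' hbb
          by_cases hb : b = s
          · subst hb
            exact (hgen b' (Ne.symm hbb)).symm
          · by_cases hb' : b' = s
            · subst hb'
              exact hgen b hb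
            · simp only [nextB, if_neg hb, if_neg hb']
              exact (hB b b' hbb).mono Finset.inter_subset_left Finset.inter_subset_left
      have hs : s = 0 ∨ s = 1 ∨ s = 2 := by
        fin_cases s <;> simp
      rcases hs with rfl | rfl | rfl
      · have := step (w := n) 0 1 2 (by decide) (by decide) L R A B (hA 0).symm
          (fun o => ((key o).swap12).swap23)
        exact this.swap23.swap12
      · have := step (w := n) 1 0 2 (by decide) (by decide) L R A B (hA 1).symm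
          (fun o => (key o).swap23)
        exact this.swap23
      · exact step (w := n) 2 0 1 (by decide) (by decide) L R A B (hA 2).symm key

end LB

theorem lower_bound {n w : ℕ} (hn : 2 ≤ n) (h : Wins (3 ^ (2 * n)) w) :
    3 ^ (2 * n) * (2 * w + 1) < 3 ^ w := by
  rw [wins_iff_sol] at h
  have h1 := LB.num_of_sol w _ _ (fun b => by simp) (fun b b' _ => by simp) h
  rw [Finset.card_univ, Fintype.card_fin, Finset.card_empty] at h1
  have h2 := LB.V h1
  have h3 : 3 ^ (2 * n) * (2 * w + 1) ≤ 3 ^ w := by omega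
  rcases lt_or_eq_of_le h3 with h4 | h4
  · exact h4
  · exfalso
    have h5 := (LB.Pf h1 (by omega)).2.1
    have h6 : 3 ^ 4 ≤ 3 ^ (2 * n) := Nat.pow_le_pow_right (by norm_num) (by omega)
    unfold LB.G at h5
    omega

end Pool.Agent.R89.Coin
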