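import Pool.Agent.R89.Coin.State

/-!
# The induction for two-type positions (MP_a3b474_co)
-/

namespace Pool.Agent.R89.Coin

/-- The slack needed per coin of the first kind. -/
noncomputable def kk (w : ℕ) : ℝ := 4 - 192 / 2 ^ w

/-- The slack needed for a position with `a ≥ 1` coins of the first kind. -/
noncomputable def DD (w a : ℕ) : ℝ := kk w * a + 2 * w + 8

/-- All positions with enough slack can be solved. -/
def HH (w : ℕ) : Prop :=
  ∀ a x y : ℕ, 1 ≤ a → (2 * (w : ℝ) + 1) * a + x + y + DD w a ≤ 3 ^ w → S w a x y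

/-- The table for few coins. -/
def TT : Prop :=
  ∀ i c r : ℕ, 1 ≤ i → i + c ≤ 20 → 13 * i + c + r + (2 * i + c / 2 + 4) ≤ 729 → S 6 i r c

theorem kk_le (w : ℕ) : kk w ≤ 4 := by
  unfold kk
  have : (0:ℝ) ≤ 192 / 2 ^ w := by positivity
  linarith

theorem kk_six : kk 6 = 1 := by unfold kk; norm_num

theorem kk_seven : kk 7 = 5 / 2 := by unfold kk; norm_num

theorem kk_mono {v w : ℕ} (h : v ≤ w) : kk v ≤ kk w := by
  unfold kk
  have : (192:ℝ) / 2 ^ w ≤ 192 / 2 ^ v := by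
    apply div_le_div_of_nonneg_left (by norm_num) (by positivity)
    exact pow_le_pow_right₀ (by norm_num) h
  linarith

theorem kk_succ (v : ℕ) : kk (v + 1) - kk v = 96 / 2 ^ v := by
  unfold kk
  rw [pow_succ]
  field_simp
  ring

theorem kk_nonneg {w : ℕ} (h : 6 ≤ w) : 1 ≤ kk w := by
  rw [← kk_six]; exact kk_mono h

theorem DD_nonneg {w a : ℕ} (h : 6 ≤ w) : 0 ≤ DD w a := by
  unfold DD
  have := kk_nonneg h
  positivity

theorem chain_aux {a c : ℕ} {f : ℝ} {v : ℕ} (hf : 0 ≤ f)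
    (hv : (2 * (v : ℝ) + 1) * a + c + f ≤ 3 ^ v) :
    ∀ w, v ≤ w → (2 * (w : ℝ) + 1) * a + c + f ≤ 3 ^ w := by
  intro w hw
  induction w, hw using Nat.le_induction with
  | base => exact hv
  | succ w hw ih =>
    have h1 : (a : ℝ) ≤ 3 ^ w := by
      have h2 : (0:ℝ) ≤ (w : ℝ) * a := by positivity
      have h3 : (0:ℝ) ≤ c := by positivity
      nlinarith
    push_cast
    rw [pow_succ]
    have h2 : (0:ℝ) ≤ (3:ℝ) ^ w := by positivity
    nlinarith

theorem chain {a c : ℕ} {f : ℝ} {v : ℕ} (hf : 0 ≤ f)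
    (hP : ∀ r : ℕ, (2 * (v : ℝ) + 1) * a + c + r + f ≤ 3 ^ v → S v a r c)
    (hv : (2 * (v : ℝ) + 1) * a + c + f ≤ 3 ^ v) :
    ∀ w, v ≤ w → ∀ r : ℕ, (2 * (w : ℝ) + 1) * a + c + r + f ≤ 3 ^ w → S w a r c := by
  intro w hw
  induction w, hw using Nat.le_induction with
  | base => exact hP
  | succ w hw ih =>
    intro r hr
    have h0 := chain_aux hf hv w hw
    have h1 : (a : ℝ) ≤ 3 ^ w := by
      have h2 : (0:ℝ) ≤ (w : ℝ) * a := by positivity
      have h3 : (0:ℝ) ≤ c := by positivity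
      nlinarith
    have h1' : a ≤ 3 ^ w := by exact_mod_cast h1
    by_cases hle : r ≤ 2 * (3 ^ w - a)
    · have hS : S w a 0 c := by
        apply ih
        push_cast
        linarith
      have h2 := S.caseA1 (z0 := min r (3 ^ w - a)) (z1 := r - min r (3 ^ w - a)) hS
        (by omega) (by omega)
      have h3 : 0 + min r (3 ^ w - a) + (r - min r (3 ^ w - a)) = r := by omega
      rwa [h3] at h2
    · push Not at hle
      have hS : S w a (r - 2 * (3 ^ w - a)) c := by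
        apply ih
        have h4 : ((r - 2 * (3 ^ w - a) : ℕ) : ℝ) = r - 2 * (3 ^ w - a) := by
          rw [Nat.cast_sub hle.le]
          push_cast [Nat.cast_sub h1']
          ring
        rw [h4]
        push_cast at hr
        rw [pow_succ] at hr
        nlinarith
      have h2 := S.caseA1 (z0 := 3 ^ w - a) (z1 := 3 ^ w - a) hS (by omega) (by omega)
      have h3 : r - 2 * (3 ^ w - a) + (3 ^ w - a) + (3 ^ w - a) = r := by omega
      rwa [h3] at h2

theorem two_split (c : ℕ → ℝ) (hc0 : c 0 = 0) (a : ℕ) (s1 s2 : ℝ) (h1 : 0 ≤ s1) (h2 : 0 ≤ s2)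
    (h : ∀ i j : ℕ, 1 ≤ i → 1 ≤ j → i + j = a + 1 → c i + c j ≤ s1 + s2) :
    ∃ a1 a2, a1 + a2 = a ∧ c a1 ≤ s1 ∧ c a2 ≤ s2 := by
  classical
  have hP0 : c 0 ≤ s1 := by rw [hc0]; exact h1
  have hspec : c (Nat.findGreatest (fun i => c i ≤ s1) a) ≤ s1 :=
    Nat.findGreatest_spec (P := fun i => c i ≤ s1) (Nat.zero_le a) hP0
  have hle : Nat.findGreatest (fun i => c i ≤ s1) a ≤ a := Nat.findGreatest_le a
  have hgr : ∀ k, Nat.findGreatest (fun i => c i ≤ s1) a < k → k ≤ a → ¬ c k ≤ s1 :=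
    fun k hk hka => Nat.findGreatest_is_greatest hk hka
  generalize Nat.findGreatest (fun i => c i ≤ s1) a = a1 at hspec hle hgr
  rcases Nat.eq_or_lt_of_le hle with heq | hlt
  · exact ⟨a1, 0, by omega, hspec, by rw [hc0]; exact h2⟩
  · refine ⟨a1, a - a1, by omega, hspec, ?_⟩
    have h3 := hgr (a1 + 1) (Nat.lt_succ_self _) hlt
    have h4 := h (a1 + 1) (a - a1) (by omega) (by omega) (by omega)
    push Not at h3
    linarith

theorem three_split (c : ℕ → ℝ) (hc0 : c 0 = 0) (a : ℕ) (s0 s1 s2 : ℝ) (h0 : 0 ≤ s0) (h1 : 0 ≤ s1)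
    (h2 : 0 ≤ s2)
    (h : ∀ i j l : ℕ, 1 ≤ i → 1 ≤ j → 1 ≤ l → i + j + l = a + 2 → c i + c j + c l ≤ s0 + s1 + s2) :
    ∃ a0 a1 a2, a0 + a1 + a2 = a ∧ c a0 ≤ s0 ∧ c a1 ≤ s1 ∧ c a2 ≤ s2 := by
  classical
  have hP0 : c 0 ≤ s0 := by rw [hc0]; exact h0
  have hspec : c (Nat.findGreatest (fun i => c i ≤ s0) a) ≤ s0 :=
    Nat.findGreatest_spec (P := fun i => c i ≤ s0) (Nat.zero_le a) hP0
  have hle : Nat.findGreatest (fun i => c i ≤ s0) a ≤ a := Nat.findGreatest_le a
  have hgr : ∀ k, Nat.findGreatest (fun i => c i ≤ s0) a < k → k ≤ a → ¬ c k ≤ s0 :=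
    fun k hk hka => Nat.findGreatest_is_greatest hk hka
  generalize Nat.findGreatest (fun i => c i ≤ s0) a = a0 at hspec hle hgr
  rcases Nat.eq_or_lt_of_le hle with heq | hlt
  · exact ⟨a0, 0, 0, by omega, hspec, by rw [hc0]; exact h1, by rw [hc0]; exact h2⟩
  · have h3 := hgr (a0 + 1) (Nat.lt_succ_self _) hlt
    push Not at h3
    obtain ⟨a1, a2, h12, hc1, hc2⟩ := two_split c hc0 (a - a0) s1 s2 h1 h2 (by
      intro i j hi hj hij
      have := h (a0 + 1) i j (by omega) hi hj (by omega)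
      linarith)
    exact ⟨a0, a1, a2, by omega, hspec, hc1, hc2⟩

theorem N1 (v : ℕ) (hv : 8 ≤ v) :
    2 ^ v * (4 * v + 10) * (2 * v + 3) + 96 * (2 * v + 6) ≤ 96 * 3 ^ (v - 1) := by
  induction v, hv using Nat.le_induction with
  | base => norm_num
  | succ v hv ih =>
    have h1 : 3 ^ (v + 1 - 1) = 3 * 3 ^ (v - 1) := by
      rw [← pow_succ']
      congr 1
      omega
    rw [h1]
    have h2 : 2 * ((4 * (v + 1) + 10) * (2 * (v + 1) + 3)) ≤ 3 * ((4 * v + 10) * (2 * v + 3)) := by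
      nlinarith
    calc 2 ^ (v + 1) * (4 * (v + 1) + 10) * (2 * (v + 1) + 3) + 96 * (2 * (v + 1) + 6)
        = 2 ^ v * (2 * ((4 * (v + 1) + 10) * (2 * (v + 1) + 3))) + 96 * (2 * (v + 1) + 6) := by
          rw [pow_succ]; ring
      _ ≤ 2 ^ v * (3 * ((4 * v + 10) * (2 * v + 3))) + 96 * (3 * (2 * v + 6)) := by
          exact Nat.add_le_add (Nat.mul_le_mul_left (2 ^ v) h2) (Nat.mul_le_mul_left 96 (by linarith))
      _ = 3 * (2 ^ v * (4 * v + 10) * (2 * v + 3) + 96 * (2 * v + 6)) := by ring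
      _ ≤ 3 * (96 * 3 ^ (v - 1)) := Nat.mul_le_mul_left 3 ih
      _ = 96 * (3 * 3 ^ (v - 1)) := by ring

theorem N2 (v : ℕ) (hv : 7 ≤ v) :
    2 ^ v * (8 * v + 22) * (2 * v + 5) + 96 * (2 * v + 8) ≤ 96 * 3 ^ v := by
  induction v, hv using Nat.le_induction with
  | base => norm_num
  | succ v hv ih =>
    have h2 : 2 * ((8 * (v + 1) + 22) * (2 * (v + 1) + 5)) ≤ 3 * ((8 * v + 22) * (2 * v + 5)) := by
      nlinarith
    calc 2 ^ (v + 1) * (8 * (v + 1) + 22) * (2 * (v + 1) + 5) + 96 * (2 * (v + 1) + 8)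
        = 2 ^ v * (2 * ((8 * (v + 1) + 22) * (2 * (v + 1) + 5))) + 96 * (2 * (v + 1) + 8) := by
          rw [pow_succ]; ring
      _ ≤ 2 ^ v * (3 * ((8 * v + 22) * (2 * v + 5))) + 96 * (3 * (2 * v + 8)) := by
          exact Nat.add_le_add (Nat.mul_le_mul_left (2 ^ v) h2) (Nat.mul_le_mul_left 96 (by linarith))
      _ = 3 * (2 ^ v * (8 * v + 22) * (2 * v + 5) + 96 * (2 * v + 8)) := by ring
      _ ≤ 3 * (96 * 3 ^ v) := Nat.mul_le_mul_left 3 ih
      _ = 96 * 3 ^ (v + 1) := by rw [pow_succ]; ring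

/-- From `T < 96 a / 2 ^ v` style inequalities. -/
theorem div_aux {v a : ℕ} {T : ℝ} (h : 2 ^ v * T ≤ 96 * a) : T ≤ 96 / 2 ^ v * a := by
  have h2 : (0:ℝ) < 2 ^ v := by positivity
  rw [div_mul_eq_mul_div, le_div_iff₀ h2]
  linarith

theorem R2num {v w a : ℕ} (hv : 6 ≤ v) (hvw : v < w) (ha : 21 ≤ a)
    (h : v = 6 ∨ (3:ℝ) ^ (v - 1) < (2 * ((v - 1 : ℕ) : ℝ) + 1) * a + DD (v - 1) a) :
    4 * v + 6 + kk v ≤ (kk w - kk v) * a := by
  have h1 : (96 / 2 ^ v : ℝ) * a ≤ (kk w - kk v) * a := by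
    apply mul_le_mul_of_nonneg_right _ (by positivity)
    rw [← kk_succ]
    linarith [kk_mono (show v + 1 ≤ w from hvw)]
  refine le_trans (div_aux ?_) h1
  have ha' : (21:ℝ) ≤ a := by exact_mod_cast ha
  rcases h with h | h
  · subst h
    rw [kk_six]
    norm_num
    linarith
  · rcases Nat.lt_or_ge v 8 with h8 | h8
    · have h67 : v = 6 ∨ v = 7 := by omega
      rcases h67 with h6 | h7
      · subst h6
        rw [kk_six]
        norm_num
        linarith
      · subst h7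
        rw [kk_seven]
        have h3 : (729:ℝ) < 14 * a + 20 := by
          unfold DD at h
          norm_num [kk_six] at h
          linarith
        have h4 : 51 ≤ a := by
          by_contra hcon
          have : a ≤ 50 := by omega
          have : (a:ℝ) ≤ 50 := by exact_mod_cast this
          linarith
        have h5 : (51:ℝ) ≤ a := by exact_mod_cast h4
        norm_num
        linarith
    · have hN := N1 v h8
      have hN' : (2:ℝ) ^ v * (4 * v + 10) * (2 * v + 3) + 96 * (2 * v + 6) ≤ 96 * 3 ^ (v - 1) := by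
        exact_mod_cast hN
      unfold DD at h
      have hk := kk_le (v - 1)
      have hk2 := kk_le v
      have hc : ((v - 1 : ℕ) : ℝ) = v - 1 := by
        rw [Nat.cast_sub (by omega)]; norm_num
      rw [hc] at h
      have h6 : kk (v - 1) * a ≤ 4 * a := mul_le_mul_of_nonneg_right hk (by positivity)
      have h7 : (3:ℝ) ^ (v - 1) < (2 * v + 3) * a + (2 * v + 6) := by nlinarith
      have h8' : (2:ℝ) ^ v * (4 * v + 10) * (2 * v + 3) < 96 * a * (2 * v + 3) := by nlinarith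
      have h9 : (0:ℝ) < 2 * v + 3 := by positivity
      have h10 : (2:ℝ) ^ v * (4 * v + 10) < 96 * a := lt_of_mul_lt_mul_right h8' h9.le
      have h11 : (2:ℝ) ^ v * (4 * v + 6 + kk v) ≤ 2 ^ v * (4 * v + 10) := by
        apply mul_le_mul_of_nonneg_left _ (by positivity)
        linarith
      linarith

theorem R3num {v a : ℕ} (hv : 6 ≤ v)
    (h : (3:ℝ) ^ v < (2 * (v : ℝ) + 1) * a + DD v a) :
    8 * v + 2 * kk v + 14 ≤ (kk (v + 1) - kk v) * a := by
  rw [kk_succ]
  apply div_aux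
  rcases Nat.lt_or_ge v 7 with h7 | h7
  · have h6 : v = 6 := by omega
    subst h6
    rw [kk_six]
    have h3 : (729:ℝ) < 14 * a + 20 := by
      unfold DD at h
      norm_num [kk_six] at h
      linarith
    norm_num
    linarith
  · have hN := N2 v h7
    have hN' : (2:ℝ) ^ v * (8 * v + 22) * (2 * v + 5) + 96 * (2 * v + 8) ≤ 96 * 3 ^ v := by
      exact_mod_cast hN
    unfold DD at h
    have hk2 := kk_le v
    have h6 : kk v * a ≤ 4 * a := mul_le_mul_of_nonneg_right hk2 (by positivity)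
    have h7 : (3:ℝ) ^ v < (2 * v + 5) * a + (2 * v + 8) := by nlinarith
    have h8' : (2:ℝ) ^ v * (8 * v + 22) * (2 * v + 5) < 96 * a * (2 * v + 5) := by nlinarith
    have h9 : (0:ℝ) < 2 * v + 5 := by positivity
    have h10 : (2:ℝ) ^ v * (8 * v + 22) < 96 * a := lt_of_mul_lt_mul_right h8' h9.le
    have h11 : (2:ℝ) ^ v * (8 * v + 2 * kk v + 14) ≤ 2 ^ v * (8 * v + 22) := by
      apply mul_le_mul_of_nonneg_left _ (by positivity)
      linarith
    linarith

end Pool.Agent.R89.Coin
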