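import Pool.Agent.R89.Coin.Main

namespace Pool.Agent.R89.Coin

theorem child_of_chain {w v a i z : ℕ} {f : ℝ} (hvw : v ≤ w) (hi : i ≤ a) (hf : 0 ≤ f)
    (hP : ∀ r : ℕ, (2 * (v : ℝ) + 1) * i + ((a - i : ℕ) : ℝ) + r + f ≤ 3 ^ v → S v i r (a - i))
    (hv : (2 * (v : ℝ) + 1) * i + ((a - i : ℕ) : ℝ) + f ≤ 3 ^ v)
    (hz : 2 * (w : ℝ) * i + f ≤ 3 ^ w - a - z) : S w i z (a - i) := by
  apply chain hf hP hv w hvw z
  rw [Nat.cast_sub hi]
  linarith

theorem corner_of {w a r y : ℕ} (c : ℕ → ℝ) (hc0 : c 0 = 0)
    (hr : r + a ≤ 3 ^ w) (hy : y + a ≤ 3 ^ w)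
    (hchild : ∀ i, 1 ≤ i → i ≤ a → ∀ z : ℕ, z + a ≤ 3 ^ w → c i ≤ (3:ℝ) ^ w - a - z →
      S w i z (a - i))
    (hnum : ∀ i j : ℕ, 1 ≤ i → 1 ≤ j → i + j = a + 1 →
      c i + c j ≤ ((3:ℝ) ^ w - a - r) + (3 ^ w - a - y)) :
    ∃ a1 a2, a1 + a2 = a ∧ S w a1 r a2 ∧ S w a2 y a1 := by
  have hr' : (r : ℝ) + a ≤ 3 ^ w := by exact_mod_cast hr
  have hy' : (y : ℝ) + a ≤ 3 ^ w := by exact_mod_cast hy
  obtain ⟨a1, a2, h12, hc1, hc2⟩ := two_split c hc0 a ((3:ℝ) ^ w - a - r) (3 ^ w - a - y)
    (by linarith) (by linarith) hnum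
  refine ⟨a1, a2, h12, ?_, ?_⟩
  · rcases Nat.eq_zero_or_pos a1 with h0 | h0
    · subst h0
      exact S.zero (by omega)
    · have := hchild a1 h0 (by omega) r hr hc1
      have h3 : a - a1 = a2 := by omega
      rwa [h3] at this
  · rcases Nat.eq_zero_or_pos a2 with h0 | h0
    · subst h0
      exact S.zero (by omega)
    · have := hchild a2 h0 (by omega) y hy hc2
      have h3 : a - a2 = a1 := by omega
      rwa [h3] at this

theorem corner {w : ℕ} (hw : 6 ≤ w) (H : ∀ v, 6 ≤ v → v ≤ w → HH v) (hT : TT) {a r y : ℕ}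
    (ha : 1 ≤ a) (hr : r + a ≤ 3 ^ w) (hy : y + a ≤ 3 ^ w)
    (hs : 2 * (w : ℝ) * a + DD (w + 1) a ≤ ((3:ℝ) ^ w - a - r) + (3 ^ w - a - y)) :
    ∃ a1 a2, a1 + a2 = a ∧ S w a1 r a2 ∧ S w a2 y a1 := by
  rcases Nat.lt_or_ge a 21 with h20 | h21
  · -- few coins: the table
    set f : ℕ → ℝ := fun i => 2 * i + ((a:ℝ) - i) / 2 + 4 with hfdef
    apply corner_of (fun i => if i = 0 then 0 else 2 * (w : ℝ) * i + f i) (by simp) hr hy
    · intro i hi hia z hz hc
      rw [if_neg (by omega)] at hc
      have hia' : (i:ℝ) ≤ a := by exact_mod_cast hia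
      have ha20 : (a:ℝ) ≤ 20 := by
        have : a ≤ 20 := by omega
        exact_mod_cast this
      apply child_of_chain hw hia (f := f i)
      · simp only [hfdef]; linarith [show (0:ℝ) ≤ i from by positivity]
      · intro r' hr'
        apply hT i (a - i) r' hi (by omega)
        have h1 : (13 * (i:ℝ) + ((a - i : ℕ) : ℝ) + r' + (2 * i + ((a - i : ℕ) : ℝ) / 2 + 4)) ≤ 729 := by
          simp only [hfdef] at hr'
          rw [Nat.cast_sub hia] at hr' ⊢
          norm_num at hr'
          linarith
        have h2 : (((a - i) / 2 : ℕ) : ℝ) ≤ ((a - i : ℕ) : ℝ) / 2 := Nat.cast_div_le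
        have h3 : ((13 * i + (a - i) + r' + (2 * i + (a - i) / 2 + 4) : ℕ) : ℝ) ≤ (729 : ℕ) := by
          push_cast
          push_cast at h1 h2
          linarith
        exact_mod_cast h3
      · simp only [hfdef]
        rw [Nat.cast_sub hia]
        norm_num
        linarith
      · simpa [hfdef] using hc
    · intro i j hi hj hij
      rw [if_neg (by omega), if_neg (by omega)]
      have hij' : (i:ℝ) + j = a + 1 := by exact_mod_cast hij
      refine le_trans ?_ hs
      simp only [hfdef]
      unfold DD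
      have hk : 5 / 2 ≤ kk (w + 1) := by
        rw [← kk_seven]; exact kk_mono (by omega)
      have hka : 5 / 2 * (a:ℝ) ≤ kk (w + 1) * a := mul_le_mul_of_nonneg_right hk (by positivity)
      have hj' : (j:ℝ) = a + 1 - i := by linarith
      rw [hj']
      push_cast
      nlinarith
  · -- many coins
    have key : ∃ v, 6 ≤ v ∧ v ≤ w ∧
        (v = 6 ∨ (3:ℝ) ^ (v - 1) < (2 * ((v - 1 : ℕ) : ℝ) + 1) * a + DD (v - 1) a) ∧
        (v = w ∨ (2 * (v : ℝ) + 1) * a + DD v a ≤ 3 ^ v) := by
      by_cases hex : ∃ v, 6 ≤ v ∧ v ≤ w ∧ (2 * (v : ℝ) + 1) * a + DD v a ≤ 3 ^ v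
      · classical
        have hsp := Nat.find_spec hex
        refine ⟨Nat.find hex, hsp.1, hsp.2.1, ?_, Or.inr hsp.2.2⟩
        by_cases h6 : Nat.find hex = 6
        · exact Or.inl h6
        · right
          have h7 : 6 < Nat.find hex := lt_of_le_of_ne hsp.1 (Ne.symm h6)
          have hmin := Nat.find_min hex (show Nat.find hex - 1 < Nat.find hex by omega)
          by_contra hcon
          push Not at hcon
          exact hmin ⟨by omega, by omega, hcon⟩
      · refine ⟨w, hw, le_refl w, ?_, Or.inl rfl⟩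
        by_cases h6 : w = 6
        · exact Or.inl h6
        · right
          by_contra hcon
          push Not at hcon
          exact hex ⟨w - 1, by omega, by omega, hcon⟩
    obtain ⟨v, h6v, hvw, hlow, hup⟩ := key
    apply corner_of (fun i => if i = 0 then 0 else 2 * (w : ℝ) * i + DD v i) (by simp) hr hy
    · intro i hi hia z hz hc
      rw [if_neg (by omega)] at hc
      have hia' : (i:ℝ) ≤ a := by exact_mod_cast hia
      rcases hup with hup | hup
      · subst hup
        apply H v h6v le_rfl i z (a - i) hi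
        rw [Nat.cast_sub hia]
        linarith
      · apply child_of_chain hvw hia (f := DD v i) (DD_nonneg h6v)
        · intro r' hr'
          apply H v h6v hvw i r' (a - i) hi
          linarith
        · rw [Nat.cast_sub hia]
          unfold DD at hup ⊢
          have hk := kk_nonneg h6v
          have h1 : kk v * i ≤ kk v * a := mul_le_mul_of_nonneg_left hia' (by linarith)
          have h2 : (0:ℝ) ≤ v := by positivity
          nlinarith
        · exact hc
    · intro i j hi hj hij
      rw [if_neg (by omega), if_neg (by omega)]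
      have hij' : (i:ℝ) + j = a + 1 := by exact_mod_cast hij
      refine le_trans ?_ hs
      have hnum := R2num h6v (show v < w + 1 by omega) h21 hlow
      unfold DD
      have hj' : (j:ℝ) = a + 1 - i := by linarith
      rw [hj']
      push_cast
      nlinarith

theorem HH_step {w : ℕ} (hw : 6 ≤ w) (H : ∀ v, 6 ≤ v → v ≤ w → HH v) (hT : TT) :
    HH (w + 1) := by
  have main : ∀ a x y : ℕ, 1 ≤ a → y ≤ x →
      (2 * ((w + 1 : ℕ) : ℝ) + 1) * a + x + y + DD (w + 1) a ≤ 3 ^ (w + 1) → S (w + 1) a x y := by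
    intro a x y ha hyx hV
    have hw' : (6:ℝ) ≤ w := by exact_mod_cast hw
    have hkm : kk w ≤ kk (w + 1) := kk_mono (Nat.le_succ w)
    have hka : kk w * a ≤ kk (w + 1) * a := mul_le_mul_of_nonneg_right hkm (by positivity)
    have hk0 : 0 ≤ kk w * a := mul_nonneg (by linarith [kk_nonneg hw]) (by positivity)
    have ha0 : (0:ℝ) ≤ a := by positivity
    have hx0 : (0:ℝ) ≤ x := by positivity
    have hy0 : (0:ℝ) ≤ y := by positivity
    rw [pow_succ] at hV
    push_cast at hV
    have hDw : DD (w + 1) a = kk (w + 1) * a + 2 * w + 10 := by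
      unfold DD; push_cast; ring
    have hDw0 : DD w a = kk w * a + 2 * w + 8 := rfl
    rw [hDw] at hV
    have haC : a ≤ 3 ^ w := by
      have : (a:ℝ) ≤ 3 ^ w := by nlinarith
      exact_mod_cast this
    have hcast : (((3 ^ w - a : ℕ)) : ℝ) = 3 ^ w - a := by
      rw [Nat.cast_sub haC]; push_cast; ring
    by_cases h1 : 3 ^ w ≤ y + a
    · have hxc : ((x - (3 ^ w - a) : ℕ) : ℝ) = x - (3 ^ w - a) := by
        rw [Nat.cast_sub (by omega), hcast]
      have hyc : ((y - (3 ^ w - a) : ℕ) : ℝ) = y - (3 ^ w - a) := by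
        rw [Nat.cast_sub (by omega), hcast]
      have h2 := S.caseA2 (z0 := 3 ^ w - a) (z1 := 3 ^ w - a)
        (H w hw le_rfl a (x - (3 ^ w - a)) (y - (3 ^ w - a)) ha (by
          rw [hxc, hyc, hDw0]
          nlinarith)) (by omega) (by omega)
      have h3 : x - (3 ^ w - a) + (3 ^ w - a) = x := by omega
      have h4 : y - (3 ^ w - a) + (3 ^ w - a) = y := by omega
      rwa [h3, h4] at h2
    push Not at h1
    by_cases h2 : 2 * (3 ^ w - a) ≤ x
    · have h3 := S.caseA1 (z0 := 3 ^ w - a) (z1 := 3 ^ w - a)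
        (H w hw le_rfl a (x - 2 * (3 ^ w - a)) y ha (by
          rw [Nat.cast_sub (by omega), hDw0]
          push_cast
          rw [hcast]
          nlinarith)) (by omega) (by omega)
      have h4 : x - 2 * (3 ^ w - a) + (3 ^ w - a) + (3 ^ w - a) = x := by omega
      rwa [h4] at h3
    push Not at h2
    by_cases h3 : x + a ≤ 3 ^ w
    · by_cases h4 : (2 * (w : ℝ) + 1) * a + DD w a ≤ 3 ^ w
      · have h5 := S.caseA2 (z0 := x) (z1 := y) (H w hw le_rfl a 0 0 ha (by
          push_cast
          linarith)) h3 (by omega)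
        have h6 : 0 + x = x := by omega
        have h7 : 0 + y = y := by omega
        rwa [h6, h7] at h5
      · push Not at h4
        have h3' : (x:ℝ) + a ≤ 3 ^ w := by exact_mod_cast h3
        have h1' : (y:ℝ) + a ≤ 3 ^ w := by
          have : y + a ≤ 3 ^ w := h1.le
          exact_mod_cast this
        have haC' : (a:ℝ) ≤ 3 ^ w := by exact_mod_cast haC
        have hR3 := R3num hw h4
        obtain ⟨a0, a1, a2, h012, hc0, hc1, hc2⟩ :=
          three_split (fun i => if i = 0 then 0 else 2 * (w : ℝ) * i + DD w i) (by simp) a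
            ((3:ℝ) ^ w - a - x) (3 ^ w - a - y) (3 ^ w - a) (by linarith) (by linarith)
            (by linarith) (by
              intro i j l hi hj hl hijl
              rw [if_neg (by omega), if_neg (by omega), if_neg (by omega)]
              have hijl' : (i:ℝ) + j + l = a + 2 := by exact_mod_cast hijl
              unfold DD
              have hl' : (l:ℝ) = a + 2 - i - j := by linarith
              rw [hl']
              nlinarith)
        have hch : ∀ (i z c : ℕ), i + c = a → z + a ≤ 3 ^ w →
            (if i = 0 then 0 else 2 * (w : ℝ) * i + DD w i) ≤ (3:ℝ) ^ w - a - z → S w i z c := by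
          intro i z c hic hz hcost
          rcases Nat.eq_zero_or_pos i with h0 | h0
          · subst h0
            exact S.zero (by omega)
          · rw [if_neg (by omega)] at hcost
            apply H w hw le_rfl i z c h0
            have hic' : (i:ℝ) + c = a := by exact_mod_cast hic
            have : (c:ℝ) = a - i := by linarith
            rw [this]
            linarith
        have hA := hch a0 x (a2 + a1) (by omega) h3 hc0
        have hB := hch a2 0 (a0 + a1) (by omega) (by omega) (by
          push_cast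
          simpa using hc2)
        have hC := hch a1 y (a0 + a2) (by omega) h1.le hc1
        have := S.split hA hB hC
        have h5 : a0 + a2 + a1 = a := by omega
        have h6 : x + 0 = x := by omega
        rwa [h5, h6] at this
    · push Not at h3
      have hrr : x - (3 ^ w - a) + a ≤ 3 ^ w := by omega
      have hr' : ((x - (3 ^ w - a) : ℕ) : ℝ) = x - (3 ^ w - a) := by
        rw [Nat.cast_sub (by omega), hcast]
      obtain ⟨a1, a2, h12, hS1, hS2⟩ := corner hw H hT ha hrr h1.le (by
        rw [hr', hDw]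
        nlinarith)
      have h5 : S w 0 (3 ^ w - a) (a1 + a2) := S.zero (by omega)
      have h6 : S w a1 (x - (3 ^ w - a)) (0 + a2) := by simpa using hS1
      have h7 : S w a2 y (0 + a1) := by simpa using hS2
      have := S.split h5 h6 h7
      have h8 : 0 + a1 + a2 = a := by omega
      have h9 : (3 ^ w - a) + (x - (3 ^ w - a)) = x := by omega
      rwa [h8, h9] at this
  intro a x y ha hV
  rcases le_total y x with h | h
  · exact main a x y ha h hV
  · exact S.symm (main a y x ha h (by linarith))

theorem HH_all (h6 : HH 6) (hT : TT) : ∀ w, 6 ≤ w → HH w := by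
  intro w
  induction w using Nat.strong_induction_on with
  | _ w ih =>
    intro hw
    rcases Nat.eq_or_lt_of_le hw with h | h
    · rw [← h]; exact h6
    · obtain ⟨u, rfl⟩ : ∃ u, w = u + 1 := ⟨w - 1, by omega⟩
      exact HH_step (by omega) (fun v h6v hvu => ih v (by omega) h6v) hT

end Pool.Agent.R89.Coin
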