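import Pool.Agent.R89.Coin.Base

/-!
# The first two weighings and the arithmetic (MP_a3b474_co)
-/

namespace Pool.Agent.R89.Coin

theorem grp_left' {N : ℕ} (L R : Finset (Fin N)) : grp L R Outcome.left = L := by
  ext c
  rw [mem_grp, trueOutcome]
  split_ifs <;> simp_all

theorem grp_right' {N : ℕ} (L R : Finset (Fin N)) (hd : Disjoint L R) :
    grp L R Outcome.right = R := by
  ext c
  rw [mem_grp, trueOutcome]
  by_cases h1 : c ∈ L
  · have h2 : c ∉ R := Finset.disjoint_left.1 hd h1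
    simp [h1, h2]
  · by_cases h2 : c ∈ R <;> simp [h1, h2]

theorem grp_balance' {N : ℕ} (L R : Finset (Fin N)) :
    grp L R Outcome.balance = (L ∪ R)ᶜ := by
  ext c
  rw [mem_grp, trueOutcome]
  by_cases h1 : c ∈ L
  · simp [h1]
  · by_cases h2 : c ∈ R <;> simp [h1, h2]

/-- Two disjoint subsets of given size. -/
theorem exists_thirds {N : ℕ} (X : Finset (Fin N)) (m : ℕ) (h : X.card = 3 * m) :
    ∃ X1 X2 : Finset (Fin N), X1 ⊆ X ∧ X2 ⊆ X ∧ Disjoint X1 X2 ∧ X1.card = m ∧ X2.card = m ∧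
      (X \ (X1 ∪ X2)).card = m := by
  obtain ⟨X1, h1, hc1⟩ := Finset.exists_subset_card_eq (s := X) (n := m) (by omega)
  have h2 : (X \ X1).card = 2 * m := by
    rw [Finset.card_sdiff_of_subset h1]; omega
  obtain ⟨X2, h3, hc2⟩ := Finset.exists_subset_card_eq (s := X \ X1) (n := m) (by omega)
  have h4 : X2 ⊆ X := h3.trans Finset.sdiff_subset
  have h5 : Disjoint X1 X2 := by
    rw [Finset.disjoint_left]
    intro c hc hc2
    exact (Finset.mem_sdiff.1 (h3 hc2)).2 hc
  refine ⟨X1, X2, h1, h4, h5, hc1, hc2, ?_⟩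
  rw [Finset.card_sdiff_of_subset (Finset.union_subset h1 h4), Finset.card_union_of_disjoint h5]
  omega

/-- The statement of the soundness lemma. -/
def Sound : Prop :=
  ∀ {N w a x y : ℕ}, 0 < N → S w a x y → ∀ (i j k : Fin 3), i ≠ j → i ≠ k → j ≠ k →
    ∀ (A : Finset (Fin N)) (B : Fin 3 → Finset (Fin N)), Disjoint A (B i) → Disjoint A (B j) →
      Disjoint (B i) (B j) → B k = ∅ → A.card ≤ a → (B i).card ≤ x → (B j).card ≤ y →
      (A = ∅ ∨ max (B i).card (B j).card + A.card ≤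
        N - (A.card + (B i).card + (B j).card)) → Sol w A B

theorem second_weighing (hS : Sound) {N w m : ℕ} (hm : 0 < m) (hN : N = 9 * m)
    (h : S w m (2 * m) (2 * m))
    (A : Finset (Fin N)) (B : Fin 3 → Finset (Fin N)) (hA : A.card = 3 * m)
    (hB0 : (B 0).card = 6 * m) (hd : Disjoint A (B 0)) (hB1 : B 1 = ∅) (hB2 : B 2 = ∅) :
    Sol (w + 1) A B := by
  obtain ⟨A1, A2, hA1, hA2, hA12, hcA1, hcA2, hcA3⟩ := exists_thirds A m hA
  obtain ⟨Z1, Z2, hZ1, hZ2, hZ12, hcZ1, hcZ2, hcZ3⟩ := exists_thirds (B 0) (2 * m) (by omega)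
  have hAZ : ∀ c, c ∈ A → c ∉ B 0 := fun c hc => Finset.disjoint_left.1 hd hc
  have hZA : ∀ c, c ∈ B 0 → c ∉ A := fun c hc => Finset.disjoint_right.1 hd hc
  have hdL : Disjoint (A1 ∪ Z1) (A2 ∪ Z2) := by
    rw [Finset.disjoint_left]
    intro c hc hc'
    rcases Finset.mem_union.1 hc with h1 | h1 <;> rcases Finset.mem_union.1 hc' with h2 | h2
    · exact Finset.disjoint_left.1 hA12 h1 h2
    · exact hAZ c (hA1 h1) (hZ2 h2)
    · exact hAZ c (hA2 h2) (hZ1 h1)
    · exact Finset.disjoint_left.1 hZ12 h1 h2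
  have hc1 : (A1 ∪ Z1).card = 3 * m := by
    rw [Finset.card_union_of_disjoint, hcA1, hcZ1]
    · omega
    · exact Finset.disjoint_left.2 fun c h1 h2 => hAZ c (hA1 h1) (hZ1 h2)
  have hc2 : (A2 ∪ Z2).card = 3 * m := by
    rw [Finset.card_union_of_disjoint, hcA2, hcZ2]
    · omega
    · exact Finset.disjoint_left.2 fun c h1 h2 => hAZ c (hA2 h1) (hZ2 h2)
  apply Sol.weigh 1 (A1 ∪ Z1) (A2 ∪ Z2) hdL (by omega)
  intro o
  have hAo : (A ∩ grp (A1 ∪ Z1) (A2 ∪ Z2) o).card = m := by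
    cases o with
    | left =>
      rw [grp_left']
      have : A ∩ (A1 ∪ Z1) = A1 := by
        ext c
        constructor
        · intro hc
          obtain ⟨h1, h2⟩ := Finset.mem_inter.1 hc
          rcases Finset.mem_union.1 h2 with h3 | h3
          · exact h3
          · exact absurd (hZ1 h3) (hAZ c h1)
        · intro hc
          exact Finset.mem_inter.2 ⟨hA1 hc, Finset.mem_union_left _ hc⟩
      rw [this, hcA1]
    | right =>
      rw [grp_right' _ _ hdL]
      have : A ∩ (A2 ∪ Z2) = A2 := by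
        ext c
        constructor
        · intro hc
          obtain ⟨h1, h2⟩ := Finset.mem_inter.1 hc
          rcases Finset.mem_union.1 h2 with h3 | h3
          · exact h3
          · exact absurd (hZ2 h3) (hAZ c h1)
        · intro hc
          exact Finset.mem_inter.2 ⟨hA2 hc, Finset.mem_union_left _ hc⟩
      rw [this, hcA2]
    | balance =>
      rw [grp_balance']
      have : A ∩ (A1 ∪ Z1 ∪ (A2 ∪ Z2))ᶜ = A \ (A1 ∪ A2) := by
        ext c
        simp only [Finset.mem_inter, Finset.mem_compl, Finset.mem_union, Finset.mem_sdiff]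
        constructor
        · rintro ⟨h1, h2⟩
          exact ⟨h1, fun h3 => h2 (by tauto)⟩
        · rintro ⟨h1, h2⟩
          refine ⟨h1, fun h3 => ?_⟩
          rcases h3 with (h3 | h3) | (h3 | h3)
          · exact h2 (Or.inl h3)
          · exact hAZ c h1 (hZ1 h3)
          · exact h2 (Or.inr h3)
          · exact hAZ c h1 (hZ2 h3)
      rw [this, hcA3]
  have hBo : (B 0 ∩ grp (A1 ∪ Z1) (A2 ∪ Z2) o).card = 2 * m := by
    cases o with
    | left =>
      rw [grp_left']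
      have : B 0 ∩ (A1 ∪ Z1) = Z1 := by
        ext c
        constructor
        · intro hc
          obtain ⟨h1, h2⟩ := Finset.mem_inter.1 hc
          rcases Finset.mem_union.1 h2 with h3 | h3
          · exact absurd (hA1 h3) (hZA c h1)
          · exact h3
        · intro hc
          exact Finset.mem_inter.2 ⟨hZ1 hc, Finset.mem_union_right _ hc⟩
      rw [this, hcZ1]
    | right =>
      rw [grp_right' _ _ hdL]
      have : B 0 ∩ (A2 ∪ Z2) = Z2 := by
        ext c
        constructor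
        · intro hc
          obtain ⟨h1, h2⟩ := Finset.mem_inter.1 hc
          rcases Finset.mem_union.1 h2 with h3 | h3
          · exact absurd (hA2 h3) (hZA c h1)
          · exact h3
        · intro hc
          exact Finset.mem_inter.2 ⟨hZ2 hc, Finset.mem_union_right _ hc⟩
      rw [this, hcZ2]
    | balance =>
      rw [grp_balance']
      have : B 0 ∩ (A1 ∪ Z1 ∪ (A2 ∪ Z2))ᶜ = B 0 \ (Z1 ∪ Z2) := by
        ext c
        simp only [Finset.mem_inter, Finset.mem_compl, Finset.mem_union, Finset.mem_sdiff]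
        constructor
        · rintro ⟨h1, h2⟩
          exact ⟨h1, fun h3 => h2 (by tauto)⟩
        · rintro ⟨h1, h2⟩
          refine ⟨h1, fun h3 => ?_⟩
          rcases h3 with (h3 | h3) | (h3 | h3)
          · exact hZA c h1 (hA1 h3)
          · exact h2 (Or.inl h3)
          · exact hZA c h1 (hA2 h3)
          · exact h2 (Or.inr h3)
      rw [this, hcZ3]
  have hAd : (A \ grp (A1 ∪ Z1) (A2 ∪ Z2) o).card = 2 * m := by
    have := Finset.card_sdiff_add_card_inter A (grp (A1 ∪ Z1) (A2 ∪ Z2) o)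
    omega
  have e0 : nextB 1 (A1 ∪ Z1) (A2 ∪ Z2) A B o 0 = B 0 ∩ grp (A1 ∪ Z1) (A2 ∪ Z2) o := by
    simp [nextB]
  have e1 : nextB 1 (A1 ∪ Z1) (A2 ∪ Z2) A B o 1 = A \ grp (A1 ∪ Z1) (A2 ∪ Z2) o := by
    simp [nextB, hB1]
  have e2 : nextB 1 (A1 ∪ Z1) (A2 ∪ Z2) A B o 2 = ∅ := by
    simp [nextB, hB2]
  refine hS (by omega) h 0 1 2 (by decide) (by decide) (by decide) _ _ ?_ ?_ ?_ e2 hAo.le ?_ ?_ ?_
  · rw [e0]
    exact Finset.disjoint_left.2 fun c h1 h2 =>
      hAZ c (Finset.mem_inter.1 h1).1 (Finset.mem_inter.1 h2).1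
  · rw [e1]
    exact Finset.disjoint_left.2 fun c h1 h2 =>
      (Finset.mem_sdiff.1 h2).2 (Finset.mem_inter.1 h1).2
  · rw [e0, e1]
    exact Finset.disjoint_left.2 fun c h1 h2 =>
      hAZ c (Finset.mem_sdiff.1 h2).1 (Finset.mem_inter.1 h1).1
  · rw [e0]; exact hBo.le
  · rw [e1]; exact hAd.le
  · right
    rw [e0, e1, hBo, hAd, hAo]
    simp only [max_self]
    omega

theorem first_weighings (hS : Sound) {N w m : ℕ} (hm : 0 < m) (hN : N = 9 * m)
    (h : S w m (2 * m) (2 * m)) : Wins N (w + 2) := by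
  rw [wins_iff_sol]
  obtain ⟨X1, X2, -, -, h12, hc1, hc2, hc3⟩ :=
    exists_thirds (Finset.univ : Finset (Fin N)) (3 * m) (by rw [Finset.card_univ, Fintype.card_fin]; omega)
  apply Sol.weigh 0 X1 X2 h12 (by omega)
  intro o
  have hAo : (Finset.univ ∩ grp X1 X2 o).card = 3 * m := by
    rw [Finset.univ_inter]
    cases o with
    | left => rw [grp_left', hc1]
    | right => rw [grp_right' _ _ h12, hc2]
    | balance =>
      rw [grp_balance']
      rw [← Finset.compl_eq_univ_sdiff] at hc3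
      exact hc3
  have e0 : nextB 0 X1 X2 (Finset.univ : Finset (Fin N)) (fun _ => ∅) o 0 =
      Finset.univ \ grp X1 X2 o := by
    simp [nextB]
  apply second_weighing hS hm hN h
  · exact hAo
  · rw [e0]
    have h1 := Finset.card_sdiff_add_card_inter (Finset.univ : Finset (Fin N)) (grp X1 X2 o)
    rw [hAo, Finset.card_univ, Fintype.card_fin] at h1
    omega
  · rw [e0]
    exact Finset.disjoint_left.2 fun c h1 h2 =>
      (Finset.mem_sdiff.1 h2).2 (Finset.mem_inter.1 h1).2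
  · simp [nextB]
  · simp [nextB]

theorem mod_four (d : ℕ) : 3 ^ d % 4 = (2 * d + 1) % 4 := by
  induction d with
  | zero => rfl
  | succ d ih =>
    rw [pow_succ]
    omega

theorem pow_aux (m : ℕ) (hm : 2 ≤ m) : 8 ^ m * (m + 2) ≤ 8 * 9 ^ m := by
  rcases Nat.lt_or_ge m 6 with h | h
  · interval_cases m <;> norm_num
  · induction m, h using Nat.le_induction with
    | base => norm_num
    | succ m hm6 ih =>
      have := ih (by omega)
      calc 8 ^ (m + 1) * (m + 1 + 2) = 8 ^ m * (8 * (m + 3)) := by rw [pow_succ]; ring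
        _ ≤ 8 ^ m * (9 * (m + 2)) := Nat.mul_le_mul_left _ (by omega)
        _ = 9 * (8 ^ m * (m + 2)) := by ring
        _ ≤ 9 * (8 * 9 ^ m) := Nat.mul_le_mul_left _ this
        _ = 8 * 9 ^ (m + 1) := by rw [pow_succ]; ring

theorem three_pow_gt (n : ℕ) (hn : 2 ≤ n) : 2 * n + 1 < 3 ^ n := by
  induction n, hn using Nat.le_induction with
  | base => norm_num
  | succ n hn ih => rw [pow_succ]; omega

/-- The upper bound. -/
theorem upper (hS : Sound) {n W : ℕ} (hn : 3 ≤ n) (hW : 3 ^ (2 * n) * (2 * W + 1) < 3 ^ W)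
    (hle : W ≤ 3 * n + 1) : Wins (3 ^ (2 * n)) W := by
  -- W = 2 n + d
  have h1 : 2 * n ≤ W := by
    by_contra hcon
    push Not at hcon
    have h2 : 3 ^ W ≤ 3 ^ (2 * n) := Nat.pow_le_pow_right (by norm_num) hcon.le
    have h3 : 3 ^ (2 * n) * 1 ≤ 3 ^ (2 * n) * (2 * W + 1) := Nat.mul_le_mul_left _ (by omega)
    omega
  obtain ⟨d, rfl⟩ : ∃ d, W = 2 * n + d := ⟨W - 2 * n, by omega⟩
  have h3 : 2 * (2 * n + d) + 1 < 3 ^ d := by
    rw [pow_add] at hW
    exact lt_of_mul_lt_mul_left hW (Nat.zero_le _)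
  have h4 := mod_four d
  have h5 : 2 * (2 * n + d) + 5 ≤ 3 ^ d := by omega
  have hd3 : 3 ≤ d := by
    by_contra hcon
    have : d ≤ 2 := by omega
    interval_cases d <;> omega
  obtain ⟨m, rfl⟩ : ∃ m, n = m + 1 := ⟨n - 1, by omega⟩
  have hw2 : 2 * (m + 1) + d = (2 * m + d) + 2 := by ring
  rw [hw2]
  have hN : 3 ^ (2 * (m + 1)) = 9 * 3 ^ (2 * m) := by
    rw [show 2 * (m + 1) = 2 * m + 2 by ring, pow_add]; ring
  apply first_weighings hS (m := 3 ^ (2 * m)) (by positivity) hN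
  apply HH_all hh_six tt (2 * m + d) (by omega) _ _ _ (Nat.one_le_pow _ _ (by norm_num))
  -- numbers
  have h6 : 3 ^ (2 * m) * (2 * (2 * (m + 1) + d) + 5) ≤ 3 ^ (2 * m + d) := by
    rw [pow_add]
    exact Nat.mul_le_mul_left _ h5
  have h6' : (3:ℝ) ^ (2 * m) * (2 * (2 * (m + 1) + d) + 5) ≤ 3 ^ (2 * m + d) := by
    exact_mod_cast h6
  -- slack
  have h7 : 2 ^ (2 * m + d) * (2 * (2 * m + d) + 8) ≤ 192 * 3 ^ (2 * m) := by
    have h8 := pow_aux m (by omega)
    have h9 : 2 * m + d ≤ 3 * m + 2 := by omega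
    calc 2 ^ (2 * m + d) * (2 * (2 * m + d) + 8)
        ≤ 2 ^ (3 * m + 2) * (2 * (3 * m + 2) + 8) := by
          apply Nat.mul_le_mul (Nat.pow_le_pow_right (by norm_num) h9) (by omega)
      _ = 24 * (8 ^ m * (m + 2)) := by
          rw [pow_add, pow_mul]; norm_num; ring
      _ ≤ 24 * (8 * 9 ^ m) := Nat.mul_le_mul_left _ h8
      _ = 192 * 3 ^ (2 * m) := by rw [pow_mul]; norm_num; ring
  have h7' : (2:ℝ) ^ (2 * m + d) * (2 * (2 * m + d) + 8) ≤ 192 * 3 ^ (2 * m) := by
    exact_mod_cast h7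
  have h10 : (2 * (2 * (m:ℝ) + d) + 8) ≤ 192 / 2 ^ (2 * m + d) * 3 ^ (2 * m) := by
    rw [div_mul_eq_mul_div, le_div_iff₀ (by positivity)]
    linarith
  unfold DD kk
  push_cast
  nlinarith

end Pool.Agent.R89.Coin
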