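import Pool.Agent.R89.Coin.State

/-!
# Soundness of the two-type positions (MP_a3b474_co)
-/

set_option autoImplicit false

namespace Pool.Agent.R89.Coin

theorem S.le {w a x y : ℕ} (h : S w a x y) : x + y ≤ 3 ^ w := by
  induction h with
  | base => simp
  | zero h => exact h
  | mono _ ha hx hy ih => omega
  | symm _ ih => omega
  | caseA1 _ h0 h1 ih => rw [pow_succ]; omega
  | caseA2 _ h0 h1 ih => rw [pow_succ]; omega
  | split _ _ _ ih0 ih1 ih2 => rw [pow_succ]; omega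

/-- at most one possible coin -/
theorem sol_answer {N w : ℕ} {A : Finset (Fin N)} {B : Fin 3 → Finset (Fin N)} (c : Fin N)
    (h1 : ∀ a ∈ A, a = c) (h2 : ∀ b, ∀ a ∈ B b, a = c) : Sol w A B :=
  ⟨Strategy.answer c, fun a ha _ => (h1 a ha).symm, fun b a ha => (h2 b a ha).symm⟩

theorem grp_left {N : ℕ} {L R : Finset (Fin N)} {c : Fin N} :
    c ∈ grp L R Outcome.left ↔ c ∈ L := by
  rw [mem_grp]; unfold trueOutcome
  by_cases h1 : c ∈ L <;> by_cases h2 : c ∈ R <;> simp [h1, h2]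

theorem grp_right {N : ℕ} {L R : Finset (Fin N)} (hd : Disjoint L R) {c : Fin N} :
    c ∈ grp L R Outcome.right ↔ c ∈ R := by
  rw [mem_grp]; unfold trueOutcome
  have h3 : c ∈ L → c ∉ R := fun h => Finset.disjoint_left.1 hd h
  by_cases h1 : c ∈ L <;> by_cases h2 : c ∈ R <;> simp [h1, h2] <;> tauto

theorem grp_balance {N : ℕ} {L R : Finset (Fin N)} {c : Fin N} :
    c ∈ grp L R Outcome.balance ↔ c ∉ L ∧ c ∉ R := by
  rw [mem_grp]; unfold trueOutcome
  by_cases h1 : c ∈ L <;> by_cases h2 : c ∈ R <;> simp [h1, h2]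

/-- equal pans with prescribed suspicious coins -/
theorem pans {N : ℕ} (P Q G : Finset (Fin N)) (hPQ : Disjoint P Q) (hPG : Disjoint P G)
    (hQG : Disjoint Q G) (h1 : P.card ≤ Q.card + G.card) (h2 : Q.card ≤ P.card + G.card) :
    ∃ L R : Finset (Fin N), Disjoint L R ∧ L.card = R.card ∧
      ∀ c, c ∉ G → ((c ∈ L ↔ c ∈ P) ∧ (c ∈ R ↔ c ∈ Q)) := by
  rcases le_total P.card Q.card with h | h
  · obtain ⟨G', hG', hc⟩ := Finset.exists_subset_card_eq (show Q.card - P.card ≤ G.card by omega)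
    have hPG' : Disjoint P G' := hPG.mono_right hG'
    have hQG' : Disjoint Q G' := hQG.mono_right hG'
    refine ⟨P ∪ G', Q, ?_, ?_, ?_⟩
    · rw [Finset.disjoint_union_left]; exact ⟨hPQ, hQG'.symm⟩
    · rw [Finset.card_union_of_disjoint hPG', hc]; omega
    · intro c hcG
      have : c ∉ G' := fun h => hcG (hG' h)
      simp [this]
  · obtain ⟨G', hG', hc⟩ := Finset.exists_subset_card_eq (show P.card - Q.card ≤ G.card by omega)
    have hPG' : Disjoint P G' := hPG.mono_right hG'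
    have hQG' : Disjoint Q G' := hQG.mono_right hG'
    refine ⟨P, Q ∪ G', ?_, ?_, ?_⟩
    · rw [Finset.disjoint_union_right]; exact ⟨hPQ, hPG'⟩
    · rw [Finset.card_union_of_disjoint hQG', hc]; omega
    · intro c hcG
      have : c ∉ G' := fun h => hcG (hG' h)
      simp [this]

/-- a weighing on the scale `k` of the position with the types `i`, `j` -/
theorem weigh3 {N w : ℕ} {A : Finset (Fin N)} {B : Fin 3 → Finset (Fin N)} {i j k : Fin 3}
    (hik : i ≠ k) (hjk : j ≠ k) (hBk : B k = ∅) (P Q : Finset (Fin N)) (hPQ : Disjoint P Q)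
    (hP : P ⊆ A ∪ B i ∪ B j) (hQ : Q ⊆ A ∪ B i ∪ B j)
    (h1 : P.card ≤ Q.card + (A ∪ B i ∪ B j)ᶜ.card) (h2 : Q.card ≤ P.card + (A ∪ B i ∪ B j)ᶜ.card)
    (hL : ∀ B' : Fin 3 → Finset (Fin N), B' i = B i ∩ P → B' j = B j ∩ P → B' k = A \ P →
      Sol w (A ∩ P) B')
    (hR : ∀ B' : Fin 3 → Finset (Fin N), B' i = B i ∩ Q → B' j = B j ∩ Q → B' k = A \ Q →
      Sol w (A ∩ Q) B')
    (hM : ∀ B' : Fin 3 → Finset (Fin N), B' i = B i \ (P ∪ Q) → B' j = B j \ (P ∪ Q) →
      B' k = A ∩ (P ∪ Q) → Sol w (A \ (P ∪ Q)) B') : Sol (w + 1) A B := by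
  have hPG : Disjoint P (A ∪ B i ∪ B j)ᶜ := by
    rw [Finset.disjoint_left]; intro c hc hc'
    exact (Finset.mem_compl.1 hc') (hP hc)
  have hQG : Disjoint Q (A ∪ B i ∪ B j)ᶜ := by
    rw [Finset.disjoint_left]; intro c hc hc'
    exact (Finset.mem_compl.1 hc') (hQ hc)
  obtain ⟨L, R, hd, hc, hLR⟩ := pans P Q _ hPQ hPG hQG h1 h2
  have hA : ∀ c ∈ A, (c ∈ L ↔ c ∈ P) ∧ (c ∈ R ↔ c ∈ Q) := fun c hc => hLR c (by simp [hc])
  have hi : ∀ c ∈ B i, (c ∈ L ↔ c ∈ P) ∧ (c ∈ R ↔ c ∈ Q) := fun c hc => hLR c (by simp [hc])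
  have hj : ∀ c ∈ B j, (c ∈ L ↔ c ∈ P) ∧ (c ∈ R ↔ c ∈ Q) := fun c hc => hLR c (by simp [hc])
  refine Sol.weigh k L R hd hc ?_
  intro o
  cases o with
  | left =>
    have e : A ∩ grp L R Outcome.left = A ∩ P := by
      ext c; simp only [Finset.mem_inter, grp_left]
      constructor
      · rintro ⟨h, h'⟩; exact ⟨h, ((hA c h).1).1 h'⟩
      · rintro ⟨h, h'⟩; exact ⟨h, ((hA c h).1).2 h'⟩
    rw [e]
    refine hL _ ?_ ?_ ?_
    · simp only [nextB, if_neg hik]
      ext c; simp only [Finset.mem_inter, grp_left]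
      constructor
      · rintro ⟨h, h'⟩; exact ⟨h, ((hi c h).1).1 h'⟩
      · rintro ⟨h, h'⟩; exact ⟨h, ((hi c h).1).2 h'⟩
    · simp only [nextB, if_neg hjk]
      ext c; simp only [Finset.mem_inter, grp_left]
      constructor
      · rintro ⟨h, h'⟩; exact ⟨h, ((hj c h).1).1 h'⟩
      · rintro ⟨h, h'⟩; exact ⟨h, ((hj c h).1).2 h'⟩
    · simp only [nextB, if_true, hBk, Finset.empty_union]
      ext c; simp only [Finset.mem_sdiff, grp_left]
      constructor
      · rintro ⟨h, h'⟩; exact ⟨h, fun h2 => h' (((hA c h).1).2 h2)⟩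
      · rintro ⟨h, h'⟩; exact ⟨h, fun h2 => h' (((hA c h).1).1 h2)⟩
  | right =>
    have e : A ∩ grp L R Outcome.right = A ∩ Q := by
      ext c; simp only [Finset.mem_inter, grp_right hd]
      constructor
      · rintro ⟨h, h'⟩; exact ⟨h, ((hA c h).2).1 h'⟩
      · rintro ⟨h, h'⟩; exact ⟨h, ((hA c h).2).2 h'⟩
    rw [e]
    refine hR _ ?_ ?_ ?_
    · simp only [nextB, if_neg hik]
      ext c; simp only [Finset.mem_inter, grp_right hd]
      constructor
      · rintro ⟨h, h'⟩; exact ⟨h, ((hi c h).2).1 h'⟩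
      · rintro ⟨h, h'⟩; exact ⟨h, ((hi c h).2).2 h'⟩
    · simp only [nextB, if_neg hjk]
      ext c; simp only [Finset.mem_inter, grp_right hd]
      constructor
      · rintro ⟨h, h'⟩; exact ⟨h, ((hj c h).2).1 h'⟩
      · rintro ⟨h, h'⟩; exact ⟨h, ((hj c h).2).2 h'⟩
    · simp only [nextB, if_true, hBk, Finset.empty_union]
      ext c; simp only [Finset.mem_sdiff, grp_right hd]
      constructor
      · rintro ⟨h, h'⟩; exact ⟨h, fun h2 => h' (((hA c h).2).2 h2)⟩
      · rintro ⟨h, h'⟩; exact ⟨h, fun h2 => h' (((hA c h).2).1 h2)⟩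
  | balance =>
    have e : A ∩ grp L R Outcome.balance = A \ (P ∪ Q) := by
      ext c; simp only [Finset.mem_inter, Finset.mem_sdiff, Finset.mem_union, grp_balance]
      constructor
      · rintro ⟨h, h'⟩; have := hA c h; tauto
      · rintro ⟨h, h'⟩; have := hA c h; tauto
    rw [e]
    refine hM _ ?_ ?_ ?_
    · simp only [nextB, if_neg hik]
      ext c; simp only [Finset.mem_inter, Finset.mem_sdiff, Finset.mem_union, grp_balance]
      constructor
      · rintro ⟨h, h'⟩; have := hi c h; tauto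
      · rintro ⟨h, h'⟩; have := hi c h; tauto
    · simp only [nextB, if_neg hjk]
      ext c; simp only [Finset.mem_inter, Finset.mem_sdiff, Finset.mem_union, grp_balance]
      constructor
      · rintro ⟨h, h'⟩; have := hj c h; tauto
      · rintro ⟨h, h'⟩; have := hj c h; tauto
    · simp only [nextB, if_true, hBk, Finset.empty_union]
      ext c; simp only [Finset.mem_inter, Finset.mem_sdiff, Finset.mem_union, grp_balance]
      constructor
      · rintro ⟨h, h'⟩; have := hA c h; tauto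
      · rintro ⟨h, h'⟩; have := hA c h; tauto

/-- positions without coins of type `A` -/
theorem zeroSol {N : ℕ} (hN : 0 < N) (w : ℕ) : ∀ (i j k : Fin 3), i ≠ j → i ≠ k → j ≠ k →
    ∀ (A : Finset (Fin N)) (B : Fin 3 → Finset (Fin N)), A = ∅ → Disjoint (B i) (B j) →
      B k = ∅ → (B i).card + (B j).card ≤ 3 ^ w → Sol w A B := by
  induction w with
  | zero =>
    intro i j k hij hik hjk A B hA hd hBk hc
    have hcard : (B i ∪ B j).card ≤ 1 := by
      rw [Finset.card_union_of_disjoint hd]; simpa using hc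
    have hex : ∃ c : Fin N, ∀ a ∈ B i ∪ B j, a = c := by
      rcases Finset.eq_empty_or_nonempty (B i ∪ B j) with h | ⟨c, hc'⟩
      · exact ⟨⟨0, hN⟩, by rw [h]; simp⟩
      · exact ⟨c, fun a ha => Finset.card_le_one.1 hcard a ha c hc'⟩
    obtain ⟨c, hc'⟩ := hex
    refine sol_answer c (by rw [hA]; simp) ?_
    intro b a ha
    have hb : b = i ∨ b = j ∨ b = k := by
      have : ∀ i j k b : Fin 3, i ≠ j → i ≠ k → j ≠ k → b = i ∨ b = j ∨ b = k := by decide
      exact this i j k b hij hik hjk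
    rcases hb with rfl | rfl | rfl
    · exact hc' a (Finset.mem_union_left _ ha)
    · exact hc' a (Finset.mem_union_right _ ha)
    · rw [hBk] at ha; exact absurd ha (Finset.notMem_empty _)
  | succ w ih =>
    intro i j k hij hik hjk A B hA hd hBk hc
    obtain ⟨T, hT⟩ : ∃ T, T = (B i ∪ B j).card := ⟨_, rfl⟩
    have hT' : T ≤ 3 ^ w * 3 := by
      rw [hT, Finset.card_union_of_disjoint hd, ← pow_succ]; exact hc
    obtain ⟨m, hm⟩ : ∃ m, m = min (3 ^ w) (T / 2) := ⟨_, rfl⟩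
    have h3 : 1 ≤ 3 ^ w := Nat.one_le_pow _ _ (by norm_num)
    obtain ⟨P, hP, hPc⟩ := Finset.exists_subset_card_eq (s := B i ∪ B j) (n := m) (by omega)
    obtain ⟨Q, hQ, hQc⟩ := Finset.exists_subset_card_eq (s := (B i ∪ B j) \ P) (n := m)
      (by rw [Finset.card_sdiff_of_subset hP]; omega)
    have hPQ : Disjoint P Q := by
      rw [Finset.disjoint_left]; intro c h1 h2
      exact (Finset.mem_sdiff.1 (hQ h2)).2 h1
    have hQ' : Q ⊆ B i ∪ B j := fun c h => (Finset.mem_sdiff.1 (hQ h)).1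
    have hU : A ∪ B i ∪ B j = B i ∪ B j := by rw [hA, Finset.empty_union]
    have cardle : ∀ U : Finset (Fin N), U ⊆ B i ∪ B j →
        (B i ∩ U).card + (B j ∩ U).card = U.card := by
      intro U hU'
      rw [← Finset.card_union_of_disjoint, ← Finset.union_inter_distrib_right,
        Finset.inter_eq_right.2 hU']
      exact hd.mono Finset.inter_subset_left Finset.inter_subset_left
    refine weigh3 (i := i) (j := j) (k := k) hik hjk hBk P Q hPQ (by rw [hU]; exact hP)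
      (by rw [hU]; exact hQ') (by omega) (by omega) ?_ ?_ ?_
    · intro B' h1 h2 h3'
      refine ih i j k hij hik hjk _ _ (by rw [hA]; simp) ?_ (by rw [h3', hA]; simp) ?_
      · rw [h1, h2]; exact hd.mono Finset.inter_subset_left Finset.inter_subset_left
      · rw [h1, h2, cardle P hP, hPc]; omega
    · intro B' h1 h2 h3'
      refine ih i j k hij hik hjk _ _ (by rw [hA]; simp) ?_ (by rw [h3', hA]; simp) ?_
      · rw [h1, h2]; exact hd.mono Finset.inter_subset_left Finset.inter_subset_left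
      · rw [h1, h2, cardle Q hQ', hQc]; omega
    · intro B' h1 h2 h3'
      refine ih i j k hij hik hjk _ _ (by rw [hA]; simp) ?_ (by rw [h3', hA]; simp) ?_
      · rw [h1, h2]; exact hd.mono Finset.sdiff_subset Finset.sdiff_subset
      · have e1 : (B i \ (P ∪ Q)).card + (B j \ (P ∪ Q)).card = T - (m + m) := by
          rw [← Finset.card_union_of_disjoint (hd.mono Finset.sdiff_subset Finset.sdiff_subset),
            ← Finset.union_sdiff_distrib, Finset.card_sdiff_of_subset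
              (Finset.union_subset hP hQ'), Finset.card_union_of_disjoint hPQ, hPc, hQc, hT]
        rw [h1, h2, e1]; omega

/-- splitting a set in two parts of bounded sizes -/
theorem split2 {N : ℕ} (U : Finset (Fin N)) (p q : ℕ) (h : U.card ≤ p + q) :
    ∃ P Q : Finset (Fin N), U = P ∪ Q ∧ Disjoint P Q ∧ P.card ≤ p ∧ Q.card ≤ q := by
  obtain ⟨P, hP, hPc⟩ := Finset.exists_subset_card_eq (s := U) (n := min p U.card) (by omega)
  refine ⟨P, U \ P, (Finset.union_sdiff_of_subset hP).symm, Finset.disjoint_sdiff, by omega, ?_⟩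
  rw [Finset.card_sdiff_of_subset hP]; omega

theorem pure1 {b x z0 z1 : Prop} (e : b ↔ (x ∨ z0) ∨ z1) (f1 : x → ¬z0) (f2 : x → ¬z1) :
    (b ∧ ¬(z0 ∨ z1)) ↔ x := by grind

theorem pure2 {b x z0 z1 : Prop} (e : b ↔ x ∨ z0) (f1 : x → ¬z0) (f2 : b → ¬z1) :
    (b ∧ ¬(z0 ∨ z1)) ↔ x := by grind

theorem pure3 {b x z0 z1 : Prop} (e : b ↔ x ∨ z1) (f1 : x → ¬z1) (f2 : b → ¬z0) :
    (b ∧ ¬(z0 ∨ z1)) ↔ x := by grind

/-- the partition data at one coin -/
structure Cfg (A Bi Bj a0 a1 a2 z0 z1 : Prop) : Prop where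
  h1 : A ↔ (a0 ∨ a1) ∨ a2
  h2 : Bi ↔ z0 ∨ z1
  h3 : A → ¬Bi ∧ ¬Bj
  h4 : Bi → ¬Bj
  h5 : a0 → ¬a1
  h6 : a0 ∨ a1 → ¬a2
  h7 : z0 → ¬z1

section cfg

variable {A Bi Bj a0 a1 a2 z0 z1 : Prop}

theorem Cfg.l1 (h : Cfg A Bi Bj a0 a1 a2 z0 z1) : (A ∧ (a0 ∨ z0)) ↔ a0 := by
  obtain ⟨h1, h2, h3, h4, h5, h6, h7⟩ := h; grind
theorem Cfg.l2 (h : Cfg A Bi Bj a0 a1 a2 z0 z1) : (Bi ∧ (a0 ∨ z0)) ↔ z0 := by
  obtain ⟨h1, h2, h3, h4, h5, h6, h7⟩ := h; grind
theorem Cfg.l3 (h : Cfg A Bi Bj a0 a1 a2 z0 z1) : ¬ (Bj ∧ (a0 ∨ z0)) := by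
  obtain ⟨h1, h2, h3, h4, h5, h6, h7⟩ := h; grind
theorem Cfg.l4 (h : Cfg A Bi Bj a0 a1 a2 z0 z1) : (A ∧ ¬ (a0 ∨ z0)) ↔ (a1 ∨ a2) := by
  obtain ⟨h1, h2, h3, h4, h5, h6, h7⟩ := h; grind
theorem Cfg.r1 (h : Cfg A Bi Bj a0 a1 a2 z0 z1) : (A ∧ (a2 ∨ Bj)) ↔ a2 := by
  obtain ⟨h1, h2, h3, h4, h5, h6, h7⟩ := h; grind
theorem Cfg.r2 (h : Cfg A Bi Bj a0 a1 a2 z0 z1) : (Bj ∧ (a2 ∨ Bj)) ↔ Bj := by
  obtain ⟨h1, h2, h3, h4, h5, h6, h7⟩ := h; grind
theorem Cfg.r3 (h : Cfg A Bi Bj a0 a1 a2 z0 z1) : ¬ (Bi ∧ (a2 ∨ Bj)) := by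
  obtain ⟨h1, h2, h3, h4, h5, h6, h7⟩ := h; grind
theorem Cfg.r4 (h : Cfg A Bi Bj a0 a1 a2 z0 z1) : (A ∧ ¬ (a2 ∨ Bj)) ↔ (a0 ∨ a1) := by
  obtain ⟨h1, h2, h3, h4, h5, h6, h7⟩ := h; grind
theorem Cfg.m1 (h : Cfg A Bi Bj a0 a1 a2 z0 z1) :
    (A ∧ ¬ ((a0 ∨ z0) ∨ (a2 ∨ Bj))) ↔ a1 := by
  obtain ⟨h1, h2, h3, h4, h5, h6, h7⟩ := h; grind
theorem Cfg.m2 (h : Cfg A Bi Bj a0 a1 a2 z0 z1) :
    (Bi ∧ ¬ ((a0 ∨ z0) ∨ (a2 ∨ Bj))) ↔ z1 := by
  obtain ⟨h1, h2, h3, h4, h5, h6, h7⟩ := h; grind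
theorem Cfg.m3 (h : Cfg A Bi Bj a0 a1 a2 z0 z1) :
    ¬ (Bj ∧ ¬ ((a0 ∨ z0) ∨ (a2 ∨ Bj))) := by
  obtain ⟨h1, h2, h3, h4, h5, h6, h7⟩ := h; grind
theorem Cfg.m4 (h : Cfg A Bi Bj a0 a1 a2 z0 z1) :
    (A ∧ ((a0 ∨ z0) ∨ (a2 ∨ Bj))) ↔ (a0 ∨ a2) := by
  obtain ⟨h1, h2, h3, h4, h5, h6, h7⟩ := h; grind
theorem Cfg.d1 (h : Cfg A Bi Bj a0 a1 a2 z0 z1) : (a0 ∨ z0) → (a2 ∨ Bj) → False := by
  obtain ⟨h1, h2, h3, h4, h5, h6, h7⟩ := h; grind
theorem Cfg.d2 (h : Cfg A Bi Bj a0 a1 a2 z0 z1) : (a0 ∨ z0) → (A ∨ Bi) ∨ Bj := by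
  obtain ⟨h1, h2, h3, h4, h5, h6, h7⟩ := h; grind
theorem Cfg.d3 (h : Cfg A Bi Bj a0 a1 a2 z0 z1) : (a2 ∨ Bj) → (A ∨ Bi) ∨ Bj := by
  obtain ⟨h1, h2, h3, h4, h5, h6, h7⟩ := h; grind
theorem Cfg.d4 (h : Cfg A Bi Bj a0 a1 a2 z0 z1) : a0 → (a1 ∨ a2) → False := by
  obtain ⟨h1, h2, h3, h4, h5, h6, h7⟩ := h; grind
theorem Cfg.d5 (h : Cfg A Bi Bj a0 a1 a2 z0 z1) : z0 → (a1 ∨ a2) → False := by
  obtain ⟨h1, h2, h3, h4, h5, h6, h7⟩ := h; grind
theorem Cfg.d6 (h : Cfg A Bi Bj a0 a1 a2 z0 z1) : a2 → (a0 ∨ a1) → False := by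
  obtain ⟨h1, h2, h3, h4, h5, h6, h7⟩ := h; grind
theorem Cfg.d7 (h : Cfg A Bi Bj a0 a1 a2 z0 z1) : Bj → (a0 ∨ a1) → False := by
  obtain ⟨h1, h2, h3, h4, h5, h6, h7⟩ := h; grind
theorem Cfg.d8 (h : Cfg A Bi Bj a0 a1 a2 z0 z1) : a1 → z1 → False := by
  obtain ⟨h1, h2, h3, h4, h5, h6, h7⟩ := h; grind
theorem Cfg.d9 (h : Cfg A Bi Bj a0 a1 a2 z0 z1) : a1 → (a0 ∨ a2) → False := by
  obtain ⟨h1, h2, h3, h4, h5, h6, h7⟩ := h; grind
theorem Cfg.d10 (h : Cfg A Bi Bj a0 a1 a2 z0 z1) : z1 → (a0 ∨ a2) → False := by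
  obtain ⟨h1, h2, h3, h4, h5, h6, h7⟩ := h; grind

end cfg

theorem sol_of_S {N w a x y : ℕ} (hN : 0 < N) (h : S w a x y) : ∀ (i j k : Fin 3), i ≠ j →
    i ≠ k → j ≠ k → ∀ (A : Finset (Fin N)) (B : Fin 3 → Finset (Fin N)), Disjoint A (B i) →
    Disjoint A (B j) → Disjoint (B i) (B j) → B k = ∅ → A.card ≤ a → (B i).card ≤ x →
    (B j).card ≤ y →
    (A = ∅ ∨ max (B i).card (B j).card + A.card ≤ N - (A.card + (B i).card + (B j).card)) →
    Sol w A B := by
  induction h with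
  | base =>
    intro i j k hij hik hjk A B hAi hAj hBij hBk hA hx hy hG
    have hi : B i = ∅ := Finset.card_eq_zero.1 (by omega)
    have hj : B j = ∅ := Finset.card_eq_zero.1 (by omega)
    have hex : ∃ c : Fin N, ∀ a ∈ A, a = c := by
      rcases Finset.eq_empty_or_nonempty A with h | ⟨c, hc'⟩
      · exact ⟨⟨0, hN⟩, by rw [h]; simp⟩
      · exact ⟨c, fun a ha => Finset.card_le_one.1 hA a ha c hc'⟩
    obtain ⟨c, hc⟩ := hex
    refine sol_answer c hc ?_
    intro b a ha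
    have hb : b = i ∨ b = j ∨ b = k := by
      have : ∀ i j k b : Fin 3, i ≠ j → i ≠ k → j ≠ k → b = i ∨ b = j ∨ b = k := by decide
      exact this i j k b hij hik hjk
    rcases hb with rfl | rfl | rfl
    · rw [hi] at ha; exact absurd ha (Finset.notMem_empty _)
    · rw [hj] at ha; exact absurd ha (Finset.notMem_empty _)
    · rw [hBk] at ha; exact absurd ha (Finset.notMem_empty _)
  | zero h =>
    intro i j k hij hik hjk A B hAi hAj hBij hBk hA hx hy hG
    exact zeroSol hN _ i j k hij hik hjk A B (Finset.card_eq_zero.1 (by omega)) hBij hBk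
      (by omega)
  | mono _ ha hx hy ih =>
    intro i j k hij hik hjk A B hAi hAj hBij hBk hA hx' hy' hG
    exact ih i j k hij hik hjk A B hAi hAj hBij hBk (by omega) (by omega) (by omega) hG
  | symm _ ih =>
    intro i j k hij hik hjk A B hAi hAj hBij hBk hA hx' hy' hG
    refine ih j i k hij.symm hjk hik A B hAj hAi hBij.symm hBk hA hy' hx' ?_
    rcases hG with h | h
    · exact Or.inl h
    · right; rw [max_comm, show A.card + (B j).card + (B i).card =
        A.card + (B i).card + (B j).card by ring]; exact h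
  | @caseA1 w a x y z0 z1 h h0 h1 ih =>
    intro i j k hij hik hjk A B hAi hAj hBij hBk hA hx hy hG
    have hS := (S.caseA1 h h0 h1).le
    rcases hG with hA0 | hG
    · exact zeroSol hN _ i j k hij hik hjk A B hA0 hBij hBk (by omega)
    have hGc : (A ∪ B i ∪ B j)ᶜ.card = N - (A.card + (B i).card + (B j).card) := by
      rw [Finset.card_compl, Fintype.card_fin, Finset.card_union_of_disjoint
        (Finset.disjoint_union_left.2 ⟨hAj, hBij⟩), Finset.card_union_of_disjoint hAi]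
    obtain ⟨XZ, Z1, e1, d1, c1, c2⟩ := split2 (B i) (x + z0) z1 hx
    obtain ⟨X', Z0, e2, d2, c3, c4⟩ := split2 XZ x z0 c1
    have hZ0 : Z0 ⊆ B i := by rw [e1, e2]; intro c hc; simp [hc]
    have hZ1 : Z1 ⊆ B i := by rw [e1]; intro c hc; simp [hc]
    have hX' : X' ⊆ B i := by rw [e1, e2]; intro c hc; simp [hc]
    have d3 : Disjoint X' Z1 := d1.mono_left (by rw [e2]; exact Finset.subset_union_left)
    have d4 : Disjoint Z0 Z1 := d1.mono_left (by rw [e2]; exact Finset.subset_union_right)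
    have q0 := Finset.card_le_card hZ0
    have q1 := Finset.card_le_card hZ1
    have mA : ∀ c, c ∈ A → c ∉ B i ∧ c ∉ B j := fun c h =>
      ⟨Finset.disjoint_left.1 hAi h, Finset.disjoint_left.1 hAj h⟩
    have mB : ∀ c, c ∈ B i → c ∉ B j := fun c h => Finset.disjoint_left.1 hBij h
    refine weigh3 (i := i) (j := j) (k := k) hik hjk hBk Z0 Z1 d4 ?_ ?_ ?_ ?_ ?_ ?_ ?_
    · intro c hc; have := hZ0 hc; simp [this]
    · intro c hc; have := hZ1 hc; simp [this]
    · omega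
    · omega
    · intro B' b1 b2 b3
      have s1 : A ∩ Z0 = ∅ := by
        ext c; simp only [Finset.mem_inter, Finset.notMem_empty, iff_false]
        rintro ⟨h1, h2⟩; exact (mA c h1).1 (hZ0 h2)
      have s2 : B' i = Z0 := by rw [b1]; exact Finset.inter_eq_right.2 hZ0
      have s3 : B' j = ∅ := by
        rw [b2]; ext c; simp only [Finset.mem_inter, Finset.notMem_empty, iff_false]
        rintro ⟨h1, h2⟩; exact mB c (hZ0 h2) h1
      have s4 : B' k = A := by
        rw [b3]; exact Finset.sdiff_eq_self_iff_disjoint.2 (Finset.disjoint_iff_inter_eq_empty.2 s1)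
      refine zeroSol hN _ i k j hik hij hjk.symm _ B' s1 ?_ s3 ?_
      · rw [s2, s4]; exact (Finset.disjoint_iff_inter_eq_empty.2 s1).symm
      · rw [s2, s4]; omega
    · intro B' b1 b2 b3
      have s1 : A ∩ Z1 = ∅ := by
        ext c; simp only [Finset.mem_inter, Finset.notMem_empty, iff_false]
        rintro ⟨h1, h2⟩; exact (mA c h1).1 (hZ1 h2)
      have s2 : B' i = Z1 := by rw [b1]; exact Finset.inter_eq_right.2 hZ1
      have s3 : B' j = ∅ := by
        rw [b2]; ext c; simp only [Finset.mem_inter, Finset.notMem_empty, iff_false]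
        rintro ⟨h1, h2⟩; exact mB c (hZ1 h2) h1
      have s4 : B' k = A := by
        rw [b3]; exact Finset.sdiff_eq_self_iff_disjoint.2 (Finset.disjoint_iff_inter_eq_empty.2 s1)
      refine zeroSol hN _ i k j hik hij hjk.symm _ B' s1 ?_ s3 ?_
      · rw [s2, s4]; exact (Finset.disjoint_iff_inter_eq_empty.2 s1).symm
      · rw [s2, s4]; omega
    · intro B' b1 b2 b3
      have hZZ : Z0 ∪ Z1 ⊆ B i := Finset.union_subset hZ0 hZ1
      have s1 : A \ (Z0 ∪ Z1) = A := Finset.sdiff_eq_self_iff_disjoint.2 (hAi.mono_right hZZ)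
      have s2 : B' i = X' := by
        rw [b1]; ext c
        have e3 : c ∈ B i ↔ (c ∈ X' ∨ c ∈ Z0) ∨ c ∈ Z1 := by rw [e1, e2]; simp [or_assoc]
        have f1 : c ∈ X' → c ∉ Z0 := fun h => Finset.disjoint_left.1 d2 h
        have f2 : c ∈ X' → c ∉ Z1 := fun h => Finset.disjoint_left.1 d3 h
        simp only [Finset.mem_sdiff, Finset.mem_union]
        exact pure1 e3 f1 f2
      have s3 : B' j = B j := by
        rw [b2]; exact Finset.sdiff_eq_self_iff_disjoint.2 (hBij.symm.mono_right hZZ)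
      have s4 : B' k = ∅ := by
        rw [b3]; exact Finset.disjoint_iff_inter_eq_empty.1 (hAi.mono_right hZZ)
      have q2 := Finset.card_le_card hX'
      rw [s1]
      refine ih i j k hij hik hjk A B' ?_ ?_ ?_ s4 hA (by rw [s2]; exact c3) (by rw [s3]; exact hy) ?_
      · rw [s2]; exact hAi.mono_right hX'
      · rw [s3]; exact hAj
      · rw [s2, s3]; exact hBij.mono_left hX'
      · right; rw [s2, s3]; omega
  | @caseA2 w a x y z0 z1 h h0 h1 ih =>
    intro i j k hij hik hjk A B hAi hAj hBij hBk hA hx hy hG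
    have hS := (S.caseA2 h h0 h1).le
    rcases hG with hA0 | hG
    · exact zeroSol hN _ i j k hij hik hjk A B hA0 hBij hBk (by omega)
    have hGc : (A ∪ B i ∪ B j)ᶜ.card = N - (A.card + (B i).card + (B j).card) := by
      rw [Finset.card_compl, Fintype.card_fin, Finset.card_union_of_disjoint
        (Finset.disjoint_union_left.2 ⟨hAj, hBij⟩), Finset.card_union_of_disjoint hAi]
    obtain ⟨X', Z0, e1, d1, c1, c2⟩ := split2 (B i) x z0 hx
    obtain ⟨Y', Z1, e2, d2, c3, c4⟩ := split2 (B j) y z1 hy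
    have hZ0 : Z0 ⊆ B i := by rw [e1]; intro c hc; simp [hc]
    have hZ1 : Z1 ⊆ B j := by rw [e2]; intro c hc; simp [hc]
    have hX' : X' ⊆ B i := by rw [e1]; intro c hc; simp [hc]
    have hY' : Y' ⊆ B j := by rw [e2]; intro c hc; simp [hc]
    have d4 : Disjoint Z0 Z1 := (hBij.mono hZ0 hZ1)
    have q0 := Finset.card_le_card hZ0
    have q1 := Finset.card_le_card hZ1
    have mA : ∀ c, c ∈ A → c ∉ B i ∧ c ∉ B j := fun c h =>
      ⟨Finset.disjoint_left.1 hAi h, Finset.disjoint_left.1 hAj h⟩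
    have mB : ∀ c, c ∈ B i → c ∉ B j := fun c h => Finset.disjoint_left.1 hBij h
    refine weigh3 (i := i) (j := j) (k := k) hik hjk hBk Z0 Z1 d4 ?_ ?_ ?_ ?_ ?_ ?_ ?_
    · intro c hc; have := hZ0 hc; simp [this]
    · intro c hc; have := hZ1 hc; simp [this]
    · omega
    · omega
    · intro B' b1 b2 b3
      have s1 : A ∩ Z0 = ∅ := by
        ext c; simp only [Finset.mem_inter, Finset.notMem_empty, iff_false]
        rintro ⟨h1, h2⟩; exact (mA c h1).1 (hZ0 h2)
      have s2 : B' i = Z0 := by rw [b1]; exact Finset.inter_eq_right.2 hZ0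
      have s3 : B' j = ∅ := by
        rw [b2]; ext c; simp only [Finset.mem_inter, Finset.notMem_empty, iff_false]
        rintro ⟨h1, h2⟩; exact mB c (hZ0 h2) h1
      have s4 : B' k = A := by
        rw [b3]; exact Finset.sdiff_eq_self_iff_disjoint.2 (Finset.disjoint_iff_inter_eq_empty.2 s1)
      refine zeroSol hN _ i k j hik hij hjk.symm _ B' s1 ?_ s3 ?_
      · rw [s2, s4]; exact (Finset.disjoint_iff_inter_eq_empty.2 s1).symm
      · rw [s2, s4]; omega
    · intro B' b1 b2 b3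
      have s1 : A ∩ Z1 = ∅ := by
        ext c; simp only [Finset.mem_inter, Finset.notMem_empty, iff_false]
        rintro ⟨h1, h2⟩; exact (mA c h1).2 (hZ1 h2)
      have s2 : B' j = Z1 := by rw [b2]; exact Finset.inter_eq_right.2 hZ1
      have s3 : B' i = ∅ := by
        rw [b1]; ext c; simp only [Finset.mem_inter, Finset.notMem_empty, iff_false]
        rintro ⟨h1, h2⟩; exact mB c h1 (hZ1 h2)
      have s4 : B' k = A := by
        rw [b3]; exact Finset.sdiff_eq_self_iff_disjoint.2 (Finset.disjoint_iff_inter_eq_empty.2 s1)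
      refine zeroSol hN _ j k i hjk hij.symm hik.symm _ B' s1 ?_ s3 ?_
      · rw [s2, s4]; exact (Finset.disjoint_iff_inter_eq_empty.2 s1).symm
      · rw [s2, s4]; omega
    · intro B' b1 b2 b3
      have dAZ : Disjoint A (Z0 ∪ Z1) :=
        Finset.disjoint_union_right.2 ⟨hAi.mono_right hZ0, hAj.mono_right hZ1⟩
      have s1 : A \ (Z0 ∪ Z1) = A := Finset.sdiff_eq_self_iff_disjoint.2 dAZ
      have s2 : B' i = X' := by
        rw [b1]; ext c
        have e3 : c ∈ B i ↔ c ∈ X' ∨ c ∈ Z0 := by rw [e1]; simp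
        have f1 : c ∈ X' → c ∉ Z0 := fun h => Finset.disjoint_left.1 d1 h
        have f2 : c ∈ B i → c ∉ Z1 := fun h h' => mB c h (hZ1 h')
        simp only [Finset.mem_sdiff, Finset.mem_union]
        exact pure2 e3 f1 f2
      have s3 : B' j = Y' := by
        rw [b2]; ext c
        have e3 : c ∈ B j ↔ c ∈ Y' ∨ c ∈ Z1 := by rw [e2]; simp
        have f1 : c ∈ Y' → c ∉ Z1 := fun h => Finset.disjoint_left.1 d2 h
        have f2 : c ∈ B j → c ∉ Z0 := fun h' h => mB c (hZ0 h) h'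
        simp only [Finset.mem_sdiff, Finset.mem_union]
        exact pure3 e3 f1 f2
      have s4 : B' k = ∅ := by rw [b3]; exact Finset.disjoint_iff_inter_eq_empty.1 dAZ
      have q2 := Finset.card_le_card hX'
      have q3 := Finset.card_le_card hY'
      rw [s1]
      refine ih i j k hij hik hjk A B' ?_ ?_ ?_ s4 hA (by rw [s2]; exact c1) (by rw [s3]; exact c3) ?_
      · rw [s2]; exact hAi.mono_right hX'
      · rw [s3]; exact hAj.mono_right hY'
      · rw [s2, s3]; exact hBij.mono hX' hY'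
      · right; rw [s2, s3]; omega
  | @split w a0 a1 a2 z0 z1 z2 h0 h1 h2 ih0 ih1 ih2 =>
    intro i j k hij hik hjk A B hAi hAj hBij hBk hA hx hy hG
    have hS := (S.split h0 h1 h2).le
    rcases hG with hA0 | hG
    · exact zeroSol hN _ i j k hij hik hjk A B hA0 hBij hBk (by omega)
    have hGc : (A ∪ B i ∪ B j)ᶜ.card = N - (A.card + (B i).card + (B j).card) := by
      rw [Finset.card_compl, Fintype.card_fin, Finset.card_union_of_disjoint
        (Finset.disjoint_union_left.2 ⟨hAj, hBij⟩), Finset.card_union_of_disjoint hAi]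
    obtain ⟨A01, A2, e1, d1, c1, c2⟩ := split2 A (a0 + a1) a2 hA
    obtain ⟨A0, A1, e2, d2, c3, c4⟩ := split2 A01 a0 a1 c1
    obtain ⟨Z0, Z1, e3, d3, c5, c6⟩ := split2 (B i) z0 z1 hx
    have mAe : ∀ c, c ∈ A ↔ (c ∈ A0 ∨ c ∈ A1) ∨ c ∈ A2 := by
      intro c; rw [e1, e2]; simp [or_assoc]
    have mBe : ∀ c, c ∈ B i ↔ c ∈ Z0 ∨ c ∈ Z1 := by intro c; rw [e3]; simp
    have n01 : ∀ c, c ∈ A0 → c ∉ A1 := fun c h => Finset.disjoint_left.1 d2 h
    have n012 : ∀ c, c ∈ A0 ∨ c ∈ A1 → c ∉ A2 := fun c h =>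
      Finset.disjoint_left.1 d1 (by rw [e2]; simpa using h)
    have nz : ∀ c, c ∈ Z0 → c ∉ Z1 := fun c h => Finset.disjoint_left.1 d3 h
    have mA : ∀ c, c ∈ A → c ∉ B i ∧ c ∉ B j := fun c h =>
      ⟨Finset.disjoint_left.1 hAi h, Finset.disjoint_left.1 hAj h⟩
    have mB : ∀ c, c ∈ B i → c ∉ B j := fun c h => Finset.disjoint_left.1 hBij h
    have hC : ∀ c, Cfg (c ∈ A) (c ∈ B i) (c ∈ B j) (c ∈ A0) (c ∈ A1) (c ∈ A2) (c ∈ Z0) (c ∈ Z1) :=
      fun c => ⟨mAe c, mBe c, mA c, mB c, n01 c, n012 c, nz c⟩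
    have dA0Z0 : Disjoint A0 Z0 := by
      rw [Finset.disjoint_left]; intro c h1 h2
      exact (mA c ((mAe c).2 (Or.inl (Or.inl h1)))).1 ((mBe c).2 (Or.inl h2))
    have dA2B : Disjoint A2 (B j) := by
      rw [Finset.disjoint_left]; intro c h1 h2
      exact (mA c ((mAe c).2 (Or.inr h1))).2 h2
    have cA : A.card = A0.card + A1.card + A2.card := by
      rw [e1, Finset.card_union_of_disjoint d1, e2, Finset.card_union_of_disjoint d2]
    have cB : (B i).card = Z0.card + Z1.card := by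
      rw [e3, Finset.card_union_of_disjoint d3]
    have cP : (A0 ∪ Z0).card = A0.card + Z0.card := Finset.card_union_of_disjoint dA0Z0
    have cQ : (A2 ∪ B j).card = A2.card + (B j).card := Finset.card_union_of_disjoint dA2B
    refine weigh3 (i := i) (j := j) (k := k) hik hjk hBk (A0 ∪ Z0) (A2 ∪ B j)
      ?_ ?_ ?_ ?_ ?_ ?_ ?_ ?_
    · rw [Finset.disjoint_left]; intro c h1 h2
      simp only [Finset.mem_union] at h1 h2
      exact (hC c).d1 h1 h2
    · intro c hc
      simp only [Finset.mem_union] at hc ⊢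
      exact (hC c).d2 hc
    · intro c hc
      simp only [Finset.mem_union] at hc ⊢
      exact (hC c).d3 hc
    · omega
    · omega
    · intro B' b1 b2 b3
      have s1 : A ∩ (A0 ∪ Z0) = A0 := by
        ext c; simp only [Finset.mem_inter, Finset.mem_union]; exact (hC c).l1
      have s2 : B' i = Z0 := by
        rw [b1]; ext c; simp only [Finset.mem_inter, Finset.mem_union]; exact (hC c).l2
      have s3 : B' j = ∅ := by
        rw [b2]; ext c
        simp only [Finset.mem_inter, Finset.mem_union, Finset.notMem_empty, iff_false]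
        exact (hC c).l3
      have s4 : B' k = A1 ∪ A2 := by
        rw [b3]; ext c; simp only [Finset.mem_sdiff, Finset.mem_union]; exact (hC c).l4
      have c12 : (A1 ∪ A2).card = A1.card + A2.card := Finset.card_union_of_disjoint (by
        rw [Finset.disjoint_left]; intro c h1; exact n012 c (Or.inr h1))
      rw [s1]
      refine ih0 i k j hik hij hjk.symm A0 B' ?_ ?_ ?_ s3 c3 (by rw [s2]; exact c5)
        (by rw [s4]; omega) ?_
      · rw [s2]; exact dA0Z0
      · rw [s4, Finset.disjoint_left]; intro c h1 h2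
        simp only [Finset.mem_union] at h2; exact (hC c).d4 h1 h2
      · rw [s2, s4, Finset.disjoint_left]; intro c h1 h2
        simp only [Finset.mem_union] at h2; exact (hC c).d5 h1 h2
      · right; rw [s2, s4, c12]; omega
    · intro B' b1 b2 b3
      have s1 : A ∩ (A2 ∪ B j) = A2 := by
        ext c; simp only [Finset.mem_inter, Finset.mem_union]; exact (hC c).r1
      have s2 : B' j = B j := by
        rw [b2]; ext c; simp only [Finset.mem_inter, Finset.mem_union]; exact (hC c).r2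
      have s3 : B' i = ∅ := by
        rw [b1]; ext c
        simp only [Finset.mem_inter, Finset.mem_union, Finset.notMem_empty, iff_false]
        exact (hC c).r3
      have s4 : B' k = A0 ∪ A1 := by
        rw [b3]; ext c; simp only [Finset.mem_sdiff, Finset.mem_union]; exact (hC c).r4
      have c01 : (A0 ∪ A1).card = A0.card + A1.card := Finset.card_union_of_disjoint d2
      rw [s1]
      refine ih2 j k i hjk hij.symm hik.symm A2 B' ?_ ?_ ?_ s3 c2 (by rw [s2]; exact hy)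
        (by rw [s4]; omega) ?_
      · rw [s2]; exact dA2B
      · rw [s4, Finset.disjoint_left]; intro c h1 h2
        simp only [Finset.mem_union] at h2; exact (hC c).d6 h1 h2
      · rw [s2, s4, Finset.disjoint_left]; intro c h1 h2
        simp only [Finset.mem_union] at h2; exact (hC c).d7 h1 h2
      · right; rw [s2, s4, c01]; omega
    · intro B' b1 b2 b3
      have s1 : A \ (A0 ∪ Z0 ∪ (A2 ∪ B j)) = A1 := by
        ext c; simp only [Finset.mem_sdiff, Finset.mem_union]; exact (hC c).m1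
      have s2 : B' i = Z1 := by
        rw [b1]; ext c; simp only [Finset.mem_sdiff, Finset.mem_union]; exact (hC c).m2
      have s3 : B' j = ∅ := by
        rw [b2]; ext c
        simp only [Finset.mem_sdiff, Finset.mem_union, Finset.notMem_empty, iff_false]
        exact (hC c).m3
      have s4 : B' k = A0 ∪ A2 := by
        rw [b3]; ext c; simp only [Finset.mem_inter, Finset.mem_union]; exact (hC c).m4
      have c02 : (A0 ∪ A2).card = A0.card + A2.card := Finset.card_union_of_disjoint (by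
        rw [Finset.disjoint_left]; intro c h1; exact n012 c (Or.inl h1))
      rw [s1]
      refine ih1 i k j hik hij hjk.symm A1 B' ?_ ?_ ?_ s3 c4 (by rw [s2]; exact c6)
        (by rw [s4]; omega) ?_
      · rw [s2, Finset.disjoint_left]; intro c h1 h2
        exact (hC c).d8 h1 h2
      · rw [s4, Finset.disjoint_left]; intro c h1 h2
        simp only [Finset.mem_union] at h2; exact (hC c).d9 h1 h2
      · rw [s2, s4, Finset.disjoint_left]; intro c h1 h2
        simp only [Finset.mem_union] at h2; exact (hC c).d10 h1 h2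
      · right; rw [s2, s4, c02]; omega

end Pool.Agent.R89.Coin
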