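import Pool.Agent.R89.Coin.Defs

/-!
# Two-type positions of the game with three scales (MP_a3b474_co)

`S w a x y` : `a` coins are possible with every broken scale, `x` coins only if the scale `i` is
broken, `y` coins only if the scale `j ≠ i` is broken, no coin only with the third scale `k` broken;
such a position can be solved with `w` weighings by weighing on the scale `k` only in such a way
that at most two types are present after the weighing.
-/

namespace Pool.Agent.R89.Coin

inductive S : ℕ → ℕ → ℕ → ℕ → Prop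
  | base : S 0 1 0 0
  | zero {w x y : ℕ} (h : x + y ≤ 3 ^ w) : S w 0 x y
  | mono {w a x y a' x' y' : ℕ} (h : S w a x y) (ha : a' ≤ a) (hx : x' ≤ x) (hy : y' ≤ y) :
      S w a' x' y'
  | symm {w a x y : ℕ} (h : S w a x y) : S w a y x
  | caseA1 {w a x y z0 z1 : ℕ} (h : S w a x y) (h0 : z0 + a ≤ 3 ^ w) (h1 : z1 + a ≤ 3 ^ w) :
      S (w + 1) a (x + z0 + z1) y
  | caseA2 {w a x y z0 z1 : ℕ} (h : S w a x y) (h0 : z0 + a ≤ 3 ^ w) (h1 : z1 + a ≤ 3 ^ w) :
      S (w + 1) a (x + z0) (y + z1)
  | split {w a0 a1 a2 z0 z1 z2 : ℕ} (h0 : S w a0 z0 (a1 + a2)) (h1 : S w a1 z1 (a0 + a2))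
      (h2 : S w a2 z2 (a0 + a1)) : S (w + 1) (a0 + a1 + a2) (z0 + z1) z2

end Pool.Agent.R89.Coin
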