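import Pool.Agent.R89.Coin.State

/-! Generated table of solvable positions (MP_a3b474_co). -/

namespace Pool.Agent.R89.Coin

theorem S.m {w a x y x' y' : ℕ} (h : S w a x y) (hx : x' ≤ x) (hy : y' ≤ y) : S w a x' y' :=
  h.mono le_rfl hx hy

theorem S.n {w a x y x' y' : ℕ} (h : S w a x y) (hx : x' ≤ y) (hy : y' ≤ x) : S w a x' y' :=
  h.symm.mono le_rfl hx hy

theorem t0_1_0_0 : S 0 1 0 0 := S.base

theorem t1_1_0_0 : S 1 1 0 0 :=
  S.caseA1 (w := 0) (a := 1) (x := 0) (y := 0) (z0 := 0) (z1 := 0) t0_1_0_0 (by decide) (by decide)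

theorem t2_1_4_0 : S 2 1 4 0 :=
  S.caseA1 (w := 1) (a := 1) (x := 0) (y := 0) (z0 := 2) (z1 := 2) t1_1_0_0 (by decide) (by decide)

theorem t3_1_20_0 : S 3 1 20 0 :=
  S.caseA1 (w := 2) (a := 1) (x := 4) (y := 0) (z0 := 8) (z1 := 8) t2_1_4_0 (by decide) (by decide)

theorem t4_1_52_20 : S 4 1 52 20 :=
  S.caseA1 (w := 3) (a := 1) (x := 0) (y := 20) (z0 := 26) (z1 := 26) (t3_1_20_0.n (by decide) (by decide)) (by decide) (by decide)

theorem t5_1_212_20 : S 5 1 212 20 :=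
  S.caseA1 (w := 4) (a := 1) (x := 52) (y := 20) (z0 := 80) (z1 := 80) t4_1_52_20 (by decide) (by decide)

theorem t3_1_16_4 : S 3 1 16 4 :=
  S.caseA1 (w := 2) (a := 1) (x := 0) (y := 4) (z0 := 8) (z1 := 8) (t2_1_4_0.n (by decide) (by decide)) (by decide) (by decide)

theorem t4_1_42_30 : S 4 1 42 30 :=
  S.caseA2 (w := 3) (a := 1) (x := 16) (y := 4) (z0 := 26) (z1 := 26) t3_1_16_4 (by decide) (by decide)

theorem t5_1_190_42 : S 5 1 190 42 :=
  S.caseA1 (w := 4) (a := 1) (x := 30) (y := 42) (z0 := 80) (z1 := 80) (t4_1_42_30.n (by decide) (by decide)) (by decide) (by decide)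

theorem t3_1_12_8 : S 3 1 12 8 :=
  S.caseA2 (w := 2) (a := 1) (x := 4) (y := 0) (z0 := 8) (z1 := 8) t2_1_4_0 (by decide) (by decide)

theorem t4_1_64_8 : S 4 1 64 8 :=
  S.caseA1 (w := 3) (a := 1) (x := 12) (y := 8) (z0 := 26) (z1 := 26) t3_1_12_8 (by decide) (by decide)

theorem t5_1_168_64 : S 5 1 168 64 :=
  S.caseA1 (w := 4) (a := 1) (x := 8) (y := 64) (z0 := 80) (z1 := 80) (t4_1_64_8.n (by decide) (by decide)) (by decide) (by decide)

theorem t4_1_68_4 : S 4 1 68 4 :=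
  S.caseA1 (w := 3) (a := 1) (x := 16) (y := 4) (z0 := 26) (z1 := 26) t3_1_16_4 (by decide) (by decide)

theorem t5_1_148_84 : S 5 1 148 84 :=
  S.symm (S.caseA2 (w := 4) (a := 1) (x := 4) (y := 68) (z0 := 80) (z1 := 80) (t4_1_68_4.n (by decide) (by decide)) (by decide) (by decide))

theorem t4_1_46_26 : S 4 1 46 26 :=
  S.symm (S.caseA2 (w := 3) (a := 1) (x := 0) (y := 20) (z0 := 26) (z1 := 26) (t3_1_20_0.n (by decide) (by decide)) (by decide) (by decide))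

theorem t5_1_126_106 : S 5 1 126 106 :=
  S.symm (S.caseA2 (w := 4) (a := 1) (x := 26) (y := 46) (z0 := 80) (z1 := 80) (t4_1_46_26.n (by decide) (by decide)) (by decide) (by decide))

theorem t2_1_2_2 : S 2 1 2 2 :=
  S.caseA2 (w := 1) (a := 1) (x := 0) (y := 0) (z0 := 2) (z1 := 2) t1_1_0_0 (by decide) (by decide)

theorem t3_1_10_10 : S 3 1 10 10 :=
  S.caseA2 (w := 2) (a := 1) (x := 2) (y := 2) (z0 := 8) (z1 := 8) t2_1_2_2 (by decide) (by decide)

theorem t4_1_62_10 : S 4 1 62 10 :=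
  S.caseA1 (w := 3) (a := 1) (x := 10) (y := 10) (z0 := 26) (z1 := 26) t3_1_10_10 (by decide) (by decide)

theorem t5_1_170_62 : S 5 1 170 62 :=
  S.caseA1 (w := 4) (a := 1) (x := 10) (y := 62) (z0 := 80) (z1 := 80) (t4_1_62_10.n (by decide) (by decide)) (by decide) (by decide)

theorem t4_1_72_0 : S 4 1 72 0 :=
  S.caseA1 (w := 3) (a := 1) (x := 20) (y := 0) (z0 := 26) (z1 := 26) t3_1_20_0 (by decide) (by decide)

theorem t5_1_232_0 : S 5 1 232 0 :=
  S.caseA1 (w := 4) (a := 1) (x := 72) (y := 0) (z0 := 80) (z1 := 80) t4_1_72_0 (by decide) (by decide)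

theorem t4_1_60_12 : S 4 1 60 12 :=
  S.caseA1 (w := 3) (a := 1) (x := 8) (y := 12) (z0 := 26) (z1 := 26) (t3_1_12_8.n (by decide) (by decide)) (by decide) (by decide)

theorem t5_1_220_12 : S 5 1 220 12 :=
  S.caseA1 (w := 4) (a := 1) (x := 60) (y := 12) (z0 := 80) (z1 := 80) t4_1_60_12 (by decide) (by decide)

theorem t4_1_38_34 : S 4 1 38 34 :=
  S.symm (S.caseA2 (w := 3) (a := 1) (x := 8) (y := 12) (z0 := 26) (z1 := 26) (t3_1_12_8.n (by decide) (by decide)) (by decide) (by decide))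

theorem t5_1_198_34 : S 5 1 198 34 :=
  S.caseA1 (w := 4) (a := 1) (x := 38) (y := 34) (z0 := 80) (z1 := 80) t4_1_38_34 (by decide) (by decide)

theorem t4_1_56_16 : S 4 1 56 16 :=
  S.caseA1 (w := 3) (a := 1) (x := 4) (y := 16) (z0 := 26) (z1 := 26) (t3_1_16_4.n (by decide) (by decide)) (by decide) (by decide)

theorem t5_1_176_56 : S 5 1 176 56 :=
  S.caseA1 (w := 4) (a := 1) (x := 16) (y := 56) (z0 := 80) (z1 := 80) (t4_1_56_16.n (by decide) (by decide)) (by decide) (by decide)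

theorem t5_1_160_72 : S 5 1 160 72 :=
  S.caseA1 (w := 4) (a := 1) (x := 0) (y := 72) (z0 := 80) (z1 := 80) (t4_1_72_0.n (by decide) (by decide)) (by decide) (by decide)

theorem t5_1_140_92 : S 5 1 140 92 :=
  S.symm (S.caseA2 (w := 4) (a := 1) (x := 12) (y := 60) (z0 := 80) (z1 := 80) (t4_1_60_12.n (by decide) (by decide)) (by decide) (by decide))

theorem t5_1_118_114 : S 5 1 118 114 :=
  S.symm (S.caseA2 (w := 4) (a := 1) (x := 34) (y := 38) (z0 := 80) (z1 := 80) (t4_1_38_34.n (by decide) (by decide)) (by decide) (by decide))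

theorem t3_1_18_2 : S 3 1 18 2 :=
  S.caseA1 (w := 2) (a := 1) (x := 2) (y := 2) (z0 := 8) (z1 := 8) t2_1_2_2 (by decide) (by decide)

theorem t4_2_43_18 : S 4 2 43 18 :=
  S.split (w := 3) (a0 := 0) (a1 := 1) (a2 := 1) (z0 := 25) (z1 := 18) (z2 := 18) (S.zero (by decide)) (t3_1_18_2.m (by decide) (by decide)) (t3_1_18_2.m (by decide) (by decide))

theorem t5_2_201_18 : S 5 2 201 18 :=
  S.caseA1 (w := 4) (a := 2) (x := 43) (y := 18) (z0 := 79) (z1 := 79) t4_2_43_18 (by decide) (by decide)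

theorem t4_2_36_25 : S 4 2 36 25 :=
  S.split (w := 3) (a0 := 1) (a1 := 1) (a2 := 0) (z0 := 18) (z1 := 18) (z2 := 25) (t3_1_18_2.m (by decide) (by decide)) (t3_1_18_2.m (by decide) (by decide)) (S.zero (by decide))

theorem t5_2_183_36 : S 5 2 183 36 :=
  S.caseA1 (w := 4) (a := 2) (x := 25) (y := 36) (z0 := 79) (z1 := 79) (t4_2_36_25.n (by decide) (by decide)) (by decide) (by decide)

theorem t3_2_7_4 : S 3 2 7 4 :=
  S.symm (S.split (w := 2) (a0 := 1) (a1 := 1) (a2 := 0) (z0 := 2) (z1 := 2) (z2 := 7) (t2_1_2_2.m (by decide) (by decide)) (t2_1_2_2.m (by decide) (by decide)) (S.zero (by decide)))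

theorem t4_2_57_4 : S 4 2 57 4 :=
  S.caseA1 (w := 3) (a := 2) (x := 7) (y := 4) (z0 := 25) (z1 := 25) t3_2_7_4 (by decide) (by decide)

theorem t5_2_162_57 : S 5 2 162 57 :=
  S.caseA1 (w := 4) (a := 2) (x := 4) (y := 57) (z0 := 79) (z1 := 79) (t4_2_57_4.n (by decide) (by decide)) (by decide) (by decide)

theorem t4_1_70_2 : S 4 1 70 2 :=
  S.caseA1 (w := 3) (a := 1) (x := 18) (y := 2) (z0 := 26) (z1 := 26) t3_1_18_2 (by decide) (by decide)

theorem t5_2_149_70 : S 5 2 149 70 :=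
  S.split (w := 4) (a0 := 0) (a1 := 1) (a2 := 1) (z0 := 79) (z1 := 70) (z2 := 70) (S.zero (by decide)) (t4_1_70_2.m (by decide) (by decide)) (t4_1_70_2.m (by decide) (by decide))

theorem t3_2_9_2 : S 3 2 9 2 :=
  S.split (w := 2) (a0 := 0) (a1 := 1) (a2 := 1) (z0 := 7) (z1 := 2) (z2 := 2) (S.zero (by decide)) (t2_1_2_2.m (by decide) (by decide)) (t2_1_2_2.m (by decide) (by decide))

theorem t4_2_52_9 : S 4 2 52 9 :=
  S.caseA1 (w := 3) (a := 2) (x := 2) (y := 9) (z0 := 25) (z1 := 25) (t3_2_9_2.n (by decide) (by decide)) (by decide) (by decide)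

theorem t5_2_131_88 : S 5 2 131 88 :=
  S.symm (S.caseA2 (w := 4) (a := 2) (x := 9) (y := 52) (z0 := 79) (z1 := 79) (t4_2_52_9.n (by decide) (by decide)) (by decide) (by decide))

theorem t4_2_32_29 : S 4 2 32 29 :=
  S.symm (S.caseA2 (w := 3) (a := 2) (x := 4) (y := 7) (z0 := 25) (z1 := 25) (t3_2_7_4.n (by decide) (by decide)) (by decide) (by decide))

theorem t5_2_111_108 : S 5 2 111 108 :=
  S.symm (S.caseA2 (w := 4) (a := 2) (x := 29) (y := 32) (z0 := 79) (z1 := 79) (t4_2_32_29.n (by decide) (by decide)) (by decide) (by decide))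

theorem t5_2_122_97 : S 5 2 122 97 :=
  S.caseA2 (w := 4) (a := 2) (x := 43) (y := 18) (z0 := 79) (z1 := 79) t4_2_43_18 (by decide) (by decide)

theorem t5_2_140_79 : S 5 2 140 79 :=
  S.split (w := 4) (a0 := 1) (a1 := 1) (a2 := 0) (z0 := 70) (z1 := 70) (z2 := 79) (t4_1_70_2.m (by decide) (by decide)) (t4_1_70_2.m (by decide) (by decide)) (S.zero (by decide))

theorem t4_2_59_2 : S 4 2 59 2 :=
  S.caseA1 (w := 3) (a := 2) (x := 9) (y := 2) (z0 := 25) (z1 := 25) t3_2_9_2 (by decide) (by decide)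

theorem t5_2_160_59 : S 5 2 160 59 :=
  S.caseA1 (w := 4) (a := 2) (x := 2) (y := 59) (z0 := 79) (z1 := 79) (t4_2_59_2.n (by decide) (by decide)) (by decide) (by decide)

theorem t5_2_176_43 : S 5 2 176 43 :=
  S.caseA1 (w := 4) (a := 2) (x := 18) (y := 43) (z0 := 79) (z1 := 79) (t4_2_43_18.n (by decide) (by decide)) (by decide) (by decide)

theorem t5_2_194_25 : S 5 2 194 25 :=
  S.caseA1 (w := 4) (a := 2) (x := 36) (y := 25) (z0 := 79) (z1 := 79) t4_2_36_25 (by decide) (by decide)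

theorem t5_2_215_4 : S 5 2 215 4 :=
  S.caseA1 (w := 4) (a := 2) (x := 57) (y := 4) (z0 := 79) (z1 := 79) t4_2_57_4 (by decide) (by decide)

theorem t5_1_230_2 : S 5 1 230 2 :=
  S.caseA1 (w := 4) (a := 1) (x := 70) (y := 2) (z0 := 80) (z1 := 80) t4_1_70_2 (by decide) (by decide)

theorem t5_2_210_9 : S 5 2 210 9 :=
  S.caseA1 (w := 4) (a := 2) (x := 52) (y := 9) (z0 := 79) (z1 := 79) t4_2_52_9 (by decide) (by decide)

theorem t5_2_190_29 : S 5 2 190 29 :=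
  S.caseA1 (w := 4) (a := 2) (x := 32) (y := 29) (z0 := 79) (z1 := 79) t4_2_32_29 (by decide) (by decide)

theorem t5_2_115_104 : S 5 2 115 104 :=
  S.caseA2 (w := 4) (a := 2) (x := 36) (y := 25) (z0 := 79) (z1 := 79) t4_2_36_25 (by decide) (by decide)

theorem t4_3_36_18 : S 4 3 36 18 :=
  S.split (w := 3) (a0 := 1) (a1 := 1) (a2 := 1) (z0 := 18) (z1 := 18) (z2 := 18) t3_1_18_2 t3_1_18_2 t3_1_18_2

theorem t5_3_192_18 : S 5 3 192 18 :=
  S.caseA1 (w := 4) (a := 3) (x := 36) (y := 18) (z0 := 78) (z1 := 78) t4_3_36_18 (by decide) (by decide)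

theorem t5_3_174_36 : S 5 3 174 36 :=
  S.caseA1 (w := 4) (a := 3) (x := 18) (y := 36) (z0 := 78) (z1 := 78) (t4_3_36_18.n (by decide) (by decide)) (by decide) (by decide)

theorem t3_3_4_2 : S 3 3 4 2 :=
  S.split (w := 2) (a0 := 1) (a1 := 1) (a2 := 1) (z0 := 2) (z1 := 2) (z2 := 2) t2_1_2_2 t2_1_2_2 t2_1_2_2

theorem t4_3_52_2 : S 4 3 52 2 :=
  S.caseA1 (w := 3) (a := 3) (x := 4) (y := 2) (z0 := 24) (z1 := 24) t3_3_4_2 (by decide) (by decide)

theorem t5_3_158_52 : S 5 3 158 52 :=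
  S.caseA1 (w := 4) (a := 3) (x := 2) (y := 52) (z0 := 78) (z1 := 78) (t4_3_52_2.n (by decide) (by decide)) (by decide) (by decide)

theorem t5_3_140_70 : S 5 3 140 70 :=
  S.split (w := 4) (a0 := 1) (a1 := 1) (a2 := 1) (z0 := 70) (z1 := 70) (z2 := 70) t4_1_70_2 t4_1_70_2 t4_1_70_2

theorem t4_3_42_9 : S 4 3 42 9 :=
  S.split (w := 3) (a0 := 0) (a1 := 1) (a2 := 2) (z0 := 24) (z1 := 18) (z2 := 9) (S.zero (by decide)) t3_1_18_2 (t3_2_9_2.m (by decide) (by decide))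

theorem t5_3_120_87 : S 5 3 120 87 :=
  S.symm (S.caseA2 (w := 4) (a := 3) (x := 9) (y := 42) (z0 := 78) (z1 := 78) (t4_3_42_9.n (by decide) (by decide)) (by decide) (by decide))

theorem t4_3_28_26 : S 4 3 28 26 :=
  S.caseA2 (w := 3) (a := 3) (x := 4) (y := 2) (z0 := 24) (z1 := 24) t3_3_4_2 (by decide) (by decide)

theorem t5_3_106_104 : S 5 3 106 104 :=
  S.caseA2 (w := 4) (a := 3) (x := 28) (y := 26) (z0 := 78) (z1 := 78) t4_3_28_26 (by decide) (by decide)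

theorem t5_3_130_80 : S 5 3 130 80 :=
  S.caseA2 (w := 4) (a := 3) (x := 52) (y := 2) (z0 := 78) (z1 := 78) t4_3_52_2 (by decide) (by decide)

theorem t5_3_148_59 : S 5 3 148 59 :=
  S.split (w := 4) (a0 := 0) (a1 := 1) (a2 := 2) (z0 := 78) (z1 := 70) (z2 := 59) (S.zero (by decide)) t4_1_70_2 (t4_2_59_2.m (by decide) (by decide))

theorem t5_3_165_42 : S 5 3 165 42 :=
  S.caseA1 (w := 4) (a := 3) (x := 9) (y := 42) (z0 := 78) (z1 := 78) (t4_3_42_9.n (by decide) (by decide)) (by decide) (by decide)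

theorem t5_3_184_26 : S 5 3 184 26 :=
  S.caseA1 (w := 4) (a := 3) (x := 28) (y := 26) (z0 := 78) (z1 := 78) t4_3_28_26 (by decide) (by decide)

theorem t5_3_208_2 : S 5 3 208 2 :=
  S.caseA1 (w := 4) (a := 3) (x := 52) (y := 2) (z0 := 78) (z1 := 78) t4_3_52_2 (by decide) (by decide)

theorem t5_3_198_9 : S 5 3 198 9 :=
  S.caseA1 (w := 4) (a := 3) (x := 42) (y := 9) (z0 := 78) (z1 := 78) t4_3_42_9 (by decide) (by decide)

theorem t5_3_182_28 : S 5 3 182 28 :=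
  S.caseA1 (w := 4) (a := 3) (x := 26) (y := 28) (z0 := 78) (z1 := 78) (t4_3_28_26.n (by decide) (by decide)) (by decide) (by decide)

theorem t4_4_23_20 : S 4 4 23 20 :=
  S.symm (S.split (w := 3) (a0 := 1) (a1 := 3) (a2 := 0) (z0 := 16) (z1 := 4) (z2 := 23) (t3_1_16_4.m (by decide) (by decide)) (t3_3_4_2.m (by decide) (by decide)) (S.zero (by decide)))

theorem t5_4_177_20 : S 5 4 177 20 :=
  S.caseA1 (w := 4) (a := 4) (x := 23) (y := 20) (z0 := 77) (z1 := 77) t4_4_23_20 (by decide) (by decide)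

theorem t4_4_39_4 : S 4 4 39 4 :=
  S.split (w := 3) (a0 := 0) (a1 := 1) (a2 := 3) (z0 := 23) (z1 := 16) (z2 := 4) (S.zero (by decide)) (t3_1_16_4.m (by decide) (by decide)) (t3_3_4_2.m (by decide) (by decide))

theorem t5_4_158_39 : S 5 4 158 39 :=
  S.caseA1 (w := 4) (a := 4) (x := 4) (y := 39) (z0 := 77) (z1 := 77) (t4_4_39_4.n (by decide) (by decide)) (by decide) (by decide)

theorem t5_4_136_59 : S 5 4 136 59 :=
  S.split (w := 4) (a0 := 0) (a1 := 2) (a2 := 2) (z0 := 77) (z1 := 59) (z2 := 59) (S.zero (by decide)) t4_2_59_2 t4_2_59_2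

theorem t5_4_116_81 : S 5 4 116 81 :=
  S.symm (S.caseA2 (w := 4) (a := 4) (x := 4) (y := 39) (z0 := 77) (z1 := 77) (t4_4_39_4.n (by decide) (by decide)) (by decide) (by decide))

theorem t4_4_27_16 : S 4 4 27 16 :=
  S.split (w := 3) (a0 := 0) (a1 := 3) (a2 := 1) (z0 := 23) (z1 := 4) (z2 := 16) (S.zero (by decide)) (t3_3_4_2.m (by decide) (by decide)) (t3_1_16_4.m (by decide) (by decide))

theorem t5_4_104_93 : S 5 4 104 93 :=
  S.caseA2 (w := 4) (a := 4) (x := 27) (y := 16) (z0 := 77) (z1 := 77) t4_4_27_16 (by decide) (by decide)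

theorem t5_4_120_77 : S 5 4 120 77 :=
  S.split (w := 4) (a0 := 1) (a1 := 3) (a2 := 0) (z0 := 68) (z1 := 52) (z2 := 77) (t4_1_68_4.m (by decide) (by decide)) (t4_3_52_2.m (by decide) (by decide)) (S.zero (by decide))

theorem t5_4_181_16 : S 5 4 181 16 :=
  S.caseA1 (w := 4) (a := 4) (x := 27) (y := 16) (z0 := 77) (z1 := 77) t4_4_27_16 (by decide) (by decide)

theorem t5_4_193_4 : S 5 4 193 4 :=
  S.caseA1 (w := 4) (a := 4) (x := 39) (y := 4) (z0 := 77) (z1 := 77) t4_4_39_4 (by decide) (by decide)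

theorem t5_1_228_4 : S 5 1 228 4 :=
  S.caseA1 (w := 4) (a := 1) (x := 68) (y := 4) (z0 := 80) (z1 := 80) t4_1_68_4 (by decide) (by decide)

theorem t4_4_32_9 : S 4 4 32 9 :=
  S.split (w := 3) (a0 := 0) (a1 := 2) (a2 := 2) (z0 := 23) (z1 := 9) (z2 := 9) (S.zero (by decide)) t3_2_9_2 t3_2_9_2

theorem t5_4_186_9 : S 5 4 186 9 :=
  S.caseA1 (w := 4) (a := 4) (x := 32) (y := 9) (z0 := 77) (z1 := 77) t4_4_32_9 (by decide) (by decide)

theorem t5_4_170_27 : S 5 4 170 27 :=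
  S.caseA1 (w := 4) (a := 4) (x := 16) (y := 27) (z0 := 77) (z1 := 77) (t4_4_27_16.n (by decide) (by decide)) (by decide) (by decide)

theorem t4_5_22_11 : S 4 5 22 11 :=
  S.symm (S.split (w := 3) (a0 := 2) (a1 := 3) (a2 := 0) (z0 := 7) (z1 := 4) (z2 := 22) (t3_2_7_4.m (by decide) (by decide)) t3_3_4_2 (S.zero (by decide)))

theorem t5_5_163_22 : S 5 5 163 22 :=
  S.caseA1 (w := 4) (a := 5) (x := 11) (y := 22) (z0 := 76) (z1 := 76) (t4_5_22_11.n (by decide) (by decide)) (by decide) (by decide)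

theorem t5_5_144_39 : S 5 5 144 39 :=
  S.split (w := 4) (a0 := 0) (a1 := 1) (a2 := 4) (z0 := 76) (z1 := 68) (z2 := 39) (S.zero (by decide)) t4_1_68_4 (t4_4_39_4.m (by decide) (by decide))

theorem t5_5_128_57 : S 5 5 128 57 :=
  S.split (w := 4) (a0 := 0) (a1 := 3) (a2 := 2) (z0 := 76) (z1 := 52) (z2 := 57) (S.zero (by decide)) t4_3_52_2 (t4_2_57_4.m (by decide) (by decide))

theorem t4_5_32_4 : S 4 5 32 4 :=
  S.split (w := 3) (a0 := 1) (a1 := 1) (a2 := 3) (z0 := 16) (z1 := 16) (z2 := 4) t3_1_16_4 t3_1_16_4 t3_3_4_2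

theorem t5_5_108_80 : S 5 5 108 80 :=
  S.symm (S.caseA2 (w := 4) (a := 5) (x := 4) (y := 32) (z0 := 76) (z1 := 76) (t4_5_32_4.n (by decide) (by decide)) (by decide) (by decide))

theorem t4_5_26_7 : S 4 5 26 7 :=
  S.split (w := 3) (a0 := 0) (a1 := 3) (a2 := 2) (z0 := 22) (z1 := 4) (z2 := 7) (S.zero (by decide)) t3_3_4_2 (t3_2_7_4.m (by decide) (by decide))

theorem t5_5_102_83 : S 5 5 102 83 :=
  S.caseA2 (w := 4) (a := 5) (x := 26) (y := 7) (z0 := 76) (z1 := 76) t4_5_26_7 (by decide) (by decide)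

theorem t5_5_120_68 : S 5 5 120 68 :=
  S.split (w := 4) (a0 := 1) (a1 := 3) (a2 := 1) (z0 := 68) (z1 := 52) (z2 := 68) t4_1_68_4 t4_3_52_2 t4_1_68_4

theorem t5_5_136_52 : S 5 5 136 52 :=
  S.split (w := 4) (a0 := 1) (a1 := 1) (a2 := 3) (z0 := 68) (z1 := 68) (z2 := 52) t4_1_68_4 t4_1_68_4 t4_3_52_2

theorem t5_5_159_26 : S 5 5 159 26 :=
  S.caseA1 (w := 4) (a := 5) (x := 7) (y := 26) (z0 := 76) (z1 := 76) (t4_5_26_7.n (by decide) (by decide)) (by decide) (by decide)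

theorem t5_5_184_4 : S 5 5 184 4 :=
  S.caseA1 (w := 4) (a := 5) (x := 32) (y := 4) (z0 := 76) (z1 := 76) t4_5_32_4 (by decide) (by decide)

theorem t4_5_20_16 : S 4 5 20 16 :=
  S.split (w := 3) (a0 := 1) (a1 := 3) (a2 := 1) (z0 := 16) (z1 := 4) (z2 := 16) t3_1_16_4 t3_3_4_2 t3_1_16_4

theorem t5_5_172_16 : S 5 5 172 16 :=
  S.caseA1 (w := 4) (a := 5) (x := 20) (y := 16) (z0 := 76) (z1 := 76) t4_5_20_16 (by decide) (by decide)

theorem t5_5_156_32 : S 5 5 156 32 :=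
  S.caseA1 (w := 4) (a := 5) (x := 4) (y := 32) (z0 := 76) (z1 := 76) (t4_5_32_4.n (by decide) (by decide)) (by decide) (by decide)

theorem t5_5_96_92 : S 5 5 96 92 :=
  S.symm (S.caseA2 (w := 4) (a := 5) (x := 16) (y := 20) (z0 := 76) (z1 := 76) (t4_5_20_16.n (by decide) (by decide)) (by decide) (by decide))

theorem t4_6_23_2 : S 4 6 23 2 :=
  S.split (w := 3) (a0 := 0) (a1 := 3) (a2 := 3) (z0 := 21) (z1 := 2) (z2 := 2) (S.zero (by decide)) (t3_3_4_2.n (by decide) (by decide)) (t3_3_4_2.n (by decide) (by decide))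

theorem t5_6_152_23 : S 5 6 152 23 :=
  S.caseA1 (w := 4) (a := 6) (x := 2) (y := 23) (z0 := 75) (z1 := 75) (t4_6_23_2.n (by decide) (by decide)) (by decide) (by decide)

theorem t5_6_132_39 : S 5 6 132 39 :=
  S.split (w := 4) (a0 := 0) (a1 := 2) (a2 := 4) (z0 := 75) (z1 := 57) (z2 := 39) (S.zero (by decide)) t4_2_57_4 (t4_4_39_4.m (by decide) (by decide))

theorem t5_6_114_57 : S 5 6 114 57 :=
  S.split (w := 4) (a0 := 0) (a1 := 4) (a2 := 2) (z0 := 75) (z1 := 39) (z2 := 57) (S.zero (by decide)) (t4_4_39_4.m (by decide) (by decide)) t4_2_57_4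

theorem t4_6_21_4 : S 4 6 21 4 :=
  S.symm (S.split (w := 3) (a0 := 3) (a1 := 3) (a2 := 0) (z0 := 2) (z1 := 2) (z2 := 21) (t3_3_4_2.n (by decide) (by decide)) (t3_3_4_2.n (by decide) (by decide)) (S.zero (by decide)))

theorem t5_6_96_79 : S 5 6 96 79 :=
  S.symm (S.caseA2 (w := 4) (a := 6) (x := 4) (y := 21) (z0 := 75) (z1 := 75) (t4_6_21_4.n (by decide) (by decide)) (by decide) (by decide))

theorem t4_3_50_4 : S 4 3 50 4 :=
  S.caseA1 (w := 3) (a := 3) (x := 2) (y := 4) (z0 := 24) (z1 := 24) (t3_3_4_2.n (by decide) (by decide)) (by decide) (by decide)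

theorem t5_6_100_75 : S 5 6 100 75 :=
  S.split (w := 4) (a0 := 3) (a1 := 3) (a2 := 0) (z0 := 50) (z1 := 50) (z2 := 75) (t4_3_50_4.m (by decide) (by decide)) (t4_3_50_4.m (by decide) (by decide)) (S.zero (by decide))

theorem t5_6_125_50 : S 5 6 125 50 :=
  S.split (w := 4) (a0 := 0) (a1 := 3) (a2 := 3) (z0 := 75) (z1 := 50) (z2 := 50) (S.zero (by decide)) (t4_3_50_4.m (by decide) (by decide)) (t4_3_50_4.m (by decide) (by decide))

theorem t5_6_139_32 : S 5 6 139 32 :=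
  S.split (w := 4) (a0 := 0) (a1 := 1) (a2 := 5) (z0 := 75) (z1 := 64) (z2 := 32) (S.zero (by decide)) (t4_1_64_8.m (by decide) (by decide)) (t4_5_32_4.m (by decide) (by decide))

theorem t4_6_12_9 : S 4 6 12 9 :=
  S.symm (S.split (w := 3) (a0 := 2) (a1 := 3) (a2 := 1) (z0 := 7) (z1 := 2) (z2 := 12) t3_2_7_4 (t3_3_4_2.n (by decide) (by decide)) (t3_1_12_8.m (by decide) (by decide)))

theorem t5_6_159_12 : S 5 6 159 12 :=
  S.caseA1 (w := 4) (a := 6) (x := 9) (y := 12) (z0 := 75) (z1 := 75) (t4_6_12_9.n (by decide) (by decide)) (by decide) (by decide)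

theorem t5_6_173_2 : S 5 6 173 2 :=
  S.caseA1 (w := 4) (a := 6) (x := 23) (y := 2) (z0 := 75) (z1 := 75) t4_6_23_2 (by decide) (by decide)

theorem t5_3_206_4 : S 5 3 206 4 :=
  S.caseA1 (w := 4) (a := 3) (x := 50) (y := 4) (z0 := 78) (z1 := 78) t4_3_50_4 (by decide) (by decide)

theorem t5_1_224_8 : S 5 1 224 8 :=
  S.caseA1 (w := 4) (a := 1) (x := 64) (y := 8) (z0 := 80) (z1 := 80) t4_1_64_8 (by decide) (by decide)

theorem t4_6_14_7 : S 4 6 14 7 :=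
  S.split (w := 3) (a0 := 1) (a1 := 3) (a2 := 2) (z0 := 12) (z1 := 2) (z2 := 7) (t3_1_12_8.m (by decide) (by decide)) (t3_3_4_2.n (by decide) (by decide)) t3_2_7_4

theorem t5_6_164_7 : S 5 6 164 7 :=
  S.caseA1 (w := 4) (a := 6) (x := 14) (y := 7) (z0 := 75) (z1 := 75) t4_6_14_7 (by decide) (by decide)

theorem t4_7_14_2 : S 4 7 14 2 :=
  S.split (w := 3) (a0 := 1) (a1 := 3) (a2 := 3) (z0 := 12) (z1 := 2) (z2 := 2) (t3_1_12_8.m (by decide) (by decide)) (t3_3_4_2.n (by decide) (by decide)) (t3_3_4_2.n (by decide) (by decide))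

theorem t5_7_150_14 : S 5 7 150 14 :=
  S.caseA1 (w := 4) (a := 7) (x := 2) (y := 14) (z0 := 74) (z1 := 74) (t4_7_14_2.n (by decide) (by decide)) (by decide) (by decide)

theorem t5_7_124_39 : S 5 7 124 39 :=
  S.split (w := 4) (a0 := 0) (a1 := 3) (a2 := 4) (z0 := 74) (z1 := 50) (z2 := 39) (S.zero (by decide)) t4_3_50_4 (t4_4_39_4.m (by decide) (by decide))

theorem t5_7_100_64 : S 5 7 100 64 :=
  S.split (w := 4) (a0 := 3) (a1 := 3) (a2 := 1) (z0 := 50) (z1 := 50) (z2 := 64) t4_3_50_4 t4_3_50_4 (t4_1_64_8.m (by decide) (by decide))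

theorem t5_7_89_74 : S 5 7 89 74 :=
  S.split (w := 4) (a0 := 3) (a1 := 4) (a2 := 0) (z0 := 50) (z1 := 39) (z2 := 74) t4_3_50_4 (t4_4_39_4.m (by decide) (by decide)) (S.zero (by decide))

theorem t5_7_114_50 : S 5 7 114 50 :=
  S.split (w := 4) (a0 := 1) (a1 := 3) (a2 := 3) (z0 := 64) (z1 := 50) (z2 := 50) (t4_1_64_8.m (by decide) (by decide)) t4_3_50_4 t4_3_50_4

theorem t4_2_54_7 : S 4 2 54 7 :=
  S.caseA1 (w := 3) (a := 2) (x := 4) (y := 7) (z0 := 25) (z1 := 25) (t3_2_7_4.n (by decide) (by decide)) (by decide) (by decide)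

theorem t5_7_128_32 : S 5 7 128 32 :=
  S.split (w := 4) (a0 := 0) (a1 := 2) (a2 := 5) (z0 := 74) (z1 := 54) (z2 := 32) (S.zero (by decide)) (t4_2_54_7.m (by decide) (by decide)) (t4_5_32_4.m (by decide) (by decide))

theorem t4_7_12_4 : S 4 7 12 4 :=
  S.symm (S.split (w := 3) (a0 := 3) (a1 := 3) (a2 := 1) (z0 := 2) (z1 := 2) (z2 := 12) (t3_3_4_2.n (by decide) (by decide)) (t3_3_4_2.n (by decide) (by decide)) (t3_1_12_8.m (by decide) (by decide)))

theorem t5_7_152_12 : S 5 7 152 12 :=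
  S.caseA1 (w := 4) (a := 7) (x := 4) (y := 12) (z0 := 74) (z1 := 74) (t4_7_12_4.n (by decide) (by decide)) (by decide) (by decide)

theorem t5_2_212_7 : S 5 2 212 7 :=
  S.caseA1 (w := 4) (a := 2) (x := 54) (y := 7) (z0 := 79) (z1 := 79) t4_2_54_7 (by decide) (by decide)

theorem t5_7_162_2 : S 5 7 162 2 :=
  S.caseA1 (w := 4) (a := 7) (x := 14) (y := 2) (z0 := 74) (z1 := 74) t4_7_14_2 (by decide) (by decide)

theorem t5_7_138_23 : S 5 7 138 23 :=
  S.split (w := 4) (a0 := 0) (a1 := 1) (a2 := 6) (z0 := 74) (z1 := 64) (z2 := 23) (S.zero (by decide)) (t4_1_64_8.m (by decide) (by decide)) (t4_6_23_2.m (by decide) (by decide))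

theorem t5_8_128_23 : S 5 8 128 23 :=
  S.split (w := 4) (a0 := 1) (a1 := 1) (a2 := 6) (z0 := 64) (z1 := 64) (z2 := 23) (t4_1_64_8.m (by decide) (by decide)) (t4_1_64_8.m (by decide) (by decide)) t4_6_23_2

theorem t5_8_105_42 : S 5 8 105 42 :=
  S.split (w := 4) (a0 := 0) (a1 := 5) (a2 := 3) (z0 := 73) (z1 := 32) (z2 := 42) (S.zero (by decide)) (t4_5_32_4.m (by decide) (by decide)) (t4_3_42_9.m (by decide) (by decide))

theorem t5_8_87_64 : S 5 8 87 64 :=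
  S.split (w := 4) (a0 := 0) (a1 := 7) (a2 := 1) (z0 := 73) (z1 := 14) (z2 := 64) (S.zero (by decide)) (t4_7_14_2.m (by decide) (by decide)) (t4_1_64_8.m (by decide) (by decide))

theorem t5_8_112_39 : S 5 8 112 39 :=
  S.split (w := 4) (a0 := 0) (a1 := 4) (a2 := 4) (z0 := 73) (z1 := 39) (z2 := 39) (S.zero (by decide)) t4_4_39_4 t4_4_39_4

theorem t5_8_137_14 : S 5 8 137 14 :=
  S.split (w := 4) (a0 := 0) (a1 := 1) (a2 := 7) (z0 := 73) (z1 := 64) (z2 := 14) (S.zero (by decide)) (t4_1_64_8.m (by decide) (by decide)) (t4_7_14_2.m (by decide) (by decide))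

theorem t5_9_118_21 : S 5 9 118 21 :=
  S.split (w := 4) (a0 := 1) (a1 := 2) (a2 := 6) (z0 := 64) (z1 := 54) (z2 := 21) t4_1_64_8 t4_2_54_7 (t4_6_21_4.m (by decide) (by decide))

theorem t5_9_96_42 : S 5 9 96 42 :=
  S.split (w := 4) (a0 := 1) (a1 := 5) (a2 := 3) (z0 := 64) (z1 := 32) (z2 := 42) t4_1_64_8 t4_5_32_4 (t4_3_42_9.m (by decide) (by decide))

theorem t5_9_72_68 : S 5 9 72 68 :=
  S.symm (S.split (w := 4) (a0 := 2) (a1 := 7) (a2 := 0) (z0 := 54) (z1 := 14) (z2 := 72) t4_2_54_7 t4_7_14_2 (S.zero (by decide)))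

theorem t5_9_86_54 : S 5 9 86 54 :=
  S.split (w := 4) (a0 := 0) (a1 := 7) (a2 := 2) (z0 := 72) (z1 := 14) (z2 := 54) (S.zero (by decide)) t4_7_14_2 t4_2_54_7

theorem t5_9_108_32 : S 5 9 108 32 :=
  S.split (w := 4) (a0 := 2) (a1 := 2) (a2 := 5) (z0 := 54) (z1 := 54) (z2 := 32) t4_2_54_7 t4_2_54_7 t4_5_32_4

theorem t5_9_128_14 : S 5 9 128 14 :=
  S.split (w := 4) (a0 := 1) (a1 := 1) (a2 := 7) (z0 := 64) (z1 := 64) (z2 := 14) t4_1_64_8 t4_1_64_8 t4_7_14_2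

theorem t5_9_78_64 : S 5 9 78 64 :=
  S.split (w := 4) (a0 := 1) (a1 := 7) (a2 := 1) (z0 := 64) (z1 := 14) (z2 := 64) t4_1_64_8 t4_7_14_2 t4_1_64_8

theorem t5_10_104_21 : S 5 10 104 21 :=
  S.split (w := 4) (a0 := 1) (a1 := 3) (a2 := 6) (z0 := 62) (z1 := 42) (z2 := 21) (t4_1_62_10.m (by decide) (by decide)) (t4_3_42_9.m (by decide) (by decide)) t4_6_21_4

theorem t5_10_83_42 : S 5 10 83 42 :=
  S.split (w := 4) (a0 := 0) (a1 := 7) (a2 := 3) (z0 := 71) (z1 := 12) (z2 := 42) (S.zero (by decide)) (t4_7_12_4.m (by decide) (by decide)) (t4_3_42_9.m (by decide) (by decide))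

theorem t5_10_64_62 : S 5 10 64 62 :=
  S.split (w := 4) (a0 := 2) (a1 := 7) (a2 := 1) (z0 := 52) (z1 := 12) (z2 := 62) (t4_2_52_9.m (by decide) (by decide)) (t4_7_12_4.m (by decide) (by decide)) (t4_1_62_10.m (by decide) (by decide))

theorem t5_10_114_12 : S 5 10 114 12 :=
  S.split (w := 4) (a0 := 1) (a1 := 2) (a2 := 7) (z0 := 62) (z1 := 52) (z2 := 12) (t4_1_62_10.m (by decide) (by decide)) (t4_2_52_9.m (by decide) (by decide)) (t4_7_12_4.m (by decide) (by decide))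

theorem t5_1_222_10 : S 5 1 222 10 :=
  S.caseA1 (w := 4) (a := 1) (x := 62) (y := 10) (z0 := 80) (z1 := 80) t4_1_62_10 (by decide) (by decide)

theorem t5_7_160_4 : S 5 7 160 4 :=
  S.caseA1 (w := 4) (a := 7) (x := 12) (y := 4) (z0 := 74) (z1 := 74) t4_7_12_4 (by decide) (by decide)

theorem t5_5_178_7 : S 5 5 178 7 :=
  S.caseA1 (w := 4) (a := 5) (x := 26) (y := 7) (z0 := 76) (z1 := 76) t4_5_26_7 (by decide) (by decide)

theorem t5_10_92_32 : S 5 10 92 32 :=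
  S.split (w := 4) (a0 := 0) (a1 := 6) (a2 := 4) (z0 := 71) (z1 := 21) (z2 := 32) (S.zero (by decide)) t4_6_21_4 (t4_4_32_9.m (by decide) (by decide))

theorem t5_10_71_54 : S 5 10 71 54 :=
  S.symm (S.split (w := 4) (a0 := 3) (a1 := 7) (a2 := 0) (z0 := 42) (z1 := 12) (z2 := 71) (t4_3_42_9.m (by decide) (by decide)) (t4_7_12_4.m (by decide) (by decide)) (S.zero (by decide)))

theorem t5_11_96_14 : S 5 11 96 14 :=
  S.split (w := 4) (a0 := 0) (a1 := 5) (a2 := 6) (z0 := 70) (z1 := 26) (z2 := 14) (S.zero (by decide)) (t4_5_26_7.m (by decide) (by decide)) (t4_6_14_7.m (by decide) (by decide))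

theorem t5_11_82_32 : S 5 11 82 32 :=
  S.split (w := 4) (a0 := 0) (a1 := 7) (a2 := 4) (z0 := 70) (z1 := 12) (z2 := 32) (S.zero (by decide)) t4_7_12_4 (t4_4_32_9.m (by decide) (by decide))

theorem t5_11_62_54 : S 5 11 62 54 :=
  S.symm (S.split (w := 4) (a0 := 3) (a1 := 7) (a2 := 1) (z0 := 42) (z1 := 12) (z2 := 62) (t4_3_42_9.m (by decide) (by decide)) t4_7_12_4 t4_1_62_10)

theorem t5_11_74_42 : S 5 11 74 42 :=
  S.split (w := 4) (a0 := 1) (a1 := 7) (a2 := 3) (z0 := 62) (z1 := 12) (z2 := 42) t4_1_62_10 t4_7_12_4 (t4_3_42_9.m (by decide) (by decide))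

theorem t5_11_88_26 : S 5 11 88 26 :=
  S.split (w := 4) (a0 := 1) (a1 := 5) (a2 := 5) (z0 := 62) (z1 := 26) (z2 := 26) t4_1_62_10 (t4_5_26_7.m (by decide) (by decide)) (t4_5_26_7.m (by decide) (by decide))

theorem t5_11_104_12 : S 5 11 104 12 :=
  S.split (w := 4) (a0 := 1) (a1 := 3) (a2 := 7) (z0 := 62) (z1 := 42) (z2 := 12) t4_1_62_10 (t4_3_42_9.m (by decide) (by decide)) t4_7_12_4

theorem t5_12_86_14 : S 5 12 86 14 :=
  S.split (w := 4) (a0 := 1) (a1 := 5) (a2 := 6) (z0 := 60) (z1 := 26) (z2 := 14) (t4_1_60_12.m (by decide) (by decide)) t4_5_26_7 (t4_6_14_7.m (by decide) (by decide))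

theorem t5_12_68_32 : S 5 12 68 32 :=
  S.split (w := 4) (a0 := 3) (a1 := 5) (a2 := 4) (z0 := 42) (z1 := 26) (z2 := 32) t4_3_42_9 t4_5_26_7 (t4_4_32_9.m (by decide) (by decide))

theorem t5_12_52_43 : S 5 12 52 43 :=
  S.split (w := 4) (a0 := 5) (a1 := 5) (a2 := 2) (z0 := 26) (z1 := 26) (z2 := 43) t4_5_26_7 t4_5_26_7 (t4_2_43_18.m (by decide) (by decide))

theorem t5_12_60_40 : S 5 12 60 40 :=
  S.symm (S.split (w := 4) (a0 := 5) (a1 := 6) (a2 := 1) (z0 := 26) (z1 := 14) (z2 := 60) t4_5_26_7 (t4_6_14_7.m (by decide) (by decide)) (t4_1_60_12.m (by decide) (by decide)))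

theorem t5_12_74_26 : S 5 12 74 26 :=
  S.split (w := 4) (a0 := 1) (a1 := 6) (a2 := 5) (z0 := 60) (z1 := 14) (z2 := 26) (t4_1_60_12.m (by decide) (by decide)) (t4_6_14_7.m (by decide) (by decide)) t4_5_26_7

theorem t5_12_95_4 : S 5 12 95 4 :=
  S.split (w := 4) (a0 := 0) (a1 := 5) (a2 := 7) (z0 := 69) (z1 := 26) (z2 := 4) (S.zero (by decide)) t4_5_26_7 (t4_7_12_4.n (by decide) (by decide))

theorem t5_13_68_18 : S 5 13 68 18 :=
  S.symm (S.split (w := 4) (a0 := 6) (a1 := 7) (a2 := 0) (z0 := 14) (z1 := 4) (z2 := 68) t4_6_14_7 (t4_7_12_4.n (by decide) (by decide)) (S.zero (by decide)))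

theorem t5_13_54_32 : S 5 13 54 32 :=
  S.split (w := 4) (a0 := 4) (a1 := 5) (a2 := 4) (z0 := 32) (z1 := 22) (z2 := 32) t4_4_32_9 (t4_5_22_11.m (by decide) (by decide)) t4_4_32_9

theorem t5_13_46_36 : S 5 13 46 36 :=
  S.split (w := 4) (a0 := 4) (a1 := 6) (a2 := 3) (z0 := 32) (z1 := 14) (z2 := 36) t4_4_32_9 t4_6_14_7 (t4_3_36_18.m (by decide) (by decide))

theorem t5_13_64_22 : S 5 13 64 22 :=
  S.split (w := 4) (a0 := 1) (a1 := 7) (a2 := 5) (z0 := 60) (z1 := 4) (z2 := 22) t4_1_60_12 (t4_7_12_4.n (by decide) (by decide)) (t4_5_22_11.m (by decide) (by decide))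

theorem t5_13_82_4 : S 5 13 82 4 :=
  S.split (w := 4) (a0 := 0) (a1 := 6) (a2 := 7) (z0 := 68) (z1 := 14) (z2 := 4) (S.zero (by decide)) t4_6_14_7 (t4_7_12_4.n (by decide) (by decide))

theorem t5_5_174_11 : S 5 5 174 11 :=
  S.caseA1 (w := 4) (a := 5) (x := 22) (y := 11) (z0 := 76) (z1 := 76) t4_5_22_11 (by decide) (by decide)

theorem t5_14_56_16 : S 5 14 56 16 :=
  S.symm (S.split (w := 4) (a0 := 6) (a1 := 7) (a2 := 1) (z0 := 12) (z1 := 4) (z2 := 56) (t4_6_12_9.m (by decide) (by decide)) (t4_7_12_4.n (by decide) (by decide)) (t4_1_56_16.m (by decide) (by decide)))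

theorem t5_14_44_27 : S 5 14 44 27 :=
  S.split (w := 4) (a0 := 5) (a1 := 5) (a2 := 4) (z0 := 22) (z1 := 22) (z2 := 27) (t4_5_22_11.m (by decide) (by decide)) (t4_5_22_11.m (by decide) (by decide)) (t4_4_27_16.m (by decide) (by decide))

theorem t5_14_60_12 : S 5 14 60 12 :=
  S.split (w := 4) (a0 := 1) (a1 := 7) (a2 := 6) (z0 := 56) (z1 := 4) (z2 := 12) (t4_1_56_16.m (by decide) (by decide)) (t4_7_12_4.n (by decide) (by decide)) (t4_6_12_9.m (by decide) (by decide))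

theorem t5_14_71_4 : S 5 14 71 4 :=
  S.split (w := 4) (a0 := 0) (a1 := 7) (a2 := 7) (z0 := 67) (z1 := 4) (z2 := 4) (S.zero (by decide)) (t4_7_12_4.n (by decide) (by decide)) (t4_7_12_4.n (by decide) (by decide))

theorem t5_1_216_16 : S 5 1 216 16 :=
  S.caseA1 (w := 4) (a := 1) (x := 56) (y := 16) (z0 := 80) (z1 := 80) t4_1_56_16 (by decide) (by decide)

theorem t5_6_162_9 : S 5 6 162 9 :=
  S.caseA1 (w := 4) (a := 6) (x := 12) (y := 9) (z0 := 75) (z1 := 75) t4_6_12_9 (by decide) (by decide)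

theorem t5_14_67_8 : S 5 14 67 8 :=
  S.symm (S.split (w := 4) (a0 := 7) (a1 := 7) (a2 := 0) (z0 := 4) (z1 := 4) (z2 := 67) (t4_7_12_4.n (by decide) (by decide)) (t4_7_12_4.n (by decide) (by decide)) (S.zero (by decide)))

theorem t5_14_49_22 : S 5 14 49 22 :=
  S.split (w := 4) (a0 := 4) (a1 := 5) (a2 := 5) (z0 := 27) (z1 := 22) (z2 := 22) (t4_4_27_16.m (by decide) (by decide)) (t4_5_22_11.m (by decide) (by decide)) (t4_5_22_11.m (by decide) (by decide))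

theorem t5_14_36_34 : S 5 14 36 34 :=
  S.symm (S.split (w := 4) (a0 := 5) (a1 := 6) (a2 := 3) (z0 := 22) (z1 := 12) (z2 := 36) (t4_5_22_11.m (by decide) (by decide)) (t4_6_12_9.m (by decide) (by decide)) (t4_3_36_18.m (by decide) (by decide)))

theorem t5_15_44_22 : S 5 15 44 22 :=
  S.split (w := 4) (a0 := 5) (a1 := 5) (a2 := 5) (z0 := 22) (z1 := 22) (z2 := 22) (t4_5_22_11.m (by decide) (by decide)) (t4_5_22_11.m (by decide) (by decide)) (t4_5_22_11.m (by decide) (by decide))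

theorem t5_15_60_4 : S 5 15 60 4 :=
  S.split (w := 4) (a0 := 1) (a1 := 7) (a2 := 7) (z0 := 56) (z1 := 4) (z2 := 4) (t4_1_56_16.m (by decide) (by decide)) (t4_7_12_4.n (by decide) (by decide)) (t4_7_12_4.n (by decide) (by decide))

theorem t5_15_56_8 : S 5 15 56 8 :=
  S.symm (S.split (w := 4) (a0 := 7) (a1 := 7) (a2 := 1) (z0 := 4) (z1 := 4) (z2 := 56) (t4_7_12_4.n (by decide) (by decide)) (t4_7_12_4.n (by decide) (by decide)) (t4_1_56_16.m (by decide) (by decide)))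

theorem t5_15_34_27 : S 5 15 34 27 :=
  S.split (w := 4) (a0 := 5) (a1 := 6) (a2 := 4) (z0 := 22) (z1 := 12) (z2 := 27) (t4_5_22_11.m (by decide) (by decide)) t4_6_12_9 (t4_4_27_16.m (by decide) (by decide))

theorem t5_16_31_22 : S 5 16 31 22 :=
  S.split (w := 4) (a0 := 4) (a1 := 7) (a2 := 5) (z0 := 27) (z1 := 4) (z2 := 22) (t4_4_27_16.m (by decide) (by decide)) (t4_7_12_4.n (by decide) (by decide)) t4_5_22_11

theorem t5_16_44_9 : S 5 16 44 9 :=
  S.split (w := 4) (a0 := 5) (a1 := 5) (a2 := 6) (z0 := 22) (z1 := 22) (z2 := 9) t4_5_22_11 t4_5_22_11 (t4_6_12_9.n (by decide) (by decide))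

theorem t5_17_24_20 : S 5 17 24 20 :=
  S.split (w := 4) (a0 := 5) (a1 := 7) (a2 := 5) (z0 := 20) (z1 := 4) (z2 := 20) (t4_5_20_16.m (by decide) (by decide)) (t4_7_12_4.n (by decide) (by decide)) (t4_5_20_16.m (by decide) (by decide))

theorem t5_17_40_4 : S 5 17 40 4 :=
  S.split (w := 4) (a0 := 3) (a1 := 7) (a2 := 7) (z0 := 36) (z1 := 4) (z2 := 4) (t4_3_36_18.m (by decide) (by decide)) (t4_7_12_4.n (by decide) (by decide)) (t4_7_12_4.n (by decide) (by decide))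

theorem t5_17_31_9 : S 5 17 31 9 :=
  S.split (w := 4) (a0 := 4) (a1 := 7) (a2 := 6) (z0 := 27) (z1 := 4) (z2 := 9) (t4_4_27_16.m (by decide) (by decide)) (t4_7_12_4.n (by decide) (by decide)) (t4_6_12_9.n (by decide) (by decide))

theorem t5_18_27_8 : S 5 18 27 8 :=
  S.symm (S.split (w := 4) (a0 := 7) (a1 := 7) (a2 := 4) (z0 := 4) (z1 := 4) (z2 := 27) (t4_7_12_4.n (by decide) (by decide)) (t4_7_12_4.n (by decide) (by decide)) (t4_4_27_16.m (by decide) (by decide)))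

theorem t4_1_54_18 : S 4 1 54 18 :=
  S.caseA1 (w := 3) (a := 1) (x := 2) (y := 18) (z0 := 26) (z1 := 26) (t3_1_18_2.n (by decide) (by decide)) (by decide) (by decide)

theorem t5_1_214_18 : S 5 1 214 18 :=
  S.caseA1 (w := 4) (a := 1) (x := 54) (y := 18) (z0 := 80) (z1 := 80) t4_1_54_18 (by decide) (by decide)

theorem t5_13_74_14 : S 5 13 74 14 :=
  S.split (w := 4) (a0 := 1) (a1 := 6) (a2 := 6) (z0 := 60) (z1 := 14) (z2 := 14) t4_1_60_12 t4_6_14_7 t4_6_14_7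

theorem t5_18_31_4 : S 5 18 31 4 :=
  S.split (w := 4) (a0 := 4) (a1 := 7) (a2 := 7) (z0 := 27) (z1 := 4) (z2 := 4) (t4_4_27_16.m (by decide) (by decide)) (t4_7_12_4.n (by decide) (by decide)) (t4_7_12_4.n (by decide) (by decide))

theorem t5_19_24_4 : S 5 19 24 4 :=
  S.split (w := 4) (a0 := 5) (a1 := 7) (a2 := 7) (z0 := 20) (z1 := 4) (z2 := 4) (t4_5_20_16.m (by decide) (by decide)) (t4_7_12_4.n (by decide) (by decide)) (t4_7_12_4.n (by decide) (by decide))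

theorem t5_16_49_4 : S 5 16 49 4 :=
  S.split (w := 4) (a0 := 4) (a1 := 5) (a2 := 7) (z0 := 27) (z1 := 22) (z2 := 4) (t4_4_27_16.m (by decide) (by decide)) t4_5_22_11 (t4_7_12_4.n (by decide) (by decide))

theorem t5_6_157_14 : S 5 6 157 14 :=
  S.caseA1 (w := 4) (a := 6) (x := 7) (y := 14) (z0 := 75) (z1 := 75) (t4_6_14_7.n (by decide) (by decide)) (by decide) (by decide)

theorem t5_21_4_2 : S 5 21 4 2 :=
  S.split (w := 4) (a0 := 7) (a1 := 7) (a2 := 7) (z0 := 2) (z1 := 2) (z2 := 2) (t4_7_14_2.n (by decide) (by decide)) (t4_7_14_2.n (by decide) (by decide)) (t4_7_14_2.n (by decide) (by decide))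

theorem t5_5_168_20 : S 5 5 168 20 :=
  S.caseA1 (w := 4) (a := 5) (x := 16) (y := 20) (z0 := 76) (z1 := 76) (t4_5_20_16.n (by decide) (by decide)) (by decide) (by decide)

theorem t5_17_36_8 : S 5 17 36 8 :=
  S.symm (S.split (w := 4) (a0 := 7) (a1 := 7) (a2 := 3) (z0 := 4) (z1 := 4) (z2 := 36) (t4_7_12_4.n (by decide) (by decide)) (t4_7_12_4.n (by decide) (by decide)) (t4_3_36_18.m (by decide) (by decide)))

theorem t5_6_154_21 : S 5 6 154 21 :=
  S.caseA1 (w := 4) (a := 6) (x := 4) (y := 21) (z0 := 75) (z1 := 75) (t4_6_21_4.n (by decide) (by decide)) (by decide) (by decide)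

theorem t5_1_206_26 : S 5 1 206 26 :=
  S.caseA1 (w := 4) (a := 1) (x := 46) (y := 26) (z0 := 80) (z1 := 80) t4_1_46_26 (by decide) (by decide)

theorem t5_15_49_12 : S 5 15 49 12 :=
  S.split (w := 4) (a0 := 4) (a1 := 5) (a2 := 6) (z0 := 27) (z1 := 22) (z2 := 12) (t4_4_27_16.m (by decide) (by decide)) (t4_5_22_11.m (by decide) (by decide)) t4_6_12_9

theorem t5_19_20_8 : S 5 19 20 8 :=
  S.symm (S.split (w := 4) (a0 := 7) (a1 := 7) (a2 := 5) (z0 := 4) (z1 := 4) (z2 := 20) (t4_7_12_4.n (by decide) (by decide)) (t4_7_12_4.n (by decide) (by decide)) (t4_5_20_16.m (by decide) (by decide)))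

theorem t5_4_174_23 : S 5 4 174 23 :=
  S.caseA1 (w := 4) (a := 4) (x := 20) (y := 23) (z0 := 77) (z1 := 77) (t4_4_23_20.n (by decide) (by decide)) (by decide) (by decide)

theorem t5_20_7_4 : S 5 20 7 4 :=
  S.symm (S.split (w := 4) (a0 := 7) (a1 := 7) (a2 := 6) (z0 := 2) (z1 := 2) (z2 := 7) (t4_7_14_2.n (by decide) (by decide)) (t4_7_14_2.n (by decide) (by decide)) (t4_6_14_7.n (by decide) (by decide)))

theorem t5_18_24_9 : S 5 18 24 9 :=
  S.split (w := 4) (a0 := 5) (a1 := 7) (a2 := 6) (z0 := 20) (z1 := 4) (z2 := 9) (t4_5_20_16.m (by decide) (by decide)) (t4_7_12_4.n (by decide) (by decide)) (t4_6_12_9.n (by decide) (by decide))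

theorem t4_1_44_28 : S 4 1 44 28 :=
  S.symm (S.caseA2 (w := 3) (a := 1) (x := 2) (y := 18) (z0 := 26) (z1 := 26) (t3_1_18_2.n (by decide) (by decide)) (by decide) (by decide))

theorem t5_1_204_28 : S 5 1 204 28 :=
  S.caseA1 (w := 4) (a := 1) (x := 44) (y := 28) (z0 := 80) (z1 := 80) t4_1_44_28 (by decide) (by decide)

theorem t5_18_20_13 : S 5 18 20 13 :=
  S.symm (S.split (w := 4) (a0 := 6) (a1 := 7) (a2 := 5) (z0 := 9) (z1 := 4) (z2 := 20) (t4_6_12_9.n (by decide) (by decide)) (t4_7_12_4.n (by decide) (by decide)) (t4_5_20_16.m (by decide) (by decide)))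

theorem t5_16_36_13 : S 5 16 36 13 :=
  S.symm (S.split (w := 4) (a0 := 6) (a1 := 7) (a2 := 3) (z0 := 9) (z1 := 4) (z2 := 36) (t4_6_12_9.n (by decide) (by decide)) (t4_7_12_4.n (by decide) (by decide)) (t4_3_36_18.m (by decide) (by decide)))

theorem t5_20_9_2 : S 5 20 9 2 :=
  S.split (w := 4) (a0 := 6) (a1 := 7) (a2 := 7) (z0 := 7) (z1 := 2) (z2 := 2) (t4_6_14_7.n (by decide) (by decide)) (t4_7_14_2.n (by decide) (by decide)) (t4_7_14_2.n (by decide) (by decide))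

theorem t5_17_27_13 : S 5 17 27 13 :=
  S.symm (S.split (w := 4) (a0 := 6) (a1 := 7) (a2 := 4) (z0 := 9) (z1 := 4) (z2 := 27) (t4_6_12_9.n (by decide) (by decide)) (t4_7_12_4.n (by decide) (by decide)) (t4_4_27_16.m (by decide) (by decide)))

theorem t5_1_202_30 : S 5 1 202 30 :=
  S.caseA1 (w := 4) (a := 1) (x := 42) (y := 30) (z0 := 80) (z1 := 80) t4_1_42_30 (by decide) (by decide)

theorem t5_10_97_26 : S 5 10 97 26 :=
  S.split (w := 4) (a0 := 0) (a1 := 5) (a2 := 5) (z0 := 71) (z1 := 26) (z2 := 26) (S.zero (by decide)) (t4_5_26_7.m (by decide) (by decide)) (t4_5_26_7.m (by decide) (by decide))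

theorem t5_8_118_32 : S 5 8 118 32 :=
  S.split (w := 4) (a0 := 1) (a1 := 2) (a2 := 5) (z0 := 64) (z1 := 54) (z2 := 32) (t4_1_64_8.m (by decide) (by decide)) (t4_2_54_7.m (by decide) (by decide)) (t4_5_32_4.m (by decide) (by decide))

theorem t5_4_163_32 : S 5 4 163 32 :=
  S.caseA1 (w := 4) (a := 4) (x := 9) (y := 32) (z0 := 77) (z1 := 77) (t4_4_32_9.n (by decide) (by decide)) (by decide) (by decide)

theorem t4_1_36_36 : S 4 1 36 36 :=
  S.caseA2 (w := 3) (a := 1) (x := 10) (y := 10) (z0 := 26) (z1 := 26) t3_1_10_10 (by decide) (by decide)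

theorem t5_1_196_36 : S 5 1 196 36 :=
  S.caseA1 (w := 4) (a := 1) (x := 36) (y := 36) (z0 := 80) (z1 := 80) t4_1_36_36 (by decide) (by decide)

theorem t5_13_60_28 : S 5 13 60 28 :=
  S.symm (S.split (w := 4) (a0 := 6) (a1 := 6) (a2 := 1) (z0 := 14) (z1 := 14) (z2 := 60) t4_6_14_7 t4_6_14_7 t4_1_60_12)

theorem t5_12_69_30 : S 5 12 69 30 :=
  S.symm (S.split (w := 4) (a0 := 5) (a1 := 7) (a2 := 0) (z0 := 26) (z1 := 4) (z2 := 69) t4_5_26_7 (t4_7_12_4.n (by decide) (by decide)) (S.zero (by decide)))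

theorem t5_16_27_26 : S 5 16 27 26 :=
  S.symm (S.split (w := 4) (a0 := 5) (a1 := 7) (a2 := 4) (z0 := 22) (z1 := 4) (z2 := 27) t4_5_22_11 (t4_7_12_4.n (by decide) (by decide)) (t4_4_27_16.m (by decide) (by decide)))

theorem t5_2_217_2 : S 5 2 217 2 :=
  S.caseA1 (w := 4) (a := 2) (x := 59) (y := 2) (z0 := 79) (z1 := 79) t4_2_59_2 (by decide) (by decide)

theorem t5_6_171_4 : S 5 6 171 4 :=
  S.caseA1 (w := 4) (a := 6) (x := 21) (y := 4) (z0 := 75) (z1 := 75) t4_6_21_4 (by decide) (by decide)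

end Pool.Agent.R89.Coin
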